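import Pool.Agent.TIFT.VF1
import Pool.Agent.TIFT.VE2
import Pool.Agent.TIFT.T4
import Pool.Agent.TIFT.K5
import Pool.Agent.TIFT.K3
import Pool.Agent.TIFT.D2
import Pool.Agent.TIFT.R

/-!
# [TIF] block PIG: the cube function
-/

set_option autoImplicit false
set_option linter.unusedSectionVars false

open Polynomial IsLocalRing

namespace Pool.Agent.TIFT

open GT TIF

section

variable {d : ℕ} [NeZero d] {κ : Type} [Field κ] {T : Tab κ d}

/-- lists for which the cube function makes sense -/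
structure Tri (X Y Z : List (Pt T)) : Prop where
  lx : gp T ≤ X.length
  ly : gp T ≤ Y.length
  lz : gp T ≤ Z.length
  x : Dl X ≠ 0
  y : Dl Y ≠ 0
  z : Dl Z ≠ 0
  xy : Dl (X ++ Y) ≠ 0
  yz : Dl (Y ++ Z) ≠ 0
  xz : Dl (X ++ Z) ≠ 0

theorem cube_swap12 (X Y Z : List (Pt T)) : cube Y X Z = cube X Y Z := by
  have h1 := Dl_swap [] Y X Z
  have h2 := Dl_comm Y X
  rw [List.nil_append, List.nil_append] at h1
  have hs : ((-1 : κ)) ^ (Y.length * X.length) ≠ 0 := pow_ne_zero _ (neg_ne_zero.2 one_ne_zero)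
  rw [cube, cube, h1, h2]
  have e1 : (-1 : κ) ^ (Y.length * X.length) * Dl (X ++ Y ++ Z) * Dl Y * Dl X * Dl Z =
      (-1 : κ) ^ (Y.length * X.length) * (Dl (X ++ Y ++ Z) * Dl X * Dl Y * Dl Z) := by ring
  have e2 : (-1 : κ) ^ (Y.length * X.length) * Dl (X ++ Y) * Dl (X ++ Z) * Dl (Y ++ Z) =
      (-1 : κ) ^ (Y.length * X.length) * (Dl (X ++ Y) * Dl (Y ++ Z) * Dl (X ++ Z)) := by ring
  rw [e1, e2, mul_div_mul_left _ _ hs]

theorem cube_swap23 (X Y Z : List (Pt T)) : cube X Z Y = cube X Y Z := by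
  have h1 := Dl_swap X Z Y []
  have h2 := Dl_comm Z Y
  rw [List.append_nil, List.append_nil] at h1
  have hs : ((-1 : κ)) ^ (Z.length * Y.length) ≠ 0 := pow_ne_zero _ (neg_ne_zero.2 one_ne_zero)
  rw [cube, cube, h1, h2]
  have e1 : (-1 : κ) ^ (Z.length * Y.length) * Dl (X ++ Y ++ Z) * Dl X * Dl Z * Dl Y =
      (-1 : κ) ^ (Z.length * Y.length) * (Dl (X ++ Y ++ Z) * Dl X * Dl Y * Dl Z) := by ring
  have e2 : Dl (X ++ Z) * ((-1 : κ) ^ (Z.length * Y.length) * Dl (Y ++ Z)) * Dl (X ++ Y) =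
      (-1 : κ) ^ (Z.length * Y.length) * (Dl (X ++ Y) * Dl (Y ++ Z) * Dl (X ++ Z)) := by ring
  rw [e1, e2, mul_div_mul_left _ _ hs]

theorem Tri.swap12 {X Y Z : List (Pt T)} (h : Tri X Y Z) : Tri Y X Z :=
  ⟨h.ly, h.lx, h.lz, h.y, h.x, h.z, by
    rw [Dl_comm]; exact mul_ne_zero (pow_ne_zero _ (neg_ne_zero.2 one_ne_zero)) h.xy, h.xz, h.yz⟩

theorem Tri.swap23 {X Y Z : List (Pt T)} (h : Tri X Y Z) : Tri X Z Y :=
  ⟨h.lx, h.lz, h.ly, h.x, h.z, h.y, h.xz, by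
    rw [Dl_comm]; exact mul_ne_zero (pow_ne_zero _ (neg_ne_zero.2 one_ne_zero)) h.yz, h.xy⟩

end

section

variable {d : ℕ} [NeZero d] {κ : Type} [Field κ] [IsAlgClosed κ] {T : Tab κ d}
  [IsDedekindDomain (WB T)]

theorem ev_ne_of_dI {u : WB T} {X Z Y : List (Pt T)} (hu : Ideal.span {u} = dI X * dI Z)
    (h1 : ∀ P ∈ Y, P ∉ X) (h2 : ∀ P ∈ Y, P ∉ Z) : ev u Y ≠ 0 := by
  rw [Ne, ev_eq_zero_iff]
  rintro ⟨P, hP, h0⟩
  have h3 : dI (X ++ Z) ≤ mP P := by
    rw [dI_append, ← hu, Ideal.span_singleton_le_iff_mem]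
    exact h0
  rw [dI_le_mP, List.mem_append] at h3
  exact h3.elim (h1 P hP) (h2 P hP)

theorem disj_of_Dl {X Y : List (Pt T)} (h : Dl (X ++ Y) ≠ 0) : ∀ P ∈ Y, P ∉ X := by
  intro P hP hX
  exact (List.disjoint_of_nodup_append (nodup_of_Dl h)) hX hP

theorem cube_change1 {X X' Y Z : List (Pt T)} (h : Tri X Y Z) (h' : Tri X' Y Z)
    (hc : cl X = cl X') : cube X Y Z = cube X' Y Z := by
  obtain ⟨u, v, W, huv, hu, hv, hW⟩ := exists_Eqv hc (Y ++ Z)
  have hWY : ∀ P ∈ Y, P ∉ W := fun P hP => hW P (List.mem_append_left _ hP)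
  have hWZ : ∀ P ∈ Z, P ∉ W := fun P hP => hW P (List.mem_append_right _ hP)
  have n1 := ev_ne_of_dI hu (disj_of_Dl h.xy) hWY
  have n2 := ev_ne_of_dI hu (disj_of_Dl h.xz) hWZ
  have n3 := ev_ne_of_dI hv (disj_of_Dl h'.xy) hWY
  have n4 := ev_ne_of_dI hv (disj_of_Dl h'.xz) hWZ
  have a1 := Dl_change h.lx h'.lx h.x h'.x huv Y
  have a2 := Dl_change h.lx h'.lx h.x h'.x huv Z
  have a3 := Dl_change h.lx h'.lx h.x h'.x huv (Y ++ Z)
  rw [ev_append, ev_append, ← List.append_assoc, ← List.append_assoc] at a3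
  have d1 := h.x
  have d1' := h'.x
  have d2 := h.xy
  have d2' := h'.xy
  have d3 := h.xz
  have d3' := h'.xz
  have d4 := h.yz
  have b1 : Dl (X ++ Y) = Dl (X' ++ Y) * Dl X * ev u Y / (Dl X' * ev v Y) := by
    rw [eq_div_iff (mul_ne_zero d1' n3), ← a1, mul_assoc]
  have b2 : Dl (X ++ Z) = Dl (X' ++ Z) * Dl X * ev u Z / (Dl X' * ev v Z) := by
    rw [eq_div_iff (mul_ne_zero d1' n4), ← a2, mul_assoc]
  have b3 : Dl (X ++ Y ++ Z) = Dl (X' ++ Y ++ Z) * Dl X * (ev u Y * ev u Z) /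
      (Dl X' * (ev v Y * ev v Z)) := by
    rw [eq_div_iff (mul_ne_zero d1' (mul_ne_zero n3 n4)), ← a3, mul_assoc]
  rw [cube, cube, b1, b2, b3]
  field_simp

theorem Tri.of {X Y Z : List (Pt T)} (lx : gp T ≤ X.length) (ly : gp T ≤ Y.length)
    (lz : gp T ≤ Z.length) (nx : X.Nodup) (ny : Y.Nodup) (nz : Z.Nodup) (dxy : ∀ P ∈ Y, P ∉ X)
    (dyz : ∀ P ∈ Z, P ∉ Y) (dxz : ∀ P ∈ Z, P ∉ X) (x : Ns (cl X)) (y : Ns (cl Y)) (z : Ns (cl Z))
    (xy : Ns (cl X * cl Y)) (yz : Ns (cl Y * cl Z)) (xz : Ns (cl X * cl Z)) : Tri X Y Z where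
  lx := lx
  ly := ly
  lz := lz
  x := (Dl_ne_zero_iff lx).2 ⟨nx, x⟩
  y := (Dl_ne_zero_iff ly).2 ⟨ny, y⟩
  z := (Dl_ne_zero_iff lz).2 ⟨nz, z⟩
  xy := (Dl_ne_zero_iff (by rw [List.length_append]; omega)).2
    ⟨List.Nodup.append nx ny fun P hP hP' => dxy P hP' hP, by rw [cl_append]; exact xy⟩
  yz := (Dl_ne_zero_iff (by rw [List.length_append]; omega)).2
    ⟨List.Nodup.append ny nz fun P hP hP' => dyz P hP' hP, by rw [cl_append]; exact yz⟩
  xz := (Dl_ne_zero_iff (by rw [List.length_append]; omega)).2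
    ⟨List.Nodup.append nx nz fun P hP hP' => dxz P hP' hP, by rw [cl_append]; exact xz⟩

/-- the conditions on the classes -/
structure TrC (x y z : ClassGroup (WB T)) : Prop where
  a : Ns x
  b : Ns y
  c : Ns z
  ab : Ns (x * y)
  bc : Ns (y * z)
  ac : Ns (x * z)

theorem Tri.trC {X Y Z : List (Pt T)} (h : Tri X Y Z) : TrC (cl X) (cl Y) (cl Z) where
  a := ((Dl_ne_zero_iff h.lx).1 h.x).2
  b := ((Dl_ne_zero_iff h.ly).1 h.y).2
  c := ((Dl_ne_zero_iff h.lz).1 h.z).2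
  ab := by
    have := ((Dl_ne_zero_iff (by rw [List.length_append]; have := h.lx; omega)).1 h.xy).2
    rwa [cl_append] at this
  bc := by
    have := ((Dl_ne_zero_iff (by rw [List.length_append]; have := h.ly; omega)).1 h.yz).2
    rwa [cl_append] at this
  ac := by
    have := ((Dl_ne_zero_iff (by rw [List.length_append]; have := h.lx; omega)).1 h.xz).2
    rwa [cl_append] at this

theorem gp_le_nT (T : Tab κ d) : gp T ≤ nT T := by
  rw [nT]; omega

/-- replace all three lists by lists outside a finite set -/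
theorem cube_move {X Y Z : List (Pt T)} (h : Tri X Y Z) {X' Y' Z' : List (Pt T)}
    (hx : cl X' = cl X) (hy : cl Y' = cl Y) (hz : cl Z' = cl Z) (lx : gp T ≤ X'.length)
    (ly : gp T ≤ Y'.length) (lz : gp T ≤ Z'.length) (nx : X'.Nodup) (ny : Y'.Nodup)
    (nz : Z'.Nodup) (ax : ∀ P ∈ X', P ∉ Y ++ Z) (ay : ∀ P ∈ Y', P ∉ X' ++ Z)
    (az : ∀ P ∈ Z', P ∉ X' ++ Y') : Tri X' Y' Z' ∧ cube X Y Z = cube X' Y' Z' := by
  have c := h.trC
  have nX := nodup_of_Dl h.x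
  have nY := nodup_of_Dl h.y
  have nZ := nodup_of_Dl h.z
  have t1 : Tri X' Y Z := Tri.of lx h.ly h.lz nx nY nZ
    (fun P hP hP' => ax P hP' (List.mem_append_left _ hP)) (disj_of_Dl h.yz)
    (fun P hP hP' => ax P hP' (List.mem_append_right _ hP)) (hx ▸ c.a) c.b c.c (hx ▸ c.ab) c.bc
    (hx ▸ c.ac)
  have c1 := t1.trC
  have t2 : Tri X' Y' Z := Tri.of lx ly h.lz nx ny nZ
    (fun P hP hP' => ay P hP (List.mem_append_left _ hP'))
    (fun P hP hP' => ay P hP' (List.mem_append_right _ hP))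
    (fun P hP hP' => ax P hP' (List.mem_append_right _ hP)) c1.a (hy ▸ c1.b) c1.c (hy ▸ c1.ab)
    (hy ▸ c1.bc) c1.ac
  have c2 := t2.trC
  have t3 : Tri X' Y' Z' := Tri.of lx ly lz nx ny nz
    (fun P hP hP' => ay P hP (List.mem_append_left _ hP'))
    (fun P hP hP' => az P hP (List.mem_append_right _ hP'))
    (fun P hP hP' => az P hP (List.mem_append_left _ hP')) c2.a c2.b (hz ▸ c2.c) c2.ab
    (hz ▸ c2.bc) (hz ▸ c2.ac)
  refine ⟨t3, ?_⟩
  rw [cube_change1 h t1 hx.symm, ← cube_swap12, cube_change1 t1.swap12 t2.swap12 hy.symm,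
    cube_swap12, ← cube_swap23, ← cube_swap12, cube_change1 t2.swap23.swap12 t3.swap23.swap12
      hz.symm, cube_swap12, cube_swap23]

theorem cube_congr3 {X Y Z X' Y' Z' : List (Pt T)} (h : Tri X Y Z) (h' : Tri X' Y' Z')
    (hx : cl X = cl X') (hy : cl Y = cl Y') (hz : cl Z = cl Z') : cube X Y Z = cube X' Y' Z' := by
  obtain ⟨S, hS⟩ : ∃ S, S = X ++ Y ++ Z ++ X' ++ Y' ++ Z' := ⟨_, rfl⟩
  obtain ⟨A, nA, aA, cA, lA⟩ := exists_rep (cl X) S le_rfl
  obtain ⟨B, nB, aB, cB, lB⟩ := exists_rep (cl Y) (A ++ S) le_rfl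
  obtain ⟨C, nC, aC, cC, lC⟩ := exists_rep (cl Z) (A ++ B) le_rfl
  have hg := gp_le_nT T
  have h1 := cube_move h cA cB cC (by rw [lA]; exact hg) (by rw [lB]; exact hg)
    (by rw [lC]; exact hg) nA nB nC
    (fun P hP hP' => aA P hP (by
      rw [hS]; simp only [List.mem_append] at hP' ⊢; tauto))
    (fun P hP hP' => aB P hP (by
      rw [hS]; simp only [List.mem_append] at hP' ⊢; tauto)) aC
  have h2 := cube_move h' (cA.trans hx) (cB.trans hy) (cC.trans hz) (by rw [lA]; exact hg)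
    (by rw [lB]; exact hg) (by rw [lC]; exact hg) nA nB nC
    (fun P hP hP' => aA P hP (by
      rw [hS]; simp only [List.mem_append] at hP' ⊢; tauto))
    (fun P hP hP' => aB P hP (by
      rw [hS]; simp only [List.mem_append] at hP' ⊢; tauto)) aC
  rw [h1.2, h2.2]

theorem exists_tri {x y z : ClassGroup (WB T)} (h : TrC x y z) :
    ∃ X Y Z : List (Pt T), Tri X Y Z ∧ cl X = x ∧ cl Y = y ∧ cl Z = z := by
  have hg := gp_le_nT T
  obtain ⟨A, nA, -, cA, lA⟩ := exists_rep x [] le_rfl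
  obtain ⟨B, nB, aB, cB, lB⟩ := exists_rep y A le_rfl
  obtain ⟨C, nC, aC, cC, lC⟩ := exists_rep z (A ++ B) le_rfl
  subst cA cB cC
  exact ⟨A, B, C, Tri.of (by rw [lA]; exact hg) (by rw [lB]; exact hg) (by rw [lC]; exact hg) nA nB nC
    aB (fun P hP hP' => aC P hP (List.mem_append_right _ hP'))
    (fun P hP hP' => aC P hP (List.mem_append_left _ hP')) h.a h.b h.c h.ab h.bc h.ac, rfl, rfl, rfl⟩

open Classical in
/-- the cube function of three classes -/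
noncomputable def cub (x y z : ClassGroup (WB T)) : κ :=
  if H : ∃ (c : κ) (X Y Z : List (Pt T)), c = cube X Y Z ∧ Tri X Y Z ∧ cl X = x ∧ cl Y = y ∧
    cl Z = z then H.choose else 0

theorem cub_eq {X Y Z : List (Pt T)} (h : Tri X Y Z) : cub (cl X) (cl Y) (cl Z) = cube X Y Z := by
  have H : ∃ (c : κ) (X' Y' Z' : List (Pt T)), c = cube X' Y' Z' ∧ Tri X' Y' Z' ∧ cl X' = cl X ∧
      cl Y' = cl Y ∧ cl Z' = cl Z := ⟨_, X, Y, Z, rfl, h, rfl, rfl, rfl⟩
  rw [cub, dif_pos H]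
  obtain ⟨X', Y', Z', h1, h2, h3, h4, h5⟩ := H.choose_spec
  rw [h1]
  exact cube_congr3 h2 h h3 h4 h5

theorem cub_ne {x y z : ClassGroup (WB T)} (h : TrC x y z) (hxyz : Ns (x * y * z)) :
    cub x y z ≠ 0 := by
  have hg := gp_le_nT T
  obtain ⟨A, nA, -, cA, lA⟩ := exists_rep x [] le_rfl
  obtain ⟨B, nB, aB, cB, lB⟩ := exists_rep y A le_rfl
  obtain ⟨C, nC, aC, cC, lC⟩ := exists_rep z (A ++ B) le_rfl
  subst cA cB cC
  have t : Tri A B C := Tri.of (by rw [lA]; exact hg) (by rw [lB]; exact hg)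
    (by rw [lC]; exact hg) nA nB nC
    aB (fun P hP hP' => aC P hP (List.mem_append_right _ hP'))
    (fun P hP hP' => aC P hP (List.mem_append_left _ hP')) h.a h.b h.c h.ab h.bc h.ac
  have t4 : Dl (A ++ B ++ C) ≠ 0 := by
    rw [Dl_ne_zero_iff (by rw [List.length_append, List.length_append, lA]; omega), cl_append,
      cl_append]
    exact ⟨List.Nodup.append (nodup_of_Dl t.xy) nC fun P hP hP' => aC P hP' hP, hxyz⟩
  rw [cub_eq t, cube]
  exact div_ne_zero (mul_ne_zero (mul_ne_zero (mul_ne_zero t4 t.x) t.y) t.z)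
    (mul_ne_zero (mul_ne_zero t.xy t.yz) t.xz)

end

section

variable {k Ω : Type} [Field k] [Field Ω] [Algebra k Ω] [IsAlgClosed Ω] {d : ℕ} [NeZero d]
  {T : Tab Ω d} [IsDedekindDomain (WB T)]

theorem Ns_act (hT : Tk k T) (σ : Ω ≃ₐ[k] Ω) (x : ClassGroup (WB T)) :
    Ns (act hT σ x) ↔ Ns x := by
  rw [Ns, Ns, ← map_inv, act, ← rdc_map, len_map]

theorem Tri.map (hT : Tk k T) (σ : Ω ≃ₐ[k] Ω) {X Y Z : List (Pt T)} (h : Tri X Y Z) :
    Tri (X.map (aP hT σ)) (Y.map (aP hT σ)) (Z.map (aP hT σ)) := by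
  have hs : ∀ X : List (Pt T), Dl X ≠ 0 → Dl (X.map (aP hT σ)) ≠ 0 := by
    intro X hX
    rw [Dl_aP]
    exact (map_ne_zero σ).2 hX
  refine ⟨?_, ?_, ?_, hs _ h.x, hs _ h.y, hs _ h.z, ?_, ?_, ?_⟩
  · rw [List.length_map]; exact h.lx
  · rw [List.length_map]; exact h.ly
  · rw [List.length_map]; exact h.lz
  · rw [← List.map_append]; exact hs _ h.xy
  · rw [← List.map_append]; exact hs _ h.yz
  · rw [← List.map_append]; exact hs _ h.xz

theorem cube_map (hT : Tk k T) (σ : Ω ≃ₐ[k] Ω) (X Y Z : List (Pt T)) :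
    cube (X.map (aP hT σ)) (Y.map (aP hT σ)) (Z.map (aP hT σ)) = σ (cube X Y Z) := by
  rw [cube, cube, ← List.map_append, ← List.map_append, ← List.map_append, ← List.map_append,
    Dl_aP, Dl_aP, Dl_aP, Dl_aP, Dl_aP, Dl_aP, Dl_aP, map_div₀, map_mul, map_mul, map_mul, map_mul,
    map_mul]

theorem cub_act (hT : Tk k T) (σ : Ω ≃ₐ[k] Ω) {x y z : ClassGroup (WB T)} (h : TrC x y z) :
    cub (act hT σ x) (act hT σ y) (act hT σ z) = σ (cub x y z) := by
  obtain ⟨X, Y, Z, t, rfl, rfl, rfl⟩ := exists_tri h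
  rw [cub_eq t, ← cube_map hT, ← cl_aP, ← cl_aP, ← cl_aP, cub_eq (t.map hT σ)]

theorem Cg.symm {V : ValuationSubring Ω} {P Q : Pt T} (h : Cg k V P Q) : Cg k V Q P := by
  intro b hb
  have := h b hb
  rwa [← Valuation.map_neg, neg_sub] at this

theorem Good.app {V : ValuationSubring Ω} {X Y : List (Pt T)} (hX : Good k V X) (hY : Good k V Y)
    (h : ∀ P ∈ Y, ∀ Q ∈ X, ¬ Cg k V P Q) : Good k V (X ++ Y) where
  fin P hP := (List.mem_append.1 hP).elim (hX.fin P) (hY.fin P)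
  dif := List.pairwise_append.2 ⟨hX.dif, hY.dif, fun P hP Q hQ hc => h Q hQ P hP hc.symm⟩

/-- **the cube**: the values of the cube function -/
theorem cub_val (hT : Tk k T) {x y z : ClassGroup (WB T)} (h : TrC x y z)
    (V : ValuationSubring Ω) (hV : ∀ c : k, algebraMap k Ω c ∈ V) :
    V.valuation (cub x y z) * (tV k V (x * y) * tV k V (y * z) * tV k V (x * z)) =
      tV k V (x * y * z) * tV k V x * tV k V y * tV k V z := by
  have hg := gp_le_nT T
  obtain ⟨X, gX, -, rfl, lX⟩ := exists_good hT hV x [] le_rfl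
  obtain ⟨Y, gY, aY, rfl, lY⟩ := exists_good hT hV y X le_rfl
  obtain ⟨Z, gZ, aZ, rfl, lZ⟩ := exists_good hT hV z (X ++ Y) le_rfl
  have gXY := gX.app gY aY
  have gYZ := gY.app gZ fun P hP Q hQ => aZ P hP Q (List.mem_append_right _ hQ)
  have gXZ := gX.app gZ fun P hP Q hQ => aZ P hP Q (List.mem_append_left _ hQ)
  have gXYZ := gXY.app gZ aZ
  have t : Tri X Y Z := Tri.of (by omega) (by omega) (by omega) gX.nodup gY.nodup gZ.nodup
    (fun P hP hP' => (List.disjoint_of_nodup_append gXY.nodup) hP' hP)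
    (fun P hP hP' => (List.disjoint_of_nodup_append gYZ.nodup) hP' hP)
    (fun P hP hP' => (List.disjoint_of_nodup_append gXZ.nodup) hP' hP) h.a h.b h.c h.ab h.bc h.ac
  rw [cub_eq t, cube, ← cl_append, ← cl_append, ← cl_append, ← cl_append, tV_eq hT hV gX (by omega),
    tV_eq hT hV gY (by omega), tV_eq hT hV gZ (by omega),
    tV_eq hT hV gXY (by rw [List.length_append]; omega),
    tV_eq hT hV gYZ (by rw [List.length_append]; omega),
    tV_eq hT hV gXZ (by rw [List.length_append]; omega),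
    tV_eq hT hV gXYZ (by rw [List.length_append]; rw [List.length_append]; omega), ← map_mul,
    ← map_mul, ← map_mul, ← map_mul, ← map_mul, ← map_mul,
    div_mul_cancel₀ _ (mul_ne_zero (mul_ne_zero t.xy t.yz) t.xz)]

end

end Pool.Agent.TIFT
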