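import Mathlib
import Pool.Agent.TIFA.DicDefs
import Pool.Agent.TIFP.Fin2

/-!
# [TIF] block PIG, group part: definitions

`J` is an abelian group with an action of the automorphisms of a universal domain `Ω / k`, with subgroups
`Rt K` (the elements rational over `K`) and the notion of generic points of `A = ρ → J`. The function
`Th V : A → value group of V` is the local theta function, `cc N b` the translation functions.
-/

set_option autoImplicit false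
set_option linter.unusedSectionVars false
set_option linter.unusedVariables false

open IntermediateField Pool.Agent.TIFA

namespace TIFG

section fields

variable (k Ω : Type) [Field k] [Field Ω] [Algebra k Ω]

/-- the algebraic closure of `k` in `Ω` -/
abbrev kb : IntermediateField k Ω := algebraicClosure k Ω

/-- `V` is a valuation ring over the algebraic closure of `k` -/
def Pl (V : ValuationSubring Ω) : Prop := ∀ z ∈ kb k Ω, z ∈ V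

variable {k Ω}

/-- `K` is finitely generated over the algebraic closure of `k`, or smaller -/
def Small (K : IntermediateField k Ω) : Prop :=
  ∃ S : Finset Ω, K ≤ kb k Ω ⊔ adjoin k (S : Set Ω)

end fields

variable {k Ω J : Type} [Field k] [Field Ω] [Algebra k Ω] [AddCommGroup J]
  [DistribMulAction (Ω ≃ₐ[k] Ω) J] {ρ : Type} [Fintype ρ]

variable (k Ω J ρ) in
/-- rational elements and generic points -/
structure Uni where
  /-- the elements of `J` rational over `K` -/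
  Rt : IntermediateField k Ω → AddSubgroup J
  /-- the points of `A = ρ → J` generic over `K` -/
  Gn : IntermediateField k Ω → (ρ → J) → Prop
  rt_mono : ∀ K K' : IntermediateField k Ω, K ≤ K' → Rt K ≤ Rt K'
  rt_inf : ∀ (K K' : IntermediateField k Ω) (x : J), x ∈ Rt K → x ∈ Rt K' → x ∈ Rt (K ⊓ K')
  rt_map : ∀ (σ : Ω ≃ₐ[k] Ω) (K : IntermediateField k Ω) (x : J), x ∈ Rt K →
    σ • x ∈ Rt (K.map (σ : Ω →ₐ[k] Ω))
  rt_fix : ∀ (K : IntermediateField k Ω) (x : J), x ∈ Rt K → ∀ σ ∈ K.fixingSubgroup, σ • x = x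
  rt_fin : ∀ x : J, ∃ S : Finset Ω, x ∈ Rt (adjoin k (S : Set Ω))
  rt_tors : ∀ (x : J) (n : ℕ), (n : k) ≠ 0 → n • x = 0 → x ∈ Rt (kb k Ω)
  gn_anti : ∀ (K K' : IntermediateField k Ω) (x : ρ → J), K ≤ K' → Gn K' x → Gn K x
  gn_map : ∀ (σ : Ω ≃ₐ[k] Ω) (K : IntermediateField k Ω) (x : ρ → J), Gn K x →
    Gn (K.map (σ : Ω →ₐ[k] Ω)) (σ • x)
  gn_hom : ∀ K : IntermediateField k Ω, Small K → kb k Ω ≤ K → ∀ x x' : ρ → J, Gn K x → Gn K x' →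
    ∃ σ ∈ K.fixingSubgroup, σ • x = x'
  gn_add : ∀ (K : IntermediateField k Ω) (x b : ρ → J), kb k Ω ≤ K → Gn K x →
    (∀ i, b i ∈ Rt K) → Gn K (x + b)
  gn_neg : ∀ (K : IntermediateField k Ω) (x : ρ → J), Gn K x → Gn K (-x)
  gn_ex : ∀ K : IntermediateField k Ω, Small K → ∃ x, Gn K x
  gn_iso : ∀ f g : (ρ → J) →+ (ρ → J), (∀ (σ : Ω ≃ₐ[k] Ω) (x : ρ → J), f (σ • x) = σ • f x) →
    (∀ (σ : Ω ≃ₐ[k] Ω) (x : ρ → J), g (σ • x) = σ • g x) →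
    (∃ n : ℕ, (n : k) ≠ 0 ∧ ∀ x, g (f x) = n • x) → ∀ x, Gn (kb k Ω) x → Gn (kb k Ω) (f x)
  gn_reg : ∀ K : IntermediateField k Ω, Small K → ∃ (u : ρ → J) (K₁ : IntermediateField k Ω),
    Gn (kb k Ω ⊔ K) u ∧ K ≤ K₁ ∧ (∀ i, u i ∈ Rt K₁) ∧
      ∀ z ∈ Rt K₁, (∀ σ ∈ K.fixingSubgroup, σ • z = z) → z ∈ Rt K

variable (U : Uni k Ω J ρ)

/-- a function on the generic points which commutes with the automorphisms over the algebraic closure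
of `k` and has no zeros -/
structure Uni.Fnu (f : (ρ → J) → Ω) : Prop where
  ne : ∀ x, U.Gn (kb k Ω) x → f x ≠ 0
  equ : ∀ σ ∈ (kb k Ω).fixingSubgroup, ∀ x, U.Gn (kb k Ω) x → f (σ • x) = σ (f x)

/-- local theta functions and translation functions; `e n` is the pairing on `J[ℓ ^ n]` -/
structure Tht (ℓ : ℕ) (e : ℕ → J → J → Ω) where
  /-- the local theta function -/
  Th : ∀ V : ValuationSubring Ω, (ρ → J) → V.ValueGroup
  /-- the translation function of level `ℓ ^ n` for `b`, `ℓ ^ n b = 0` -/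
  cc : ℕ → (ρ → J) → (ρ → J) → Ω
  /-- the sign of the pairing -/
  sg : ℤ
  ell_ne : (ℓ : k) ≠ 0
  th_ne : ∀ V, Pl k Ω V → ∀ x, U.Gn (kb k Ω) x → Th V x ≠ 0
  th_le : ∀ V, Pl k Ω V → ∀ x, Th V x ≤ 1
  cc_fn : ∀ (n : ℕ) (b : ρ → J), ℓ ^ n • b = 0 → U.Fnu (cc n b)
  cc_val : ∀ (n : ℕ) (b : ρ → J), ℓ ^ n • b = 0 → ∀ V, Pl k Ω V → ∀ x, U.Gn (kb k Ω) x →
    V.valuation (cc n b x) * Th V x ^ ℓ ^ n = Th V (x + b) ^ ℓ ^ n
  sg_eq : sg = 1 ∨ sg = -1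
  cc_com : ∀ (n : ℕ) (b b' : ρ → J), ℓ ^ n • b = 0 → ℓ ^ n • b' = 0 → ∀ x, U.Gn (kb k Ω) x →
    cc n b x * cc n b' (x + b) =
      eA e n b b' ^ sg * (cc n b' x * cc n b (x + b'))

variable {U} {ℓ : ℕ} {e : ℕ → J → J → Ω}

/-- the symmetrised theta function -/
noncomputable def Tht.ThS (H : Tht U ℓ e) (V : ValuationSubring Ω) (x : ρ → J) : V.ValueGroup :=
  H.Th V x * H.Th V (-x)

/-- the pull-back of the symmetrised theta divisor by `a` is `n` times the theta divisor -/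
def Tht.QL (H : Tht U ℓ e) (a : (ρ → J) → (ρ → J)) (n : ℕ) : Prop :=
  ∃ (t : ℕ) (r : (ρ → J) → Ω), 0 < t ∧ U.Fnu r ∧ ∀ V, Pl k Ω V → ∀ x, U.Gn (kb k Ω) x →
    H.ThS V (a x) ^ t = V.valuation (r x) * H.ThS V x ^ (n * t)

variable (U) in
/-- the honest endomorphisms -/
def Uni.Hon : Subring (AddMonoid.End J) where
  carrier := {f | (∀ (σ : Ω ≃ₐ[k] Ω) (x : J), f (σ • x) = σ • f x) ∧
    ∀ (K : IntermediateField k Ω) (x : J), x ∈ U.Rt K → f x ∈ U.Rt K}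
  mul_mem' := by
    rintro f g ⟨h1, h2⟩ ⟨h3, h4⟩
    refine ⟨fun σ x => ?_, fun K x hx => h2 K _ (h4 K x hx)⟩
    change f (g (σ • x)) = σ • f (g x)
    rw [h3, h1]
  one_mem' := ⟨fun σ x => rfl, fun K x hx => hx⟩
  add_mem' := by
    rintro f g ⟨h1, h2⟩ ⟨h3, h4⟩
    refine ⟨fun σ x => ?_, fun K x hx => (U.Rt K).add_mem (h2 K _ hx) (h4 K x hx)⟩
    change f (σ • x) + g (σ • x) = σ • (f x + g x)
    rw [h3, h1, smul_add]
  zero_mem' := ⟨fun σ x => (smul_zero σ).symm, fun K x hx => (U.Rt K).zero_mem⟩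
  neg_mem' := by
    rintro f ⟨h1, h2⟩
    refine ⟨fun σ x => ?_, fun K x hx => (U.Rt K).neg_mem (h2 K _ hx)⟩
    change -f (σ • x) = σ • (-f x)
    rw [h1, smul_neg]

variable [DecidableEq ρ]

/-- `a` is a similitude with multiplier `ℓ ^ (2 m)` -/
def Tht.S (H : Tht U ℓ e) (m : ℕ) (a : Matrix ρ ρ (AddMonoid.End J)) : Prop :=
  EH U.Hon a ∧ (∃ (n : ℕ) (a' : Matrix ρ ρ (AddMonoid.End J)), (n : k) ≠ 0 ∧ EH U.Hon a' ∧
    a' * a = n • 1) ∧ H.QL (act a) (ℓ ^ (2 * m))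

/-- the coordinates of the triple `x, x', x + x'` -/
def trip {D : ℕ} (y : Fin D → (ρ → J) → Ω) (x x' : ρ → J) : Fin (3 * D) → Ω :=
  fun i => y (finProdFinEquiv.symm i).2 (![x, x', x + x'] (finProdFinEquiv.symm i).1)

/-- the function space of the quotient of `A` by a Lagrangian subgroup: `y` are the functions, with poles
on `m₀` times the zero divisor of the section `s`, translated by `c₀` -/
structure LD (H : Tht U ℓ e) (L : Lag ℓ (Ω ≃ₐ[k] Ω) ρ e) (m₀ D N₀ e₀ : ℕ)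
    (y : Fin D → (ρ → J) → Ω) (s : (ρ → J) → Ω) (c₀ : ρ → J) : Prop where
  equ : ∀ j x, U.Gn (kb k Ω) x → ∀ σ : Ω ≃ₐ[k] Ω, y j (σ • x) = σ (y j x)
  hon : ∀ j (K : IntermediateField k Ω) x, U.Gn (kb k Ω) x → (∀ i, x i ∈ U.Rt K) → y j x ∈ K
  inv : ∀ j x t, U.Gn (kb k Ω) x → t ∈ L.D → y j (x + t) = y j x
  sep : ∀ x x', U.Gn (kb k Ω) x → U.Gn (kb k Ω) x' → (∀ j, y j x = y j x') → x' - x ∈ L.D
  rat : ∀ x, U.Gn (kb k Ω) x → ∀ i,
    ℓ ^ (2 * L.c) • x i ∈ U.Rt (adjoin k (Set.range fun j => y j x))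
  hil : ∀ (K : IntermediateField k Ω) (x x' : ρ → J), kb k Ω ≤ K → U.Gn (kb k Ω) x →
    (∀ i, x i ∈ U.Rt K) → U.Gn K x' →
    (N₀ : Cardinal) ≤ Algebra.trdeg k (adjoin k (Set.range (trip y x x'))) ∧
      Pool.Agent.TIFP.hilb k (trip y x x') e₀ < (N₀ + 1 + e₀).choose e₀
  s_fn : U.Fnu s
  s_eig : ∀ t ∈ L.D, ∃ c : Ω, c ≠ 0 ∧ ∀ x, U.Gn (kb k Ω) x →
    H.cc (2 * L.c) t x * s (x + t) = c * s x
  c_tors : ∃ n, ℓ ^ n • c₀ = 0
  val1 : ∀ V, Pl k Ω V → ∀ x, U.Gn (kb k Ω) x → V.valuation (s x) * H.Th V x ^ ℓ ^ (2 * L.c) ≤ 1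
  val : ∀ V, Pl k Ω V → ∀ x, U.Gn (kb k Ω) x →
    (∀ j, V.valuation (y j x) *
      (V.valuation (s (x + c₀)) * H.Th V (x + c₀) ^ ℓ ^ (2 * L.c)) ^ m₀ ≤ 1) ∧
    ∃ j, V.valuation (y j x) *
      (V.valuation (s (x + c₀)) * H.Th V (x + c₀) ^ ℓ ^ (2 * L.c)) ^ m₀ = 1

/-- `f` is bounded by the `m`-th power of the theta divisor, up to a function -/
def Tht.Bdd (H : Tht U ℓ e) (m : ℕ) (f : (ρ → J) → Ω) : Prop :=
  ∃ (t : ℕ) (r : (ρ → J) → Ω), 0 < t ∧ U.Fnu r ∧ ∀ V, Pl k Ω V → ∀ x, U.Gn (kb k Ω) x →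
    V.valuation (f x) ^ t * H.ThS V x ^ (m * t) ≤ V.valuation (r x) ∧
      H.ThS V x ^ (m * t) ≤ V.valuation (r x)

/-- finiteness of the set of functions over `k` with bounded degree -/
def Tht.Nor (H : Tht U ℓ e) : Prop :=
  ∀ m : ℕ, ∃ F : Finset ((ρ → J) → Ω), ∀ f : (ρ → J) → Ω,
    (∀ x, U.Gn (kb k Ω) x → ∀ σ : Ω ≃ₐ[k] Ω, f (σ • x) = σ (f x)) →
    (∀ (K : IntermediateField k Ω) (x : ρ → J), U.Gn (kb k Ω) x → (∀ i, x i ∈ U.Rt K) → f x ∈ K) →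
    H.Bdd m f → ∃ g ∈ F, ∀ x, U.Gn (kb k Ω) x → f x = g x

/-- equal coordinates -/
def R0 (U : Uni k Ω J ρ) {D : ℕ} (y y' : Fin D → (ρ → J) → Ω) (u v : ρ → J) : Prop :=
  U.Gn (kb k Ω) u ∧ U.Gn (kb k Ω) v ∧ ∀ j, y j u = y' j v

/-- the correspondence `R0` extended to all points -/
def RR (U : Uni k Ω J ρ) {D : ℕ} (y y' : Fin D → (ρ → J) → Ω) (x z : ρ → J) : Prop :=
  ∃ (K : IntermediateField k Ω) (u v : ρ → J), Small K ∧ kb k Ω ≤ K ∧ (∀ i, x i ∈ U.Rt K) ∧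
    U.Gn K u ∧ R0 U y y' u v ∧ R0 U y y' (x + u) (z + v)

/-- what the equality of the ideals of relations gives -/
def Pr (U : Uni k Ω J ρ) {D : ℕ} (y y' : Fin D → (ρ → J) → Ω) : Prop :=
  ∃ (w w' v v' : ρ → J) (K : IntermediateField k Ω) (σ : Ω ≃ₐ[k] Ω), Small K ∧ kb k Ω ≤ K ∧
    (∀ i, w i ∈ U.Rt K) ∧ U.Gn (kb k Ω) w ∧ U.Gn K w' ∧ (∀ i, v i ∈ U.Rt K) ∧ U.Gn (kb k Ω) v ∧
    U.Gn K v' ∧ (∀ j, σ (y j w) = y' j v) ∧ (∀ j, σ (y j w') = y' j v') ∧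
    ∀ j, σ (y j (w + w')) = y' j (v + v')

/-- the function `G_b` -/
noncomputable def GG {U : Uni k Ω J ρ} {ℓ : ℕ} {e : ℕ → J → J → Ω} (H : Tht U ℓ e) (s : (ρ → J) → Ω)
    (c₀ : ρ → J) (c m : ℕ) (b u : ρ → J) : Ω :=
  (s (u + c₀ + b) / s (u + c₀)) ^ ℓ ^ m * H.cc (m + 2 * c) b (u + c₀)

end TIFG
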