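import Mathlib
import Pool.Agent.TIFG.Defs

/-!
# [TIF] block PIG, group part, row G1

`A = ρ → J`, `x ∈ A(K)` means `∀ i, x i ∈ U.Rt K`; 'generic' = `U.Gn (kb k Ω)`; `V(·)` = `V.valuation`;
`A_V(x) = V(s x) Th(x)^{ℓ^{2c}}`.
-/

set_option autoImplicit false
set_option linter.unusedSectionVars false
set_option linter.unusedVariables false

open IntermediateField Pool.Agent.TIFA

namespace TIFG

variable {k Ω J : Type} [Field k] [Field Ω] [Algebra k Ω] [IsAlgClosed Ω] [AddCommGroup J]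
  [DistribMulAction (Ω ≃ₐ[k] Ω) J] {ρ : Type} [Fintype ρ] [DecidableEq ρ]
  {U : Uni k Ω J ρ} {ℓ : ℕ} [Fact ℓ.Prime] {e : ℕ → J → J → Ω} {H : Tht U ℓ e}

/-- Put `q = α / β`. If `q` is not algebraic over `k` then it is transcendental over `kb k Ω` (which is
algebraically closed in `Ω`), so `q` is not a unit of the ring `kb[q]`; `Ideal.image_subset_nonunits_valuationSubring`
for `Algebra.adjoin (kb k Ω) {q}` and the ideal `(q)` gives `V ⊇ kb` with `V(q) < 1`, but `V(q) = 1`. -/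
theorem eq_of_val (k : Type) {Ω : Type} [Field k] [Field Ω] [Algebra k Ω] (α β : Ω) (hα : α ≠ 0)
    (hβ : β ≠ 0) (h : ∀ V : ValuationSubring Ω, Pl k Ω V → V.valuation α = V.valuation β) :
    ∃ κ ∈ kb k Ω, κ ≠ 0 ∧ α = κ * β := by
  have hq0 : α / β ≠ 0 := div_ne_zero hα hβ
  by_cases hq : α / β ∈ kb k Ω
  · exact ⟨α / β, hq, hq0, (div_mul_cancel₀ α hβ).symm⟩
  exfalso
  set q : Ω := α / β with hqd
  have htr : ¬ IsAlgebraic (kb k Ω) q := by
    intro hal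
    apply hq
    rw [mem_algebraicClosure_iff]
    have : Algebra.IsAlgebraic k (kb k Ω) := algebraicClosure.isAlgebraic k Ω
    exact hal.restrictScalars k
  set A : Subalgebra (kb k Ω) Ω := Algebra.adjoin (kb k Ω) {q} with hA
  have hqA : q ∈ A.toSubring := Algebra.subset_adjoin rfl
  set qA : A.toSubring := ⟨q, hqA⟩ with hqA'
  have hI : Ideal.span ({qA} : Set A.toSubring) ≠ ⊤ := by
    intro htop
    rw [Ideal.span_singleton_eq_top] at htop
    obtain ⟨r, hr⟩ := htop.exists_right_inv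
    have hrA : ∀ z : Ω, z ∈ A → ∃ P : Polynomial (kb k Ω), Polynomial.aeval q P = z := by
      intro z hz
      rw [hA, Algebra.adjoin_singleton_eq_range_aeval] at hz
      exact hz
    obtain ⟨P, hP⟩ := hrA (r : Ω) r.2
    have h1 : q * (r : Ω) = 1 := congrArg Subtype.val hr
    apply htr
    refine ⟨Polynomial.X * P - 1, ?_, ?_⟩
    · intro h0
      have := congrArg (Polynomial.eval 0) h0
      simp at this
    · have hP' : Polynomial.aeval q P = (r : Ω) := hP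
      rw [map_sub, map_mul, Polynomial.aeval_X, map_one, hP', h1, sub_self]
  obtain ⟨V, hV1, hV2⟩ := Ideal.image_subset_nonunits_valuationSubring _ hI
  have hPl : Pl k Ω V := by
    intro z hz
    exact hV1 (A.algebraMap_mem ⟨z, hz⟩)
  have hlt : V.valuation q < 1 := by
    rw [← ValuationSubring.mem_nonunits_iff]
    exact hV2 ⟨qA, Ideal.mem_span_singleton_self qA, rfl⟩
  have h2 := h V hPl
  have h3 : V.valuation q = 1 := by
    rw [hqd, map_div₀, h2, div_self]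
    exact (Valuation.ne_zero_iff _).2 hβ
  exact absurd h3 (ne_of_lt hlt)

/-- `gn_ex` for `kb` (which is `Small`, `S = ∅`): a generic `x₀`; `κ := f x₀ / g x₀ ∈ kb` by `eq_of_val`. For `x`
generic `gn_hom (kb)` gives `σ` over `kb` with `σ x₀ = x`; apply `σ` (`Fnu.equ`, `σ κ = κ`). -/
theorem fn_eq (f g : (ρ → J) → Ω) (hf : U.Fnu f) (hg : U.Fnu g)
    (h : ∀ V, Pl k Ω V → ∀ x, U.Gn (kb k Ω) x → V.valuation (f x) = V.valuation (g x)) :
    ∃ κ ∈ kb k Ω, κ ≠ 0 ∧ ∀ x, U.Gn (kb k Ω) x → f x = κ * g x := by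
  have hsm : Small (kb k Ω) := ⟨∅, le_sup_left⟩
  obtain ⟨x₀, hx₀⟩ := U.gn_ex (kb k Ω) hsm
  obtain ⟨κ, hκ, hκ0, he⟩ := eq_of_val k (f x₀) (g x₀) (hf.ne x₀ hx₀) (hg.ne x₀ hx₀)
    (fun V hV => h V hV x₀ hx₀)
  refine ⟨κ, hκ, hκ0, fun x hx => ?_⟩
  obtain ⟨σ, hσ, hσx⟩ := U.gn_hom (kb k Ω) hsm le_rfl x₀ x hx₀ hx
  have hσκ : σ κ = κ := hσ ⟨κ, hκ⟩
  rw [← hσx, hf.equ σ hσ x₀ hx₀, hg.equ σ hσ x₀ hx₀, he, map_mul, hσκ]

/-- `fn_eq` for `f = (cc c t ·) ^ ℓ ^ m` and `g = cc (m + c) t`: by `cc_val` both have at `V` the value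
`Th(x + t)^{ℓ^{m+c}} / Th(x)^{ℓ^{m+c}}` (`th_ne`). -/
theorem cc_pow (H : Tht U ℓ e) (c m : ℕ) (t : ρ → J) (ht : ℓ ^ c • t = 0) :
    ∃ κ ∈ kb k Ω, κ ≠ 0 ∧ ∀ x, U.Gn (kb k Ω) x →
      H.cc c t x ^ ℓ ^ m = κ * H.cc (m + c) t x := by
  have ht' : ℓ ^ (m + c) • t = 0 := by
    rw [pow_add, mul_smul, ht, smul_zero]
  have hc := H.cc_fn c t ht
  have hg := H.cc_fn (m + c) t ht'
  have hf : U.Fnu (fun x => H.cc c t x ^ ℓ ^ m) :=
    ⟨fun x hx => pow_ne_zero _ (hc.ne x hx), fun σ hσ x hx => by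
      show H.cc c t (σ • x) ^ ℓ ^ m = σ (H.cc c t x ^ ℓ ^ m)
      rw [hc.equ σ hσ x hx, map_pow]⟩
  refine fn_eq (fun x => H.cc c t x ^ ℓ ^ m) (H.cc (m + c) t) hf hg ?_
  intro V hV x hx
  have h1 := H.cc_val c t ht V hV x hx
  have h2 := H.cc_val (m + c) t ht' V hV x hx
  have h3 : H.Th V x ^ ℓ ^ (m + c) ≠ 0 := pow_ne_zero _ (H.th_ne V hV x hx)
  show V.valuation (H.cc c t x ^ ℓ ^ m) = V.valuation (H.cc (m + c) t x)
  apply mul_right_cancel₀ h3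
  rw [h2, map_pow]
  have h4 := congrArg (fun z => z ^ ℓ ^ m) h1
  simp only [mul_pow, ← pow_mul, ← pow_add] at h4
  rw [show ℓ ^ (m + c) = ℓ ^ (c + m) by rw [add_comm], h4]

end TIFG
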