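import Mathlib
import Pool.Agent.TIFG.G1

/-!
# [TIF] block PIG, group part, row G2

`A = ρ → J`, `x ∈ A(K)` means `∀ i, x i ∈ U.Rt K`; 'generic' = `U.Gn (kb k Ω)`; `V(·)` = `V.valuation`;
`A_V(x) = V(s x) Th(x)^{ℓ^{2c}}`.
-/

set_option autoImplicit false
set_option linter.unusedSectionVars false
set_option linter.unusedVariables false

open IntermediateField Pool.Agent.TIFA

namespace TIFG

variable {k Ω J : Type} [Field k] [Field Ω] [Algebra k Ω] [IsAlgClosed Ω] [AddCommGroup J]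
  [DistribMulAction (Ω ≃ₐ[k] Ω) J] {ρ : Type} [Fintype ρ] [DecidableEq ρ]
  {U : Uni k Ω J ρ} {ℓ : ℕ} [Fact ℓ.Prime] {e : ℕ → J → J → Ω} {H : Tht U ℓ e}

theorem small_kb : Small (kb k Ω) := ⟨∅, le_sup_left⟩

theorem small_adjoin (S : Finset Ω) : Small (adjoin k (S : Set Ω)) := ⟨S, le_sup_right⟩

theorem small_sup {K K' : IntermediateField k Ω} (h : Small K) (h' : Small K') : Small (K ⊔ K') := by
  classical
  obtain ⟨S, hS⟩ := h
  obtain ⟨S', hS'⟩ := h'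
  refine ⟨S ∪ S', sup_le (hS.trans ?_) (hS'.trans ?_)⟩
  · exact sup_le_sup_left (adjoin.mono k _ _ (Finset.coe_subset.2 Finset.subset_union_left)) _
  · exact sup_le_sup_left (adjoin.mono k _ _ (Finset.coe_subset.2 Finset.subset_union_right)) _

theorem small_mono {K K' : IntermediateField k Ω} (h : Small K) (h' : K' ≤ K) : Small K' := by
  obtain ⟨S, hS⟩ := h
  exact ⟨S, h'.trans hS⟩

theorem kb_map (σ : Ω ≃ₐ[k] Ω) : (kb k Ω).map (σ : Ω →ₐ[k] Ω) = kb k Ω := by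
  ext x
  rw [IntermediateField.mem_map]
  constructor
  · rintro ⟨y, hy, rfl⟩
    rw [mem_algebraicClosure_iff] at hy ⊢
    exact hy.algHom (σ : Ω →ₐ[k] Ω)
  · intro hx
    refine ⟨σ.symm x, ?_, ?_⟩
    · rw [mem_algebraicClosure_iff] at hx ⊢
      exact hx.algHom (σ.symm : Ω →ₐ[k] Ω)
    · exact σ.apply_symm_apply x

theorem small_map {K : IntermediateField k Ω} (h : Small K) (σ : Ω ≃ₐ[k] Ω) :
    Small (K.map (σ : Ω →ₐ[k] Ω)) := by
  classical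
  obtain ⟨S, hS⟩ := h
  refine ⟨S.image σ, (IntermediateField.map_mono (σ : Ω →ₐ[k] Ω) hS).trans ?_⟩
  rw [IntermediateField.map_sup, kb_map, IntermediateField.adjoin_map, Finset.coe_image]
  exact le_rfl

theorem kb_le_map {K : IntermediateField k Ω} (h : kb k Ω ≤ K) (σ : Ω ≃ₐ[k] Ω) :
    kb k Ω ≤ K.map (σ : Ω →ₐ[k] Ω) :=
  (kb_map σ).ge.trans (IntermediateField.map_mono (σ : Ω →ₐ[k] Ω) h)

/-- a common field (`rt_fin`) -/
theorem ex_small (U : Uni k Ω J ρ) {ι : Type} [Finite ι] (x : ι → ρ → J) :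
    ∃ K : IntermediateField k Ω, Small K ∧ kb k Ω ≤ K ∧ ∀ i j, x i j ∈ U.Rt K := by
  classical
  have := Fintype.ofFinite ι
  choose S hS using fun p : ι × ρ => U.rt_fin (x p.1 p.2)
  refine ⟨kb k Ω ⊔ adjoin k ((Finset.univ.biUnion S : Finset Ω) : Set Ω), ⟨_, le_rfl⟩, le_sup_left, fun i j => ?_⟩
  refine U.rt_mono _ _ ((adjoin.mono k _ _ ?_).trans le_sup_right) (hS (i, j))
  exact Finset.coe_subset.2 (Finset.subset_biUnion_of_mem S (Finset.mem_univ (i, j)))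

/-- the same, containing a given small field -/
theorem ex_small_ge (U : Uni k Ω J ρ) (F : IntermediateField k Ω) (hF : Small F) {ι : Type} [Finite ι]
    (x : ι → ρ → J) :
    ∃ K : IntermediateField k Ω, Small K ∧ kb k Ω ≤ K ∧ F ≤ K ∧ ∀ i j, x i j ∈ U.Rt K := by
  obtain ⟨K, h1, h2, h3⟩ := ex_small U x
  exact ⟨K ⊔ F, small_sup h1 hF, h2.trans le_sup_left, le_sup_right, fun i j => U.rt_mono _ _ le_sup_left (h3 i j)⟩

/-- `rt_tors` and `ell_ne` -/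
theorem tors_rt (H : Tht U ℓ e) {n : ℕ} {t : ρ → J} (h : ℓ ^ n • t = 0) (i : ρ) :
    t i ∈ U.Rt (kb k Ω) := by
  refine U.rt_tors (t i) (ℓ ^ n) ?_ (congrFun h i)
  rw [Nat.cast_pow]
  exact pow_ne_zero _ H.ell_ne

theorem gn_tors (H : Tht U ℓ e) {n : ℕ} {t x : ρ → J} (h : ℓ ^ n • t = 0) (hx : U.Gn (kb k Ω) x) :
    U.Gn (kb k Ω) (x + t) :=
  U.gn_add _ x t le_rfl hx (tors_rt H h)

/-- torsion points are fixed by the automorphisms over `kb` (`rt_fix`) -/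
theorem fix_tors (H : Tht U ℓ e) {n : ℕ} {t : ρ → J} (h : ℓ ^ n • t = 0) (σ : Ω ≃ₐ[k] Ω)
    (hσ : σ ∈ (kb k Ω).fixingSubgroup) : σ • t = t :=
  funext fun i => U.rt_fix _ (t i) (tors_rt H h i) σ hσ

theorem lag_tors (L : Lag ℓ (Ω ≃ₐ[k] Ω) ρ e) {t : ρ → J} (ht : t ∈ L.D) : ℓ ^ (2 * L.c) • t = 0 :=
  ((L.lag t).1 ht).1

/-- `gn_map` and `kb_map` -/
theorem gn_smul (σ : Ω ≃ₐ[k] Ω) (x : ρ → J) (hx : U.Gn (kb k Ω) x) : U.Gn (kb k Ω) (σ • x) := by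
  have h := U.gn_map σ _ x hx
  rwa [kb_map] at h

theorem gn_kb {K : IntermediateField k Ω} (hb : kb k Ω ≤ K) {x : ρ → J} (hx : U.Gn K x) :
    U.Gn (kb k Ω) x :=
  U.gn_anti _ _ x hb hx

/-- every `x ∈ A` is a difference of generic points over any small field -/
theorem ex_add (U : Uni k Ω J ρ) (x : ρ → J) (K : IntermediateField k Ω) (hK : Small K) :
    ∃ u : ρ → J, U.Gn K u ∧ U.Gn K (x + u) := by
  obtain ⟨K', h1, h2, h3, h4⟩ := ex_small_ge U K hK (fun _ : Unit => x)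
  obtain ⟨u, hu⟩ := U.gn_ex K' h1
  refine ⟨u, U.gn_anti _ _ u h3 hu, U.gn_anti _ _ _ h3 ?_⟩
  rw [add_comm]
  exact U.gn_add K' u x h2 hu fun i => h4 () i

end TIFG
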