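import Pool.Agent.TIFT.K0
import Pool.Agent.TIFT.C2
import Pool.Agent.TIFT.G1

/-!
# [TIF] block PIG: finitely many classes are made nonspecial by points over `K`
-/

set_option autoImplicit false
set_option linter.unusedSectionVars false

open Polynomial IsLocalRing

namespace Pool.Agent.TIFT

open GT TIF

section

variable {d : ℕ} [NeZero d] {κ : Type} [Field κ] [IsAlgClosed κ] {T : Tab κ d}
  [IsDedekindDomain (WB T)]

theorem kil_drop {J : Ideal (WB T)} {m r : ℕ}
    (h : Module.finrank κ (IB J m) ≤ r + 1) {b : WB T} (hb : IB J m ≠ ⊥ → b ∈ IB J m)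
    {P : Pt T} (hP : P b ≠ 0) : Module.finrank κ (IB (J * mP P) m) ≤ r := by
  have hle : IB (J * mP P) m ≤ IB J m := IB_le Ideal.mul_le_left m
  by_cases h0 : IB J m = ⊥
  · have : IB (J * mP P) m = ⊥ := by rw [eq_bot_iff, ← h0]; exact hle
    rw [this, finrank_bot]
    exact Nat.zero_le _
  · have hlt : IB (J * mP P) m < IB J m := by
      refine lt_of_le_of_ne hle ?_
      intro he
      have h1 := hb h0
      rw [← he, mem_IB] at h1
      have h2 : b ∈ mP P := Ideal.mul_le_right h1.1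
      exact hP h2
    have := Submodule.finrank_lt_finrank_of_lt hlt
    omega

theorem kil_ns {I : Ideal (WB T)} (hI : I ≠ ⊥) {Y : List (Pt T)} {m : ℕ}
    (hm : gp T ≠ 0 → len I + Y.length + gp T ≤ m + 1) (h : IB (I * dI Y) m = ⊥) :
    Ns (cls I * cl Y) := by
  rw [Ns_iff_vanish]
  intro J hJ hcl
  by_contra hlt
  push Not at hlt
  have hY := dI_ne_bot Y
  have h1 : cls (I * dI Y * J) = 1 := by
    rw [cls_mul (mul_ne_zero hI hY) hJ, cls_mul hI hY, hcl]
    exact mul_inv_cancel _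
  obtain ⟨b, hb⟩ := (cls_eq_one_iff (mul_ne_zero (mul_ne_zero hI hY) hJ)).mp h1
  have hb0 : b ≠ 0 := by
    rintro rfl
    rw [Ideal.span_singleton_eq_bot.mpr rfl] at hb
    exact mul_ne_zero (mul_ne_zero hI hY) hJ hb
  have h2 : pord b = len I + Y.length + len J := by
    rw [← len_span hb0, ← hb, len_mul (mul_ne_zero hI hY) hJ, len_mul hI hY, len_dI]
  have h3 : b ∈ I * dI Y := by
    have : b ∈ I * dI Y * J := by rw [hb]; exact Ideal.mem_span_singleton_self b
    exact Ideal.mul_le_left this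
  have hg : gp T ≠ 0 := by omega
  have h4 : b ∈ IB (I * dI Y) m := by
    rw [mem_IB]
    refine ⟨h3, ?_⟩
    have := hm hg
    omega
  rw [h, Submodule.mem_bot] at h4
  exact hb0 h4

end

section

variable {k Ω : Type} [Field k] [Field Ω] [Algebra k Ω] [IsAlgClosed Ω] {d : ℕ} [NeZero d]
  {T : Tab Ω d} [IsDedekindDomain (WB T)]

/-- a function does not vanish at some point over `K` -/
theorem kil_pt (hT : Tk k T) (K : IntermediateField k Ω) [IsAlgClosed K] {b : WB T} (hb : b ≠ 0) :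
    ∃ P : Pt T, PK k (K : Set Ω) P ∧ P b ≠ 0 := by
  classical
  obtain ⟨X, hX⟩ := exists_dI (I := Ideal.span {b}) (by rwa [Ne, Ideal.span_singleton_eq_bot])
  have hinf : Infinite K := IsAlgClosed.instInfinite
  obtain ⟨c, hc⟩ := Infinite.exists_notMem_finset
    ((X.toFinset.image xx).preimage (Subtype.val : K → Ω) Subtype.val_injective.injOn)
  obtain ⟨P, hP⟩ := exists_xx T (c : Ω)
  refine ⟨P, (PK_iff_xx hT K P).2 (by rw [hP]; exact c.2), fun h0 => hc ?_⟩
  rw [Finset.mem_preimage, Finset.mem_image]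
  refine ⟨P, ?_, hP⟩
  rw [List.mem_toFinset, ← dI_le_mP, hX, Ideal.span_singleton_le_iff_mem]
  exact h0

theorem kil_kill (hT : Tk k T) (K : IntermediateField k Ω) [IsAlgClosed K] {ι : Type} [Fintype ι]
    (n : ℕ) : ∀ (J : ι → Ideal (WB T)) (m : ι → ℕ), (∀ i, Module.finrank Ω (IB (J i) (m i)) ≤ n) →
    ∃ Y : List (Pt T), (∀ P ∈ Y, PK k (K : Set Ω) P) ∧ Y.length = n ∧
      ∀ i, IB (J i * dI Y) (m i) = ⊥ := by
  induction n with
  | zero =>
    intro J m h
    refine ⟨[], by simp, rfl, fun i => ?_⟩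
    rw [dI_nil, Ideal.mul_top]
    exact Submodule.finrank_eq_zero.mp (Nat.le_zero.mp (h i))
  | succ n ih =>
    intro J m h
    have hex : ∀ i, ∃ b : WB T, b ≠ 0 ∧ (IB (J i) (m i) ≠ ⊥ → b ∈ IB (J i) (m i)) := by
      intro i
      by_cases h0 : IB (J i) (m i) = ⊥
      · exact ⟨1, one_ne_zero, fun h => absurd h0 h⟩
      · obtain ⟨b, hb, hb0⟩ := Submodule.exists_mem_ne_zero_of_ne_bot h0
        exact ⟨b, hb0, fun _ => hb⟩
    choose b hb0 hb using hex
    obtain ⟨P, hPK, hP⟩ := kil_pt hT K (b := ∏ i, b i) (Finset.prod_ne_zero_iff.2 fun i _ => hb0 i)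
    rw [map_prod, Finset.prod_ne_zero_iff] at hP
    obtain ⟨Y, h1, h2, h3⟩ := ih (fun i => J i * mP P) m fun i =>
      kil_drop (h i) (hb i) (hP i (Finset.mem_univ i))
    refine ⟨P :: Y, ?_, by rw [List.length_cons, h2], fun i => ?_⟩
    · intro Q hQ
      rcases List.mem_cons.mp hQ with rfl | hQ
      · exact hPK
      · exact h1 Q hQ
    · have : J i * mP P * dI Y = J i * dI (P :: Y) := by
        rw [mul_assoc]
        rfl
      rw [← this]
      exact h3 i

/-- finitely many classes are made nonspecial by points over `K` -/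
theorem exists_killK (hT : Tk k T) (K : IntermediateField k Ω) [IsAlgClosed K]
    (W : Finset (ClassGroup (WB T))) :
    ∃ Y : List (Pt T), (∀ P ∈ Y, PK k (K : Set Ω) P) ∧ ∀ w ∈ W, Ns (w * cl Y) := by
  by_cases hg : gp T = 0
  · refine ⟨[], by simp, fun w _ => ?_⟩
    rw [Ns_iff_vanish, hg]
    intro I _ _
    exact Nat.zero_le _
  · have key : ∀ x : ClassGroup (WB T),
        Module.finrank Ω (IB (rdc x) (len (rdc x) + gp T + gp T - 1)) ≤ gp T := by
      intro x
      have h1 := finrank_IB_sharp (rdc_ne x) (m := len (rdc x) + gp T + gp T - 1) (by omega)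
      omega
    obtain ⟨Y, h1, h2, h3⟩ := kil_kill hT K (ι := W) (gp T) (fun w => rdc (w : ClassGroup (WB T)))
      (fun w => len (rdc (w : ClassGroup (WB T))) + gp T + gp T - 1) fun w => key w
    refine ⟨Y, h1, fun w hw => ?_⟩
    have := kil_ns (rdc_ne w) (Y := Y) (m := len (rdc w) + gp T + gp T - 1)
      (by intro hg; omega) (h3 ⟨w, hw⟩)
    rwa [cls_rdc] at this

end

end Pool.Agent.TIFT
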