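import Mathlib

/-!
# [TIF] block PIG: quadratic functions defined on a generic subset
-/

set_option autoImplicit false

namespace TIFG

variable {G M : Type*} [AddCommGroup G] [AddCommGroup M]

/-- a generic subset: every finite set has a translate in it -/
def Big (U : Set G) : Prop := ∀ W : Finset G, ∃ c, ∀ w ∈ W, w + c ∈ U

/-- a partial homomorphism on a generic subset extends -/
theorem ext_hom {U : Set G} (hU : Big U) (β : G → M)
    (hβ : ∀ g h, g ∈ U → h ∈ U → g + h ∈ U → β (g + h) = β g + β h) :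
    ∃ φ : G →+ M, ∀ g ∈ U, φ g = β g := by
  classical
  -- the difference does not depend on the base point
  have key : ∀ g u u', u ∈ U → g + u ∈ U → u' ∈ U → g + u' ∈ U →
      β (g + u) - β u = β (g + u') - β u' := by
    intro g u u' hu hgu hu' hgu'
    obtain ⟨w, hw⟩ := hU {0, u, g + u, u - u'}
    simp only [Finset.mem_insert, Finset.mem_singleton, forall_eq_or_imp, forall_eq, zero_add] at hw
    obtain ⟨h1, h2, h3, h4⟩ := hw
    have e1 : u' + (u - u' + w) = u + w := by abel
    have e2 : g + u' + (u - u' + w) = g + u + w := by abel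
    have a1 := hβ u w hu h1 h2
    have a2 := hβ (g + u) w hgu h1 h3
    have a3 := hβ u' (u - u' + w) hu' h4 (by rw [e1]; exact h2)
    have a4 := hβ (g + u') (u - u' + w) hgu' h4 (by rw [e2]; exact h3)
    rw [e1, a1] at a3
    rw [e2, a2] at a4
    have b1 : β u - β u' = β (u - u' + w) - β w := by
      rw [sub_eq_sub_iff_add_eq_add, a3]; abel
    have b2 : β (g + u) - β (g + u') = β (u - u' + w) - β w := by
      rw [sub_eq_sub_iff_add_eq_add, a4]; abel
    rw [sub_eq_sub_iff_add_eq_add]
    rw [← b1, sub_eq_sub_iff_add_eq_add] at b2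
    rw [b2]; abel
  have hex : ∀ g, ∃ u, u ∈ U ∧ g + u ∈ U := by
    intro g
    obtain ⟨w, hw⟩ := hU {0, g}
    simp only [Finset.mem_insert, Finset.mem_singleton, forall_eq_or_imp, forall_eq, zero_add] at hw
    exact ⟨w, hw.1, hw.2⟩
  choose u hu hgu using hex
  have hval : ∀ g v, v ∈ U → g + v ∈ U → β (g + u g) - β (u g) = β (g + v) - β v :=
    fun g v hv hgv => key g _ _ (hu g) (hgu g) hv hgv
  refine ⟨AddMonoidHom.mk' (fun g => β (g + u g) - β (u g)) fun g h => ?_, fun g hg => ?_⟩
  · obtain ⟨w, hw⟩ := hU {0, g, g + h}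
    simp only [Finset.mem_insert, Finset.mem_singleton, forall_eq_or_imp, forall_eq, zero_add] at hw
    obtain ⟨h1, h2, h3⟩ := hw
    rw [hval (g + h) w h1 h3, hval g w h1 h2,
      hval h (g + w) h2 (by rw [← add_assoc, add_comm h g]; exact h3), ← add_assoc h g w,
      add_comm h g]
    abel
  · obtain ⟨w, hw⟩ := hU {0, g}
    simp only [Finset.mem_insert, Finset.mem_singleton, forall_eq_or_imp, forall_eq, zero_add] at hw
    obtain ⟨h1, h2⟩ := hw
    change β (g + u g) - β (u g) = β g
    rw [hval g w h1 h2, hβ g w hg h1 h2, add_sub_cancel_right]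

/-- a function with vanishing third differences on a generic subset is quadratic -/
theorem quad {U : Set G} (hU : Big U) (f : G → M)
    (hf : ∀ g h l, g ∈ U → h ∈ U → l ∈ U → g + h ∈ U → h + l ∈ U → g + l ∈ U → g + h + l ∈ U →
      f (g + h + l) + f g + f h + f l = f (g + h) + f (h + l) + f (g + l))
    {g : G} {n : ℕ} (hg : g ∈ U) (hg' : -g ∈ U) (hn : n • g ∈ U) (hn' : -(n • g) ∈ U) :
    f (n • g) + f (-(n • g)) = (n ^ 2) • (f g + f (-g)) := by
  classical
  have hUl : ∀ l, Big {g | g ∈ U ∧ g + l ∈ U} := by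
    intro l W
    obtain ⟨c, hc⟩ := hU (W ∪ W.image (· + l))
    refine ⟨c, fun w hw => ⟨hc w (Finset.mem_union_left _ hw), ?_⟩⟩
    have := hc (w + l) (Finset.mem_union_right _ (Finset.mem_image_of_mem _ hw))
    rwa [add_right_comm]
  have h1 : ∀ l ∈ U, ∃ φ : G →+ M, ∀ g, g ∈ U → g + l ∈ U → φ g = f (g + l) - f g - f l := by
    intro l hl
    obtain ⟨φ, hφ⟩ := ext_hom (hUl l) (fun g => f (g + l) - f g - f l) (by
      rintro g h ⟨hg, hgl⟩ ⟨hh, hhl⟩ ⟨hgh, hghl⟩
      have := hf g h l hg hh hl hgh hhl hgl hghl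
      have e : f (g + h + l) = f (g + h) + f (h + l) + f (g + l) - f g - f h - f l := by
        rw [← this]; abel
      rw [e]; abel)
    exact ⟨φ, fun g hg hgl => hφ g ⟨hg, hgl⟩⟩
  choose! φ hφ using h1
  obtain ⟨Φ, hΦ⟩ := ext_hom (M := G →+ M) hU φ (by
    intro l l' hl hl' hll
    ext g
    obtain ⟨w, hw⟩ := hU {0, l, l', l + l', g, g + l, g + l', g + (l + l')}
    simp only [Finset.mem_insert, Finset.mem_singleton, forall_eq_or_imp, forall_eq, zero_add] at hw
    obtain ⟨w1, w2, w3, w4, w5, w6, w7, w8⟩ := hw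
    have key : ∀ v, v ∈ U → v + l ∈ U → v + l' ∈ U → v + (l + l') ∈ U →
        φ (l + l') v = φ l v + φ l' v := by
      intro v v1 v2 v3 v4
      rw [hφ _ hll v v1 v4, hφ _ hl v v1 v2, hφ _ hl' v v1 v3]
      have := hf v l l' v1 hl hl' v2 hll v3 (by rw [add_assoc]; exact v4)
      have e : f (v + (l + l')) = f (v + l) + f (l + l') + f (v + l') - f v - f l - f l' := by
        rw [← this, add_assoc]; abel
      rw [e]; abel
    have k1 := key w w1 (by rw [add_comm]; exact w2) (by rw [add_comm]; exact w3)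
      (by rw [add_comm]; exact w4)
    have k2 := key (g + w) w5 (by rw [add_right_comm]; exact w6) (by rw [add_right_comm]; exact w7)
      (by rw [add_right_comm]; exact w8)
    rw [map_add, map_add, map_add, k1] at k2
    rw [AddMonoidHom.add_apply]
    have e1 : φ (l + l') g = (φ (l + l') g + (φ l w + φ l' w)) - (φ l w + φ l' w) := by abel
    rw [e1, k2]; abel)
  have key : ∀ g, g ∈ U → -g ∈ U → f g + f (-g) = Φ g g := by
    intro g hg hg'
    obtain ⟨u, hu⟩ := hU {0, g}
    simp only [Finset.mem_insert, Finset.mem_singleton, forall_eq_or_imp, forall_eq, zero_add] at hu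
    obtain ⟨u1, u2⟩ := hu
    have e1 : -g + (g + u) = u := by abel
    have a1 := hφ u u1 g hg u2
    have a2 := hφ (g + u) u2 (-g) hg' (by rw [e1]; exact u1)
    rw [e1] at a2
    rw [← hΦ u u1] at a1
    rw [← hΦ (g + u) u2, map_add, AddMonoidHom.add_apply, map_neg, map_neg, a1] at a2
    have e2 : Φ g g = -(-(Φ g) g + -(f (g + u) - f g - f u)) - (f (g + u) - f g - f u) := by abel
    rw [e2, a2]; abel
  rw [key _ hn hn', key g hg hg', map_nsmul Φ, AddMonoidHom.smul_apply, map_nsmul, smul_smul,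
    pow_two]

end TIFG
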