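import Pool.Agent.TIFG.Thi
import Pool.Agent.TIFG.G2
import Pool.Agent.TIFG.Cub
import Pool.Agent.TIFG.Kil
import Pool.Agent.TIFG.Quad

/-!
# [TIF] block PIG: the multiplication by `n` has the multiplier `n ^ 2` (theorem of the cube)
-/

set_option autoImplicit false
set_option linter.unusedSectionVars false
set_option linter.unusedVariables false

open IntermediateField Pool.Agent.TIFA GT TIF

namespace TIFG

open Pool.Agent.TIFT (cl dI ev mP Nt Tr TD tmf tV tA HH Ns GenA kbF cub TrC)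

variable {k Ω : Type} [Field k] [Field Ω] [Algebra k Ω] [IsAlgClosed Ω] {d : ℕ} [NeZero d]
  {T : Tab Ω d} [IsDedekindDomain (WB T)] {ρ : Type} [Fintype ρ]

section

variable {J : Type} [AddCommGroup J] [DistribMulAction (Ω ≃ₐ[k] Ω) J] (U : Uni k Ω J ρ)

/-- the equivariant maps from the generic points to `A` -/
def EqG : AddSubgroup ((ρ → J) → (ρ → J)) where
  carrier := {g | ∀ σ ∈ (TIFG.kb k Ω).fixingSubgroup, ∀ x, U.Gn (TIFG.kb k Ω) x →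
    g (σ • x) = σ • g x}
  add_mem' := by
    intro g h hg hh σ hσ x hx
    rw [Pi.add_apply, Pi.add_apply, hg σ hσ x hx, hh σ hσ x hx, smul_add]
  zero_mem' := by
    intro σ hσ x hx
    rw [Pi.zero_apply, Pi.zero_apply, smul_zero]
  neg_mem' := by
    intro g hg σ hσ x hx
    rw [Pi.neg_apply, Pi.neg_apply, hg σ hσ x hx, smul_neg]

/-- families of values -/
abbrev PG : Type := (p : {V : ValuationSubring Ω // Pl k Ω V} × {x : ρ → J // U.Gn (TIFG.kb k Ω) x}) →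
  (p.1.1.ValueGroup)ˣ

/-- the families of values of functions -/
def NG : Subgroup (PG U) where
  carrier := {φ | ∃ r : (ρ → J) → Ω, U.Fnu r ∧ ∀ p, ((φ p : (p.1.1.ValueGroup)ˣ) : p.1.1.ValueGroup) =
    p.1.1.valuation (r p.2.1)}
  mul_mem' := by
    rintro φ ψ ⟨r, hr, h1⟩ ⟨s, hs, h2⟩
    refine ⟨fun x => r x * s x, ⟨fun x hx => mul_ne_zero (hr.ne x hx) (hs.ne x hx),
      fun σ hσ x hx => ?_⟩, fun p => ?_⟩
    · rw [hr.equ σ hσ x hx, hs.equ σ hσ x hx, map_mul]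
    · rw [Pi.mul_apply, Units.val_mul, h1, h2, map_mul]
  one_mem' := ⟨fun _ => 1, ⟨fun _ _ => one_ne_zero, fun σ _ _ _ => (map_one σ).symm⟩, fun p => by
    rw [Pi.one_apply, Units.val_one, map_one]⟩
  inv_mem' := by
    rintro φ ⟨r, hr, h1⟩
    refine ⟨fun x => (r x)⁻¹, ⟨fun x hx => inv_ne_zero (hr.ne x hx), fun σ hσ x hx => ?_⟩,
      fun p => ?_⟩
    · rw [hr.equ σ hσ x hx, map_inv₀]
    · rw [Pi.inv_apply, Units.val_inv_eq_inv_val, h1, map_inv₀]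

end

variable {hT : Tk k T} (U : Uni k Ω (JJ hT) ρ)

/-- the maps with nonspecial values -/
def BU : Set (EqG U) := {g | ∀ x, U.Gn (TIFG.kb k Ω) x → ∀ r, Ns (mx (g.1 x) r)}

theorem act_of_kb {x : ClassGroup (WB T)} (hx : x ∈ JK (T := T) ((kbF k Ω : IntermediateField k Ω) : Set Ω))
    (hT : Tk k T) {σ : Ω ≃ₐ[k] Ω} (hσ : σ ∈ (TIFG.kb k Ω).fixingSubgroup) : act hT σ x = x := by
  rw [Pool.Agent.TIFT.act_eq_iff]
  intro c hc
  exact (mem_fixingSubgroup_iff _ _ |>.1 hσ) c ((Pool.Agent.TIFT.mem_JK_iff hT _ _).1 hx hc)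

theorem big_BU : Big (BU U) := by
  classical
  have hac : IsAlgClosed (kbF k Ω) := IsAlgClosure.isAlgClosed k
  intro W
  obtain ⟨x₀, hx₀⟩ := U.gn_ex (TIFG.kb k Ω) small_kb
  choose Y hY1 hY2 using fun r => Pool.Agent.TIFT.exists_killK hT (kbF k Ω)
    (W.image fun w => mx (w.1 x₀) r)
  have hfix : ∀ r, ∀ σ ∈ (TIFG.kb k Ω).fixingSubgroup, act hT σ (cl (Y r)) = cl (Y r) :=
    fun r σ hσ => act_of_kb (Pool.Agent.TIFT.cl_mem_JK hT _ (hY1 r)) hT hσ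
  let a : ρ → JJ hT := fun r => toJ hT (cl (Y r))
  have ha : ∀ σ ∈ (TIFG.kb k Ω).fixingSubgroup, σ • a = a := by
    intro σ hσ
    funext r
    exact congrArg (toJ hT) (hfix r σ hσ)
  refine ⟨⟨fun _ => a, fun σ hσ x hx => (ha σ hσ).symm⟩, fun w hw x hx r => ?_⟩
  obtain ⟨σ, hσ, hσx⟩ := U.gn_hom (TIFG.kb k Ω) small_kb le_rfl x₀ x hx₀ hx
  have h1 := hY2 r (mx (w.1 x₀) r) (Finset.mem_image_of_mem _ hw)
  have h2 : mx ((w + ⟨fun _ => a, fun σ hσ x hx => (ha σ hσ).symm⟩ : EqG U).1 x) r =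
      act hT σ (mx (w.1 x₀) r * cl (Y r)) := by
    change mx (w.1 x) r * cl (Y r) = _
    rw [map_mul, hfix r σ hσ, ← hσx, w.2 σ hσ x₀ hx₀]
    rfl
  rw [h2, Pool.Agent.TIFT.Ns_act]
  exact h1

open Classical in
/-- the class of the values of the theta function -/
noncomputable def fG {ℓ : ℕ} {e : ℕ → JJ hT → JJ hT → Ω} (H : Tht U ℓ e)
    (hH : ∀ V x, H.Th V x = tA k V (mx x)) (g : EqG U) : Additive (PG U ⧸ NG U) :=
  if hg : g ∈ BU U then Additive.ofMul (QuotientGroup.mk fun p => Units.mk0 (H.Th p.1.1 (g.1 p.2.1)) (by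
    rw [hH, tA, Finset.prod_ne_zero_iff]
    intro r _
    exact (Pool.Agent.TIFT.tV_ne_zero_iff hT (fun c => p.1.2 _ ((kbF k Ω).algebraMap_mem c)) _).2
      (hg _ p.2.2 r))) else 0

theorem fG_eq {ℓ : ℕ} {e : ℕ → JJ hT → JJ hT → Ω} (H : Tht U ℓ e)
    (hH : ∀ V x, H.Th V x = tA k V (mx x)) {g : EqG U} (hg : g ∈ BU U) :
    ∃ φ : PG U, fG U H hH g = Additive.ofMul (QuotientGroup.mk φ) ∧
      ∀ p, ((φ p : (p.1.1.ValueGroup)ˣ) : p.1.1.ValueGroup) = tA k p.1.1 (mx (g.1 p.2.1)) := by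
  refine ⟨_, dif_pos hg, fun p => ?_⟩
  rw [Units.val_mk0, hH]

/-- two products of values differ by a function -/
theorem mk_eq_iff {φ ψ : PG U} : (QuotientGroup.mk φ : PG U ⧸ NG U) = QuotientGroup.mk ψ ↔
    ∃ r : (ρ → JJ hT) → Ω, U.Fnu r ∧ ∀ p, ((ψ p : (p.1.1.ValueGroup)ˣ) : p.1.1.ValueGroup) =
      p.1.1.valuation (r p.2.1) * ((φ p : (p.1.1.ValueGroup)ˣ) : p.1.1.ValueGroup) := by
  rw [QuotientGroup.eq]
  constructor
  · rintro ⟨r, hr, h⟩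
    refine ⟨r, hr, fun p => ?_⟩
    rw [← h p, Pi.mul_apply, Pi.inv_apply, Units.val_mul, mul_comm, Units.val_inv_eq_inv_val,
      mul_inv_cancel_left₀ (Units.ne_zero _)]
  · rintro ⟨r, hr, h⟩
    refine ⟨r, hr, fun p => ?_⟩
    rw [Pi.mul_apply, Pi.inv_apply, Units.val_mul, h p, Units.val_inv_eq_inv_val, mul_comm,
      mul_inv_cancel_right₀ (Units.ne_zero _)]

theorem fG_cube {ℓ : ℕ} {e : ℕ → JJ hT → JJ hT → Ω} (H : Tht U ℓ e)
    (hH : ∀ V x, H.Th V x = tA k V (mx x)) (g h l : EqG U) (hg : g ∈ BU U) (hh : h ∈ BU U)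
    (hl : l ∈ BU U) (hgh : g + h ∈ BU U) (hhl : h + l ∈ BU U) (hgl : g + l ∈ BU U)
    (hghl : g + h + l ∈ BU U) :
    fG U H hH (g + h + l) + fG U H hH g + fG U H hH h + fG U H hH l =
      fG U H hH (g + h) + fG U H hH (h + l) + fG U H hH (g + l) := by
  obtain ⟨a₁, e₁, b₁⟩ := fG_eq U H hH hghl
  obtain ⟨a₂, e₂, b₂⟩ := fG_eq U H hH hg
  obtain ⟨a₃, e₃, b₃⟩ := fG_eq U H hH hh
  obtain ⟨a₄, e₄, b₄⟩ := fG_eq U H hH hl
  obtain ⟨a₅, e₅, b₅⟩ := fG_eq U H hH hgh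
  obtain ⟨a₆, e₆, b₆⟩ := fG_eq U H hH hhl
  obtain ⟨a₇, e₇, b₇⟩ := fG_eq U H hH hgl
  rw [e₁, e₂, e₃, e₄, e₅, e₆, e₇]
  symm
  change Additive.ofMul (QuotientGroup.mk (a₅ * a₆ * a₇) : PG U ⧸ NG U) =
    Additive.ofMul (QuotientGroup.mk (a₁ * a₂ * a₃ * a₄) : PG U ⧸ NG U)
  congr 1
  rw [mk_eq_iff]
  have htr : ∀ x, U.Gn (TIFG.kb k Ω) x → ∀ r, TrC (mx (g.1 x) r) (mx (h.1 x) r) (mx (l.1 x) r) :=
    fun x hx r => ⟨hg x hx r, hh x hx r, hl x hx r, hgh x hx r, hhl x hx r, hgl x hx r⟩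
  refine ⟨fun x => ∏ r, cub (mx (g.1 x) r) (mx (h.1 x) r) (mx (l.1 x) r), ⟨fun x hx => ?_,
    fun σ hσ x hx => ?_⟩, fun p => ?_⟩
  · rw [Finset.prod_ne_zero_iff]
    exact fun r _ => Pool.Agent.TIFT.cub_ne (htr x hx r) (hghl x hx r)
  · rw [map_prod]
    refine Finset.prod_congr rfl fun r _ => ?_
    rw [g.2 σ hσ x hx, h.2 σ hσ x hx, l.2 σ hσ x hx]
    exact Pool.Agent.TIFT.cub_act hT σ (htr x hx r)
  · rw [Pi.mul_apply, Pi.mul_apply, Pi.mul_apply, Pi.mul_apply, Pi.mul_apply, Units.val_mul,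
      Units.val_mul, Units.val_mul, Units.val_mul, Units.val_mul, b₁, b₂, b₃, b₄, b₅, b₆, b₇,
      map_prod, tA, tA, tA, tA, tA, tA, tA, ← Finset.prod_mul_distrib, ← Finset.prod_mul_distrib,
      ← Finset.prod_mul_distrib, ← Finset.prod_mul_distrib, ← Finset.prod_mul_distrib,
      ← Finset.prod_mul_distrib]
    refine Finset.prod_congr rfl fun r _ => ?_
    exact (Pool.Agent.TIFT.cub_val hT (htr _ p.2.2 r) p.1.1
      fun c => p.1.2 _ ((kbF k Ω).algebraMap_mem c)).symm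

/-- **the cube**: multiplication by `n` has the multiplier `n ^ 2` -/
theorem ql_nsmul {ℓ : ℕ} {e : ℕ → JJ hT → JJ hT → Ω} (H : Tht U ℓ e)
    (hH : ∀ V x, H.Th V x = tA k V (mx x)) (hU : Univ k Ω)
    (hGn : ∀ x : ρ → JJ hT, U.Gn (TIFG.kb k Ω) x ↔ GenA (kbF k Ω) (mx x)) (n : ℕ)
    (hn : (n : k) ≠ 0) : H.QL (fun x => n • x) (n ^ 2) := by
  have hs : Pool.Agent.TIFT.Small (kbF k Ω) := Pool.Agent.TIFT.small_kb k Ω
  have hgen : ∀ x, U.Gn (TIFG.kb k Ω) x → U.Gn (TIFG.kb k Ω) (n • x) := fun x hx =>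
    U.gn_iso (nsmulAddMonoidHom n) (AddMonoidHom.id _) (fun σ x =>
      (map_nsmul (DistribSMul.toAddMonoidHom (ρ → JJ hT) σ) n x).symm)
      (fun σ x => rfl) ⟨n, hn, fun x => rfl⟩ x hx
  have hns : ∀ x, U.Gn (TIFG.kb k Ω) x → ∀ r, Ns (mx x r) := fun x hx r =>
    (Pool.Agent.TIFT.genA_Ns hU hT hs ((hGn x).1 hx) r).1
  let g : EqG U := ⟨fun x => x, fun σ _ x _ => rfl⟩
  have m1 : g ∈ BU U := fun x hx r => hns x hx r
  have m2 : -g ∈ BU U := fun x hx r => hns (-x) (U.gn_neg _ x hx) r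
  have m3 : n • g ∈ BU U := fun x hx r => hns (n • x) (hgen x hx) r
  have m4 : -(n • g) ∈ BU U := fun x hx r => hns (-(n • x)) (U.gn_neg _ _ (hgen x hx)) r
  have h1 := quad (big_BU U) (fG U H hH) (fG_cube U H hH) m1 m2 m3 m4
  obtain ⟨a₁, e₁, b₁⟩ := fG_eq U H hH m1
  obtain ⟨a₂, e₂, b₂⟩ := fG_eq U H hH m2
  obtain ⟨a₃, e₃, b₃⟩ := fG_eq U H hH m3
  obtain ⟨a₄, e₄, b₄⟩ := fG_eq U H hH m4
  rw [e₁, e₂, e₃, e₄] at h1
  have h2 : (QuotientGroup.mk ((a₁ * a₂) ^ n ^ 2) : PG U ⧸ NG U) = QuotientGroup.mk (a₃ * a₄) :=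
    h1.symm
  rw [mk_eq_iff] at h2
  obtain ⟨r, hr, h3⟩ := h2
  refine ⟨1, r, one_pos, hr, fun V hV x hx => ?_⟩
  have h4 := h3 (⟨V, hV⟩, ⟨x, hx⟩)
  rw [Pi.mul_apply, Pi.pow_apply, Pi.mul_apply, Units.val_mul, Units.val_pow_eq_pow_val,
    Units.val_mul, b₁, b₂, b₃, b₄] at h4
  rw [pow_one, mul_one, Tht.ThS, Tht.ThS, hH, hH, hH, hH]
  exact h4

end TIFG
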