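import Mathlib
import Pool.Agent.TIFG.Defs

/-!
# [TIF] block PIG: abstract interface to the theta functions (spaces `HH m`), Frobenius, duality

Everything is about an abstract `U : Uni k Ω J ρ`, `H : Tht U ℓ e`; `g` is the genus, `d` the degree of the
coordinate `x` of the curve, `cT` a constant depending on the curve only.
-/

set_option autoImplicit false
set_option linter.unusedSectionVars false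
set_option linter.unusedVariables false

open IntermediateField Pool.Agent.TIFA

namespace TIFG

variable {k Ω J : Type} [Field k] [Field Ω] [Algebra k Ω] [AddCommGroup J]
  [DistribMulAction (Ω ≃ₐ[k] Ω) J] {ρ : Type} [Fintype ρ]

/-- the conjugate function -/
def cj (σ : Ω ≃ₐ[k] Ω) (F : (ρ → J) → Ω) (x : ρ → J) : Ω := σ (F (σ⁻¹ • x))

/-- points over the algebraic closure of `k` with sum `0` -/
structure Z0 (U : Uni k Ω J ρ) {n : ℕ} (a : Fin n → ρ → J) : Prop where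
  rt : ∀ j i, a j i ∈ U.Rt (kb k Ω)
  sum : ∑ j, a j = 0

/-- the Frobenius, Galois descent -/
structure Fro (U : Uni k Ω J ρ) (ℓ : ℕ) where
  q : ℕ
  hq : 2 ≤ q
  phi : Ω ≃ₐ[k] Ω
  frob : ∀ z ∈ kb k Ω, phi z = z ^ q
  fix_kb : ∀ z ∈ kb k Ω, phi z = z → z ∈ (⊥ : IntermediateField k Ω)
  gal : ∀ S : Finset Ω, (∀ z ∈ S, z ∈ kb k Ω) → ∀ σ : Ω ≃ₐ[k] Ω, ∃ n : ℕ, ∀ z ∈ S, σ z = (phi ^ n) z
  /-- `φ - 1` is surjective on the `ℓ`-power torsion (the group of fixed points is finite) -/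
  surj : ∀ (n : ℕ) (u : ρ → J), ℓ ^ n • u = 0 → ∃ (m : ℕ) (c : ρ → J), ℓ ^ m • c = 0 ∧ phi • c - c = u
  el_gal : ∀ (K : IntermediateField k Ω) (z : Ω), z ∈ K ⊔ kb k Ω →
    (∀ σ ∈ K.fixingSubgroup, σ z = z) → z ∈ K
  rt_gal : ∀ (K : IntermediateField k Ω) (x : J), x ∈ U.Rt (K ⊔ kb k Ω) →
    (∀ σ ∈ K.fixingSubgroup, σ • x = x) → x ∈ U.Rt K
  rt_kb : ∀ x ∈ U.Rt (kb k Ω), ∃ S : Finset Ω, (∀ z ∈ S, z ∈ kb k Ω) ∧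
    x ∈ U.Rt (adjoin k (S : Set Ω))

/-- duality of the pairing for Lagrangian subgroups -/
structure Dua (k Ω J ρ : Type) [Field k] [Field Ω] [Algebra k Ω] [AddCommGroup J]
    [DistribMulAction (Ω ≃ₐ[k] Ω) J] [Fintype ρ] (ℓ : ℕ) (e : ℕ → J → J → Ω) (g : ℕ) : Prop where
  fin : ∀ n, {x : J | ℓ ^ n • x = 0}.Finite
  ne : ∀ n (x y : ρ → J), ℓ ^ n • x = 0 → ℓ ^ n • y = 0 → eA e n x y ≠ 0
  /-- every character of `L.D` is given by the pairing with a point of level `ℓ ^ (2 c)` -/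
  perf : ∀ (L : Lag ℓ (Ω ≃ₐ[k] Ω) ρ e) (χ : (ρ → J) → Ω), (∀ t ∈ L.D, χ t ≠ 0) →
    (∀ t ∈ L.D, ∀ t' ∈ L.D, χ (t + t') = χ t * χ t') →
    ∃ u : ρ → J, ℓ ^ (2 * L.c) • u = 0 ∧ ∀ t ∈ L.D, eA e (2 * L.c) t u = χ t
  /-- the index of `L.D` in the points of level `ℓ ^ (2 c)` is at least `(ℓ ^ (2 c)) ^ (g |ρ|)` -/
  idx : ∀ L : Lag ℓ (Ω ≃ₐ[k] Ω) ρ e, ∃ Y : Fin ((ℓ ^ (2 * L.c)) ^ (g * Fintype.card ρ)) → ρ → J,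
    (∀ i, ℓ ^ (2 * L.c) • Y i = 0) ∧ ∀ i j, Y i - Y j ∈ L.D → i = j
  hcomp : ∀ m n x y, ℓ ^ n • x = 0 → ℓ ^ (m + n) • y = 0 → e (m + n) x y = e n x (ℓ ^ m • y)
  add_left : ∀ n (x x' y : ρ → J), ℓ ^ n • x = 0 → ℓ ^ n • x' = 0 → ℓ ^ n • y = 0 →
    eA e n (x + x') y = eA e n x y * eA e n x' y
  add_right : ∀ n (x y y' : ρ → J), ℓ ^ n • x = 0 → ℓ ^ n • y = 0 → ℓ ^ n • y' = 0 →
    eA e n x (y + y') = eA e n x y * eA e n x y'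
  anti : ∀ n (x y : ρ → J), ℓ ^ n • x = 0 → ℓ ^ n • y = 0 → eA e n x y * eA e n y x = 1

variable {U : Uni k Ω J ρ} {ℓ : ℕ} {e : ℕ → J → J → Ω}

/-- the spaces of functions on `A` spanned by the theta monomials -/
structure Spc (H : Tht U ℓ e) (g d cT : ℕ) where
  /-- functions with poles `≤ m Θ`, on the generic points (`0` elsewhere) -/
  HH : ℕ → Submodule (kb k Ω) ((ρ → J) → Ω)
  supp : ∀ m, ∀ F ∈ HH m, ∀ x, ¬ U.Gn (kb k Ω) x → F x = 0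
  fin : ∀ m, FiniteDimensional (kb k Ω) (HH m)
  card : ∀ m, Module.finrank (kb k Ω) (HH m) ≤ (m * g + 1) ^ (g * Fintype.card ρ)
  ne : ∀ m, ∃ F ∈ HH m, F ≠ 0
  mul : ∀ m m', ∀ F ∈ HH m, ∀ F' ∈ HH m', F * F' ∈ HH (m + m')
  fn : ∀ m, ∀ F ∈ HH m, F ≠ 0 → U.Fnu F
  hon : ∀ m, ∀ F ∈ HH m, ∀ K : IntermediateField k Ω, kb k Ω ≤ K → ∀ x, U.Gn (kb k Ω) x →
    (∀ i, x i ∈ U.Rt K) → F x ∈ K
  le : ∀ m, ∀ F ∈ HH m, ∀ V, Pl k Ω V → ∀ x, U.Gn (kb k Ω) x →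
    V.valuation (F x) * H.Th V x ^ m ≤ 1
  tr : ∀ (n : ℕ) (b : ρ → J), ℓ ^ n • b = 0 → ∀ F ∈ HH (ℓ ^ n),
    (fun x => H.cc n b x * F (x + b)) ∈ HH (ℓ ^ n)
  conj : ∀ m, ∀ F ∈ HH m, ∀ σ : Ω ≃ₐ[k] Ω, cj σ F ∈ HH m
  cont : ∀ m, ∀ F ∈ HH m, ∃ S : Finset Ω, (∀ z ∈ S, z ∈ kb k Ω) ∧
    ∀ σ : Ω ≃ₐ[k] Ω, (∀ z ∈ S, σ z = z) → cj σ F = F
  cc_conj : ∀ (n : ℕ) (b : ρ → J), ℓ ^ n • b = 0 → ∀ σ : Ω ≃ₐ[k] Ω, ∃ κ ∈ kb k Ω, κ ≠ 0 ∧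
    ∀ x, U.Gn (kb k Ω) x → cj σ (H.cc n b) x = κ * H.cc n (σ • b) x
  /-- the theta monomial of `a`, `∑ a_i = 0` -/
  Cm : ∀ n : ℕ, (Fin n → ρ → J) → (ρ → J) → Ω
  cm_mem : ∀ (n : ℕ) (a : Fin n → ρ → J), Z0 U a → Cm n a ∈ HH n
  cm_ne : ∀ (n : ℕ) (a : Fin n → ρ → J), Z0 U a → Cm n a ≠ 0
  cm_val : ∀ (n : ℕ) (a : Fin n → ρ → J), Z0 U a → ∀ V, Pl k Ω V → ∀ x, U.Gn (kb k Ω) x →
    V.valuation (Cm n a x) * H.Th V x ^ n = ∏ j, H.Th V (x + a j)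
  cm_pr : ∀ (n : ℕ) (a : Fin n → ρ → J), Z0 U a → 0 < n → ∀ (m : ℕ) (F : Fin n → (ρ → J) → Ω),
    (∀ i, F i ∈ HH m) → (fun x => (∏ i, F i (x + a i)) * Cm n a x ^ m) ∈ HH (n * m)
  cm_conj : ∀ (n : ℕ) (a : Fin n → ρ → J), Z0 U a → ∀ σ : Ω ≃ₐ[k] Ω, ∃ κ ∈ kb k Ω, κ ≠ 0 ∧
    ∀ x, U.Gn (kb k Ω) x → cj σ (Cm n a) x = κ * Cm n (fun j => σ • a j) x
  /-- exact: reciprocity -/
  cm_cc : ∀ (m : ℕ) (a : Fin m → ρ → J), Z0 U a → ∀ (n : ℕ) (t : ρ → J), ℓ ^ n • t = 0 →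
    ∀ x, U.Gn (kb k Ω) x → H.cc n t x ^ m * Cm m a (x + t) ^ ℓ ^ n =
      (∏ i, H.cc n t (x + a i)) * Cm m a x ^ ℓ ^ n
  /-- (BPF) -/
  bpf : ∀ m, ∀ F ∈ HH m, F ≠ 0 → ∀ V, Pl k Ω V → ∀ x, U.Gn (kb k Ω) x →
    ∃ a : Fin d → ρ → J, Z0 U a ∧ ∀ j, V.valuation (F (x + a j)) * H.Th V (x + a j) ^ m = 1
  /-- (RAT) -/
  rat : ∀ N, ∀ s ∈ HH N, s ≠ 0 → ∀ w, U.Gn (kb k Ω) w → ∀ κ : IntermediateField k Ω, kb k Ω ≤ κ →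
    (∀ a : Fin (3 * d) → ρ → J, Z0 U a →
      (∏ i, s (w + a i)) * Cm (3 * d) a w ^ N / s w ^ (3 * d) ∈ κ) → ∀ i, N • w i ∈ U.Rt κ
  /-- (PD) functions of pairs -/
  pd : ∀ (K : IntermediateField k Ω) (x x' a : ρ → J), Small K → kb k Ω ≤ K → U.Gn (kb k Ω) x →
    (∀ i, x i ∈ U.Rt K) → U.Gn K x' → (∀ i, a i ∈ U.Rt (kb k Ω)) → ∀ (m₁ m₂ m₃ n : ℕ) (z : Fin n → Ω),
    LinearIndependent (kb k Ω) z →
    (∀ j, z j ∈ Submodule.span (kb k Ω) {z | ∃ f ∈ HH m₁, ∃ f' ∈ HH m₂, ∃ f'' ∈ HH m₃,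
      z = f x * f' x' * f'' (x + x' + a)}) →
    n ≤ (cT * (m₁ + m₂ + m₃) + 1) ^ (2 * (g * Fintype.card ρ))
  /-- the dimension of `A × A` -/
  trd : ∀ (K : IntermediateField k Ω) (x x' : ρ → J) (κ : IntermediateField k Ω) (n : ℕ),
    Small K → kb k Ω ≤ K → U.Gn (kb k Ω) x → (∀ i, x i ∈ U.Rt K) → U.Gn K x' →
    (∀ i, ℓ ^ n • x i ∈ U.Rt κ) → (∀ i, ℓ ^ n • x' i ∈ U.Rt κ) →
    ((2 * (g * Fintype.card ρ) : ℕ) : Cardinal) ≤ Algebra.trdeg k κ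

/-- translation operator of level `ℓ ^ n` -/
def TT (H : Tht U ℓ e) (n : ℕ) (t : ρ → J) (F : (ρ → J) → Ω) (x : ρ → J) : Ω :=
  H.cc n t x * F (x + t)

/-- an eigen-section of `L.D` -/
structure Eig {H : Tht U ℓ e} {g d cT : ℕ} (E : Spc H g d cT) (L : Lag ℓ (Ω ≃ₐ[k] Ω) ρ e)
    (s : (ρ → J) → Ω) (lam : (ρ → J) → Ω) : Prop where
  mem : s ∈ E.HH (ℓ ^ (2 * L.c))
  ne : s ≠ 0
  lam_mem : ∀ t ∈ L.D, lam t ∈ kb k Ω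
  lam_ne : ∀ t ∈ L.D, lam t ≠ 0
  eig : ∀ t ∈ L.D, TT H (2 * L.c) t s = fun x => lam t * s x

/-- the functions `F_a` -/
noncomputable def FF {H : Tht U ℓ e} {g d cT : ℕ} (E : Spc H g d cT) (N m : ℕ) (s : (ρ → J) → Ω)
    (a : Fin m → ρ → J) (w : ρ → J) : Ω :=
  (∏ i, s (w + a i)) * E.Cm m a w ^ N / s w ^ m

/-- the space spanned by the `F_a`, translated by `c₀` -/
noncomputable def VV {H : Tht U ℓ e} {g d cT : ℕ} (E : Spc H g d cT) (N m : ℕ) (s : (ρ → J) → Ω)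
    (c₀ : ρ → J) : Submodule (kb k Ω) ((ρ → J) → Ω) :=
  Submodule.span (kb k Ω) {f | ∃ a : Fin m → ρ → J, Z0 U a ∧ f = fun x => FF E N m s a (x + c₀)}

/-- the functions `y` of the quotient `A / L.D` -/
structure YD {H : Tht U ℓ e} {g d cT : ℕ} (E : Spc H g d cT) (L : Lag ℓ (Ω ≃ₐ[k] Ω) ρ e) {D : ℕ}
    (y : Fin D → (ρ → J) → Ω) (s lam : (ρ → J) → Ω) (c₀ : ρ → J) : Prop where
  eig : Eig E L s lam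
  tors : ∃ n, ℓ ^ n • c₀ = 0
  mem : ∀ j, y j ∈ VV E (ℓ ^ (2 * L.c)) (3 * d) s c₀
  span : VV E (ℓ ^ (2 * L.c)) (3 * d) s c₀ ≤ Submodule.span (kb k Ω) (Set.range y)
  equ : ∀ j x (σ : Ω ≃ₐ[k] Ω), y j (σ • x) = σ (y j x)

end TIFG
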