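import Mathlib
import Pool.Agent.TIFG.Spc
import Pool.Agent.TIFS.D8
import Pool.Agent.TIFB.Tors
import Pool.Agent.TIF.EndADefs

/-!
# [TIF] block DUA: duality of the Weil pairing for Lagrangian subgroups
-/

set_option autoImplicit false
set_option linter.unusedSectionVars false

namespace TIFG.DuaI


section

variable {Ω : Type} [Field Ω] {B : Type} [AddCommGroup B]

/-- the map to the dual group -/
def Psi (P : B → B → Ω) (hne : ∀ x y, P x y ≠ 0) (al : ∀ x x' y, P (x + x') y = P x y * P x' y)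
    (ar : ∀ x y y', P x (y + y') = P x y * P x y') :
    Multiplicative B →* (Multiplicative B →* Ωˣ) :=
  MonoidHom.mk' (fun u => MonoidHom.mk' (fun t => Units.mk0 (P t.toAdd u.toAdd) (hne _ _))
    (fun s t => by
      ext
      exact al _ _ _))
    (fun u v => by
      ext t
      exact ar _ _ _)

theorem Psi_apply {P : B → B → Ω} (hne : ∀ x y, P x y ≠ 0)
    (al : ∀ x x' y, P (x + x') y = P x y * P x' y) (ar : ∀ x y y', P x (y + y') = P x y * P x y')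
    (u t : B) : ((Psi P hne al ar (Multiplicative.ofAdd u) (Multiplicative.ofAdd t) : Ωˣ) : Ω) = P t u :=
  rfl

variable [IsAlgClosed Ω] [Finite B] {N : ℕ}

theorem hasRoots (hN : (N : Ω) ≠ 0) (hB : ∀ x : B, N • x = 0) :
    HasEnoughRootsOfUnity Ω (Monoid.exponent (Multiplicative B)) := by
  have h1 : Monoid.exponent (Multiplicative B) ∣ N :=
    Monoid.exponent_dvd_of_forall_pow_eq_one fun x => hB x.toAdd
  have h2 : NeZero ((Monoid.exponent (Multiplicative B) : ℕ) : Ω) := by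
    refine ⟨fun h0 => hN ?_⟩
    obtain ⟨m, hm⟩ := h1
    rw [hm, Nat.cast_mul, h0, zero_mul]
  infer_instance

theorem Psi_surj (hN : (N : Ω) ≠ 0) (hB : ∀ x : B, N • x = 0) {P : B → B → Ω}
    (hne : ∀ x y, P x y ≠ 0) (al : ∀ x x' y, P (x + x') y = P x y * P x' y)
    (ar : ∀ x y y', P x (y + y') = P x y * P x y') (nd : ∀ y, (∀ x, P x y = 1) → y = 0) :
    Function.Surjective (Psi P hne al ar) := by
  have hr := hasRoots (B := B) hN hB
  have hinj : Function.Injective (Psi P hne al ar) := by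
    rw [injective_iff_map_eq_one]
    intro u hu
    have h1 : u.toAdd = 0 := nd _ fun x => by
      have := congrArg Units.val (DFunLike.congr_fun hu (Multiplicative.ofAdd x))
      exact this
    exact h1
  have hcard := CommGroup.card_monoidHom_of_hasEnoughRootsOfUnity (Multiplicative B) Ω
  have hpos : 0 < Nat.card (Multiplicative B) := Nat.card_pos
  have hfin : Finite (Multiplicative B →* Ωˣ) := Nat.finite_of_card_ne_zero (by rw [hcard]; exact hpos.ne')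
  exact ((Nat.bijective_iff_injective_and_card _).2 ⟨hinj, hcard.symm⟩).2

theorem dual_perf (hN : (N : Ω) ≠ 0) (hB : ∀ x : B, N • x = 0) {P : B → B → Ω}
    (hne : ∀ x y, P x y ≠ 0) (al : ∀ x x' y, P (x + x') y = P x y * P x' y)
    (ar : ∀ x y y', P x (y + y') = P x y * P x y') (nd : ∀ y, (∀ x, P x y = 1) → y = 0)
    (D : AddSubgroup B) (χ : B → Ω) (h0 : ∀ t ∈ D, χ t ≠ 0)
    (h1 : ∀ t ∈ D, ∀ t' ∈ D, χ (t + t') = χ t * χ t') : ∃ u, ∀ t ∈ D, P t u = χ t := by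
  have hr := hasRoots (B := B) hN hB
  let χ' : AddSubgroup.toSubgroup D →* Ωˣ := MonoidHom.mk'
    (fun t => Units.mk0 (χ t.1.toAdd) (h0 _ t.2)) (fun s t => by
      ext
      exact h1 _ s.2 _ t.2)
  obtain ⟨φ, hφ⟩ := MonoidHom.domRestrict_surjective (M := Ω) (AddSubgroup.toSubgroup D) χ'
  obtain ⟨u, hu⟩ := Psi_surj hN hB hne al ar nd φ
  refine ⟨u.toAdd, fun t ht => ?_⟩
  have h2 : φ (Multiplicative.ofAdd t) = χ' ⟨Multiplicative.ofAdd t, ht⟩ := by rw [← hφ]; rfl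
  have h3 : ((Psi P hne al ar u (Multiplicative.ofAdd t) : Ωˣ) : Ω) = P t u.toAdd := rfl
  rw [← h3, hu, h2]
  rfl

theorem dual_card (hN : (N : Ω) ≠ 0) (hB : ∀ x : B, N • x = 0) {P : B → B → Ω}
    (hne : ∀ x y, P x y ≠ 0) (al : ∀ x x' y, P (x + x') y = P x y * P x' y)
    (ar : ∀ x y y', P x (y + y') = P x y * P x y') (nd : ∀ y, (∀ x, P x y = 1) → y = 0)
    (D : AddSubgroup B) (hD : ∀ u, u ∈ D ↔ ∀ t ∈ D, P t u = 1) :
    Nat.card (B ⧸ D) = Nat.card D := by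
  have hr := hasRoots (B := B) hN hB
  let D' := AddSubgroup.toSubgroup D
  have hr' : HasEnoughRootsOfUnity Ω (Monoid.exponent D') :=
    hr.of_dvd Ω <| Monoid.exponent_submonoid_dvd D'.toSubmonoid
  let F : Multiplicative B →* (D' →* Ωˣ) := (MonoidHom.domRestrictHom D' Ωˣ).comp (Psi P hne al ar)
  have hF : Function.Surjective F := (MonoidHom.domRestrict_surjective (M := Ω) D').comp
    (Psi_surj hN hB hne al ar nd)
  have hker : F.ker = D' := by
    ext u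
    rw [MonoidHom.mem_ker]
    constructor
    · intro hu
      apply (hD u.toAdd).2
      intro t ht
      have := congrArg Units.val (DFunLike.congr_fun hu (⟨Multiplicative.ofAdd t, ht⟩ : D'))
      exact this
    · intro hu
      ext t
      exact (hD u.toAdd).1 hu _ t.2
  have h1 : Nat.card (Multiplicative B ⧸ F.ker) = Nat.card (D' →* Ωˣ) :=
    Nat.card_congr (QuotientGroup.quotientKerEquivOfSurjective F hF).toEquiv
  rw [CommGroup.card_monoidHom_of_hasEnoughRootsOfUnity D' Ω, hker] at h1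
  exact h1

end


open IntermediateField Pool.Agent.TIFA GT TIF


open Pool.Agent.TIFB

/-- the number of points of level `ℓ ^ n` -/
theorem TBs_card {B : Type} [CommGroup B] {ℓ : ℕ} [Fact ℓ.Prime] {h : ℕ}
    {tau : ℕ → (Fin h → ℤ_[ℓ]) → B} (H : TBs ℓ h tau) (n : ℕ) :
    Nat.card {D : B // D ^ ℓ ^ n = 1} = (ℓ ^ n) ^ h := by
  have hp : ∀ x, tau n x ^ ℓ ^ n = 1 := by
    intro x
    have h1 : ∀ m, tau m x ^ ℓ ^ m = tau 0 x := by
      intro m
      induction m with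
      | zero => rw [pow_zero, pow_one]
      | succ m ih => rw [pow_succ', pow_mul, H.step, ih]
    rw [h1]
    exact (H.ker 0 x).2 ⟨x, by rw [pow_zero, one_smul]⟩
  let F : (Fin h → Fin (ℓ ^ n)) → {D : B // D ^ ℓ ^ n = 1} :=
    fun a => ⟨tau n fun i => ((a i : ℕ) : ℤ_[ℓ]), hp _⟩
  have hsurj : Function.Surjective F := by
    rintro ⟨D, hD⟩
    obtain ⟨x, rfl⟩ := H.sur n D hD
    refine ⟨fun i => ⟨(x i).appr n, PadicInt.appr_lt _ _⟩, Subtype.ext ?_⟩
    have h2 : ∀ i, ∃ y : ℤ_[ℓ], x i - (x i).appr n = (ℓ : ℤ_[ℓ]) ^ n * y := by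
      intro i
      have := PadicInt.appr_spec n (x i)
      rwa [Ideal.mem_span_singleton] at this
    choose y hy using h2
    have h3 : x = (fun i => (((x i).appr n : ℕ) : ℤ_[ℓ])) + (ℓ : ℤ_[ℓ]) ^ n • y := by
      funext i
      rw [Pi.add_apply, Pi.smul_apply, smul_eq_mul, ← hy i]
      ring
    have h4 := H.add n (fun i => (((x i).appr n : ℕ) : ℤ_[ℓ])) ((ℓ : ℤ_[ℓ]) ^ n • y)
    rw [← h3, (H.ker n _).2 ⟨y, rfl⟩, mul_one] at h4
    exact h4.symm
  have hinj : Function.Injective F := by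
    intro a b hab
    have h1 : tau n (fun i => ((a i : ℕ) : ℤ_[ℓ])) = tau n (fun i => ((b i : ℕ) : ℤ_[ℓ])) :=
      congrArg Subtype.val hab
    have h2 : tau n ((fun i => ((a i : ℕ) : ℤ_[ℓ])) - (fun i => ((b i : ℕ) : ℤ_[ℓ]))) = 1 := by
      have h3 := H.add n ((fun i => ((a i : ℕ) : ℤ_[ℓ])) - (fun i => ((b i : ℕ) : ℤ_[ℓ])))
        (fun i => ((b i : ℕ) : ℤ_[ℓ]))
      rw [sub_add_cancel, h1] at h3
      exact mul_eq_right.1 h3.symm
    obtain ⟨y, hy⟩ := (H.ker n _).1 h2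
    funext i
    have h4 := congrFun hy i
    rw [Pi.sub_apply, Pi.smul_apply, smul_eq_mul] at h4
    have h5 : (((a i : ℕ) : ZMod (ℓ ^ n))) = (((b i : ℕ) : ZMod (ℓ ^ n))) := by
      have h6 := congrArg (PadicInt.toZModPow n) h4
      rw [map_sub, map_natCast, map_natCast, map_mul, map_pow, map_natCast, ← Nat.cast_pow,
        ZMod.natCast_self, zero_mul, sub_eq_zero] at h6
      exact h6
    have h7 := (ZMod.natCast_eq_natCast_iff' _ _ _).1 h5
    rw [Nat.mod_eq_of_lt (a i).2, Nat.mod_eq_of_lt (b i).2] at h7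
    exact Fin.ext h7
  rw [← Nat.card_congr (Equiv.ofBijective F ⟨hinj, hsurj⟩), Nat.card_eq_fintype_card,
    Fintype.card_fun, Fintype.card_fin, Fintype.card_fin]

section

variable {k Ω : Type} [Field k] [Finite k] [Field Ω] [Algebra k Ω] [IsAlgClosed Ω] {d : ℕ} [NeZero d]
  {T : Tab Ω d} [IsDedekindDomain (WB T)] {ρ : Type} [Fintype ρ]

/-- the points of level `ℓ ^ n` -/
def BB (hT : Tk k T) (ρ : Type) (ℓ n : ℕ) : AddSubgroup (ρ → JJ hT) where
  carrier := {x | ℓ ^ n • x = 0}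
  add_mem' := by
    intro x y hx hy
    rw [Set.mem_ofPred_eq] at *
    rw [smul_add, hx, hy, add_zero]
  zero_mem' := smul_zero _
  neg_mem' := by
    intro x hx
    rw [Set.mem_ofPred_eq] at *
    rw [smul_neg, hx, neg_zero]

theorem mem_BB {hT : Tk k T} {ℓ n : ℕ} {x : ρ → JJ hT} : x ∈ BB hT ρ ℓ n ↔ ℓ ^ n • x = 0 := Iff.rfl

theorem coord {hT : Tk k T} {ℓ n : ℕ} {x : ρ → JJ hT} (hx : ℓ ^ n • x = 0) (r : ρ) :
    ofJ (x r) ^ ℓ ^ n = 1 := congrFun hx r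

theorem exists_tau (hT : Tk k T) (ℓ : ℕ) [Fact ℓ.Prime] (hℓ : (ℓ : k) ≠ 0) :
    ∃ tau : ℕ → (Fin (2 * gp T) → ℤ_[ℓ]) → ClassGroup (WB T), TBs ℓ (2 * gp T) tau := by
  have hℓΩ : (ℓ : Ω) ≠ 0 := by
    rw [← map_natCast (algebraMap k Ω)]
    exact (map_ne_zero _).2 hℓ
  exact exists_TBs (Pool.Agent.TIFS.cl_dvd hℓΩ) (Pool.Agent.TIFS.card_tors_eq hT ℓ hℓ)

theorem hfin (hT : Tk k T) (ℓ : ℕ) [Fact ℓ.Prime] (hℓ : (ℓ : k) ≠ 0) (n : ℕ) :
    {x : JJ hT | ℓ ^ n • x = 0}.Finite := by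
  obtain ⟨tau, H⟩ := exists_tau hT ℓ hℓ
  have h1 := TBs_card H n
  have h2 : Finite {D : ClassGroup (WB T) // D ^ ℓ ^ n = 1} :=
    Nat.finite_of_card_ne_zero (by
      rw [h1]
      exact pow_ne_zero _ (pow_ne_zero _ (Fact.out : ℓ.Prime).ne_zero))
  exact (Set.finite_coe_iff (s := {D : ClassGroup (WB T) | D ^ ℓ ^ n = 1})).1 h2

theorem card_BB (hT : Tk k T) (ℓ : ℕ) [Fact ℓ.Prime] (hℓ : (ℓ : k) ≠ 0) (n : ℕ) :
    Nat.card (BB hT ρ ℓ n) = ((ℓ ^ n) ^ (2 * gp T)) ^ Fintype.card ρ := by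
  obtain ⟨tau, H⟩ := exists_tau hT ℓ hℓ
  have E : BB hT ρ ℓ n ≃ (ρ → {D : ClassGroup (WB T) // D ^ ℓ ^ n = 1}) :=
    { toFun := fun x r => ⟨ofJ (x.1 r), coord x.2 r⟩
      invFun := fun f => ⟨fun r => toJ hT (f r).1, funext fun r => (f r).2⟩
      left_inv := fun x => rfl
      right_inv := fun f => rfl }
  rw [Nat.card_congr E, Nat.card_fun, TBs_card H n, Nat.card_eq_fintype_card]

theorem hcomp (hT : Tk k T) (ℓ : ℕ) (m n : ℕ) (x y : JJ hT) (hx : ℓ ^ n • x = 0)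
    (hy : ℓ ^ (m + n) • y = 0) : eJ hT ℓ Pool.Agent.TIFS.e (m + n) x y =
      eJ hT ℓ Pool.Agent.TIFS.e n x (ℓ ^ m • y) := by
  have h1 : ofJ x ^ ℓ ^ n = 1 := hx
  have h2 : ofJ y ^ (ℓ ^ n * ℓ ^ m) = 1 := by
    rw [← pow_add, add_comm n m]; exact hy
  have h3 := Pool.Agent.TIFS.e_compat h1 h2
  rw [← pow_add, add_comm n m] at h3
  exact h3

variable (hT : Tk k T) (ℓ : ℕ) [Fact ℓ.Prime]

theorem eA_ne {n : ℕ} {x y : ρ → JJ hT} (hx : ℓ ^ n • x = 0) (hy : ℓ ^ n • y = 0) :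
    eA (eJ hT ℓ Pool.Agent.TIFS.e) n x y ≠ 0 :=
  Finset.prod_ne_zero_iff.2 fun r _ => Pool.Agent.TIFS.e_ne (coord hx r) (coord hy r)

theorem eA_add_left {n : ℕ} {x x' y : ρ → JJ hT} (hx : ℓ ^ n • x = 0) (hx' : ℓ ^ n • x' = 0)
    (hy : ℓ ^ n • y = 0) : eA (eJ hT ℓ Pool.Agent.TIFS.e) n (x + x') y =
      eA (eJ hT ℓ Pool.Agent.TIFS.e) n x y * eA (eJ hT ℓ Pool.Agent.TIFS.e) n x' y := by
  rw [eA, eA, eA, ← Finset.prod_mul_distrib]
  exact Finset.prod_congr rfl fun r _ =>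
    Pool.Agent.TIFS.e_mul_left (coord hx r) (coord hx' r) (coord hy r)

theorem eA_add_right {n : ℕ} {x y y' : ρ → JJ hT} (hx : ℓ ^ n • x = 0) (hy : ℓ ^ n • y = 0)
    (hy' : ℓ ^ n • y' = 0) : eA (eJ hT ℓ Pool.Agent.TIFS.e) n x (y + y') =
      eA (eJ hT ℓ Pool.Agent.TIFS.e) n x y * eA (eJ hT ℓ Pool.Agent.TIFS.e) n x y' := by
  rw [eA, eA, eA, ← Finset.prod_mul_distrib]
  exact Finset.prod_congr rfl fun r _ =>
    Pool.Agent.TIFS.e_mul_right (coord hx r) (coord hy r) (coord hy' r)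

theorem eA_anti {n : ℕ} {x y : ρ → JJ hT} (hx : ℓ ^ n • x = 0) (hy : ℓ ^ n • y = 0) :
    eA (eJ hT ℓ Pool.Agent.TIFS.e) n x y * eA (eJ hT ℓ Pool.Agent.TIFS.e) n y x = 1 := by
  rw [eA, eA, ← Finset.prod_mul_distrib]
  exact Finset.prod_eq_one fun r _ => Pool.Agent.TIFS.e_anti (coord hx r) (coord hy r)

theorem eA_nd (hℓ : (ℓ : k) ≠ 0) {n : ℕ} {y : ρ → JJ hT} (hy : ℓ ^ n • y = 0)
    (h : ∀ x : ρ → JJ hT, ℓ ^ n • x = 0 → eA (eJ hT ℓ Pool.Agent.TIFS.e) n x y = 1) : y = 0 := by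
  classical
  have hN : ((ℓ ^ n : ℕ) : Ω) ≠ 0 := by
    rw [Nat.cast_pow, ← map_natCast (algebraMap k Ω)]
    exact pow_ne_zero _ ((map_ne_zero _).2 hℓ)
  funext r
  have h1 : ofJ (y r) = 1 := by
    refine Pool.Agent.TIFS.e_nondeg' hN (coord hy r) fun D hD => ?_
    have h2 := h (Pi.single r (toJ hT D)) (by
      rw [← Pi.single_smul]
      have : ℓ ^ n • toJ hT D = 0 := hD
      rw [this, Pi.single_zero])
    rw [eA, Finset.prod_eq_single r] at h2
    · rw [Pi.single_eq_same] at h2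
      exact h2
    · intro s _ hs
      rw [Pi.single_eq_of_ne hs]
      exact Pool.Agent.TIFS.e_one_left (coord hy s)
    · intro hr
      exact absurd (Finset.mem_univ r) hr
  exact h1

/-- **DUA** -/
theorem dua (hℓ : (ℓ : k) ≠ 0) :
    Dua k Ω (JJ hT) ρ ℓ (eJ hT ℓ Pool.Agent.TIFS.e) (gp T) := by
  have hℓΩ : (ℓ : Ω) ≠ 0 := by
    rw [← map_natCast (algebraMap k Ω)]
    exact (map_ne_zero _).2 hℓ
  have hlp : 0 < ℓ := (Fact.out : ℓ.Prime).pos
  -- the pairing on the points of level `ℓ ^ n`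
  have hfB : ∀ n, Finite (BB hT ρ ℓ n) := fun n => Nat.finite_of_card_ne_zero (by
    rw [card_BB hT ℓ hℓ n]
    exact pow_ne_zero _ (pow_ne_zero _ (pow_ne_zero _ hlp.ne')))
  have hN : ∀ n, ((ℓ ^ n : ℕ) : Ω) ≠ 0 := fun n => by
    rw [Nat.cast_pow]; exact pow_ne_zero _ hℓΩ
  let P : ∀ n, BB hT ρ ℓ n → BB hT ρ ℓ n → Ω := fun n x y =>
    eA (eJ hT ℓ Pool.Agent.TIFS.e) n x.1 y.1
  have hne : ∀ n x y, P n x y ≠ 0 := fun n x y => eA_ne hT ℓ x.2 y.2
  have al : ∀ n x x' y, P n (x + x') y = P n x y * P n x' y := fun n x x' y =>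
    eA_add_left hT ℓ x.2 x'.2 y.2
  have ar : ∀ n x y y', P n x (y + y') = P n x y * P n x y' := fun n x y y' =>
    eA_add_right hT ℓ x.2 y.2 y'.2
  have nd : ∀ n y, (∀ x, P n x y = 1) → y = 0 := fun n y h =>
    Subtype.ext (eA_nd hT ℓ hℓ y.2 fun x hx => h ⟨x, hx⟩)
  have hB : ∀ n (x : BB hT ρ ℓ n), ℓ ^ n • x = 0 := fun n x => Subtype.ext x.2
  refine
    { fin := hfin hT ℓ hℓ
      ne := fun n x y hx hy => eA_ne hT ℓ hx hy
      perf := ?_
      idx := ?_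
      hcomp := fun m n x y hx hy => hcomp hT ℓ m n x y hx hy
      add_left := fun n x x' y hx hx' hy => eA_add_left hT ℓ hx hx' hy
      add_right := fun n x y y' hx hy hy' => eA_add_right hT ℓ hx hy hy'
      anti := fun n x y hx hy => eA_anti hT ℓ hx hy }
  · intro L χ h0 h1
    obtain ⟨u, hu⟩ := dual_perf (hN (2 * L.c)) (hB (2 * L.c)) (hne _) (al _) (ar _) (nd _)
      (L.D.comap (BB hT ρ ℓ (2 * L.c)).subtype) (fun t => χ t.1)
      (fun t ht => h0 t.1 ht) (fun t ht t' ht' => h1 t.1 ht t'.1 ht')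
    exact ⟨u.1, u.2, fun t ht => hu ⟨t, ((L.lag t).1 ht).1⟩ ht⟩
  · intro L
    have hcard := dual_card (hN (2 * L.c)) (hB (2 * L.c)) (hne _) (al _) (ar _) (nd _)
      (L.D.comap (BB hT ρ ℓ (2 * L.c)).subtype) (by
        intro u
        rw [AddSubgroup.mem_comap]
        constructor
        · intro hu t ht
          exact ((L.lag t.1).1 ht).2 _ hu
        · intro hu
          refine (L.lag _).2 ⟨u.2, fun y hy => ?_⟩
          have h2 := hu ⟨y, ((L.lag y).1 hy).1⟩ hy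
          have h3 := eA_anti hT ℓ (n := 2 * L.c) (x := u.1) (y := y) u.2 ((L.lag y).1 hy).1
          change eA (eJ hT ℓ Pool.Agent.TIFS.e) (2 * L.c) y u.1 = 1 at h2
          rw [h2, mul_one] at h3
          exact h3)
    have hcB := card_BB (ρ := ρ) hT ℓ hℓ (2 * L.c)
    have hmul := AddSubgroup.card_eq_card_quotient_mul_card_addSubgroup
      (L.D.comap (BB hT ρ ℓ (2 * L.c)).subtype)
    have hexp : ((ℓ ^ (2 * L.c)) ^ (2 * gp T)) ^ Fintype.card ρ =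
        ((ℓ ^ (2 * L.c)) ^ (gp T * Fintype.card ρ)) ^ 2 := by
      rw [← pow_mul (ℓ ^ (2 * L.c)), ← pow_mul (ℓ ^ (2 * L.c))]
      congr 1
      ring
    rw [hcB, ← hcard, ← pow_two, hexp] at hmul
    have hq := (Nat.pow_left_injective (n := 2) (by norm_num) hmul).symm
    have hfq : Finite (BB hT ρ ℓ (2 * L.c) ⧸ L.D.comap (BB hT ρ ℓ (2 * L.c)).subtype) :=
      inferInstance
    let E := Finite.equivFinOfCardEq hq
    refine ⟨fun i => (Quotient.out (E.symm i)).1, fun i => (Quotient.out (E.symm i)).2,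
      fun i j hij => ?_⟩
    apply E.symm.injective
    rw [← Quotient.out_eq (E.symm i), ← Quotient.out_eq (E.symm j)]
    refine (QuotientAddGroup.eq (s := L.D.comap (BB hT ρ ℓ (2 * L.c)).subtype)).2 ?_
    rw [AddSubgroup.mem_comap]
    have := L.D.neg_mem hij
    rw [neg_sub] at this
    convert this using 1
    exact (sub_eq_neg_add _ _).symm

end

end TIFG.DuaI

namespace TIFG

open IntermediateField Pool.Agent.TIFA GT TIF

/-- **DUA** -/
theorem dua {k Ω : Type} [Field k] [Finite k] [Field Ω] [Algebra k Ω] [IsAlgClosed Ω] {d : ℕ} [NeZero d]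
    {T : Tab Ω d} [IsDedekindDomain (WB T)] {ρ : Type} [Fintype ρ] (hT : Tk k T) (ℓ : ℕ)
    [Fact ℓ.Prime] (hℓ : (ℓ : k) ≠ 0) :
    Dua k Ω (JJ hT) ρ ℓ (eJ hT ℓ Pool.Agent.TIFS.e) (gp T) :=
  DuaI.dua hT ℓ hℓ

end TIFG
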