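import Mathlib
import Pool.Agent.TIFP.Crit
import Pool.Agent.TIFP.Conj
import Pool.Agent.TIFT.C1
import Pool.Agent.TIFG.Defs
import Pool.Agent.TIF.EndADefs

/-!
# [TIF PIG] the rational elements and the generic points of the Jacobian: the instance of `Uni`
-/

set_option autoImplicit false
set_option linter.unusedSectionVars false

open Polynomial

namespace TIFG

open Pool.Agent GT TIF Pool.Agent.TIFT

section

variable {k Ω : Type} [Field k] [Field Ω] [Algebra k Ω] [IsAlgClosed Ω] {d : ℕ} [NeZero d]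
  {T : Tab Ω d} [IsDedekindDomain (WB T)] {ρ : Type} [Fintype ρ]

theorem small_T {K : IntermediateField k Ω} (h : TIFG.Small K) : TIFT.Small K := by
  obtain ⟨S, hS⟩ := h
  refine TIFP.small_iff.2 ⟨S, hS.trans (sup_le ?_ (TIFP.le_acl _))⟩
  intro x hx
  rw [TIFP.mem_acl]
  have h1 : IsAlgebraic k x := mem_algebraicClosure_iff.1 hx
  exact h1.tower_top _

/-- rational elements of the conjugate -/
theorem JK_map (hT : Tk k T) (σ : Ω ≃ₐ[k] Ω) (K : IntermediateField k Ω) {x : ClassGroup (WB T)}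
    (hx : x ∈ JK (T := T) (K : Set Ω)) :
    act hT σ x ∈ JK (T := T) ((K.map (σ : Ω →ₐ[k] Ω) : IntermediateField k Ω) : Set Ω) := by
  have hmap : (rdc x).map (rac hT σ) = rdc (act hT σ x) := rdc_map _ x
  have h1 : RatI (K : Set Ω) (rdc x) := hx
  change RatI _ (rdc (act hT σ x))
  rw [← hmap]
  refine le_antisymm ?_ (Ideal.span_le.2 fun y hy => hy.1)
  conv_lhs => rw [h1]
  rw [Ideal.map_span, Ideal.span_le]
  rintro _ ⟨b, hb, rfl⟩
  refine Ideal.subset_span ⟨Ideal.mem_map_of_mem _ hb.1, fun j n => ?_⟩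
  refine ⟨(b.co j).coeff n, hb.2 j n, ?_⟩
  change σ _ = ((rac hT σ b).co j).coeff n
  rw [rac, bE_co, coeff_map]
  rfl

/-- the elements over `K` are fixed by the automorphisms over `K` -/
theorem JK_fix (hT : Tk k T) (K : IntermediateField k Ω) {x : ClassGroup (WB T)}
    (hx : x ∈ JK (T := T) (K : Set Ω)) (σ : Ω ≃ₐ[k] Ω) (hσ : ∀ c ∈ K, σ c = c) :
    act hT σ x = x :=
  (act_eq_iff hT σ x).2 fun c hc => hσ c ((mem_JK_iff hT K x).1 hx hc)

/-- every class is rational over a finitely generated field -/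
theorem JK_fin (hT : Tk k T) (x : ClassGroup (WB T)) :
    ∃ S : Finset Ω, x ∈ JK (T := T) (IntermediateField.adjoin k (S : Set Ω) : Set Ω) := by
  classical
  have hrat : RatI (kD k x : Set Ω) (rdc x) := (mem_JK_iff hT (kD k x) x).2 le_rfl
  have hfg : (Ideal.span {b | b ∈ rdc x ∧ Cf (kD k x : Set Ω) b}).FG := IsNoetherian.noetherian _
  obtain ⟨G, hG, hspan⟩ := (Submodule.fg_span_iff_fg_span_finset_subset _).1 hfg
  let S : Finset Ω := G.biUnion fun b => Finset.univ.biUnion fun j : ZMod d =>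
    (b.co j).support.image fun n => (b.co j).coeff n
  set L : IntermediateField k Ω := IntermediateField.adjoin k (S : Set Ω) with hL
  have h1 : ∀ b ∈ G, Cf (L : Set Ω) b := by
    intro b hb j n
    by_cases hn : n ∈ (b.co j).support
    · refine IntermediateField.subset_adjoin k _ ?_
      rw [Finset.mem_coe]
      exact Finset.mem_biUnion.2 ⟨b, hb, Finset.mem_biUnion.2 ⟨j, Finset.mem_univ j,
        Finset.mem_image.2 ⟨n, hn, rfl⟩⟩⟩
    · rw [notMem_support_iff.1 hn]
      exact L.zero_mem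
  refine ⟨S, ?_⟩
  change RatI _ _
  refine le_antisymm ?_ (Ideal.span_le.2 fun y hy => hy.1)
  conv_lhs => rw [hrat.trans hspan]
  exact Ideal.span_mono fun b hb => ⟨(hG hb).1, h1 b hb⟩

theorem xx_aP (hT : Tk k T) (σ : Ω ≃ₐ[k] Ω) (P : Pt T) : xx (aP hT σ P) = σ (xx P) := by
  have h : (rac hT σ).symm (WB.x T) = WB.x T := by
    rw [RingEquiv.symm_apply_eq]
    refine WB.ext (funext fun j => Polynomial.ext fun n => ?_)
    rw [rac, bE_co, coeff_map]
    simp only [WB.x, WB.algebraMap_co]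
    split_ifs
    · rw [coeff_X]
      split_ifs
      · exact (map_one (σ : Ω →+* Ω)).symm
      · exact (map_zero (σ : Ω →+* Ω)).symm
    · rw [coeff_zero]
      exact (map_zero (σ : Ω →+* Ω)).symm
  change σ (P ((rac hT σ).symm (WB.x T))) = _
  rw [h]
  rfl

theorem ind_map (hT : Tk k T) (σ : Ω ≃ₐ[k] Ω) (K : IntermediateField k Ω) {X : List (Pt T)}
    (h : Ind K X) : Ind (K.map (σ : Ω →ₐ[k] Ω)) (X.map (aP hT σ)) := by
  have h1 : AlgebraicIndependent K fun i : Fin X.length => xx (X.get i) := h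
  have h2 := h1.ringHom_of_comp_eq (S := K.map (σ : Ω →ₐ[k] Ω)) (B := Ω)
    (IntermediateField.intermediateFieldMap σ K : K ≃ₐ[k] _) (σ : Ω →+* Ω)
    (IntermediateField.intermediateFieldMap σ K).surjective σ.injective (RingHom.ext fun c => rfl)
  rw [← algebraicIndependent_equiv (finCongr (List.length_map (aP hT σ) (as := X)))] at h2
  change AlgebraicIndependent _ _
  convert h2 using 1
  funext i
  simp only [Function.comp_apply, List.get_eq_getElem, List.getElem_map, finCongr_apply_coe]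
  exact xx_aP hT σ _

/-- the conjugate of a generic point -/
theorem genA_map (hT : Tk k T) (σ : Ω ≃ₐ[k] Ω) (K : IntermediateField k Ω)
    {x : ρ → ClassGroup (WB T)} (hx : GenA K x) :
    GenA (K.map (σ : Ω →ₐ[k] Ω)) (fun r => act hT σ (x r)) := by
  classical
  obtain ⟨X, hg, hX, hXx⟩ := hx
  refine ⟨fun r => (X r).map (aP hT σ), fun r => by rw [List.length_map, hg], ?_, fun r => by
    rw [cl_aP, hXx]⟩
  have hmem : ∀ r : ρ, r ∈ (Finset.univ : Finset ρ).toList := fun r =>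
    Finset.mem_toList.2 (Finset.mem_univ r)
  rw [indA_iff (Finset.nodup_toList _) hmem] at hX ⊢
  have h1 := ind_map hT σ K hX
  rwa [List.map_flatMap] at h1

/-- independence over the small subfields -/
theorem ai_of_small {ι : Type} {K : IntermediateField k Ω} {x : ι → Ω}
    (h : ∀ K₀ : IntermediateField k Ω, K₀ ≤ K → TIFT.Small K₀ → AlgebraicIndependent K₀ x) :
    AlgebraicIndependent K x := by
  classical
  rw [algebraicIndependent_iff]
  intro p hp
  let S : Finset Ω := p.coeffs.image (algebraMap K Ω)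
  set K₀ : IntermediateField k Ω := IntermediateField.adjoin k (S : Set Ω) with hK₀
  have hle : K₀ ≤ K := by
    rw [hK₀, IntermediateField.adjoin_le_iff]
    intro c hc
    rw [Finset.mem_coe, Finset.mem_image] at hc
    obtain ⟨a, _, rfl⟩ := hc
    exact a.2
  have hs : TIFT.Small K₀ := TIFP.small_iff.2 ⟨S, TIFP.le_acl _⟩
  have h1 : p ∈ Set.range (MvPolynomial.map (σ := ι) (IntermediateField.inclusion hle : K₀ →+* K)) := by
    rw [MvPolynomial.mem_range_map_iff_coeffs_subset]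
    intro c hc
    have h2 : (c : Ω) ∈ K₀ := by
      refine IntermediateField.subset_adjoin k _ ?_
      rw [Finset.mem_coe]
      exact Finset.mem_image_of_mem _ hc
    exact ⟨⟨(c : Ω), h2⟩, Subtype.ext rfl⟩
  obtain ⟨q, hq⟩ := h1
  have h3 : MvPolynomial.aeval x q = 0 := by
    rw [MvPolynomial.aeval_def] at hp ⊢
    rw [← hq, MvPolynomial.eval₂_map] at hp
    exact hp
  rw [← hq, (algebraicIndependent_iff.1 (h K₀ hle hs)) q h3, map_zero]

/-- generic over the small subfields -/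
theorem genA_of_small (hU : Univ k Ω) (hT : Tk k T) {K : IntermediateField k Ω}
    {x : ρ → ClassGroup (WB T)}
    (h : ∀ K₀ : IntermediateField k Ω, K₀ ≤ K → TIFT.Small K₀ → GenA K₀ x) : GenA K x := by
  choose X hX using fun r => exists_dI (rdc_ne (x r))
  refine ⟨X, (genA_rdc hU hT TIFP.small_bot (h ⊥ bot_le TIFP.small_bot) hX).2, ?_, fun r => ?_⟩
  · exact ai_of_small fun K₀ h1 h2 => (genA_rdc hU hT h2 (h K₀ h1 h2) hX).1
  · rw [cl, hX r]
    exact cls_rdc (x r)

theorem genA_mul' (hU : Univ k Ω) (hT : Tk k T) {K : IntermediateField k Ω}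
    {x z : ρ → ClassGroup (WB T)} (h : GenA K x)
    (hz : ∀ r, z r ∈ JK (T := T) (K : Set Ω)) : GenA K (x * z) := by
  refine genA_of_small hU hT fun K₀ h1 h2 => ?_
  have h3 : TIFT.Small (K₀ ⊔ ⨆ r, kD k (z r)) :=
    TIFP.small_sup h2 (TIFP.small_iSup fun r => TIFP.small_kD hT (z r))
  have h4 : K₀ ⊔ ⨆ r, kD k (z r) ≤ K :=
    sup_le h1 (iSup_le fun r => (mem_JK_iff hT K (z r)).1 (hz r))
  refine genA_mono le_sup_left (genA_mul hU hT h3 (genA_mono h4 h) fun r => ?_)
  refine (mem_JK_iff hT _ (z r)).2 ?_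
  exact (le_iSup (fun r => kD k (z r)) r).trans (le_sup_right.trans (TIFP.le_acl _))

theorem genA_inv' (hU : Univ k Ω) (hT : Tk k T) {K : IntermediateField k Ω}
    {x : ρ → ClassGroup (WB T)} (h : GenA K x) : GenA K x⁻¹ :=
  genA_of_small hU hT fun _ h1 h2 => genA_inv hU hT h2 (genA_mono h1 h)

/-- `x` with `g x` known up to torsion is rational over the algebraic closure -/
theorem JK_acl_of (hT : Tk k T) {L : IntermediateField k Ω} {n : ℕ} (hn : (n : k) ≠ 0)
    {x : ClassGroup (WB T)}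
    (h : ∀ σ : Ω ≃ₐ[k] Ω, (∀ c ∈ acl L, σ c = c) → ∃ t, act hT σ t = t ∧ t ^ n = 1 ∧
      act hT σ x = x * t) : x ∈ JK (T := T) (acl L : Set Ω) := by
  rw [mem_JK_iff hT]
  intro c hc
  by_contra hcL
  have htr : Transcendental (acl L) c := by
    intro halg
    apply hcL
    rw [← TIFP.acl_acl, TIFP.mem_acl]
    exact halg
  have htr' : Transcendental (acl L) (c + 1) := by
    intro halg
    apply htr
    have := halg.sub (isAlgebraic_one (R := acl L) (A := Ω))
    rwa [add_sub_cancel_right] at this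
  have hker : ∀ b : Ω, Transcendental (acl L) b →
      RingHom.ker (MvPolynomial.aeval (fun _ : Fin 1 => b) : MvPolynomial (Fin 1) (acl L) →ₐ[acl L] Ω) = ⊥ := by
    intro b hb
    have h1 : AlgebraicIndependent (acl L) (fun _ : Fin 1 => b) :=
      algebraicIndependent_unique_type_iff.2 hb
    exact (RingHom.injective_iff_ker_eq_bot _).1 h1
  obtain ⟨σ, hσ⟩ := TIFP.exists_conj (k := acl L) (fun _ : Fin 1 => c) (fun _ => c + 1)
    ((hker c htr).trans (hker _ htr').symm)
  let τ : Ω ≃ₐ[k] Ω := σ.restrictScalars k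
  have hτc : τ c = c + 1 := hσ 0
  have hτ : ∀ a ∈ acl L, τ a = a := fun a ha => σ.commutes (⟨a, ha⟩ : acl L)
  obtain ⟨t, ht, htn, htx⟩ := h τ hτ
  have hpow : ∀ m : ℕ, act hT (τ ^ m) x = x * t ^ m := by
    intro m
    induction m with
    | zero => rw [pow_zero, pow_zero, act_one, mul_one]
    | succ m ih =>
      rw [pow_succ', act_mul, ih, map_mul, htx, map_pow, ht, pow_succ', mul_assoc]
  have h1 := hpow n
  rw [htn, mul_one] at h1
  have h2 : (τ ^ n) c = c := (act_eq_iff hT _ x).1 h1 c hc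
  have h3 : ∀ m : ℕ, (τ ^ m) c = c + m := by
    intro m
    induction m with
    | zero => rw [pow_zero, Nat.cast_zero, add_zero]; rfl
    | succ m ih =>
      rw [pow_succ', AlgEquiv.mul_apply, ih, map_add, hτc, map_natCast, Nat.cast_succ]
      ring
  rw [h3] at h2
  apply hn
  have h4 : (n : Ω) = 0 := by simpa using h2
  apply (algebraMap k Ω).injective
  rw [map_natCast, h4, map_zero]

/-- regular extension -/
theorem JK_reg [PerfectField k] (hU : Univ k Ω) (hT : Tk k T) {K : IntermediateField k Ω}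
    (hK : TIFT.Small K) : ∃ (x : ρ → ClassGroup (WB T)) (K₁ : IntermediateField k Ω),
      GenA (kbF k Ω ⊔ K) x ∧ K ≤ K₁ ∧ (∀ r, x r ∈ JK (T := T) (K₁ : Set Ω)) ∧
      ∀ z ∈ JK (T := T) (K₁ : Set Ω), (∀ σ : Ω ≃ₐ[k] Ω, (∀ c ∈ K, σ c = c) → act hT σ z = z) →
        z ∈ JK (T := T) (K : Set Ω) := by
  classical
  obtain ⟨p, hp⟩ := ExpChar.exists k
  have hs : TIFT.Small (kbF k Ω ⊔ K) := TIFP.small_sup (small_kb k Ω) hK
  obtain ⟨x, hx⟩ := exists_genA (ρ := ρ) hU T hs
  obtain ⟨X, hXg, hX, hXx⟩ := id hx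
  set l : List ρ := Finset.univ.toList with hl
  have hlmem : ∀ r, r ∈ l := fun r => Finset.mem_toList.2 (Finset.mem_univ r)
  have hInd : Ind (kbF k Ω ⊔ K) (l.flatMap X) := (indA_iff (Finset.nodup_toList _) hlmem).1 hX
  refine ⟨x, kL K (l.flatMap X), hx, le_sup_left, fun r => ?_, fun z hz hfix => ?_⟩
  · rw [← hXx r]
    refine cl_mem_JK hT _ fun P hP b hb => ?_
    have h1 : P ∈ l.flatMap X := List.mem_flatMap.2 ⟨r, hlmem r, hP⟩
    have h2 : kP k P ≤ kL K (l.flatMap X) := by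
      have h3 : kP k P ≤ ⨆ P ∈ l.flatMap X, kP k P := le_iSup₂_of_le P h1 le_rfl
      exact h3.trans le_sup_right
    exact h2 (IntermediateField.subset_adjoin _ _ ⟨b, hb, rfl⟩)
  · rw [mem_JK_iff hT] at hz ⊢
    intro c hc
    have h1 : ∀ σ : Ω ≃ₐ[k] Ω, (∀ a ∈ K, σ a = a) → σ c = c := fun σ hσ =>
      (act_eq_iff hT σ z).1 (hfix σ hσ) c hc
    obtain ⟨n, hn⟩ := TIFP.pow_mem_of_fixed p K c h1
    have halg : IsAlgebraic (kbF k Ω ⊔ K : IntermediateField k Ω) c := by
      have hpos : 0 < p ^ n := pow_pos (expChar_pos k p) n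
      have h2 : c ^ p ^ n ∈ acl (kbF k Ω ⊔ K) := TIFP.le_acl _ (le_sup_right (a := kbF k Ω) hn)
      exact IsAlgebraic.of_pow hpos (TIFP.mem_acl.1 h2)
    have h3 : c ∈ kL (kbF k Ω ⊔ K) (l.flatMap X) := by
      have h4 : kL K (l.flatMap X) ≤ kL (kbF k Ω ⊔ K) (l.flatMap X) :=
        sup_le (le_sup_right.trans le_sup_left) le_sup_right
      exact h4 (hz hc)
    have hc₂ : c ∈ kbF k Ω ⊔ K := TIFP.mem_of_alg_kL hT hInd h3 halg
    rw [sup_comm] at hc₂
    exact TIFP.mem_of_pow_mem p hc₂ hn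

/-- the rational elements and the generic points of the Jacobian -/
noncomputable def uni [PerfectField k] (hU : Univ k Ω) (hT : Tk k T)
    (htors : ∀ n : ℕ, (n : k) ≠ 0 → ∀ D : ClassGroup (WB T), D ^ n = 1 →
      D ∈ JK (T := T) (TIF.kb k Ω)) : Uni k Ω (JJ hT) ρ where
  Rt K :=
    { carrier := {x | ofJ x ∈ JK (T := T) (K : Set Ω)}
      add_mem' := fun {x y} hx hy => JK_mul hT K hx hy
      zero_mem' := JK_one hT K
      neg_mem' := fun {x} hx => JK_inv hT K hx }
  Gn K x := GenA K fun r => ofJ (x r)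
  rt_mono K K' h x hx := JK_mono (T := T) (K := (K : Set Ω)) (K' := (K' : Set Ω)) h hx
  rt_inf K K' x hx hx' := JK_inf hT K K' hx hx'
  rt_map σ K x hx := JK_map hT σ K hx
  rt_fix K x hx σ hσ := JK_fix hT K hx σ fun c hc =>
    (IntermediateField.mem_fixingSubgroup_iff K σ).1 hσ c hc
  rt_fin x := JK_fin hT (ofJ x)
  rt_tors x n hn hx := by
    have h1 := htors n hn (ofJ x) hx
    exact JK_mono (T := T) (fun c (hc : c ∈ TIF.kb k Ω) => mem_algebraicClosure_iff.2 hc) h1
  gn_anti K K' x h hx := genA_mono h hx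
  gn_map σ K x hx := genA_map hT σ K hx
  gn_hom K hK hb x x' hx hx' := by
    obtain ⟨σ, h1, h2⟩ := genA_conj hT hx hx'
    exact ⟨σ, (IntermediateField.mem_fixingSubgroup_iff K σ).2 h1, funext fun r => h2 r⟩
  gn_add K x b hb hx hb' := genA_mul' hU hT hx hb'
  gn_neg K x hx := genA_inv' hU hT hx
  gn_ex K hK := by
    obtain ⟨x, hx⟩ := exists_genA (ρ := ρ) hU T (small_T hK)
    exact ⟨fun r => toJ hT (x r), hx⟩
  gn_iso f g hf hg hn x hx := by
    obtain ⟨n, hn0, hn⟩ := hn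
    refine gen_of_alg hU hT (small_kb k Ω) hx fun r => ?_
    set L : IntermediateField k Ω := kbF k Ω ⊔ ⨆ s, kD k (ofJ (f x s)) with hL
    refine JK_acl_of hT hn0 fun σ hσ => ?_
    have h1 : σ • f x = f x := by
      funext s
      refine (act_eq_iff hT σ (ofJ (f x s))).2 fun c hc => hσ c (TIFP.le_acl L ?_)
      exact (le_iSup (fun s => kD k (ofJ (f x s))) s).trans le_sup_right hc
    have h2 : f (σ • x - x) = 0 := by
      rw [map_sub, hf, h1, sub_self]
    have h3 : n • (σ • x - x) = 0 := by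
      rw [← hn, h2, map_zero]
    have h4 : (ofJ ((σ • x - x) r)) ^ n = 1 := congrFun h3 r
    refine ⟨ofJ ((σ • x - x) r), ?_, h4, ?_⟩
    · have h5 := htors n hn0 _ h4
      have h6 : ofJ ((σ • x - x) r) ∈ JK (T := T) (kbF k Ω : Set Ω) :=
        JK_mono (T := T) (fun c (hc : c ∈ TIF.kb k Ω) => mem_algebraicClosure_iff.2 hc) h5
      exact JK_fix hT (kbF k Ω) h6 σ fun c hc =>
        hσ c (TIFP.le_acl L ((le_sup_left : kbF k Ω ≤ L) hc))
    · have h7 : x r + (σ • x - x) r = σ • x r := by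
        rw [Pi.sub_apply, Pi.smul_apply, add_sub_cancel]
      exact (congrArg ofJ h7).symm
  gn_reg K hK := by
    obtain ⟨x, K₁, h1, h2, h3, h4⟩ := JK_reg (ρ := ρ) hU hT (small_T hK)
    refine ⟨fun r => toJ hT (x r), K₁, h1, h2, h3, fun z hz hσ => h4 (ofJ z) hz fun σ hσ' => ?_⟩
    exact hσ σ ((IntermediateField.mem_fixingSubgroup_iff K σ).2 hσ')

/-- the rational elements of `uni` -/
theorem uni_rt [PerfectField k] (hU : Univ k Ω) (hT : Tk k T)
    (htors : ∀ n : ℕ, (n : k) ≠ 0 → ∀ D : ClassGroup (WB T), D ^ n = 1 →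
      D ∈ JK (T := T) (TIF.kb k Ω)) (K : IntermediateField k Ω) (x : JJ hT) :
    x ∈ (uni (ρ := ρ) hU hT htors).Rt K ↔ ofJ x ∈ JK (T := T) (K : Set Ω) := Iff.rfl

/-- the generic points of `uni` -/
theorem uni_gn [PerfectField k] (hU : Univ k Ω) (hT : Tk k T)
    (htors : ∀ n : ℕ, (n : k) ≠ 0 → ∀ D : ClassGroup (WB T), D ^ n = 1 →
      D ∈ JK (T := T) (TIF.kb k Ω)) (K : IntermediateField k Ω) (x : ρ → JJ hT) :
    (uni hU hT htors).Gn K x ↔ GenA K fun r => ofJ (x r) := Iff.rfl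

end

end TIFG
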