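import Mathlib
import Pool.Agent.TIFG.Uni
import Pool.Agent.TIFG.Spc
import Pool.Agent.MP_c1dca2_ag.GT.F1

/-!
# [TIF PIG] Frobenius and Galois descent: the instance of `Fro`
-/

set_option autoImplicit false
set_option linter.unusedSectionVars false

open Polynomial

namespace TIFG

open Pool.Agent GT TIF Pool.Agent.TIFT

/-! ### a finiteness argument -/

/-- an endomorphism of an `ℓ`-divisible group with finite kernel is surjective on the `ℓ`-power torsion
if the torsion elements are in finite stable subgroups -/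
theorem fro_surj_abs {G : Type} [AddCommGroup G] (f : G →+ G) (ℓ : ℕ) [Fact ℓ.Prime]
    (hker : {x : G | f x = 0}.Finite) (hdiv : ∀ x : G, ∃ y, ℓ • y = x)
    (hfin : ∀ (m : ℕ) (v : G), ℓ ^ m • v = 0 → ∃ H : AddSubgroup G, Finite H ∧ v ∈ H ∧
      ∀ x ∈ H, f x ∈ H) :
    ∃ e : ℕ, ∀ (n : ℕ) (u : G), ℓ ^ n • u = 0 → ∃ c : G, ℓ ^ (n + e) • c = 0 ∧ f c = u := by
  classical
  have hℓ : ℓ.Prime := Fact.out
  have hdiv' : ∀ (m : ℕ) (x : G), ∃ y, ℓ ^ m • y = x := by
    intro m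
    induction m with
    | zero => exact fun x => ⟨x, by rw [pow_zero, one_smul]⟩
    | succ m ih =>
      intro x
      obtain ⟨y, hy⟩ := ih x
      obtain ⟨z, hz⟩ := hdiv y
      exact ⟨z, by rw [pow_succ, mul_smul, hz, hy]⟩
  set C : ℕ := Nat.card {x : G | f x = 0} with hC
  obtain ⟨e, r, hr, hCr⟩ := Nat.exists_eq_pow_mul_and_not_dvd (Nat.factorial_ne_zero C) ℓ hℓ.ne_one
  refine ⟨e, fun n u hu => ?_⟩
  obtain ⟨v, hv⟩ := hdiv' e u
  have hv0 : ℓ ^ (n + e) • v = 0 := by rw [pow_add, mul_smul, hv, hu]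
  obtain ⟨H, hHf, hvH, hH⟩ := hfin _ v hv0
  -- the torsion of `H`
  let H' : AddSubgroup G :=
    { carrier := {x | x ∈ H ∧ ℓ ^ (n + e) • x = 0}
      add_mem' := by
        rintro x y ⟨h1, h2⟩ ⟨h3, h4⟩
        exact ⟨H.add_mem h1 h3, by rw [smul_add, h2, h4, add_zero]⟩
      zero_mem' := ⟨H.zero_mem, smul_zero _⟩
      neg_mem' := by
        rintro x ⟨h1, h2⟩
        exact ⟨H.neg_mem h1, by rw [smul_neg, h2, neg_zero]⟩ }
  have hH'm : ∀ x, x ∈ H' ↔ x ∈ H ∧ ℓ ^ (n + e) • x = 0 := fun x => Iff.rfl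
  have hH'f : Finite H' :=
    Finite.of_injective (fun x : H' => (⟨x, ((hH'm _).1 x.2).1⟩ : H)) fun x y h =>
      Subtype.ext (congrArg (fun z : H => (z : G)) h)
  let f' : H' →+ H' :=
    { toFun := fun x => ⟨f (x : G), (hH'm _).2 ⟨hH _ ((hH'm _).1 x.2).1, by
        rw [← map_nsmul, ((hH'm _).1 x.2).2, map_zero]⟩⟩
      map_zero' := Subtype.ext (map_zero f)
      map_add' := fun x y => Subtype.ext (map_add f (x : G) (y : G)) }
  have hf' : ∀ x : H', ((f' x : H') : G) = f (x : G) := fun x => rfl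
  have hk : Nat.card f'.ker ≤ C := by
    have := hker.to_subtype
    refine Nat.card_le_card_of_injective (fun x : f'.ker => (⟨((x : H') : G), ?_⟩ :
      {x : G | f x = 0})) ?_
    · have h1 : f' x = 0 := x.2
      show f ((x : H') : G) = 0
      rw [← hf', h1]
      rfl
    · intro x y h
      exact Subtype.ext (Subtype.ext (congrArg (fun z : {x : G | f x = 0} => (z : G)) h))
  have hidx : f'.range.index = Nat.card f'.ker := by
    have h1 : Nat.card f'.range * f'.range.index = Nat.card H' := AddSubgroup.card_mul_index _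
    have h2 : Nat.card f'.ker * f'.ker.index = Nat.card H' := AddSubgroup.card_mul_index _
    rw [AddSubgroup.index_ker] at h2
    have h3 : 0 < Nat.card f'.range := Nat.card_pos
    rw [← h2, mul_comm] at h1
    exact Nat.eq_of_mul_eq_mul_right h3 h1
  have hv' : v ∈ H' := (hH'm _).2 ⟨hvH, hv0⟩
  have h1 : f'.range.index • (⟨v, hv'⟩ : H') ∈ f'.range := AddSubgroup.nsmul_index_mem _ _
  have h2 : f'.range.index ∣ C.factorial := by
    rw [hidx]
    exact Nat.dvd_factorial Nat.card_pos hk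
  obtain ⟨t, ht⟩ := h2
  have h3 : C.factorial • (⟨v, hv'⟩ : H') ∈ f'.range := by
    rw [ht, mul_comm, mul_smul]
    exact f'.range.nsmul_mem h1 t
  obtain ⟨c₀, hc₀⟩ := h3
  have h4 : f (c₀ : G) = r • u := by
    rw [← hf', hc₀, hCr, mul_comm, mul_smul]
    show r • ℓ ^ e • v = r • u
    rw [hv]
  have h5 : IsCoprime (r : ℤ) ((ℓ ^ n : ℕ) : ℤ) :=
    Nat.isCoprime_iff_coprime.2 (Nat.Coprime.pow_right n
      ((Nat.Prime.coprime_iff_not_dvd hℓ).2 hr).symm)
  obtain ⟨a, b, hab⟩ := h5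
  refine ⟨a • (c₀ : G), ?_, ?_⟩
  · rw [smul_comm, ((hH'm _).1 c₀.2).2, smul_zero]
  · rw [map_zsmul, h4]
    have h6 : ((a * (r : ℤ) + b * ((ℓ ^ n : ℕ) : ℤ)) : ℤ) • u = u := by rw [hab, one_smul]
    rw [add_smul, mul_smul, mul_smul, natCast_zsmul, natCast_zsmul, hu, smul_zero, add_zero] at h6
    exact h6

/-! ### the Frobenius -/

section frob

variable {k Ω : Type} [Field k] [Finite k] [Field Ω] [Algebra k Ω] [IsAlgClosed Ω]

theorem fro_exists (k Ω : Type) [Field k] [Finite k] [Field Ω] [Algebra k Ω] [IsAlgClosed Ω] :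
    ∃ φ : Ω ≃ₐ[k] Ω, ∀ z, φ z = z ^ Nat.card k := by
  obtain ⟨p, hp⟩ := CharP.exists k
  have hpp : p.Prime := by
    rcases CharP.char_is_prime_or_zero k p with h | h
    · exact h
    · exfalso
      rw [h] at hp
      have : CharZero k := CharP.charP_to_charZero k
      exact not_finite k
  have := Fact.mk hpp
  let _ := Fintype.ofFinite k
  obtain ⟨n, hn⟩ := FiniteField.card k p
  have hpΩ : CharP Ω p := charP_of_injective_algebraMap (algebraMap k Ω).injective p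
  have hcard : Nat.card k = p ^ (n : ℕ) := by rw [Nat.card_eq_fintype_card, hn.2]
  refine ⟨AlgEquiv.ofRingEquiv (f := iterateFrobeniusEquiv Ω p n) fun c => ?_, fun z => ?_⟩
  · show (algebraMap k Ω c) ^ p ^ (n : ℕ) = algebraMap k Ω c
    rw [← map_pow]
    congr 1
    have h1 := FiniteField.pow_card c
    rwa [hn.2] at h1
  · rw [hcard]
    rfl

theorem fro_pow {φ : Ω ≃ₐ[k] Ω} (hφ : ∀ z, φ z = z ^ Nat.card k) (n : ℕ) (z : Ω) :
    (φ ^ n) z = z ^ Nat.card k ^ n := by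
  induction n with
  | zero => rw [pow_zero, pow_zero, pow_one]; rfl
  | succ n ih => rw [pow_succ', AlgEquiv.mul_apply, ih, hφ, ← pow_mul, ← pow_succ]

theorem fro_gal {φ : Ω ≃ₐ[k] Ω} (hφ : ∀ z, φ z = z ^ Nat.card k) (S : Finset Ω)
    (hS : ∀ z ∈ S, z ∈ TIFG.kb k Ω) (σ : Ω ≃ₐ[k] Ω) : ∃ n : ℕ, ∀ z ∈ S, σ z = (φ ^ n) z := by
  let _ := Fintype.ofFinite k
  obtain ⟨L, hL⟩ : ∃ L, L = IntermediateField.adjoin k (S : Set Ω) := ⟨_, rfl⟩
  have hfd : FiniteDimensional k L := by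
    rw [hL]
    exact IntermediateField.finiteDimensional_adjoin fun z hz =>
      (mem_algebraicClosure_iff.1 (hS z hz)).isIntegral
  have hfin : Finite L := Module.finite_of_finite k
  have hn : Normal k L := IsGalois.to_normal
  obtain ⟨n, hn'⟩ := (FiniteField.bijective_frobeniusAlgEquivOfAlgebraic_pow k L).2
    (σ.restrictNormal L)
  refine ⟨n, fun z hz => ?_⟩
  have hzL : z ∈ L := by
    rw [hL]
    exact IntermediateField.subset_adjoin _ _ hz
  have h1 : algebraMap L Ω (σ.restrictNormal L ⟨z, hzL⟩) = σ (algebraMap L Ω ⟨z, hzL⟩) :=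
    AlgEquiv.restrictNormal_commutes σ L _
  have h2 : σ z = algebraMap L Ω (σ.restrictNormal L ⟨z, hzL⟩) := h1.symm
  rw [h2, ← hn', fro_pow hφ]
  have h3 : (FiniteField.frobeniusAlgEquivOfAlgebraic k L ^ (n : ℕ)) ⟨z, hzL⟩ =
      (⟨z, hzL⟩ : L) ^ Fintype.card k ^ (n : ℕ) := by
    rw [AlgEquiv.coe_pow, FiniteField.coe_frobeniusAlgEquivOfAlgebraic_iterate]
  rw [h3, Nat.card_eq_fintype_card, map_pow]
  rfl

theorem fro_orbit {φ : Ω ≃ₐ[k] Ω} (hφ : ∀ z, φ z = z ^ Nat.card k) (S : Finset Ω)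
    (hS : ∀ z ∈ S, z ∈ TIFG.kb k Ω) : ∃ n : ℕ, 0 < n ∧ ∀ z ∈ S, (φ ^ n) z = z := by
  obtain ⟨n, hn⟩ := fro_gal hφ S hS φ⁻¹
  refine ⟨n + 1, Nat.succ_pos n, fun z hz => ?_⟩
  rw [pow_succ', AlgEquiv.mul_apply, ← hn z hz]
  exact φ.apply_symm_apply z

theorem fro_el_gal (K : IntermediateField k Ω) (z : Ω) (hz : z ∈ K ⊔ TIFG.kb k Ω)
    (h : ∀ σ : Ω ≃ₐ[k] Ω, (∀ c ∈ K, σ c = c) → σ z = z) : z ∈ K := by
  obtain ⟨p, hp⟩ := ExpChar.exists k
  obtain ⟨n, hn⟩ := TIFP.pow_mem_of_fixed p K z h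
  exact TIFP.mem_of_pow_mem p hz hn

theorem fro_fix_kb {φ : Ω ≃ₐ[k] Ω} (hφ : ∀ z, φ z = z ^ Nat.card k) (z : Ω)
    (hz : z ∈ TIFG.kb k Ω) (h : φ z = z) : z ∈ (⊥ : IntermediateField k Ω) := by
  refine fro_el_gal ⊥ z ((le_sup_right : TIFG.kb k Ω ≤ ⊥ ⊔ TIFG.kb k Ω) hz) fun σ _ => ?_
  obtain ⟨n, hn⟩ := fro_gal hφ {z} (fun w hw => by rwa [Finset.mem_singleton.1 hw]) σ
  rw [hn z (Finset.mem_singleton_self z)]
  clear hn
  induction n with
  | zero => rfl
  | succ n ih => rw [pow_succ, AlgEquiv.mul_apply, h, ih]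

end frob

/-! ### the Jacobian -/

section

variable {k Ω : Type} [Field k] [Field Ω] [Algebra k Ω] [IsAlgClosed Ω] {d : ℕ} [NeZero d]
  {T : Tab Ω d} [IsDedekindDomain (WB T)] {ρ : Type} [Fintype ρ]

/-- every class over the algebraic closure is rational over a finite extension -/
theorem fro_rt_kb (x : ClassGroup (WB T))
    (hx : x ∈ JK (T := T) (kbF k Ω : Set Ω)) :
    ∃ S : Finset Ω, (∀ z ∈ S, z ∈ kbF k Ω) ∧
      x ∈ JK (T := T) (IntermediateField.adjoin k (S : Set Ω) : Set Ω) := by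
  classical
  have hrat : RatI (kbF k Ω : Set Ω) (rdc x) := hx
  have hfg : (Ideal.span {b | b ∈ rdc x ∧ Cf (kbF k Ω : Set Ω) b}).FG := IsNoetherian.noetherian _
  obtain ⟨G, hG, hspan⟩ := (Submodule.fg_span_iff_fg_span_finset_subset _).1 hfg
  let S : Finset Ω := G.biUnion fun b => Finset.univ.biUnion fun j : ZMod d =>
    (b.co j).support.image fun n => (b.co j).coeff n
  set L : IntermediateField k Ω := IntermediateField.adjoin k (S : Set Ω) with hL
  have h1 : ∀ b ∈ G, Cf (L : Set Ω) b := by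
    intro b hb j n
    by_cases hn : n ∈ (b.co j).support
    · refine IntermediateField.subset_adjoin k _ ?_
      rw [Finset.mem_coe]
      exact Finset.mem_biUnion.2 ⟨b, hb, Finset.mem_biUnion.2 ⟨j, Finset.mem_univ j,
        Finset.mem_image.2 ⟨n, hn, rfl⟩⟩⟩
    · rw [notMem_support_iff.1 hn]
      exact L.zero_mem
  refine ⟨S, fun z hz => ?_, ?_⟩
  · obtain ⟨b, hb, h2⟩ := Finset.mem_biUnion.1 hz
    obtain ⟨j, -, h3⟩ := Finset.mem_biUnion.1 h2
    obtain ⟨n, -, rfl⟩ := Finset.mem_image.1 h3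
    exact (hG hb).2 j n
  change RatI _ _
  refine le_antisymm ?_ (Ideal.span_le.2 fun y hy => hy.1)
  conv_lhs => rw [hrat.trans hspan]
  exact Ideal.span_mono fun b hb => ⟨(hG hb).1, h1 b hb⟩

/-- Galois descent for classes -/
theorem fro_rt_gal [Finite k] (hT : Tk k T) (K : IntermediateField k Ω) (x : ClassGroup (WB T))
    (hx : x ∈ JK (T := T) ((K ⊔ kbF k Ω : IntermediateField k Ω) : Set Ω))
    (h : ∀ σ : Ω ≃ₐ[k] Ω, (∀ c ∈ K, σ c = c) → act hT σ x = x) :
    x ∈ JK (T := T) (K : Set Ω) := by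
  rw [mem_JK_iff hT] at hx ⊢
  exact fun c hc => fro_el_gal K c (hx hc) fun σ hσ => (act_eq_iff hT σ x).1 (h σ hσ) c hc

/-- the fixed classes of a power of the Frobenius are finitely many -/
theorem fro_finite (hT : Tk k T) (σ : Ω ≃ₐ[k] Ω) (Q : ℕ) (hQ : 2 ≤ Q) (hσ : ∀ z, σ z = z ^ Q) :
    {x : ClassGroup (WB T) | act hT σ x = x}.Finite := by
  have h1 := finite_fixed_ideals (T := T) (σ : Ω ≃+* Ω) Q hQ hσ (hT.map σ) (gp T)
  refine Set.Finite.of_finite_image (f := fun x => rdc x) (h1.subset ?_) ?_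
  · rintro _ ⟨x, hx, rfl⟩
    refine ⟨rdc_ne x, len_rdc x, ?_⟩
    have h2 : (rdc x).map (rac hT σ) = rdc (act hT σ x) := rdc_map _ x
    have h3 : act hT σ x = x := hx
    rw [h3] at h2
    exact h2
  · intro x _ y _ h
    have h2 : rdc x = rdc y := h
    rw [← cls_rdc x, h2, cls_rdc]

/-- `φ - 1` is surjective on the torsion -/
theorem fro_surj [Finite k] (hT : Tk k T) (ℓ : ℕ) [Fact ℓ.Prime] (hℓ : (ℓ : k) ≠ 0)
    (hdiv : ∀ D : ClassGroup (WB T), ∃ E, E ^ ℓ = D)
    (htors : ∀ n : ℕ, (n : k) ≠ 0 → ∀ D : ClassGroup (WB T), D ^ n = 1 →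
      D ∈ JK (T := T) (TIF.kb k Ω))
    {φ : Ω ≃ₐ[k] Ω} (hφ : ∀ z, φ z = z ^ Nat.card k) :
    ∃ e : ℕ, ∀ (n : ℕ) (u : JJ hT), ℓ ^ n • u = 0 →
      ∃ c : JJ hT, ℓ ^ (n + e) • c = 0 ∧ φ • c - c = u := by
  have hq : 2 ≤ Nat.card k := Finite.one_lt_card
  let f : JJ hT →+ JJ hT :=
    { toFun := fun x => φ • x - x
      map_zero' := by rw [smul_zero, sub_zero]
      map_add' := fun x y => by rw [smul_add]; abel }
  have hf : ∀ x, f x = φ • x - x := fun x => rfl
  refine fro_surj_abs f ℓ ?_ (fun x => ?_) fun m v hv => ?_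
  · have h1 : {x : JJ hT | act hT φ (ofJ x) = ofJ x}.Finite := fro_finite hT φ _ hq hφ
    refine h1.subset fun x hx => ?_
    have h2 : φ • x - x = 0 := hx
    have h3 : φ • x = x := sub_eq_zero.1 h2
    exact h3
  · obtain ⟨E, hE⟩ := hdiv (ofJ x)
    exact ⟨toJ hT E, hE⟩
  · have h1 : ofJ v ^ ℓ ^ m = 1 := hv
    have h2 : ofJ v ∈ JK (T := T) (kbF k Ω : Set Ω) :=
      JK_mono (T := T) (fun c (hc : c ∈ TIF.kb k Ω) => mem_algebraicClosure_iff.2 hc)
        (htors _ (by rw [Nat.cast_pow]; exact pow_ne_zero m hℓ) _ h1)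
    obtain ⟨S, hS, hvS⟩ := fro_rt_kb _ h2
    obtain ⟨r, hr, hrS⟩ := fro_orbit hφ S hS
    have h3 : act hT (φ ^ r) (ofJ v) = ofJ v := by
      refine JK_fix hT _ hvS _ fun c hc => ?_
      have h4 : IntermediateField.adjoin k (S : Set Ω) ≤
          IntermediateField.fixedField (Subgroup.zpowers (φ ^ r)) := by
        rw [IntermediateField.adjoin_le_iff]
        intro z hz
        rw [SetLike.mem_coe, IntermediateField.mem_fixedField_iff]
        intro g hg
        have h5 : Subgroup.zpowers (φ ^ r) ≤ IntermediateField.fixingSubgroup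
            (IntermediateField.adjoin k {z}) := by
          rw [Subgroup.zpowers_le, IntermediateField.mem_fixingSubgroup_iff]
          intro c hc
          have h6 : IntermediateField.adjoin k {z} ≤
              (AlgHom.equalizer ((φ ^ r : Ω ≃ₐ[k] Ω) : Ω →ₐ[k] Ω) (AlgHom.id k Ω)).toIntermediateField
                (fun w hw => by
                  have h7 : (φ ^ r) w = w := hw
                  show (φ ^ r) w⁻¹ = w⁻¹
                  rw [map_inv₀, h7]) := by
            rw [IntermediateField.adjoin_le_iff, Set.singleton_subset_iff]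
            exact hrS z hz
          exact h6 hc
        exact (IntermediateField.mem_fixingSubgroup_iff _ _).1 (h5 hg) z
          (IntermediateField.mem_adjoin_simple_self k z)
      exact (IntermediateField.mem_fixedField_iff _ _).1 (h4 hc) _ (Subgroup.mem_zpowers _)
    let H : AddSubgroup (JJ hT) :=
      { carrier := {x | (φ ^ r) • x = x}
        add_mem' := by
          intro x y hx hy
          have hx' : (φ ^ r) • x = x := hx
          have hy' : (φ ^ r) • y = y := hy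
          show (φ ^ r) • (x + y) = x + y
          rw [smul_add, hx', hy']
        zero_mem' := smul_zero _
        neg_mem' := by
          intro x hx
          have hx' : (φ ^ r) • x = x := hx
          show (φ ^ r) • (-x) = -x
          rw [smul_neg, hx'] }
    refine ⟨H, ?_, h3, fun x hx => ?_⟩
    · have h4 := fro_finite hT (φ ^ r) (Nat.card k ^ r)
        (hq.trans (Nat.le_self_pow hr.ne' _)) fun z => fro_pow hφ r z
      exact h4.to_subtype
    · have hx' : (φ ^ r) • x = x := hx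
      show (φ ^ r) • (φ • x - x) = φ • x - x
      rw [smul_sub, hx', smul_smul, ← pow_succ, pow_succ', ← smul_smul, hx']

/-- **the instance of `Fro`**, for all `U` with the rational elements of the Jacobian -/
theorem exists_fro' [Finite k] (hT : Tk k T) (ℓ : ℕ) [Fact ℓ.Prime]
    (hℓ : (ℓ : k) ≠ 0) (hdiv : ∀ D : ClassGroup (WB T), ∃ E, E ^ ℓ = D)
    (htors : ∀ n : ℕ, (n : k) ≠ 0 → ∀ D : ClassGroup (WB T), D ^ n = 1 →
      D ∈ JK (T := T) (TIF.kb k Ω)) (U : Uni k Ω (JJ hT) ρ)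
    (hRt : ∀ (K : IntermediateField k Ω) (x : JJ hT), x ∈ U.Rt K ↔
      ofJ x ∈ JK (T := T) (K : Set Ω)) : Nonempty (Fro U ℓ) := by
  obtain ⟨φ, hφ⟩ := fro_exists k Ω
  have hq : 2 ≤ Nat.card k := Finite.one_lt_card
  obtain ⟨e, he⟩ := fro_surj hT ℓ hℓ hdiv htors hφ
  exact ⟨
    { q := Nat.card k
      hq := hq
      phi := φ
      frob := fun z _ => hφ z
      fix_kb := fun z hz h => fro_fix_kb hφ z hz h
      gal := fun S hS σ => fro_gal hφ S hS σ
      surj := fun n u hu => by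
        have h1 : ∀ i, ℓ ^ n • u i = 0 := fun i => congrFun hu i
        choose c hc1 hc2 using fun i => he n (u i) (h1 i)
        exact ⟨n + e, c, funext hc1, funext hc2⟩
      el_gal := fun K z hz h => fro_el_gal K z hz fun σ hσ =>
        h σ ((IntermediateField.mem_fixingSubgroup_iff K σ).2 hσ)
      rt_gal := fun K x hx h => (hRt K x).2 (fro_rt_gal hT K (ofJ x) ((hRt _ x).1 hx)
        fun σ hσ => h σ ((IntermediateField.mem_fixingSubgroup_iff K σ).2 hσ))
      rt_kb := fun x hx => by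
        obtain ⟨S, hS, h1⟩ := fro_rt_kb (ofJ x) ((hRt _ x).1 hx)
        exact ⟨S, hS, (hRt _ x).2 h1⟩ }⟩

/-- **the instance of `Fro`** -/
theorem exists_fro [Finite k] (hU : Univ k Ω) (hT : Tk k T) (ℓ : ℕ) [Fact ℓ.Prime]
    (hℓ : (ℓ : k) ≠ 0) (hdiv : ∀ D : ClassGroup (WB T), ∃ E, E ^ ℓ = D)
    (htors : ∀ n : ℕ, (n : k) ≠ 0 → ∀ D : ClassGroup (WB T), D ^ n = 1 →
      D ∈ JK (T := T) (TIF.kb k Ω)) : Nonempty (Fro (uni (ρ := ρ) hU hT htors) ℓ) :=
  exists_fro' hT ℓ hℓ hdiv htors _ fun _ _ => Iff.rfl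

end

end TIFG
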