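import Mathlib
import Pool.Agent.TIFG.G2

/-!
# [TIF] block PIG, group part, row G3

`A = ρ → J`, `x ∈ A(K)` means `∀ i, x i ∈ U.Rt K`; 'generic' = `U.Gn (kb k Ω)`; `V(·)` = `V.valuation`;
`A_V(x) = V(s x) Th(x)^{ℓ^{2c}}`.
-/

set_option autoImplicit false
set_option linter.unusedSectionVars false
set_option linter.unusedVariables false

open IntermediateField Pool.Agent.TIFA

namespace TIFG

variable {k Ω J : Type} [Field k] [Field Ω] [Algebra k Ω] [IsAlgClosed Ω] [AddCommGroup J]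
  [DistribMulAction (Ω ≃ₐ[k] Ω) J] {ρ : Type} [Fintype ρ] [DecidableEq ρ]
  {U : Uni k Ω J ρ} {ℓ : ℕ} [Fact ℓ.Prime] {e : ℕ → J → J → Ω} {H : Tht U ℓ e}

/-- `τ₁` over `kb` with `τ₁ w = u` (`gn_hom`). `F := K.map τ₁ ⊓ K'` is small and contains `kb`; `u ∈ A(F)`
(`rt_map`, `rt_inf`); `τ₁ w'` and `u'` are generic over `F` (`gn_map`, `gn_anti`), so `σ (τ₁ w') = u'` with `σ` over
`F`, and `σ u = u` (`rt_fix`). `τ := σ * τ₁`. -/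
theorem pair_hom (K K' : IntermediateField k Ω) (hK : Small K) (hK' : Small K') (hb : kb k Ω ≤ K)
    (hb' : kb k Ω ≤ K') (w w' u u' : ρ → J) (hw : U.Gn (kb k Ω) w) (hu : U.Gn (kb k Ω) u)
    (hwK : ∀ i, w i ∈ U.Rt K) (huK : ∀ i, u i ∈ U.Rt K') (hw' : U.Gn K w') (hu' : U.Gn K' u') :
    ∃ τ ∈ (kb k Ω).fixingSubgroup, τ • w = u ∧ τ • w' = u' := by
  obtain ⟨τ₁, hτ₁, h1⟩ := U.gn_hom (kb k Ω) small_kb le_rfl w u hw hu
  have hF : Small (K.map (τ₁ : Ω →ₐ[k] Ω) ⊓ K') := small_mono (small_map hK τ₁) inf_le_left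
  have hbF : kb k Ω ≤ K.map (τ₁ : Ω →ₐ[k] Ω) ⊓ K' := le_inf (kb_le_map hb τ₁) hb'
  have huF : ∀ i, u i ∈ U.Rt (K.map (τ₁ : Ω →ₐ[k] Ω) ⊓ K') := by
    intro i
    refine U.rt_inf _ _ _ ?_ (huK i)
    rw [← h1]
    exact U.rt_map τ₁ K (w i) (hwK i)
  have h2 : U.Gn (K.map (τ₁ : Ω →ₐ[k] Ω) ⊓ K') (τ₁ • w') :=
    U.gn_anti _ _ _ inf_le_left (U.gn_map τ₁ K w' hw')
  have h3 : U.Gn (K.map (τ₁ : Ω →ₐ[k] Ω) ⊓ K') u' := U.gn_anti _ _ _ inf_le_right hu'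
  obtain ⟨σ, hσ, h4⟩ := U.gn_hom _ hF hbF _ _ h2 h3
  have h5 : σ • u = u := by
    funext i
    exact U.rt_fix _ (u i) (huF i) σ hσ
  refine ⟨σ * τ₁, mul_mem (IntermediateField.fixingSubgroup_antitone hbF hσ) hτ₁, ?_, ?_⟩
  · rw [mul_smul, h1, h5]
  · rw [mul_smul, h4]

end TIFG
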