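import Mathlib
import Pool.Agent.TIFG.G3
import Pool.Agent.TIFP.Conj

/-!
# [TIF] block PIG, group part, row G4

`A = ρ → J`, `x ∈ A(K)` means `∀ i, x i ∈ U.Rt K`; 'generic' = `U.Gn (kb k Ω)`; `V(·)` = `V.valuation`;
`A_V(x) = V(s x) Th(x)^{ℓ^{2c}}`.
-/

set_option autoImplicit false
set_option linter.unusedSectionVars false
set_option linter.unusedVariables false

open IntermediateField Pool.Agent.TIFA

namespace TIFG

variable {k Ω J : Type} [Field k] [Field Ω] [Algebra k Ω] [IsAlgClosed Ω] [AddCommGroup J]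
  [DistribMulAction (Ω ≃ₐ[k] Ω) J] {ρ : Type} [Fintype ρ] [DecidableEq ρ]
  {U : Uni k Ω J ρ} {ℓ : ℕ} [Fact ℓ.Prime] {e : ℕ → J → J → Ω} {H : Tht U ℓ e}

variable {L L' : Lag ℓ (Ω ≃ₐ[k] Ω) ρ e} {m₀ D N₀ e₀ : ℕ} {y y' : Fin D → (ρ → J) → Ω}
  {s s' : (ρ → J) → Ω} {c₀ c₀' : ρ → J}

/-- `TIFP.exists_aut` (or `exists_conj`): equal kernels give an isomorphism of the fields generated by the two
triples (`trdeg` finite: finitely many generators), which extends to `σ : Ω ≃ₐ[k] Ω`; take `v = w`, `v' = w'`. -/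
theorem Pr_of_ker (hy : LD H L m₀ D N₀ e₀ y s c₀) (hy' : LD H L' m₀ D N₀ e₀ y' s' c₀')
    (K : IntermediateField k Ω) (hK : Small K) (hb : kb k Ω ≤ K) (w w' : ρ → J)
    (hw : U.Gn (kb k Ω) w) (hwK : ∀ i, w i ∈ U.Rt K) (hw' : U.Gn K w')
    (hI : RingHom.ker (MvPolynomial.aeval (R := k) (trip y w w')) =
      RingHom.ker (MvPolynomial.aeval (R := k) (trip y' w w'))) : Pr U y y' := by
  obtain ⟨σ, hσ⟩ := Pool.Agent.TIFP.exists_conj (trip y w w') (trip y' w w') hI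
  have h : ∀ (a : Fin 3) (j : Fin D), σ (y j (![w, w', w + w'] a)) = y' j (![w, w', w + w'] a) := by
    intro a j
    have h1 := hσ (finProdFinEquiv (a, j))
    unfold trip at h1
    rw [Equiv.symm_apply_apply] at h1
    exact h1
  exact ⟨w, w', w, w', K, σ, hK, hb, hwK, hw, hw', hwK, hw, hw', fun j => h 0 j,
    fun j => h 1 j, fun j => h 2 j⟩

/-- replace `σ` by its inverse -/
theorem Pr_symm (h : Pr U y y') : Pr U y' y := by
  obtain ⟨w, w', v, v', K, σ, h1, h2, h3, h4, h5, h6, h7, h8, h9, h10, h11⟩ := h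
  refine ⟨v, v', w, w', K, σ.symm, h1, h2, h6, h7, h8, h3, h4, h5, ?_, ?_, ?_⟩
  · intro j
    rw [← h9, AlgEquiv.symm_apply_apply]
  · intro j
    rw [← h10, AlgEquiv.symm_apply_apply]
  · intro j
    rw [← h11, AlgEquiv.symm_apply_apply]

end TIFG
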