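import Mathlib
import Pool.Agent.TIFG.G4

/-!
# [TIF] block PIG, group part, row G5

`A = ρ → J`, `x ∈ A(K)` means `∀ i, x i ∈ U.Rt K`; 'generic' = `U.Gn (kb k Ω)`; `V(·)` = `V.valuation`;
`A_V(x) = V(s x) Th(x)^{ℓ^{2c}}`.
-/

set_option autoImplicit false
set_option linter.unusedSectionVars false
set_option linter.unusedVariables false

open IntermediateField Pool.Agent.TIFA

namespace TIFG

variable {k Ω J : Type} [Field k] [Field Ω] [Algebra k Ω] [IsAlgClosed Ω] [AddCommGroup J]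
  [DistribMulAction (Ω ≃ₐ[k] Ω) J] {ρ : Type} [Fintype ρ] [DecidableEq ρ]
  {U : Uni k Ω J ρ} {ℓ : ℕ} [Fact ℓ.Prime] {e : ℕ → J → J → Ω} {H : Tht U ℓ e}

variable {L L' : Lag ℓ (Ω ≃ₐ[k] Ω) ρ e} {m₀ D N₀ e₀ : ℕ} {y y' : Fin D → (ρ → J) → Ω}
  {s s' : (ρ → J) → Ω} {c₀ c₀' : ρ → J}

/-- Let `w, v, σ` be as in `Pr`. `τ` over `kb` with `τ w = u`; `v₁ := (τ σ⁻¹) • v`:
`y'_j(v₁) = τ σ⁻¹ y'_j(v) = τ y_j(w) = y_j(u)` (`LD.equ`). -/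
theorem R0_ex (hy : LD H L m₀ D N₀ e₀ y s c₀) (hy' : LD H L' m₀ D N₀ e₀ y' s' c₀')
    (hP : Pr U y y') (u : ρ → J) (hu : U.Gn (kb k Ω) u) : ∃ v, R0 U y y' u v := by
  obtain ⟨w, w', v, v', K, σ, hK, hb, hwK, hw, hw', hvK, hv, hv', e1, e2, e3⟩ := hP
  obtain ⟨τ, hτ, hτw⟩ := U.gn_hom (kb k Ω) small_kb le_rfl w u hw hu
  refine ⟨(τ * σ⁻¹) • v, hu, gn_smul _ v hv, fun j => ?_⟩
  rw [hy'.equ j v hv, ← e1 j, AlgEquiv.mul_apply, ← AlgEquiv.mul_apply σ⁻¹ σ, inv_mul_cancel,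
    AlgEquiv.one_apply, ← hy.equ j w hw, hτw]

/-- `R0_ex` for `Pr_symm` -/
theorem R0_ex' (hy : LD H L m₀ D N₀ e₀ y s c₀) (hy' : LD H L' m₀ D N₀ e₀ y' s' c₀')
    (hP : Pr U y y') (v : ρ → J) (hv : U.Gn (kb k Ω) v) : ∃ u, R0 U y y' u v := by
  obtain ⟨u, h1, h2, h3⟩ := R0_ex hy' hy (Pr_symm hP) v hv
  exact ⟨u, h2, h1, fun j => (h3 j).symm⟩

/-- `LD.equ` -/
theorem R0_smul (hy : LD H L m₀ D N₀ e₀ y s c₀) (hy' : LD H L' m₀ D N₀ e₀ y' s' c₀')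
    (u v : ρ → J) (h : R0 U y y' u v) (σ : Ω ≃ₐ[k] Ω) : R0 U y y' (σ • u) (σ • v) := by
  obtain ⟨h1, h2, h3⟩ := h
  refine ⟨gn_smul σ u h1, gn_smul σ v h2, fun j => ?_⟩
  rw [hy.equ j u h1, hy'.equ j v h2, h3 j]

/-- `LD.inv`, `gn_tors` -/
theorem R0_right (hy' : LD H L' m₀ D N₀ e₀ y' s' c₀') (u v t : ρ → J) (h : R0 U y y' u v)
    (ht : t ∈ L'.D) : R0 U y y' u (v + t) := by
  obtain ⟨h1, h2, h3⟩ := h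
  refine ⟨h1, gn_tors H (lag_tors L' ht) h2, fun j => ?_⟩
  rw [hy'.inv j v t h2 ht, h3 j]

theorem R0_left (hy : LD H L m₀ D N₀ e₀ y s c₀) (u v t : ρ → J) (h : R0 U y y' u v)
    (ht : t ∈ L.D) : R0 U y y' (u + t) v := by
  obtain ⟨h1, h2, h3⟩ := h
  refine ⟨gn_tors H (lag_tors L ht) h1, h2, fun j => ?_⟩
  rw [hy.inv j u t h1 ht, h3 j]

/-- `LD.sep` -/
theorem R0_sep (hy' : LD H L' m₀ D N₀ e₀ y' s' c₀') (u v v₁ : ρ → J) (h : R0 U y y' u v)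
    (h₁ : R0 U y y' u v₁) : v₁ - v ∈ L'.D :=
  hy'.sep v v₁ h.2.1 h₁.2.1 fun j => (h.2.2 j).symm.trans (h₁.2.2 j)

end TIFG
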