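import Mathlib
import Pool.Agent.TIFG.G5

/-!
# [TIF] block PIG, group part, row G6

`A = ρ → J`, `x ∈ A(K)` means `∀ i, x i ∈ U.Rt K`; generic means `U.Gn (kb k Ω)`; `V(·)` = `V.valuation`;
`A_V(x) = V(s x) Th(x)^{ℓ^{2c}}`.
-/

set_option autoImplicit false
set_option linter.unusedSectionVars false
set_option linter.unusedVariables false

open IntermediateField Pool.Agent.TIFA

namespace TIFG

variable {k Ω J : Type} [Field k] [Field Ω] [Algebra k Ω] [IsAlgClosed Ω] [AddCommGroup J]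
  [DistribMulAction (Ω ≃ₐ[k] Ω) J] {ρ : Type} [Fintype ρ] [DecidableEq ρ]
  {U : Uni k Ω J ρ} {ℓ : ℕ} [Fact ℓ.Prime] {e : ℕ → J → J → Ω} {H : Tht U ℓ e}

variable {L L' : Lag ℓ (Ω ≃ₐ[k] Ω) ρ e} {m₀ D N₀ e₀ : ℕ} {y y' : Fin D → (ρ → J) → Ω}
  {s s' : (ρ → J) → Ω} {c₀ c₀' : ρ → J}

/-- Let `w, w', v₀, v₀', K₀, σ` be as in `Pr`. `pair_hom`: `τ` over `kb` with `τ w = u`, `τ w' = u'`. Put
`v₁ = (τ σ⁻¹) • v₀`, `v₁' = (τ σ⁻¹) • v₀'`: then `y'_j(v₁) = y_j(u) = y'_j(v)`, so `v - v₁ ∈ L'.D` (`R0_sep`),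
`v' - v₁' ∈ L'.D`, and `y'_j(v₁ + v₁') = τ σ⁻¹ y'_j(v₀ + v₀') = τ y_j(w + w') = y_j(u + u')`; `v + v'` differs
from `v₁ + v₁'` by an element of `L'.D` (`R0_right`). `u + u'` is generic by `gn_add` over `K`, `v₀ + v₀'` by
`gn_add` over `K₀`. -/
theorem R0_add (hy : LD H L m₀ D N₀ e₀ y s c₀) (hy' : LD H L' m₀ D N₀ e₀ y' s' c₀')
    (hP : Pr U y y') (K : IntermediateField k Ω) (hK : Small K) (hb : kb k Ω ≤ K)
    (u v u' v' : ρ → J) (h : R0 U y y' u v) (h' : R0 U y y' u' v') (huK : ∀ i, u i ∈ U.Rt K)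
    (hu' : U.Gn K u') : R0 U y y' (u + u') (v + v') := by
  obtain ⟨w, w', v₀, v₀', K₀, σ, hK₀, hb₀, hwK, hw, hw', hvK, hv₀, hv₀', e1, e2, e3⟩ := hP
  obtain ⟨τ, hτ, hτw, hτw'⟩ := pair_hom K₀ K hK₀ hK hb₀ hb w w' u u' hw h.1 hwK huK hw' hu'
  -- genericity
  have hwg' : U.Gn (kb k Ω) w' := gn_kb hb₀ hw'
  have hvg' : U.Gn (kb k Ω) v₀' := gn_kb hb₀ hv₀'
  have hww : U.Gn (kb k Ω) (w + w') := by
    have h1 := gn_kb hb₀ (U.gn_add K₀ w' w hb₀ hw' hwK)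
    rwa [add_comm] at h1
  have hvv : U.Gn (kb k Ω) (v₀ + v₀') := by
    have h1 := gn_kb hb₀ (U.gn_add K₀ v₀' v₀ hb₀ hv₀' hvK)
    rwa [add_comm] at h1
  have huu : U.Gn (kb k Ω) (u + u') := by
    have h1 := gn_kb hb (U.gn_add K u' u hb hu' huK)
    rwa [add_comm] at h1
  -- the transported points
  have key : ∀ a b : ρ → J, U.Gn (kb k Ω) a → U.Gn (kb k Ω) b → (∀ j, σ (y j a) = y' j b) →
      ∀ j, y j (τ • a) = y' j ((τ * σ⁻¹) • b) := by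
    intro a b ha hb h j
    rw [hy.equ j a ha τ, hy'.equ j b hb (τ * σ⁻¹), ← h j]
    show τ (y j a) = τ (σ.symm (σ (y j a)))
    rw [AlgEquiv.symm_apply_apply]
  have r1 : R0 U y y' u ((τ * σ⁻¹) • v₀) := by
    refine ⟨h.1, gn_smul _ _ hv₀, fun j => ?_⟩
    rw [← key w v₀ hw hv₀ e1 j, hτw]
  have r2 : R0 U y y' u' ((τ * σ⁻¹) • v₀') := by
    refine ⟨h'.1, gn_smul _ _ hvg', fun j => ?_⟩
    rw [← key w' v₀' hwg' hvg' e2 j, hτw']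
  have r3 : R0 U y y' (u + u') ((τ * σ⁻¹) • v₀ + (τ * σ⁻¹) • v₀') := by
    rw [← smul_add]
    refine ⟨huu, gn_smul _ _ hvv, fun j => ?_⟩
    rw [← key (w + w') (v₀ + v₀') hww hvv e3 j, smul_add, hτw, hτw']
  have s1 := R0_sep hy' _ _ _ r1 h
  have s2 := R0_sep hy' _ _ _ r2 h'
  have r4 := R0_right hy' _ _ _ r3 (L'.D.add_mem s1 s2)
  have e : (τ * σ⁻¹) • v₀ + (τ * σ⁻¹) • v₀' +
      (v - (τ * σ⁻¹) • v₀ + (v' - (τ * σ⁻¹) • v₀')) = v + v' := by abel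
  rwa [e] at r4

end TIFG
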