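import Mathlib
import Pool.Agent.TIFG.G6

/-!
# [TIF] block PIG, group part, row G7

`A = ρ → J`, `x ∈ A(K)` means `∀ i, x i ∈ U.Rt K`; generic means `U.Gn (kb k Ω)`; `V(·)` = `V.valuation`;
`A_V(x) = V(s x) Th(x)^{ℓ^{2c}}`.
-/

set_option autoImplicit false
set_option linter.unusedSectionVars false
set_option linter.unusedVariables false

open IntermediateField Pool.Agent.TIFA

namespace TIFG

variable {k Ω J : Type} [Field k] [Field Ω] [Algebra k Ω] [IsAlgClosed Ω] [AddCommGroup J]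
  [DistribMulAction (Ω ≃ₐ[k] Ω) J] {ρ : Type} [Fintype ρ] [DecidableEq ρ]
  {U : Uni k Ω J ρ} {ℓ : ℕ} [Fact ℓ.Prime] {e : ℕ → J → J → Ω} {H : Tht U ℓ e}

variable {L L' : Lag ℓ (Ω ≃ₐ[k] Ω) ρ e} {m₀ D N₀ e₀ : ℕ} {y y' : Fin D → (ρ → J) → Ω}
  {s s' : (ρ → J) → Ω} {c₀ c₀' : ρ → J}

/-- two pairs of `R0` differ by an element of `RR`. Proof: `K` small with `u, v, w, t ∈ A(K)`; `u₂` generic over
`K`, `R0 u₂ v₂` (`R0_ex`). By `R0_add`: `R0 (u + u₂) (v + v₂)` and `R0 (w + u₂) (t + v₂)`; the base point is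
`u + u₂`, generic over `K`. -/
theorem RR_of_R0 (hy : LD H L m₀ D N₀ e₀ y s c₀) (hy' : LD H L' m₀ D N₀ e₀ y' s' c₀')
    (hP : Pr U y y') (u v w t : ρ → J) (h : R0 U y y' u v) (h' : R0 U y y' w t) :
    RR U y y' (w - u) (t - v) := by
  obtain ⟨K, hK, hb, hKx⟩ := ex_small U (![u, v, w, t] : Fin 4 → ρ → J)
  have huK : ∀ i, u i ∈ U.Rt K := hKx 0
  have hwK : ∀ i, w i ∈ U.Rt K := hKx 2
  obtain ⟨u₂, hu₂⟩ := U.gn_ex K hK
  obtain ⟨v₂, h₂⟩ := R0_ex hy hy' hP u₂ (gn_kb hb hu₂)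
  have r1 := R0_add hy hy' hP K hK hb u v u₂ v₂ h h₂ huK hu₂
  have r2 := R0_add hy hy' hP K hK hb w t u₂ v₂ h' h₂ hwK hu₂
  have hg : U.Gn K (u + u₂) := by
    rw [add_comm]
    exact U.gn_add K u₂ u hb hu₂ huK
  refine ⟨K, u + u₂, v + v₂, hK, hb, fun i => (U.Rt K).sub_mem (hwK i) (huK i), hg, r1, ?_⟩
  have e1 : w - u + (u + u₂) = w + u₂ := by abel
  have e2 : t - v + (v + v₂) = t + v₂ := by abel
  rw [e1, e2]
  exact r2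

/-- change of the base point. Proof: let `u₁, v₁` be the base point in `RR x z`. `x + u` is generic, so
`R0 (x + u) v'` for some `v'`; claim: `v' - (z + v) ∈ L'.D` (then `R0_right`). Let `F` be small with
`x, u, u₁, z, v, v₁, v' ∈ A(F)`, `u₂` generic over `F`, `R0 u₂ v₂`, `u₂' := u - u₁ + u₂` (generic over `F`) and
`R0 u₂' v₂'`. By `R0_add` (field `F`): `R0 (x + u + u₂) (v' + v₂)`; `R0 (x + u₁ + u₂') (z + v₁ + v₂')`, where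
`x + u₁ + u₂' = x + u + u₂`; `R0 (u₁ + u₂') (v₁ + v₂')`; `R0 (u + u₂) (v + v₂)`, where `u₁ + u₂' = u + u₂`.
By `R0_sep`, mod `L'.D`: `v' + v₂ ≡ z + v₁ + v₂'` and `v₁ + v₂' ≡ v + v₂`, so `v' ≡ z + v`. -/
theorem RR_base (hy : LD H L m₀ D N₀ e₀ y s c₀) (hy' : LD H L' m₀ D N₀ e₀ y' s' c₀')
    (hP : Pr U y y') (x z : ρ → J) (h : RR U y y' x z) (K : IntermediateField k Ω)
    (hK : Small K) (hb : kb k Ω ≤ K) (hx : ∀ i, x i ∈ U.Rt K) (u v : ρ → J) (hu : U.Gn K u)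
    (huv : R0 U y y' u v) : R0 U y y' (x + u) (z + v) := by
  obtain ⟨K₁, u₁, v₁, hK₁, hb₁, hx₁, hu₁, huv₁, hxz⟩ := h
  have hxu : U.Gn (kb k Ω) (x + u) := by
    rw [add_comm]
    exact gn_kb hb (U.gn_add K u x hb hu hx)
  obtain ⟨v', hv'⟩ := R0_ex hy hy' hP (x + u) hxu
  obtain ⟨F, hF, hbF, hFx⟩ := ex_small U (![x, u, u₁] : Fin 3 → ρ → J)
  have hxF : ∀ i, x i ∈ U.Rt F := hFx 0
  have huF : ∀ i, u i ∈ U.Rt F := hFx 1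
  have hu₁F : ∀ i, u₁ i ∈ U.Rt F := hFx 2
  obtain ⟨u₂, hu₂⟩ := U.gn_ex F hF
  obtain ⟨v₂, h₂⟩ := R0_ex hy hy' hP u₂ (gn_kb hbF hu₂)
  have hu₂' : U.Gn F (u - u₁ + u₂) := by
    rw [add_comm]
    exact U.gn_add F u₂ (u - u₁) hbF hu₂ fun i => (U.Rt F).sub_mem (huF i) (hu₁F i)
  obtain ⟨v₂', h₂'⟩ := R0_ex hy hy' hP (u - u₁ + u₂) (gn_kb hbF hu₂')
  have r1 := R0_add hy hy' hP F hF hbF (x + u) v' u₂ v₂ hv' h₂
    (fun i => (U.Rt F).add_mem (hxF i) (huF i)) hu₂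
  have r2 := R0_add hy hy' hP F hF hbF (x + u₁) (z + v₁) (u - u₁ + u₂) v₂' hxz h₂'
    (fun i => (U.Rt F).add_mem (hxF i) (hu₁F i)) hu₂'
  have r3 := R0_add hy hy' hP F hF hbF u₁ v₁ (u - u₁ + u₂) v₂' huv₁ h₂' hu₁F hu₂'
  have r4 := R0_add hy hy' hP F hF hbF u v u₂ v₂ huv h₂ huF hu₂
  have e1 : x + u₁ + (u - u₁ + u₂) = x + u + u₂ := by abel
  have e2 : u₁ + (u - u₁ + u₂) = u + u₂ := by abel
  rw [e1] at r2
  rw [e2] at r3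
  have s1 := R0_sep hy' _ _ _ r1 r2
  have s2 := R0_sep hy' _ _ _ r4 r3
  have r5 := R0_right hy' _ _ _ hv' (L'.D.sub_mem s1 s2)
  have e3 : v' + (z + v₁ + v₂' - (v' + v₂) - (v₁ + v₂' - (v + v₂))) = z + v := by abel
  rwa [e3] at r5

end TIFG
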