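import Mathlib
import Pool.Agent.TIFG.G7

/-!
# [TIF] block PIG, group part, row G8

`A = ρ → J`, `x ∈ A(K)` means `∀ i, x i ∈ U.Rt K`; generic means `U.Gn (kb k Ω)`; `V(·)` = `V.valuation`;
`A_V(x) = V(s x) Th(x)^{ℓ^{2c}}`.
-/

set_option autoImplicit false
set_option linter.unusedSectionVars false
set_option linter.unusedVariables false

open IntermediateField Pool.Agent.TIFA

namespace TIFG

variable {k Ω J : Type} [Field k] [Field Ω] [Algebra k Ω] [IsAlgClosed Ω] [AddCommGroup J]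
  [DistribMulAction (Ω ≃ₐ[k] Ω) J] {ρ : Type} [Fintype ρ] [DecidableEq ρ]
  {U : Uni k Ω J ρ} {ℓ : ℕ} [Fact ℓ.Prime] {e : ℕ → J → J → Ω} {H : Tht U ℓ e}

variable {L L' : Lag ℓ (Ω ≃ₐ[k] Ω) ρ e} {m₀ D N₀ e₀ : ℕ} {y y' : Fin D → (ρ → J) → Ω}
  {s s' : (ρ → J) → Ω} {c₀ c₀' : ρ → J}

/-- `K` small with `x, x' ∈ A(K)`, `u` generic over `K`, `R0 u v`; `RR_base`: `R0 (x' + u) (z' + v)`, and
`x' + u` is generic over `K`, so `R0 (x + (x' + u)) (z + (z' + v))`. -/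
theorem RR_add (hy : LD H L m₀ D N₀ e₀ y s c₀) (hy' : LD H L' m₀ D N₀ e₀ y' s' c₀')
    (hP : Pr U y y') (x z x' z' : ρ → J) (h : RR U y y' x z) (h' : RR U y y' x' z') :
    RR U y y' (x + x') (z + z') := by
  obtain ⟨K, hK, hb, hKx⟩ := ex_small U (![x, x'] : Fin 2 → ρ → J)
  have hxK : ∀ i, x i ∈ U.Rt K := hKx 0
  have hxK' : ∀ i, x' i ∈ U.Rt K := hKx 1
  obtain ⟨u, hu⟩ := U.gn_ex K hK
  obtain ⟨v, huv⟩ := R0_ex hy hy' hP u (gn_kb hb hu)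
  have r1 := RR_base hy hy' hP x' z' h' K hK hb hxK' u v hu huv
  have hg : U.Gn K (x' + u) := by
    rw [add_comm]
    exact U.gn_add K u x' hb hu hxK'
  have r2 := RR_base hy hy' hP x z h K hK hb hxK (x' + u) (z' + v) hg r1
  refine ⟨K, u, v, hK, hb, fun i => (U.Rt K).add_mem (hxK i) (hxK' i), hu, huv, ?_⟩
  rw [add_assoc, add_assoc]
  exact r2

/-- `R0 (x + u) (z + v)`, `R0 u v`, `u` generic over `K ∋ x`: use the base point `(x + u, z + v)`. -/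
theorem RR_neg (hy : LD H L m₀ D N₀ e₀ y s c₀) (hy' : LD H L' m₀ D N₀ e₀ y' s' c₀')
    (hP : Pr U y y') (x z : ρ → J) (h : RR U y y' x z) : RR U y y' (-x) (-z) := by
  obtain ⟨K, u, v, hK, hb, hx, hu, huv, hxz⟩ := h
  have hg : U.Gn K (x + u) := by
    rw [add_comm]
    exact U.gn_add K u x hb hu hx
  refine ⟨K, x + u, z + v, hK, hb, fun i => (U.Rt K).neg_mem (hx i), hg, hxz, ?_⟩
  rw [neg_add_cancel_left, neg_add_cancel_left]
  exact huv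

/-- `→`: `y_j(x + u) = y'_j(v) = y_j(u)` and `LD.sep`; `←`: `K = kb`, `u` generic, `R0_ex`, `R0_left`. -/
theorem RR_left (hy : LD H L m₀ D N₀ e₀ y s c₀) (hy' : LD H L' m₀ D N₀ e₀ y' s' c₀')
    (hP : Pr U y y') (x : ρ → J) : RR U y y' x 0 ↔ x ∈ L.D := by
  constructor
  · rintro ⟨K, u, v, hK, hb, hx, hu, huv, hxz⟩
    have h1 := hy.sep u (x + u) huv.1 hxz.1 (fun j => by
      rw [huv.2.2 j, hxz.2.2 j, zero_add])
    rwa [add_sub_cancel_right] at h1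
  · intro hx
    obtain ⟨u, hu⟩ := U.gn_ex (kb k Ω) small_kb
    obtain ⟨v, huv⟩ := R0_ex hy hy' hP u hu
    have r := R0_left hy u v x huv hx
    refine ⟨kb k Ω, u, v, small_kb, le_rfl, fun i => tors_rt H (lag_tors L hx) i, hu, huv, ?_⟩
    rw [zero_add, add_comm]
    exact r

theorem RR_right (hy : LD H L m₀ D N₀ e₀ y s c₀) (hy' : LD H L' m₀ D N₀ e₀ y' s' c₀')
    (hP : Pr U y y') (z : ρ → J) : RR U y y' 0 z ↔ z ∈ L'.D := by
  constructor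
  · rintro ⟨K, u, v, hK, hb, hx, hu, huv, hxz⟩
    rw [zero_add] at hxz
    have h1 := R0_sep hy' _ _ _ huv hxz
    rwa [add_sub_cancel_right] at h1
  · intro hz
    obtain ⟨u, hu⟩ := U.gn_ex (kb k Ω) small_kb
    obtain ⟨v, huv⟩ := R0_ex hy hy' hP u hu
    have r := R0_right hy' u v z huv hz
    refine ⟨kb k Ω, u, v, small_kb, le_rfl, fun i => (U.Rt _).zero_mem, hu, huv, ?_⟩
    rw [zero_add, add_comm]
    exact r

/-- `K` small with `x ∈ A(K)`, `u` generic over `K`, `R0 u v`, `R0 (x + u) v'`; `z := v' - v`. -/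
theorem RR_tot (hy : LD H L m₀ D N₀ e₀ y s c₀) (hy' : LD H L' m₀ D N₀ e₀ y' s' c₀')
    (hP : Pr U y y') (x : ρ → J) : ∃ z, RR U y y' x z := by
  obtain ⟨K, hK, hb, hKx⟩ := ex_small U (![x] : Fin 1 → ρ → J)
  have hxK : ∀ i, x i ∈ U.Rt K := hKx 0
  obtain ⟨u, hu⟩ := U.gn_ex K hK
  obtain ⟨v, huv⟩ := R0_ex hy hy' hP u (gn_kb hb hu)
  have hg : U.Gn (kb k Ω) (x + u) := by
    rw [add_comm]
    exact gn_kb hb (U.gn_add K u x hb hu hxK)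
  obtain ⟨v', hv'⟩ := R0_ex hy hy' hP (x + u) hg
  refine ⟨v' - v, K, u, v, hK, hb, hxK, hu, huv, ?_⟩
  rw [sub_add_cancel]
  exact hv'

/-- `v` and `z + v` generic (`ex_add`), `R0 u v`, `R0 u' (z + v)` (`R0_ex'`), `x := u' - u`, `RR_of_R0`. -/
theorem RR_tot' (hy : LD H L m₀ D N₀ e₀ y s c₀) (hy' : LD H L' m₀ D N₀ e₀ y' s' c₀')
    (hP : Pr U y y') (z : ρ → J) : ∃ x, RR U y y' x z := by
  obtain ⟨v, hv, hzv⟩ := ex_add U z (kb k Ω) small_kb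
  obtain ⟨u, huv⟩ := R0_ex' hy hy' hP v hv
  obtain ⟨u', hu'⟩ := R0_ex' hy hy' hP (z + v) hzv
  have r := RR_of_R0 hy hy' hP u v u' (z + v) huv hu'
  rw [add_sub_cancel_right] at r
  exact ⟨u' - u, r⟩

/-- on generic points `RR` is `R0`. `←`: `K ∋ x` small, `u` generic over `K`, `R0 u v`, `R0_add`:
`R0 (x + u) (z + v)`. `→`: `R0 x z'` by `R0_ex`, so `RR x z'` and `RR 0 (z - z')`, `z - z' ∈ L'.D`, `R0_right`. -/
theorem RR_gen (hy : LD H L m₀ D N₀ e₀ y s c₀) (hy' : LD H L' m₀ D N₀ e₀ y' s' c₀')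
    (hP : Pr U y y') (x z : ρ → J) (hx : U.Gn (kb k Ω) x) : RR U y y' x z ↔ R0 U y y' x z := by
  have back : ∀ z, R0 U y y' x z → RR U y y' x z := by
    intro z h
    obtain ⟨K, hK, hb, hKx⟩ := ex_small U (![x] : Fin 1 → ρ → J)
    have hxK : ∀ i, x i ∈ U.Rt K := hKx 0
    obtain ⟨u, hu⟩ := U.gn_ex K hK
    obtain ⟨v, huv⟩ := R0_ex hy hy' hP u (gn_kb hb hu)
    exact ⟨K, u, v, hK, hb, hxK, hu, huv, R0_add hy hy' hP K hK hb x z u v h huv hxK hu⟩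
  refine ⟨fun h => ?_, back z⟩
  obtain ⟨z', hz'⟩ := R0_ex hy hy' hP x hx
  have r := RR_add hy hy' hP _ _ _ _ h (RR_neg hy hy' hP _ _ (back z' hz'))
  rw [add_neg_cancel] at r
  have r2 := R0_right hy' x z' _ hz' ((RR_right hy hy' hP _).1 r)
  have e : z' + (z + -z') = z := by abel
  rwa [e] at r2

/-- `K.map σ`, `R0_smul` -/
theorem RR_smul (hy : LD H L m₀ D N₀ e₀ y s c₀) (hy' : LD H L' m₀ D N₀ e₀ y' s' c₀')
    (hP : Pr U y y') (x z : ρ → J) (h : RR U y y' x z) (σ : Ω ≃ₐ[k] Ω) :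
    RR U y y' (σ • x) (σ • z) := by
  obtain ⟨K, u, v, hK, hb, hx, hu, huv, hxz⟩ := h
  refine ⟨K.map (σ : Ω →ₐ[k] Ω), σ • u, σ • v, small_map hK σ, kb_le_map hb σ,
    fun i => U.rt_map σ K (x i) (hx i), U.gn_map σ K u hu, R0_smul hy hy' u v huv σ, ?_⟩
  rw [← smul_add, ← smul_add]
  exact R0_smul hy hy' _ _ hxz σ

/-- `R0 u v` and `R0 (x + u) (z + v)`; exchange the sides and use `RR_of_R0` (for `Pr_symm`). -/
theorem RR_symm (hy : LD H L m₀ D N₀ e₀ y s c₀) (hy' : LD H L' m₀ D N₀ e₀ y' s' c₀')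
    (hP : Pr U y y') (x z : ρ → J) (h : RR U y y' x z) : RR U y' y z x := by
  obtain ⟨K, u, v, hK, hb, hx, hu, huv, hxz⟩ := h
  have r := RR_of_R0 hy' hy (Pr_symm hP) v u (z + v) (x + u)
    ⟨huv.2.1, huv.1, fun j => (huv.2.2 j).symm⟩ ⟨hxz.2.1, hxz.1, fun j => (hxz.2.2 j).symm⟩
  rwa [add_sub_cancel_right, add_sub_cancel_right] at r

end TIFG
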