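import Mathlib
import Pool.Agent.TIFG.G8

/-!
# [TIF] block PIG, group part, row G9

`A = ρ → J`, `x ∈ A(K)` means `∀ i, x i ∈ U.Rt K`; 'generic' = `U.Gn (kb k Ω)`; `V(·)` = `V.valuation`;
`A_V(x) = V(s x) Th(x)^{ℓ^{2c}}`.
-/

set_option autoImplicit false
set_option linter.unusedSectionVars false
set_option linter.unusedVariables false

open IntermediateField Pool.Agent.TIFA

namespace TIFG

variable {k Ω J : Type} [Field k] [Field Ω] [Algebra k Ω] [IsAlgClosed Ω] [AddCommGroup J]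
  [DistribMulAction (Ω ≃ₐ[k] Ω) J] {ρ : Type} [Fintype ρ] [DecidableEq ρ]
  {U : Uni k Ω J ρ} {ℓ : ℕ} [Fact ℓ.Prime] {e : ℕ → J → J → Ω} {H : Tht U ℓ e}

variable {L L' : Lag ℓ (Ω ≃ₐ[k] Ω) ρ e} {m₀ D N₀ e₀ : ℕ} {y y' : Fin D → (ρ → J) → Ω}
  {s s' : (ρ → J) → Ω} {c₀ c₀' : ρ → J}

/-- the case of a small field `K`: see the proof of `RR_hon`, step (2) -/
theorem G9_small (hy : LD H L m₀ D N₀ e₀ y s c₀) (hy' : LD H L' m₀ D N₀ e₀ y' s' c₀')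
    (hP : Pr U y y') (x z : ρ → J) (h : RR U y y' x z) (K : IntermediateField k Ω) (hK : Small K)
    (hx : ∀ i, x i ∈ U.Rt K) : ∀ i, ℓ ^ (2 * L'.c) • z i ∈ U.Rt K := by
  obtain ⟨u, K₁, hu, hKK, huK, hreg⟩ := U.gn_reg K hK
  have hsm : Small (kb k Ω ⊔ K) := small_sup small_kb hK
  have hu0 : U.Gn (kb k Ω) u := U.gn_anti _ _ _ le_sup_left hu
  obtain ⟨v, huv⟩ := R0_ex hy hy' hP u hu0
  have hxv : R0 U y y' (x + u) (z + v) := RR_base hy hy' hP x z h (kb k Ω ⊔ K) hsm le_sup_left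
    (fun i => U.rt_mono _ _ le_sup_right (hx i)) u v hu huv
  have h1 : ∀ j, y' j v ∈ K₁ := by
    intro j
    rw [← huv.2.2 j]
    exact hy.hon j K₁ u hu0 huK
  have h2 : ∀ j, y' j (z + v) ∈ K₁ := by
    intro j
    rw [← hxv.2.2 j]
    exact hy.hon j K₁ (x + u) hxv.1
      (fun i => (U.Rt K₁).add_mem (U.rt_mono _ _ hKK (hx i)) (huK i))
  have a1 : adjoin k (Set.range fun j => y' j v) ≤ K₁ := by
    rw [adjoin_le_iff]
    rintro _ ⟨j, rfl⟩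
    exact h1 j
  have a2 : adjoin k (Set.range fun j => y' j (z + v)) ≤ K₁ := by
    rw [adjoin_le_iff]
    rintro _ ⟨j, rfl⟩
    exact h2 j
  intro i
  have r1 : ℓ ^ (2 * L'.c) • v i ∈ U.Rt K₁ := U.rt_mono _ _ a1 (hy'.rat v huv.2.1 i)
  have r2 : ℓ ^ (2 * L'.c) • (z + v) i ∈ U.Rt K₁ := U.rt_mono _ _ a2 (hy'.rat (z + v) hxv.2.1 i)
  have r3 : ℓ ^ (2 * L'.c) • z i ∈ U.Rt K₁ := by
    have e1 : ℓ ^ (2 * L'.c) • z i = ℓ ^ (2 * L'.c) • (z + v) i - ℓ ^ (2 * L'.c) • v i := by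
      rw [Pi.add_apply, nsmul_add, add_sub_cancel_right]
    rw [e1]
    exact (U.Rt K₁).sub_mem r2 r1
  refine hreg _ r3 fun σ hσ => ?_
  have hσx : σ • x = x := funext fun i => U.rt_fix K (x i) (hx i) σ hσ
  have t1 : RR U y y' (σ • x) (σ • z) := RR_smul hy hy' hP x z h σ
  rw [hσx] at t1
  have t2 := RR_add hy hy' hP x (σ • z) (-x) (-z) t1 (RR_neg hy hy' hP x z h)
  rw [add_neg_cancel] at t2
  have t3 := lag_tors L' ((RR_right hy hy' hP _).1 t2)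
  have t4 := congrFun t3 i
  rw [Pi.smul_apply, Pi.add_apply, Pi.neg_apply, Pi.smul_apply, Pi.zero_apply, nsmul_add,
    smul_neg, add_neg_eq_zero] at t4
  rw [smul_comm, t4]

/-- honesty of the relation. Let `x ∈ A(K)`, `RR x z`. (1) We may assume `K` small: `x ∈ A(adjoin k S)` with `S`
finite (`rt_fin`, `rt_mono`), so `x ∈ A(K ⊓ adjoin k S)` (`rt_inf`). (2) `gn_reg K`: `u, K₁`. `R0 u v` (`R0_ex`),
`R0 (x + u) (z + v)` (`RR_base` for `kb ⊔ K`). `y'_j(v) = y_j(u) ∈ K₁` and `y'_j(z + v) = y_j(x + u) ∈ K₁`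
(`LD.hon`), so by `LD.rat` and `rt_mono` `ℓ^{2c'} v_i, ℓ^{2c'} (z + v)_i ∈ Rt K₁`, and so is their difference
`w_i := ℓ^{2c'} z_i`. For `σ` over `K`: `RR x (σ z)` (`RR_smul`, `σ x = x`), so `RR 0 (σ z - z)`,
`σ z - z ∈ L'.D`, `σ w = w`. Hence `w_i ∈ Rt K` by the last property of `gn_reg`. -/
theorem RR_hon (hy : LD H L m₀ D N₀ e₀ y s c₀) (hy' : LD H L' m₀ D N₀ e₀ y' s' c₀')
    (hP : Pr U y y') (x z : ρ → J) (h : RR U y y' x z) (K : IntermediateField k Ω)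
    (hx : ∀ i, x i ∈ U.Rt K) : ∀ i, ℓ ^ (2 * L'.c) • z i ∈ U.Rt K := by
  classical
  have hS : ∀ i, ∃ S : Finset Ω, x i ∈ U.Rt (adjoin k (S : Set Ω)) := fun i => U.rt_fin (x i)
  choose S hS using hS
  have hT : ∀ i, x i ∈ U.Rt (K ⊓ adjoin k ((Finset.univ.biUnion S : Finset Ω) : Set Ω)) := by
    intro i
    refine U.rt_inf _ _ _ (hx i) (U.rt_mono _ _ (adjoin.mono k _ _ ?_) (hS i))
    intro a ha
    rw [Finset.mem_coe, Finset.mem_biUnion]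
    exact ⟨i, Finset.mem_univ i, ha⟩
  intro i
  exact U.rt_mono _ _ inf_le_left (G9_small hy hy' hP x z h _
    (small_mono (small_adjoin _) inf_le_right) hT i)

end TIFG
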