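import Mathlib
import Pool.Agent.TIFG.G9

/-!
# [TIF] block PIG, group part, row G10

`A = ρ → J`, `x ∈ A(K)` means `∀ i, x i ∈ U.Rt K`; 'generic' = `U.Gn (kb k Ω)`; `V(·)` = `V.valuation`;
`A_V(x) = V(s x) Th(x)^{ℓ^{2c}}`.
-/

set_option autoImplicit false
set_option linter.unusedSectionVars false
set_option linter.unusedVariables false

open IntermediateField Pool.Agent.TIFA

namespace TIFG

variable {k Ω J : Type} [Field k] [Field Ω] [Algebra k Ω] [IsAlgClosed Ω] [AddCommGroup J]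
  [DistribMulAction (Ω ≃ₐ[k] Ω) J] {ρ : Type} [Fintype ρ] [DecidableEq ρ]
  {U : Uni k Ω J ρ} {ℓ : ℕ} [Fact ℓ.Prime] {e : ℕ → J → J → Ω} {H : Tht U ℓ e}

variable {L L' : Lag ℓ (Ω ≃ₐ[k] Ω) ρ e} {m₀ D N₀ e₀ : ℕ} {y y' : Fin D → (ρ → J) → Ω}
  {s s' : (ρ → J) → Ω} {c₀ c₀' : ρ → J}

/-- `ℓ ^ (2 c') • z` only depends on `x` -/
theorem G10_wd (hy : LD H L m₀ D N₀ e₀ y s c₀)
    (hy' : LD H L' m₀ D N₀ e₀ y' s' c₀') (hP : Pr U y y') (x z z' : ρ → J) (h : RR U y y' x z)
    (h' : RR U y y' x z') : ℓ ^ (2 * L'.c) • z = ℓ ^ (2 * L'.c) • z' := by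
  have h1 := RR_add hy hy' hP _ _ _ _ h (RR_neg hy hy' hP _ _ h')
  rw [add_neg_cancel] at h1
  have h2 := lag_tors L' ((RR_right hy hy' hP _).1 h1)
  rw [smul_add, smul_neg] at h2
  exact add_neg_eq_zero.1 h2

/-- the additive map `f x := ℓ^{2c'} z`, `z` any element with `RR x z` (`RR_tot`; well defined by `RR_right`,
`RR_add`, `RR_neg` and `lag_tors`; additive by `RR_add`; equivariant by `RR_smul`; honest by `RR_hon`). -/
theorem ex_map (hy : LD H L m₀ D N₀ e₀ y s c₀) (hy' : LD H L' m₀ D N₀ e₀ y' s' c₀')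
    (hP : Pr U y y') : ∃ f : (ρ → J) →+ (ρ → J),
      (∀ x z, RR U y y' x z → f x = ℓ ^ (2 * L'.c) • z) ∧
      (∀ (σ : Ω ≃ₐ[k] Ω) (x : ρ → J), f (σ • x) = σ • f x) ∧
      ∀ (K : IntermediateField k Ω) (x : ρ → J), (∀ i, x i ∈ U.Rt K) → ∀ i, f x i ∈ U.Rt K := by
  choose z hz using RR_tot hy hy' hP
  have key : ∀ x w, RR U y y' x w → ℓ ^ (2 * L'.c) • z x = ℓ ^ (2 * L'.c) • w :=
    fun x w hw => G10_wd hy hy' hP x (z x) w (hz x) hw
  refine ⟨{ toFun := fun x => ℓ ^ (2 * L'.c) • z x, map_zero' := ?_, map_add' := ?_ }, ?_, ?_, ?_⟩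
  · rw [key 0 0 ((RR_right hy hy' hP 0).2 L'.D.zero_mem), smul_zero]
  · intro x x'
    rw [key _ _ (RR_add hy hy' hP _ _ _ _ (hz x) (hz x')), smul_add]
  · intro x w hw
    exact key x w hw
  · intro σ x
    change ℓ ^ (2 * L'.c) • z (σ • x) = σ • (ℓ ^ (2 * L'.c) • z x)
    rw [key _ _ (RR_smul hy hy' hP _ _ (hz x) σ), smul_comm]
  · intro K x hx i
    exact RR_hon hy hy' hP x (z x) (hz x) K hx i

/-- matrices: `a r s := (evaluation at r) ∘ f ∘ (AddMonoidHom.single _ s)` -/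
theorem ex_mat (U : Uni k Ω J ρ) (f : (ρ → J) →+ (ρ → J))
    (h1 : ∀ (σ : Ω ≃ₐ[k] Ω) (x : ρ → J), f (σ • x) = σ • f x)
    (h2 : ∀ (K : IntermediateField k Ω) (x : ρ → J), (∀ i, x i ∈ U.Rt K) → ∀ i, f x i ∈ U.Rt K) :
    ∃ a : Matrix ρ ρ (AddMonoid.End J), EH U.Hon a ∧ act a = f := by
  refine ⟨fun r s => (Pi.evalAddMonoidHom (fun _ : ρ => J) r).comp
    (f.comp (AddMonoidHom.single (fun _ : ρ => J) s)), ?_, ?_⟩
  · intro r s
    refine ⟨fun σ x => ?_, fun K x hx => ?_⟩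
    · change f (Pi.single s (σ • x)) r = σ • (f (Pi.single s x) r)
      have h3 : (Pi.single s (σ • x) : ρ → J) = σ • (Pi.single s x : ρ → J) := by
        funext i
        by_cases hi : i = s
        · subst hi
          simp
        · simp [hi]
      rw [h3, h1]
      rfl
    · change f (Pi.single s x) r ∈ U.Rt K
      refine h2 K _ (fun i => ?_) r
      by_cases hi : i = s
      · subst hi
        simpa using hx
      · rw [Pi.single_eq_of_ne hi]
        exact (U.Rt K).zero_mem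
  · refine AddMonoidHom.ext fun x => ?_
    funext r
    rw [act_apply]
    change ∑ s, f (Pi.single s (x s)) r = f x r
    conv_rhs => rw [← Finset.univ_sum_single x, map_sum, Finset.sum_apply]

/-- `EH U.Hon a` gives back the two properties of `act a` -/
theorem act_smul (a : Matrix ρ ρ (AddMonoid.End J)) (ha : EH U.Hon a) (σ : Ω ≃ₐ[k] Ω)
    (x : ρ → J) : act a (σ • x) = σ • act a x := by
  funext r
  rw [act_apply]
  change ∑ s, a r s (σ • x s) = σ • (act a x r)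
  rw [act_apply, Finset.smul_sum]
  exact Finset.sum_congr rfl fun s _ => (ha r s).1 σ (x s)

theorem act_rt (a : Matrix ρ ρ (AddMonoid.End J)) (ha : EH U.Hon a) (K : IntermediateField k Ω)
    (x : ρ → J) (hx : ∀ i, x i ∈ U.Rt K) (i : ρ) : act a x i ∈ U.Rt K := by
  rw [act_apply]
  exact AddSubgroup.sum_mem _ fun s _ => (ha i s).2 K _ (hx s)

theorem act_mul' (a b : Matrix ρ ρ (AddMonoid.End J)) (x : ρ → J) :
    act (a * b) x = act a (act b x) := by
  funext r
  rw [act_apply, act_apply]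
  have h1 : ∀ s, (a * b) r s (x s) = ∑ j, a r j (b j s (x s)) := by
    intro s
    rw [Matrix.mul_apply]
    exact map_sum (AddMonoidHom.eval (x s) : (J →+ J) →+ J) (fun j => a r j * b j s) Finset.univ
  rw [Finset.sum_congr rfl fun s _ => h1 s, Finset.sum_comm]
  refine Finset.sum_congr rfl fun j _ => ?_
  rw [act_apply, map_sum]

theorem act_inj {a b : Matrix ρ ρ (AddMonoid.End J)} (h : ∀ x, act a x = act b x) : a = b := by
  have h1 : ∀ (c : Matrix ρ ρ (AddMonoid.End J)) (r s : ρ) (x : J),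
      act c (Pi.single s x) r = c r s x := by
    intro c r s x
    rw [act_apply, Finset.sum_eq_single s]
    · simp
    · intro j _ hj
      rw [Pi.single_eq_of_ne hj, map_zero]
    · intro hs
      exact absurd (Finset.mem_univ s) hs
  ext r s x
  rw [← h1 a, ← h1 b, h]

/-- `gn_iso` for `act a`, `act a'` -/
theorem act_gn (a a' : Matrix ρ ρ (AddMonoid.End J)) (n : ℕ) (hn : (n : k) ≠ 0) (ha : EH U.Hon a)
    (ha' : EH U.Hon a') (h : a' * a = n • 1) (x : ρ → J) (hx : U.Gn (kb k Ω) x) :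
    U.Gn (kb k Ω) (act a x) := by
  refine U.gn_iso (act a) (act a') (act_smul a ha) (act_smul a' ha') ⟨n, hn, fun x => ?_⟩ x hx
  rw [← act_mul', h]
  funext r
  rw [act_apply, Finset.sum_eq_single r]
  · rw [Matrix.smul_apply, Matrix.one_apply_eq]
    rfl
  · intro j _ hj
    rw [Matrix.smul_apply, Matrix.one_apply_ne (Ne.symm hj)]
    exact smul_zero n
  · intro hs
    exact absurd (Finset.mem_univ r) hs

end TIFG
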