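import Mathlib
import Pool.Agent.TIFG.Spc
import Pool.Agent.TIFG.G10

/-!
# [TIF] block PIG, functions on the quotients, row L1

`A = ρ → J`, `x ∈ A(K)` means `∀ i, x i ∈ U.Rt K`; generic means `U.Gn (kb k Ω)`; `V(·)` = `V.valuation`;
`A_V(x) = V(s x) Th(x)^{ℓ^{2c}}`.
-/

set_option autoImplicit false
set_option linter.unusedSectionVars false
set_option linter.unusedVariables false

open IntermediateField Pool.Agent.TIFA

namespace TIFG

variable {k Ω J : Type} [Field k] [Field Ω] [Algebra k Ω] [IsAlgClosed Ω] [AddCommGroup J]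
  [DistribMulAction (Ω ≃ₐ[k] Ω) J] {ρ : Type} [Fintype ρ] [DecidableEq ρ]
  {U : Uni k Ω J ρ} {ℓ : ℕ} [Fact ℓ.Prime] {e : ℕ → J → J → Ω} {H : Tht U ℓ e} {g d cT : ℕ}
  {E : Spc H g d cT}

theorem cj_mul (σ τ : Ω ≃ₐ[k] Ω) (F : (ρ → J) → Ω) : cj (σ * τ) F = cj σ (cj τ F) := by
  funext x
  show (σ * τ) (F ((σ * τ)⁻¹ • x)) = σ (τ (F (τ⁻¹ • σ⁻¹ • x)))
  rw [mul_inv_rev, mul_smul]
  rfl

theorem cj_smul (σ : Ω ≃ₐ[k] Ω) (c : Ω) (F : (ρ → J) → Ω) :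
    cj σ (fun x => c * F x) = fun x => σ c * cj σ F x := by
  funext x
  exact map_mul σ c _

/-- automorphisms over `kb` fix the functions of `HH` and all `Fnu` on generic points -/
theorem cj_fnu (f : (ρ → J) → Ω) (hf : U.Fnu f) (σ : Ω ≃ₐ[k] Ω) (hσ : σ ∈ (kb k Ω).fixingSubgroup)
    (x : ρ → J) (hx : U.Gn (kb k Ω) x) : cj σ f x = f x := by
  show σ (f (σ⁻¹ • x)) = f x
  rw [← hf.equ σ hσ _ (gn_smul σ⁻¹ x hx), smul_inv_smul]

/-- two functions of `HH m` which agree on the generic points are equal (`supp`) -/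
theorem hh_ext (E : Spc H g d cT) {m : ℕ} {F F' : (ρ → J) → Ω} (hF : F ∈ E.HH m) (hF' : F' ∈ E.HH m)
    (h : ∀ x, U.Gn (kb k Ω) x → F x = F' x) : F = F' := by
  funext x
  by_cases hx : U.Gn (kb k Ω) x
  · exact h x hx
  · rw [E.supp m F hF x hx, E.supp m F' hF' x hx]

theorem TT_mem (E : Spc H g d cT) (n : ℕ) (t : ρ → J) (ht : ℓ ^ n • t = 0) (F : (ρ → J) → Ω)
    (hF : F ∈ E.HH (ℓ ^ n)) : TT H n t F ∈ E.HH (ℓ ^ n) := by
  exact E.tr n t ht F hF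

/-- `cc_com`; both sides vanish at non-generic points -/
theorem TT_comm (E : Spc H g d cT) (n : ℕ) (t t' : ρ → J) (ht : ℓ ^ n • t = 0) (ht' : ℓ ^ n • t' = 0)
    (F : (ρ → J) → Ω) (hF : F ∈ E.HH (ℓ ^ n)) :
    TT H n t (TT H n t' F) = fun x => eA e n t t' ^ H.sg * TT H n t' (TT H n t F) x := by
  have h1 := TT_mem E n t ht _ (TT_mem E n t' ht' F hF)
  have h2 := TT_mem E n t' ht' _ (TT_mem E n t ht F hF)
  funext x
  by_cases hx : U.Gn (kb k Ω) x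
  · show H.cc n t x * (H.cc n t' (x + t) * F (x + t + t')) =
      eA e n t t' ^ H.sg * (H.cc n t' x * (H.cc n t (x + t') * F (x + t' + t)))
    rw [add_right_comm x t' t, ← mul_assoc, H.cc_com n t t' ht ht' x hx]
    ring
  · rw [E.supp _ _ h1 x hx]
    show 0 = eA e n t t' ^ H.sg * TT H n t' (TT H n t F) x
    rw [E.supp _ _ h2 x hx, mul_zero]

/-- `fn_eq` for `cc n t x * cc n t' (x + t)` and `cc n (t + t') x` (`cc_val`) -/
theorem TT_mul (E : Spc H g d cT) (n : ℕ) (t t' : ρ → J) (ht : ℓ ^ n • t = 0) (ht' : ℓ ^ n • t' = 0) :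
    ∃ κ ∈ kb k Ω, κ ≠ 0 ∧ ∀ F ∈ E.HH (ℓ ^ n),
      TT H n t (TT H n t' F) = fun x => κ * TT H n (t + t') F x := by
  have hsum : ℓ ^ n • (t + t') = 0 := by rw [smul_add, ht, ht', add_zero]
  have hc := H.cc_fn n t ht
  have hc' := H.cc_fn n t' ht'
  obtain ⟨κ, hκ, hκ0, hfg⟩ := fn_eq (fun x => H.cc n t x * H.cc n t' (x + t)) (H.cc n (t + t'))
    (U := U) ⟨fun x hx => mul_ne_zero (hc.ne x hx) (hc'.ne _ (gn_tors H ht hx)),
      fun σ hσ x hx => by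
        have h1 : σ • x + t = σ • (x + t) := by rw [smul_add, fix_tors H ht σ hσ]
        show H.cc n t (σ • x) * H.cc n t' (σ • x + t) = σ (H.cc n t x * H.cc n t' (x + t))
        rw [h1, hc.equ σ hσ x hx, hc'.equ σ hσ _ (gn_tors H ht hx), map_mul]⟩
    (H.cc_fn n _ hsum) (fun V hV x hx => by
      have h1 := H.cc_val n t ht V hV x hx
      have h2 := H.cc_val n t' ht' V hV _ (gn_tors H ht hx)
      have h3 := H.cc_val n _ hsum V hV x hx
      have h0 : H.Th V x ^ ℓ ^ n ≠ 0 := pow_ne_zero _ (H.th_ne V hV x hx)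
      apply mul_right_cancel₀ h0
      rw [h3, map_mul, mul_right_comm, h1, mul_comm (H.Th V (x + t) ^ ℓ ^ n), h2, add_assoc])
  refine ⟨κ, hκ, hκ0, fun F hF => ?_⟩
  have h1 := TT_mem E n t ht _ (TT_mem E n t' ht' F hF)
  have h2 := TT_mem E n _ hsum F hF
  funext x
  by_cases hx : U.Gn (kb k Ω) x
  · have h3 := hfg x hx
    show H.cc n t x * (H.cc n t' (x + t) * F (x + t + t')) =
      κ * (H.cc n (t + t') x * F (x + (t + t')))
    rw [← mul_assoc, ← mul_assoc, ← h3, add_assoc]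
  · rw [E.supp _ _ h1 x hx]
    show 0 = κ * TT H n (t + t') F x
    rw [E.supp _ _ h2 x hx, mul_zero]

theorem TT_inj (E : Spc H g d cT) (n : ℕ) (t : ρ → J) (ht : ℓ ^ n • t = 0) (F : (ρ → J) → Ω)
    (hF : F ∈ E.HH (ℓ ^ n)) (h : TT H n t F = 0) : F = 0 := by
  funext x
  by_cases hx : U.Gn (kb k Ω) x
  · have ht' : ℓ ^ n • (-t) = 0 := by rw [smul_neg, ht, neg_zero]
    have h1 : H.cc n t (x + -t) * F (x + -t + t) = 0 := congrFun h (x + -t)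
    rw [neg_add_cancel_right] at h1
    exact (mul_eq_zero.1 h1).resolve_left ((H.cc_fn n t ht).ne _ (gn_tors H ht' hx))
  · exact E.supp _ _ hF x hx

/-- `cc_conj` -/
theorem TT_cj (E : Spc H g d cT) (n : ℕ) (t : ρ → J) (ht : ℓ ^ n • t = 0) (σ : Ω ≃ₐ[k] Ω) :
    ∃ κ ∈ kb k Ω, κ ≠ 0 ∧ ∀ F ∈ E.HH (ℓ ^ n),
      cj σ (TT H n t F) = fun x => κ * TT H n (σ • t) (cj σ F) x := by
  obtain ⟨κ, hκ, hκ0, h⟩ := E.cc_conj n t ht σ
  have hst : ℓ ^ n • (σ • t) = 0 := by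
    have h1 : ℓ ^ n • (σ • t) = σ • (ℓ ^ n • t) :=
      (map_nsmul (DistribSMul.toAddMonoidHom (ρ → J) σ) _ _).symm
    rw [h1, ht, smul_zero]
  refine ⟨κ, hκ, hκ0, fun F hF => ?_⟩
  have h1 := E.conj _ _ (TT_mem E n t ht F hF) σ
  have h2 := TT_mem E n _ hst _ (E.conj _ F hF σ)
  funext x
  by_cases hx : U.Gn (kb k Ω) x
  · have h3 := h x hx
    have h4 : σ⁻¹ • x + t = σ⁻¹ • (x + σ • t) := by rw [smul_add, inv_smul_smul]
    show σ (H.cc n t (σ⁻¹ • x) * F (σ⁻¹ • x + t)) =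
      κ * (H.cc n (σ • t) x * σ (F (σ⁻¹ • (x + σ • t))))
    rw [map_mul, h4, ← mul_assoc κ, ← h3]
    rfl
  · rw [E.supp _ _ h1 x hx]
    show 0 = κ * TT H n (σ • t) (cj σ F) x
    rw [E.supp _ _ h2 x hx, mul_zero]

end TIFG
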