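import Mathlib
import Pool.Agent.TIFG.L1

/-!
# [TIF] block PIG, functions on the quotients, row L2

`A = ρ → J`, `x ∈ A(K)` means `∀ i, x i ∈ U.Rt K`; generic means `U.Gn (kb k Ω)`; `V(·)` = `V.valuation`;
`A_V(x) = V(s x) Th(x)^{ℓ^{2c}}`.
-/

set_option autoImplicit false
set_option linter.unusedSectionVars false
set_option linter.unusedVariables false

open IntermediateField Pool.Agent.TIFA

namespace TIFG

variable {k Ω J : Type} [Field k] [Field Ω] [Algebra k Ω] [IsAlgClosed Ω] [AddCommGroup J]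
  [DistribMulAction (Ω ≃ₐ[k] Ω) J] {ρ : Type} [Fintype ρ] [DecidableEq ρ]
  {U : Uni k Ω J ρ} {ℓ : ℕ} [Fact ℓ.Prime] {e : ℕ → J → J → Ω} {H : Tht U ℓ e} {g d cT : ℕ}
  {E : Spc H g d cT}

/-- commuting operators on a nonzero finite dimensional space have a common eigenvector -/
theorem L2_common {K M ι : Type} [Field K] [IsAlgClosed K] [AddCommGroup M] [Module K M]
    (T : ι → M →ₗ[K] M) : ∀ (n : ℕ) (W : Submodule K M), FiniteDimensional K W →
    Module.finrank K W = n → W ≠ ⊥ → (∀ i, ∀ x ∈ W, T i x ∈ W) →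
    (∀ i j, ∀ x ∈ W, T i (T j x) = T j (T i x)) →
    ∃ v ∈ W, v ≠ 0 ∧ ∃ lam : ι → K, ∀ i, T i v = lam i • v := by
  intro n
  induction n using Nat.strong_induction_on with
  | _ n ih =>
    intro W hfin hn hW hst hc
    by_cases hall : ∀ i, ∃ c : K, ∀ x ∈ W, T i x = c • x
    · choose c hcx using hall
      obtain ⟨v, hv, hv0⟩ := (Submodule.ne_bot_iff W).1 hW
      exact ⟨v, hv, hv0, c, fun i => hcx i v hv⟩
    · obtain ⟨i, hi⟩ : ∃ i, ¬ ∃ c : K, ∀ x ∈ W, T i x = c • x := by
        by_contra h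
        exact hall fun i => by_contra fun h' => h ⟨i, h'⟩
      have hnt : Nontrivial W := (Submodule.nontrivial_iff_ne_bot).2 hW
      let f : Module.End K W := (T i).restrict (hst i)
      obtain ⟨μ, hμ⟩ := Module.End.exists_eigenvalue f
      obtain ⟨w, hw, hw0⟩ := hμ.exists_hasEigenvector
      have hw1 : T i (w : M) = μ • (w : M) := by
        have h1 := Module.End.mem_eigenspace_iff.1 hw
        exact congrArg Subtype.val h1
      let W' : Submodule K M := W ⊓ LinearMap.ker (T i - μ • LinearMap.id)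
      have hmem : ∀ x, x ∈ W' ↔ x ∈ W ∧ T i x = μ • x := by
        intro x
        rw [Submodule.mem_inf, LinearMap.mem_ker, LinearMap.sub_apply, LinearMap.smul_apply,
          LinearMap.id_apply, sub_eq_zero]
      have hle : W' ≤ W := inf_le_left
      have hlt : W' < W := by
        refine lt_of_le_of_ne hle fun h => hi ⟨μ, fun x hx => ?_⟩
        rw [← h] at hx
        exact ((hmem x).1 hx).2
      have hlt' : Module.finrank K W' < n := by
        rw [← hn]
        exact Submodule.finrank_lt_finrank_of_lt hlt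
      have hfin' : FiniteDimensional K W' := Submodule.finiteDimensional_of_le hle
      have hne : W' ≠ ⊥ := by
        rw [Submodule.ne_bot_iff]
        refine ⟨w, (hmem w).2 ⟨w.2, hw1⟩, fun h => hw0 (Subtype.ext h)⟩
      obtain ⟨v, hv, hv0, lam, hlam⟩ := ih _ hlt' W' hfin' rfl hne (fun j x hx => by
        rw [hmem] at hx ⊢
        refine ⟨hst j x hx.1, ?_⟩
        rw [hc i j x hx.1, hx.2, map_smul]) (fun j l x hx => hc j l x (hle hx))
      exact ⟨v, hle hv, hv0, lam, hlam⟩

/-- the translation operator as a linear map -/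
noncomputable def L2_T (H : Tht U ℓ e) (n : ℕ) (t : ρ → J) :
    ((ρ → J) → Ω) →ₗ[kb k Ω] ((ρ → J) → Ω) where
  toFun F := TT H n t F
  map_add' F F' := by
    funext x
    show H.cc n t x * (F (x + t) + F' (x + t)) = H.cc n t x * F (x + t) + H.cc n t x * F' (x + t)
    rw [mul_add]
  map_smul' c F := by
    funext x
    show H.cc n t x * (c • F (x + t)) = c • (H.cc n t x * F (x + t))
    rw [mul_smul_comm]

/-- common eigenvector of the commuting operators `TT H (2c) t`, `t ∈ L.D`, on the nonzero finite dimensional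
space `HH (ℓ ^ (2c))` over the algebraically closed field `kb` (they commute by `TT_comm`, as
`eA e (2c) t t' = 1` on `L.D` by `L.lag`): take a nonzero stable subspace of least dimension; the eigenspace of
`TT t` in it is stable. `lam t ≠ 0` by `TT_inj`. -/
theorem exists_eig (E : Spc H g d cT) (Du : Dua k Ω J ρ ℓ e g) (L : Lag ℓ (Ω ≃ₐ[k] Ω) ρ e) :
    ∃ s lam, Eig E L s lam := by
  classical
  have htors : ∀ t ∈ L.D, ℓ ^ (2 * L.c) • t = 0 := fun t ht => ((L.lag t).1 ht).1
  have hpair : ∀ t ∈ L.D, ∀ t' ∈ L.D, eA e (2 * L.c) t t' = 1 := fun t ht t' ht' =>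
    ((L.lag t).1 ht).2 t' ht'
  have hcl : IsAlgClosed (kb k Ω) := IsAlgClosure.isAlgClosed k
  obtain ⟨F₀, hF₀, hF₀0⟩ := E.ne (ℓ ^ (2 * L.c))
  obtain ⟨s, hs, hs0, lam, hlam⟩ := L2_common (fun t : L.D => L2_T H (2 * L.c) (t : ρ → J)) _
    (E.HH (ℓ ^ (2 * L.c))) (E.fin _) rfl ((Submodule.ne_bot_iff _).2 ⟨F₀, hF₀, hF₀0⟩)
    (fun t F hF => TT_mem E _ _ (htors t t.2) F hF)
    (fun t t' F hF => by
      show TT H (2 * L.c) t (TT H (2 * L.c) t' F) = TT H (2 * L.c) t' (TT H (2 * L.c) t F)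
      rw [TT_comm E _ _ _ (htors t t.2) (htors t' t'.2) F hF, hpair t t.2 t' t'.2, one_zpow]
      funext x
      rw [one_mul])
  have hlam' : ∀ t (ht : t ∈ L.D), TT H (2 * L.c) t s = fun x => ((lam ⟨t, ht⟩ : kb k Ω) : Ω) * s x := by
    intro t ht
    have h1 := hlam ⟨t, ht⟩
    funext x
    exact congrFun h1 x
  refine ⟨s, fun t => if ht : t ∈ L.D then ((lam ⟨t, ht⟩ : kb k Ω) : Ω) else 1, hs, hs0, ?_, ?_, ?_⟩
  · intro t ht
    simp only [dif_pos ht]
    exact (lam ⟨t, ht⟩).2
  · intro t ht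
    simp only [dif_pos ht]
    intro h0
    apply hs0
    refine TT_inj E _ _ (htors t ht) s hs ?_
    rw [hlam' t ht, h0]
    funext x
    show (0 : Ω) * s x = 0
    rw [zero_mul]
  · intro t ht
    simp only [dif_pos ht]
    exact hlam' t ht

end TIFG
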