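import Mathlib
import Pool.Agent.TIFG.L2
import Pool.Agent.TIFP.Lang

/-!
# [TIF] block PIG, functions on the quotients, row L3

`A = ρ → J`, `x ∈ A(K)` means `∀ i, x i ∈ U.Rt K`; generic means `U.Gn (kb k Ω)`; `V(·)` = `V.valuation`;
`A_V(x) = V(s x) Th(x)^{ℓ^{2c}}`.
-/

set_option autoImplicit false
set_option linter.unusedSectionVars false
set_option linter.unusedVariables false

open IntermediateField Pool.Agent.TIFA

namespace TIFG

variable {k Ω J : Type} [Field k] [Field Ω] [Algebra k Ω] [IsAlgClosed Ω] [AddCommGroup J]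
  [DistribMulAction (Ω ≃ₐ[k] Ω) J] {ρ : Type} [Fintype ρ] [DecidableEq ρ]
  {U : Uni k Ω J ρ} {ℓ : ℕ} [Fact ℓ.Prime] {e : ℕ → J → J → Ω} {H : Tht U ℓ e} {g d cT : ℕ}
  {E : Spc H g d cT}

theorem L3_tors (L : Lag ℓ (Ω ≃ₐ[k] Ω) ρ e) {t : ρ → J} (ht : t ∈ L.D) :
    ℓ ^ (2 * L.c) • t = 0 := ((L.lag t).1 ht).1

theorem L3_stable (L : Lag ℓ (Ω ≃ₐ[k] Ω) ρ e) {t : ρ → J} (ht : t ∈ L.D) (σ : Ω ≃ₐ[k] Ω) :
    σ • t ∈ L.D := L.stable σ t ht

theorem L3_kb_map (σ : Ω ≃ₐ[k] Ω) {z : Ω} (hz : z ∈ kb k Ω) : σ z ∈ kb k Ω := by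
  rw [kb, mem_algebraicClosure_iff'] at hz ⊢
  exact hz.map (σ : Ω →ₐ[k] Ω)

theorem L3_TT_smul (n : ℕ) (t : ρ → J) (c : Ω) (F : (ρ → J) → Ω) :
    TT H n t (fun x => c * F x) = fun x => c * TT H n t F x := by
  funext x
  show H.cc n t x * (c * F (x + t)) = c * (H.cc n t x * F (x + t))
  ring

theorem L3_TT_add (n : ℕ) (t : ρ → J) (F G : (ρ → J) → Ω) :
    TT H n t (F + G) = TT H n t F + TT H n t G := by
  funext x
  show H.cc n t x * (F (x + t) + G (x + t)) = H.cc n t x * F (x + t) + H.cc n t x * G (x + t)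
  ring

theorem L3_cj_add (σ : Ω ≃ₐ[k] Ω) (F G : (ρ → J) → Ω) : cj σ (F + G) = cj σ F + cj σ G := by
  funext x
  show σ (F (σ⁻¹ • x) + G (σ⁻¹ • x)) = σ (F (σ⁻¹ • x)) + σ (G (σ⁻¹ • x))
  rw [map_add]

theorem L3_cj_zero {σ : Ω ≃ₐ[k] Ω} {F : (ρ → J) → Ω} (h : cj σ F = 0) : F = 0 := by
  funext x
  have h1 := congrFun h (σ • x)
  have h2 : σ (F (σ⁻¹ • σ • x)) = 0 := h1
  rw [inv_smul_smul] at h2
  exact (map_eq_zero σ).1 h2

/-- cancel a nonzero function -/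
theorem L3_cancel {F : (ρ → J) → Ω} (hF : F ≠ 0) {a b : Ω}
    (h : ∀ x, a * F x = b * F x) : a = b := by
  obtain ⟨x, hx⟩ := Function.ne_iff.1 hF
  exact mul_right_cancel₀ hx (h x)

/-- eigenvalues of the conjugate functions -/
theorem L3_eig (E : Spc H g d cT) (L : Lag ℓ (Ω ≃ₐ[k] Ω) ρ e) (lam : (ρ → J) → Ω)
    (h1 : ∀ t ∈ L.D, lam t ∈ kb k Ω) (h2 : ∀ t ∈ L.D, lam t ≠ 0) (σ : Ω ≃ₐ[k] Ω) (t : ρ → J)
    (ht : t ∈ L.D) : ∃ μ : Ω, μ ≠ 0 ∧ ∀ F ∈ E.HH (ℓ ^ (2 * L.c)),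
      (∀ t ∈ L.D, TT H (2 * L.c) t F = fun x => lam t * F x) →
      TT H (2 * L.c) t (cj σ F) = fun x => μ * cj σ F x := by
  have ht' : σ⁻¹ • t ∈ L.D := L3_stable L ht σ⁻¹
  obtain ⟨κ, -, hκ, h⟩ := TT_cj E (2 * L.c) (σ⁻¹ • t) (L3_tors L ht') σ
  refine ⟨κ⁻¹ * σ (lam (σ⁻¹ • t)), mul_ne_zero (inv_ne_zero hκ)
    ((map_ne_zero σ).2 (h2 _ ht')), fun F hF hW => ?_⟩
  have h3 := h F hF
  rw [hW _ ht', cj_smul, smul_inv_smul] at h3
  funext x
  have h4 : σ (lam (σ⁻¹ • t)) * cj σ F x = κ * TT H (2 * L.c) t (cj σ F) x := congrFun h3 x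
  rw [mul_assoc, h4, inv_mul_cancel_left₀ hκ]

/-- Let `s₀, lam` be as in `exists_eig` and `W := {F ∈ HH N : TT t F = lam t • F for all t ∈ L.D}`, `N = ℓ^{2c}`,
`c = L.c`. For `F ∈ W`, `t ∈ L.D`: put `t' := φ⁻¹ t ∈ L.D` (`L.stable`); by `TT_cj` `TT t (cj φ F) = lam' t • cj φ F` with
`lam' t` (in `kb`, not `0`) independent of `F`. By `TT_mul` `lam (t + t') κ = lam t lam t'` and the same for `lam'` (apply to
`s₀` and `cj φ s₀`, which are not `0`), so `χ := (lam / lam') ^ (sg)` is multiplicative (`sg = ±1`); `Dua.perf` gives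
`u`, `ℓ^{2c} u = 0`, `eA e (2c) t u = χ t`, so `eA e (2c) t u ^ sg = lam t / lam' t`. By `TT_comm` `Φ := TT u ∘ cj φ` maps `W`
to `W`; it is additive, injective (`TT_inj`) and `Φ (c F) = c^q Φ F` for `c ∈ kb` (`frob`). Lang's theorem
`Pool.Agent.TIFP.lang_fixed` gives `s ∈ W`, `s ≠ 0`, `Φ s = s`. -/
theorem exists_lang (E : Spc H g d cT) (Fr : Fro U ℓ) (Du : Dua k Ω J ρ ℓ e g)
    (L : Lag ℓ (Ω ≃ₐ[k] Ω) ρ e) :
    ∃ s lam u, Eig E L s lam ∧ ℓ ^ (2 * L.c) • u = 0 ∧ TT H (2 * L.c) u (cj Fr.phi s) = s := by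
  obtain ⟨s₀, lam, hs⟩ := exists_eig E Du L
  have hμ := fun t ht => L3_eig E L lam hs.lam_mem hs.lam_ne Fr.phi t ht
  choose! lam' hl0 hl using hμ
  have hcs : cj Fr.phi s₀ ∈ E.HH (ℓ ^ (2 * L.c)) := E.conj _ _ hs.mem _
  have hcs0 : cj Fr.phi s₀ ≠ 0 := fun h => hs.ne (L3_cj_zero h)
  -- multiplicativity
  have hm : ∀ t ∈ L.D, ∀ t' ∈ L.D, lam t / lam' t * (lam t' / lam' t') =
      lam (t + t') / lam' (t + t') := by
    intro t ht t' ht'
    have htt := L.D.add_mem ht ht'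
    obtain ⟨κ, -, hκ, h⟩ := TT_mul E (2 * L.c) t t' (L3_tors L ht) (L3_tors L ht')
    have h1 : lam t * lam t' = κ * lam (t + t') := by
      refine L3_cancel hs.ne fun x => ?_
      have h2 := congrFun (h _ hs.mem) x
      rw [hs.eig _ ht', L3_TT_smul, hs.eig _ ht, hs.eig _ htt] at h2
      have h3 : lam t' * (lam t * s₀ x) = κ * (lam (t + t') * s₀ x) := h2
      rw [mul_comm (lam t), mul_assoc, h3, mul_assoc]
    have h1' : lam' t * lam' t' = κ * lam' (t + t') := by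
      refine L3_cancel hcs0 fun x => ?_
      have h2 := congrFun (h _ hcs) x
      rw [hl _ ht' _ hs.mem hs.eig, L3_TT_smul, hl _ ht _ hs.mem hs.eig,
        hl _ htt _ hs.mem hs.eig] at h2
      have h3 : lam' t' * (lam' t * cj Fr.phi s₀ x) =
        κ * (lam' (t + t') * cj Fr.phi s₀ x) := h2
      rw [mul_comm (lam' t), mul_assoc, h3, mul_assoc]
    rw [div_mul_div_comm, h1, h1', mul_div_mul_left _ _ hκ]
  have hne : ∀ t ∈ L.D, lam t / lam' t ≠ 0 := fun t ht =>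
    div_ne_zero (hs.lam_ne t ht) (hl0 t ht)
  obtain ⟨u, hu, hχ⟩ := Du.perf L (fun t => (lam t / lam' t) ^ H.sg)
    (fun t ht => zpow_ne_zero _ (hne t ht)) fun t ht t' ht' => by
      show (lam (t + t') / lam' (t + t')) ^ H.sg = _
      rw [← hm t ht t' ht', mul_zpow]
  have hχ' : ∀ t ∈ L.D, eA e (2 * L.c) t u ^ H.sg = lam t / lam' t := by
    intro t ht
    have h1 : eA e (2 * L.c) t u = (lam t / lam' t) ^ H.sg := hχ t ht
    rw [h1]
    rcases H.sg_eq with h | h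
    · rw [h, zpow_one, zpow_one]
    · rw [h, ← zpow_mul]
      norm_num
  -- the space
  let W : Submodule (kb k Ω) ((ρ → J) → Ω) :=
    { carrier := {F | F ∈ E.HH (ℓ ^ (2 * L.c)) ∧
        ∀ t ∈ L.D, TT H (2 * L.c) t F = fun x => lam t * F x}
      add_mem' := by
        rintro F G ⟨h1, h2⟩ ⟨h3, h4⟩
        refine ⟨add_mem h1 h3, fun t ht => ?_⟩
        rw [L3_TT_add, h2 t ht, h4 t ht]
        funext x
        show lam t * F x + lam t * G x = lam t * (F x + G x)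
        ring
      zero_mem' := by
        refine ⟨zero_mem _, fun t ht => ?_⟩
        funext x
        show H.cc (2 * L.c) t x * 0 = lam t * 0
        rw [mul_zero, mul_zero]
      smul_mem' := by
        rintro c F ⟨h1, h2⟩
        refine ⟨Submodule.smul_mem _ c h1, fun t ht => ?_⟩
        have h3 : (c • F : (ρ → J) → Ω) = fun x => (c : Ω) * F x := rfl
        rw [h3, L3_TT_smul, h2 t ht]
        funext x
        show (c : Ω) * (lam t * F x) = lam t * ((c : Ω) * F x)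
        ring }
  have hW : ∀ F, F ∈ W ↔ F ∈ E.HH (ℓ ^ (2 * L.c)) ∧
        ∀ t ∈ L.D, TT H (2 * L.c) t F = fun x => lam t * F x := fun F => Iff.rfl
  have hΦ : ∀ F ∈ W, TT H (2 * L.c) u (cj Fr.phi F) ∈ W := by
    intro F hF
    obtain ⟨h1, h2⟩ := (hW F).1 hF
    have h3 : cj Fr.phi F ∈ E.HH (ℓ ^ (2 * L.c)) := E.conj _ _ h1 _
    refine (hW _).2 ⟨TT_mem E _ _ hu _ h3, fun t ht => ?_⟩
    rw [TT_comm E _ _ _ (L3_tors L ht) hu _ h3, hl t ht F h1 h2, L3_TT_smul, hχ' t ht]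
    funext x
    show lam t / lam' t * (lam' t * TT H (2 * L.c) u (cj Fr.phi F) x) =
      lam t * TT H (2 * L.c) u (cj Fr.phi F) x
    rw [← mul_assoc, div_mul_cancel₀ _ (hl0 t ht)]
  let Φ : W →+ W :=
    { toFun := fun F => ⟨TT H (2 * L.c) u (cj Fr.phi F), hΦ F F.2⟩
      map_zero' := by
        apply Subtype.ext
        funext x
        show H.cc (2 * L.c) u x * Fr.phi 0 = 0
        rw [map_zero, mul_zero]
      map_add' := by
        intro F G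
        apply Subtype.ext
        show TT H (2 * L.c) u (cj Fr.phi ((F : (ρ → J) → Ω) + (G : (ρ → J) → Ω))) =
          TT H (2 * L.c) u (cj Fr.phi F) + TT H (2 * L.c) u (cj Fr.phi G)
        rw [L3_cj_add, L3_TT_add] }
  have : IsAlgClosed (kb k Ω) := IsAlgClosure.isAlgClosed k
  have hfin : FiniteDimensional (kb k Ω) W := by
    have := E.fin (ℓ ^ (2 * L.c))
    have h1 : W ≤ E.HH (ℓ ^ (2 * L.c)) := fun F hF => ((hW F).1 hF).1
    exact Submodule.finiteDimensional_of_le h1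
  have hnt : Nontrivial W := by
    refine ⟨⟨s₀, (hW _).2 ⟨hs.mem, hs.eig⟩⟩, 0, fun h => hs.ne ?_⟩
    exact congrArg Subtype.val h
  obtain ⟨v, hv0, hv⟩ := Pool.Agent.TIFP.lang_fixed (E := kb k Ω) (V := W) Fr.hq Φ (by
    intro c F
    apply Subtype.ext
    funext x
    show H.cc (2 * L.c) u x * Fr.phi ((c : Ω) * (F : (ρ → J) → Ω) (Fr.phi⁻¹ • (x + u))) =
      ((c ^ Fr.q : kb k Ω) : Ω) * (H.cc (2 * L.c) u x *
        Fr.phi ((F : (ρ → J) → Ω) (Fr.phi⁻¹ • (x + u))))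
    rw [map_mul, Fr.frob _ c.2]
    push_cast
    ring) (by
    rw [injective_iff_map_eq_zero]
    intro F hF
    apply Subtype.ext
    have h1 : TT H (2 * L.c) u (cj Fr.phi (F : (ρ → J) → Ω)) = 0 := congrArg Subtype.val hF
    exact L3_cj_zero (TT_inj E _ _ hu _ (E.conj _ _ ((hW F).1 F.2).1 _) h1))
  refine ⟨v, lam, u, ⟨((hW _).1 v.2).1, fun h => hv0 (Subtype.ext h), hs.lam_mem, hs.lam_ne,
    ((hW _).1 v.2).2⟩, hu, congrArg Subtype.val hv⟩

end TIFG
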