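import Mathlib
import Pool.Agent.TIFG.L3

/-!
# [TIF] block PIG, functions on the quotients, row L4

`A = ρ → J`, `x ∈ A(K)` means `∀ i, x i ∈ U.Rt K`; generic means `U.Gn (kb k Ω)`; `V(·)` = `V.valuation`;
`A_V(x) = V(s x) Th(x)^{ℓ^{2c}}`.
-/

set_option autoImplicit false
set_option linter.unusedSectionVars false
set_option linter.unusedVariables false

open IntermediateField Pool.Agent.TIFA

namespace TIFG

variable {k Ω J : Type} [Field k] [Field Ω] [Algebra k Ω] [IsAlgClosed Ω] [AddCommGroup J]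
  [DistribMulAction (Ω ≃ₐ[k] Ω) J] {ρ : Type} [Fintype ρ] [DecidableEq ρ]
  {U : Uni k Ω J ρ} {ℓ : ℕ} [Fact ℓ.Prime] {e : ℕ → J → J → Ω} {H : Tht U ℓ e} {g d cT : ℕ}
  {E : Spc H g d cT}

variable {L : Lag ℓ (Ω ≃ₐ[k] Ω) ρ e} {s lam : (ρ → J) → Ω}

/-- `gn_add` for points over `kb` -/
theorem gn_z0 {m : ℕ} {a : Fin m → ρ → J} (ha : Z0 U a) (j : Fin m) {x : ρ → J}
    (hx : U.Gn (kb k Ω) x) : U.Gn (kb k Ω) (x + a j) :=
  U.gn_add (kb k Ω) x (a j) le_rfl hx (ha.rt j)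

/-- `cm_val` -/
theorem FF_val (E : Spc H g d cT) (N m : ℕ) (hs : s ∈ E.HH N) (h0 : s ≠ 0) (a : Fin m → ρ → J)
    (ha : Z0 U a) (V : ValuationSubring Ω) (hV : Pl k Ω V) (w : ρ → J) (hw : U.Gn (kb k Ω) w) :
    V.valuation (FF E N m s a w) * (V.valuation (s w) * H.Th V w ^ N) ^ m =
      ∏ j, (V.valuation (s (w + a j)) * H.Th V (w + a j) ^ N) := by
  have hsf := E.fn N s hs h0
  have hw0 : V.valuation (s w) ≠ 0 := (Valuation.ne_zero_iff _).2 (hsf.ne w hw)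
  have hcm := E.cm_val m a ha V hV w hw
  rw [Finset.prod_mul_distrib, Finset.prod_pow, ← hcm, FF, map_div₀, map_mul, map_prod, map_pow,
    map_pow]
  have h1 : V.valuation (s w) ^ m ≠ 0 := pow_ne_zero _ hw0
  rw [mul_pow, mul_pow, div_mul_eq_mul_div, div_eq_iff h1, ← pow_mul, ← pow_mul,
    mul_comm m N]
  simp only [mul_assoc, mul_comm, mul_left_comm]

theorem FF_fn (E : Spc H g d cT) (N m : ℕ) (hs : s ∈ E.HH N) (h0 : s ≠ 0) (a : Fin m → ρ → J)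
    (ha : Z0 U a) : U.Fnu (FF E N m s a) := by
  have hsf := E.fn N s hs h0
  have hcf := E.fn m _ (E.cm_mem m a ha) (E.cm_ne m a ha)
  refine ⟨fun x hx => ?_, fun σ hσ x hx => ?_⟩
  · refine div_ne_zero (mul_ne_zero ?_ (pow_ne_zero _ (hcf.ne x hx))) (pow_ne_zero _ (hsf.ne x hx))
    exact Finset.prod_ne_zero_iff.2 fun i _ => hsf.ne _ (gn_z0 ha i hx)
  · have h1 : ∀ i, s (σ • x + a i) = σ (s (x + a i)) := by
      intro i
      rw [← hsf.equ σ hσ _ (gn_z0 ha i hx), smul_add]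
      congr 2
      funext r
      exact (U.rt_fix (kb k Ω) (a i r) (ha.rt i r) σ hσ).symm
    rw [FF, FF, map_div₀, map_mul, map_prod, map_pow, map_pow, hcf.equ σ hσ x hx,
      hsf.equ σ hσ x hx, Finset.prod_congr rfl fun i _ => h1 i]

/-- `FF E N m s a = 0` at non-generic points (`0 < m`, `supp`) -/
theorem FF_supp (E : Spc H g d cT) (N m : ℕ) (hm : 0 < m) (hs : s ∈ E.HH N) (a : Fin m → ρ → J)
    (w : ρ → J) (hw : ¬ U.Gn (kb k Ω) w) : FF E N m s a w = 0 := by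
  rw [FF, E.supp N s hs w hw, zero_pow hm.ne', div_zero]

/-- `≤ 1` from `Spc.le` -/
theorem FF_le (E : Spc H g d cT) (N m : ℕ) (hs : s ∈ E.HH N) (h0 : s ≠ 0) (a : Fin m → ρ → J)
    (ha : Z0 U a) (V : ValuationSubring Ω) (hV : Pl k Ω V) (w : ρ → J) (hw : U.Gn (kb k Ω) w) :
    V.valuation (FF E N m s a w) * (V.valuation (s w) * H.Th V w ^ N) ^ m ≤ 1 := by
  rw [FF_val E N m hs h0 a ha V hV w hw]
  exact Finset.prod_le_one' fun j _ => E.le N s hs V hV _ (gn_z0 ha j hw)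

/-- base-point-freeness: three copies of the points of `bpf` (`Fin (3 * d)` via `finProdFinEquiv`) -/
theorem FF_bpf (E : Spc H g d cT) (N : ℕ) (hs : s ∈ E.HH N) (h0 : s ≠ 0)
    (V : ValuationSubring Ω) (hV : Pl k Ω V) (w : ρ → J) (hw : U.Gn (kb k Ω) w) :
    ∃ a : Fin (3 * d) → ρ → J, Z0 U a ∧
      V.valuation (FF E N (3 * d) s a w) * (V.valuation (s w) * H.Th V w ^ N) ^ (3 * d) = 1 := by
  obtain ⟨a, ha, h1⟩ := E.bpf N s hs h0 V hV w hw
  have ha' : Z0 U (fun i : Fin (3 * d) => a (finProdFinEquiv.symm i).2) := by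
    refine ⟨fun j i => ha.rt _ i, ?_⟩
    rw [finProdFinEquiv.symm.sum_comp (fun p : Fin 3 × Fin d => a p.2), Fintype.sum_prod_type]
    simp only [ha.sum, Finset.sum_const_zero]
  refine ⟨_, ha', ?_⟩
  rw [FF_val E N (3 * d) hs h0 _ ha' V hV w hw]
  exact Finset.prod_eq_one fun j _ => h1 _

theorem FF_hon (E : Spc H g d cT) (N m : ℕ) (hs : s ∈ E.HH N) (a : Fin m → ρ → J) (ha : Z0 U a)
    (K : IntermediateField k Ω) (hb : kb k Ω ≤ K) (w : ρ → J) (hw : U.Gn (kb k Ω) w)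
    (hwK : ∀ i, w i ∈ U.Rt K) : FF E N m s a w ∈ K := by
  have hs' : ∀ i, s (w + a i) ∈ K := fun i => E.hon N s hs K hb _ (gn_z0 ha i hw) fun r =>
    (U.Rt K).add_mem (hwK r) (U.rt_mono _ _ hb (ha.rt i r))
  exact K.div_mem (K.mul_mem (K.prod_mem fun i _ => hs' i)
    (pow_mem (E.hon m _ (E.cm_mem m a ha) K hb w hw hwK) N))
    (pow_mem (E.hon N s hs K hb w hw hwK) m)

/-- invariance under `L.D`: `s(X + t) = lam t s(X) / cc(2c,t,X)` at `X = w + a_i` and `X = w`, and `cm_cc`. -/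
theorem FF_inv (E : Spc H g d cT) (hE : Eig E L s lam) (m : ℕ) (a : Fin m → ρ → J) (ha : Z0 U a)
    (t : ρ → J) (ht : t ∈ L.D) (w : ρ → J) (hw : U.Gn (kb k Ω) w) :
    FF E (ℓ ^ (2 * L.c)) m s a (w + t) = FF E (ℓ ^ (2 * L.c)) m s a w := by
  have htt : ℓ ^ (2 * L.c) • t = 0 := ((L.lag t).1 ht).1
  have hne : ((ℓ ^ (2 * L.c) : ℕ) : k) ≠ 0 := by
    rw [Nat.cast_pow]
    exact pow_ne_zero _ H.ell_ne
  have htr : ∀ i, t i ∈ U.Rt (kb k Ω) := fun i =>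
    U.rt_tors (t i) _ hne (congrFun htt i)
  have hwt : U.Gn (kb k Ω) (w + t) := U.gn_add _ w t le_rfl hw htr
  have hsf := E.fn _ s hE.mem hE.ne
  have hcc := H.cc_fn (2 * L.c) t htt
  have heig : ∀ x, H.cc (2 * L.c) t x * s (x + t) = lam t * s x := fun x =>
    congrFun (hE.eig t ht) x
  have h1 : (∏ i, H.cc (2 * L.c) t (w + a i)) * ∏ i, s (w + t + a i) =
      lam t ^ m * ∏ i, s (w + a i) := by
    rw [← Finset.prod_mul_distrib, ← Fin.prod_const m (lam t), ← Finset.prod_mul_distrib]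
    refine Finset.prod_congr rfl fun i _ => ?_
    rw [← heig (w + a i), add_right_comm]
  have h2 := heig w
  have h3 := E.cm_cc m a ha (2 * L.c) t htt w hw
  have hP : ∏ i, H.cc (2 * L.c) t (w + a i) ≠ 0 :=
    Finset.prod_ne_zero_iff.2 fun i _ => hcc.ne _ (gn_z0 ha i hw)
  have hC := pow_ne_zero m (hcc.ne w hw)
  have hs1 := pow_ne_zero m (hsf.ne w hw)
  have hs2 := pow_ne_zero m (hsf.ne _ hwt)
  have h4 : H.cc (2 * L.c) t w ^ m * s (w + t) ^ m = lam t ^ m * s w ^ m := by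
    rw [← mul_pow, ← mul_pow, h2]
  rw [FF, FF, div_eq_div_iff hs2 hs1]
  refine mul_left_cancel₀ (mul_ne_zero hP hC) ?_
  linear_combination (H.cc (2 * L.c) t w ^ m * E.Cm m a (w + t) ^ ℓ ^ (2 * L.c) * s w ^ m) * h1 +
    (lam t ^ m * (∏ i, s (w + a i)) * s w ^ m) * h3 -
    ((∏ i, H.cc (2 * L.c) t (w + a i)) * (∏ i, s (w + a i)) * E.Cm m a w ^ ℓ ^ (2 * L.c)) * h4

end TIFG
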