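import Mathlib
import Pool.Agent.TIFG.L4

/-!
# [TIF] block PIG, functions on the quotients, row L5

`A = ρ → J`, `x ∈ A(K)` means `∀ i, x i ∈ U.Rt K`; generic means `U.Gn (kb k Ω)`; `V(·)` = `V.valuation`;
`A_V(x) = V(s x) Th(x)^{ℓ^{2c}}`.
-/

set_option autoImplicit false
set_option linter.unusedSectionVars false
set_option linter.unusedVariables false

open IntermediateField Pool.Agent.TIFA

namespace TIFG

variable {k Ω J : Type} [Field k] [Field Ω] [Algebra k Ω] [IsAlgClosed Ω] [AddCommGroup J]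
  [DistribMulAction (Ω ≃ₐ[k] Ω) J] {ρ : Type} [Fintype ρ] [DecidableEq ρ]
  {U : Uni k Ω J ρ} {ℓ : ℕ} [Fact ℓ.Prime] {e : ℕ → J → J → Ω} {H : Tht U ℓ e} {g d cT : ℕ}
  {E : Spc H g d cT}

variable {L : Lag ℓ (Ω ≃ₐ[k] Ω) ρ e} {s lam : (ρ → J) → Ω}

theorem L5_map (σ : Ω ≃ₐ[k] Ω) : (kb k Ω).map (σ : Ω →ₐ[k] Ω) ≤ kb k Ω := by
  rintro z ⟨y, hy, rfl⟩
  exact mem_algebraicClosure_iff.2 ((mem_algebraicClosure_iff.1 hy).algHom (σ : Ω →ₐ[k] Ω))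

theorem L5_Z0 (U : Uni k Ω J ρ) (σ : Ω ≃ₐ[k] Ω) {m : ℕ} {a : Fin m → ρ → J} (ha : Z0 U a) :
    Z0 U (fun j => σ • a j) where
  rt j i := U.rt_mono _ _ (L5_map σ) (U.rt_map σ (kb k Ω) _ (ha.rt j i))
  sum := by rw [← Finset.smul_sum, ha.sum, smul_zero]

/-- Put `s' := cj φ s`; `TT u s' = s` gives `cc(2c,u,x) s'(x + u) = s x`, hence `s'(X) = s(X - u) / cc(2c,u,X - u)`. By
`cj_mul`-like computation and `cm_conj` (`κ₁`):
`cj φ (F_a) (w) = (∏ s'(w + φ a_i)) (κ₁ Cm (φ a) w)^N / s'(w)^m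
  = κ₁^N (∏ s(w - u + φ a_i)) Cm (φ a) w ^ N / s(w - u)^m · cc(w - u)^m / ∏ cc(w - u + φ a_i)`, and by `cm_cc` at
`x = w - u`, `t = u`: `cc(w - u)^m Cm (φ a) (w) ^ N = ∏ cc(w - u + φ a_i) · Cm (φ a) (w - u)^N`. -/
theorem FF_cj (E : Spc H g d cT) (Fr : Fro U ℓ) (n m : ℕ) (u : ρ → J) (hu : ℓ ^ n • u = 0)
    (hs : s ∈ E.HH (ℓ ^ n)) (h0 : s ≠ 0) (hL : TT H n u (cj Fr.phi s) = s) (a : Fin m → ρ → J)
    (ha : Z0 U a) : Z0 U (fun j => Fr.phi • a j) ∧ ∃ κ ∈ kb k Ω, κ ≠ 0 ∧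
      ∀ w, U.Gn (kb k Ω) w → cj Fr.phi (FF E (ℓ ^ n) m s a) w =
        κ * FF E (ℓ ^ n) m s (fun j => Fr.phi • a j) (w - u) := by
  have hZ := L5_Z0 U Fr.phi ha
  refine ⟨hZ, ?_⟩
  obtain ⟨κ₁, hκ, hκ0, hc⟩ := E.cm_conj m a ha Fr.phi
  refine ⟨κ₁ ^ ℓ ^ n, pow_mem hκ _, pow_ne_zero _ hκ0, fun w hw => ?_⟩
  have hk : ((ℓ ^ n : ℕ) : k) ≠ 0 := by
    rw [Nat.cast_pow]
    exact pow_ne_zero _ H.ell_ne
  have hum : ∀ i, u i ∈ U.Rt (kb k Ω) := fun i => U.rt_tors (u i) (ℓ ^ n) hk (congrFun hu i)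
  have hgen : ∀ X, U.Gn (kb k Ω) X → U.Gn (kb k Ω) (X - u) := by
    intro X hX
    rw [sub_eq_add_neg]
    exact U.gn_add _ _ _ le_rfl hX (fun i => neg_mem (hum i))
  have hga : ∀ X, U.Gn (kb k Ω) X → ∀ j, U.Gn (kb k Ω) (X + Fr.phi • a j) := fun X hX j =>
    U.gn_add _ _ _ le_rfl hX (fun i => hZ.rt j i)
  have hfn := H.cc_fn n u hu
  have hs' : ∀ X, U.Gn (kb k Ω) X →
      Fr.phi (s (Fr.phi⁻¹ • X)) = s (X - u) / H.cc n u (X - u) := by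
    intro X hX
    have h1 := congrFun hL (X - u)
    have h2 : H.cc n u (X - u) * Fr.phi (s (Fr.phi⁻¹ • (X - u + u))) = s (X - u) := h1
    rw [sub_add_cancel] at h2
    rw [eq_div_iff (hfn.ne _ (hgen X hX)), mul_comm, h2]
  have hC : Fr.phi (E.Cm m a (Fr.phi⁻¹ • w)) = κ₁ * E.Cm m (fun j => Fr.phi • a j) w := hc w hw
  have hwu := hgen w hw
  have hcc := E.cm_cc m (fun j => Fr.phi • a j) hZ n u hu (w - u) hwu
  rw [sub_add_cancel] at hcc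
  have hP : (∏ i, H.cc n u (w - u + Fr.phi • a i)) ≠ 0 :=
    Finset.prod_ne_zero_iff.2 fun i _ => hfn.ne _ (hga _ hwu i)
  have hp : ∀ i, Fr.phi (s (Fr.phi⁻¹ • w + a i)) =
      s (w - u + Fr.phi • a i) / H.cc n u (w - u + Fr.phi • a i) := by
    intro i
    have h1 := hs' (w + Fr.phi • a i) (hga w hw i)
    rw [smul_add, inv_smul_smul] at h1
    rw [h1, show w + Fr.phi • a i - u = w - u + Fr.phi • a i by abel]
  show Fr.phi (FF E (ℓ ^ n) m s a (Fr.phi⁻¹ • w)) = _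
  unfold FF
  rw [map_div₀, map_mul, map_pow, map_pow, map_prod, hC, hs' w hw]
  rw [Finset.prod_congr rfl fun i _ => hp i, Finset.prod_div_distrib, div_pow, mul_pow]
  have hd : H.cc n u (w - u) ^ m ≠ 0 := pow_ne_zero _ (hfn.ne _ hwu)
  set P := ∏ i, H.cc n u (w - u + Fr.phi • a i)
  set Q := ∏ i, s (w - u + Fr.phi • a i)
  rw [div_div_eq_mul_div, ← mul_div_assoc]
  congr 1
  rw [div_mul_eq_mul_div, div_mul_eq_mul_div, div_eq_iff hP]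
  linear_combination Q * κ₁ ^ ℓ ^ n * hcc

end TIFG
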