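import Mathlib
import Pool.Agent.TIFG.L5

/-!
# [TIF] block PIG, functions on the quotients, row L6a

`A = ρ → J`, `x ∈ A(K)` means `∀ i, x i ∈ U.Rt K`; generic means `U.Gn (kb k Ω)`; `V(·)` = `V.valuation`;
`A_V(x) = V(s x) Th(x)^{ℓ^{2c}}`.
-/

set_option autoImplicit false
set_option linter.unusedSectionVars false
set_option linter.unusedVariables false

open IntermediateField Pool.Agent.TIFA

namespace TIFG

variable {k Ω J : Type} [Field k] [Field Ω] [Algebra k Ω] [IsAlgClosed Ω] [AddCommGroup J]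
  [DistribMulAction (Ω ≃ₐ[k] Ω) J] {ρ : Type} [Fintype ρ] [DecidableEq ρ]
  {U : Uni k Ω J ρ} {ℓ : ℕ} [Fact ℓ.Prime] {e : ℕ → J → J → Ω} {H : Tht U ℓ e} {g d cT : ℕ}
  {E : Spc H g d cT}

variable {L : Lag ℓ (Ω ≃ₐ[k] Ω) ρ e} {s lam : (ρ → J) → Ω}

theorem L6a_adj {S : Set Ω} {σ : Ω ≃ₐ[k] Ω} (h : ∀ z ∈ S, σ z = z) :
    σ ∈ (adjoin k S).fixingSubgroup := by
  rw [IntermediateField.mem_fixingSubgroup_iff]
  intro x hx
  show σ x = x
  induction hx using IntermediateField.adjoin_induction with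
  | mem x hx => exact h x hx
  | algebraMap x => exact σ.commutes x
  | add x y _ _ hx hy => rw [map_add, hx, hy]
  | inv x _ hx => rw [map_inv₀, hx]
  | mul x y _ _ hx hy => rw [map_mul, hx, hy]

/-- a finite family of points over `kb` is fixed by the automorphisms which fix a finite set -/
theorem L6a_pts (Fr : Fro U ℓ) {ι : Type} [Fintype ι] (p : ι → J)
    (hp : ∀ i, p i ∈ U.Rt (kb k Ω)) :
    ∃ S : Finset Ω, (∀ z ∈ S, z ∈ kb k Ω) ∧ ∀ σ : Ω ≃ₐ[k] Ω, (∀ z ∈ S, σ z = z) →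
      ∀ i, σ • p i = p i := by
  classical
  choose S hS hS' using fun i => Fr.rt_kb (p i) (hp i)
  refine ⟨Finset.univ.biUnion S, fun z hz => ?_, fun σ hσ i => ?_⟩
  · obtain ⟨i, _, hi⟩ := Finset.mem_biUnion.1 hz
    exact hS i z hi
  · refine U.rt_fix _ _ (hS' i) σ (L6a_adj fun z hz => ?_)
    exact hσ z (Finset.mem_biUnion.2 ⟨i, Finset.mem_univ i, hz⟩)

theorem L6a_inv (σ : Ω ≃ₐ[k] Ω) (a x : ρ → J) (h : ∀ i, σ • a i = a i) :
    σ⁻¹ • x + a = σ⁻¹ • (x + a) := by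
  have h1 : σ⁻¹ • a = a := by
    rw [inv_smul_eq_iff]
    funext i
    exact (h i).symm
  rw [smul_add, h1]

/-- every element of `VV` is fixed by the automorphisms which fix a finite set of elements of `kb` (`cont` for `s`
and `Cm m a`, `rt_kb` and `rt_fix` for the points `a_j` and `c₀`) -/
theorem VV_cont (E : Spc H g d cT) (Fr : Fro U ℓ) (N m : ℕ) (hm : 0 < m) (hs : s ∈ E.HH N)
    (c₀ : ρ → J) (hc : ∃ n, ℓ ^ n • c₀ = 0) (F : (ρ → J) → Ω) (hF : F ∈ VV E N m s c₀) :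
    ∃ S : Finset Ω, (∀ z ∈ S, z ∈ kb k Ω) ∧ ∀ σ : Ω ≃ₐ[k] Ω, (∀ z ∈ S, σ z = z) → cj σ F = F := by
  classical
  obtain ⟨nc, hc⟩ := hc
  induction hF using Submodule.span_induction with
  | mem f hf =>
    obtain ⟨a, ha, rfl⟩ := hf
    obtain ⟨S₁, h1, h1'⟩ := E.cont N s hs
    obtain ⟨S₂, h2, h2'⟩ := E.cont m (E.Cm m a) (E.cm_mem m a ha)
    obtain ⟨S₃, h3, h3'⟩ := L6a_pts Fr (fun p : Fin m × ρ => a p.1 p.2) fun p => ha.rt p.1 p.2
    obtain ⟨S₄, h4, h4'⟩ := L6a_pts Fr c₀ fun i => tors_rt H hc i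
    refine ⟨S₁ ∪ S₂ ∪ (S₃ ∪ S₄), fun z hz => ?_, fun σ hσ => ?_⟩
    · rcases Finset.mem_union.1 hz with hz | hz
      · rcases Finset.mem_union.1 hz with hz | hz
        · exact h1 z hz
        · exact h2 z hz
      · rcases Finset.mem_union.1 hz with hz | hz
        · exact h3 z hz
        · exact h4 z hz
    · have e1 := h1' σ fun z hz => hσ z (by simp [hz])
      have e2 := h2' σ fun z hz => hσ z (by simp [hz])
      have e3 := h3' σ fun z hz => hσ z (by simp [hz])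
      have e4 := h4' σ fun z hz => hσ z (by simp [hz])
      funext x
      have e5 : ∀ w, σ (s (σ⁻¹ • w)) = s w := fun w => congrFun e1 w
      have e6 : ∀ w, σ (E.Cm m a (σ⁻¹ • w)) = E.Cm m a w := fun w => congrFun e2 w
      show σ (FF E N m s a (σ⁻¹ • x + c₀)) = FF E N m s a (x + c₀)
      rw [L6a_inv σ c₀ x e4, FF, FF, map_div₀, map_mul, map_pow, map_pow, map_prod, e5, e6]
      congr 2
      refine Finset.prod_congr rfl fun i _ => ?_
      rw [L6a_inv σ (a i) (x + c₀) fun j => e3 (i, j), e5]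
  | zero => exact ⟨∅, by simp, fun σ _ => funext fun x => map_zero σ⟩
  | add F G _ _ hF hG =>
    obtain ⟨S₁, h1, h1'⟩ := hF
    obtain ⟨S₂, h2, h2'⟩ := hG
    refine ⟨S₁ ∪ S₂, fun z hz => ?_, fun σ hσ => ?_⟩
    · rcases Finset.mem_union.1 hz with hz | hz
      · exact h1 z hz
      · exact h2 z hz
    · have e1 := h1' σ fun z hz => hσ z (by simp [hz])
      have e2 := h2' σ fun z hz => hσ z (by simp [hz])
      funext x
      show σ (F (σ⁻¹ • x) + G (σ⁻¹ • x)) = F x + G x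
      rw [map_add]
      exact congrArg₂ (· + ·) (congrFun e1 x) (congrFun e2 x)
  | smul c F _ hF =>
    obtain ⟨S₁, h1, h1'⟩ := hF
    refine ⟨insert (c : Ω) S₁, fun z hz => ?_, fun σ hσ => ?_⟩
    · rcases Finset.mem_insert.1 hz with rfl | hz
      · exact c.2
      · exact h1 z hz
    · have e1 := h1' σ fun z hz => hσ z (by simp [hz])
      funext x
      show σ ((c : Ω) * F (σ⁻¹ • x)) = (c : Ω) * F x
      rw [map_mul, hσ (c : Ω) (by simp)]
      exact congrArg (fun z => (c : Ω) * z) (congrFun e1 x)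

end TIFG
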