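import Mathlib
import Pool.Agent.TIFG.L6a

/-!
# [TIF] block PIG, functions on the quotients, row L6b

`A = ρ → J`, `x ∈ A(K)` means `∀ i, x i ∈ U.Rt K`; generic means `U.Gn (kb k Ω)`; `V(·)` = `V.valuation`;
`A_V(x) = V(s x) Th(x)^{ℓ^{2c}}`.
-/

set_option autoImplicit false
set_option linter.unusedSectionVars false
set_option linter.unusedVariables false

open IntermediateField Pool.Agent.TIFA

namespace TIFG

variable {k Ω J : Type} [Field k] [Field Ω] [Algebra k Ω] [IsAlgClosed Ω] [AddCommGroup J]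
  [DistribMulAction (Ω ≃ₐ[k] Ω) J] {ρ : Type} [Fintype ρ] [DecidableEq ρ]
  {U : Uni k Ω J ρ} {ℓ : ℕ} [Fact ℓ.Prime] {e : ℕ → J → J → Ω} {H : Tht U ℓ e} {g d cT : ℕ}
  {E : Spc H g d cT}

variable {L : Lag ℓ (Ω ≃ₐ[k] Ω) ρ e} {s lam : (ρ → J) → Ω}

/-- the algebraic closure of `k` is stable -/
theorem L6b_kb (σ : Ω ≃ₐ[k] Ω) {z : Ω} (hz : z ∈ kb k Ω) : σ z ∈ kb k Ω := by
  have h1 : σ z ∈ (kb k Ω).map (σ : Ω →ₐ[k] Ω) := ⟨z, hz, rfl⟩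
  rwa [kb_map] at h1

theorem L6b_gn_neg (H : Tht U ℓ e) {n : ℕ} {t x : ρ → J} (h : ℓ ^ n • t = 0) :
    U.Gn (kb k Ω) (x + t) ↔ U.Gn (kb k Ω) x := by
  refine ⟨fun hx => ?_, fun hx => gn_tors H h hx⟩
  have h1 : ℓ ^ n • (-t) = 0 := by rw [smul_neg, h, neg_zero]
  have h2 := gn_tors H h1 hx
  rwa [add_neg_cancel_right] at h2

theorem L6b_gn_smul (σ : Ω ≃ₐ[k] Ω) (x : ρ → J) : U.Gn (kb k Ω) (σ • x) ↔ U.Gn (kb k Ω) x := by
  refine ⟨fun hx => ?_, fun hx => gn_smul σ x hx⟩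
  have h1 := gn_smul σ⁻¹ _ hx
  rwa [inv_smul_smul] at h1

theorem L6b_tors (σ : Ω ≃ₐ[k] Ω) {n : ℕ} {t : ρ → J} (h : ℓ ^ n • t = 0) : ℓ ^ n • (σ • t) = 0 := by
  rw [smul_comm, h, smul_zero]

/-- `FF_cj` (both sides vanish at non-generic points): `cj φ (F_a(· + c₀))(x) = cj φ (F_a) (x + φ c₀) = κ F_{φ a}(x + φ c₀ - u)
= κ F_{φ a}(x + c₀)`. -/
theorem VV_phi (E : Spc H g d cT) (Fr : Fro U ℓ) (n m : ℕ) (hm : 0 < m) (u : ρ → J)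
    (hu : ℓ ^ n • u = 0) (hs : s ∈ E.HH (ℓ ^ n)) (h0 : s ≠ 0) (hL : TT H n u (cj Fr.phi s) = s)
    (c₀ : ρ → J) (hc : ∃ n, ℓ ^ n • c₀ = 0) (hcu : Fr.phi • c₀ - c₀ = u) (F : (ρ → J) → Ω)
    (hF : F ∈ VV E (ℓ ^ n) m s c₀) : cj Fr.phi F ∈ VV E (ℓ ^ n) m s c₀ := by
  obtain ⟨n₀, hn₀⟩ := hc
  unfold VV at hF
  induction hF using Submodule.span_induction with
  | mem f hf =>
    obtain ⟨a, ha, rfl⟩ := hf
    obtain ⟨hz, κ, hκ, hκ0, hff⟩ := FF_cj E Fr n m u hu hs h0 hL a ha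
    have hgen : cj Fr.phi (fun x => FF E (ℓ ^ n) m s a (x + c₀)) =
        (⟨κ, hκ⟩ : kb k Ω) • (fun x => FF E (ℓ ^ n) m s (fun j => Fr.phi • a j) (x + c₀)) := by
      funext x
      show Fr.phi (FF E (ℓ ^ n) m s a (Fr.phi⁻¹ • x + c₀)) =
        κ * FF E (ℓ ^ n) m s (fun j => Fr.phi • a j) (x + c₀)
      have e1 : Fr.phi⁻¹ • x + c₀ = Fr.phi⁻¹ • (x + Fr.phi • c₀) := by
        rw [smul_add, inv_smul_smul]
      have e2 : x + Fr.phi • c₀ - u = x + c₀ := by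
        rw [← hcu]; abel
      by_cases hx : U.Gn (kb k Ω) x
      · have h1 := hff (x + Fr.phi • c₀) ((L6b_gn_neg H (L6b_tors Fr.phi hn₀)).2 hx)
        rw [e2] at h1
        rw [e1]
        exact h1
      · have h1 : ¬ U.Gn (kb k Ω) (x + c₀) := fun h => hx ((L6b_gn_neg H hn₀).1 h)
        have h2 : ¬ U.Gn (kb k Ω) (Fr.phi⁻¹ • x + c₀) := fun h =>
          hx ((L6b_gn_smul Fr.phi⁻¹ x).1 ((L6b_gn_neg H hn₀).1 h))
        rw [FF_supp E _ m hm hs a _ h2, FF_supp E _ m hm hs _ _ h1, map_zero, mul_zero]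
    rw [hgen]
    exact Submodule.smul_mem _ _ (Submodule.subset_span ⟨_, hz, rfl⟩)
  | zero =>
    have h1 : cj Fr.phi (0 : (ρ → J) → Ω) = 0 := by
      funext x
      show Fr.phi 0 = 0
      rw [map_zero]
    rw [h1]
    exact Submodule.zero_mem _
  | add f f' _ _ ih ih' =>
    have h1 : cj Fr.phi (f + f') = cj Fr.phi f + cj Fr.phi f' := by
      funext x
      show Fr.phi (f (Fr.phi⁻¹ • x) + f' (Fr.phi⁻¹ • x)) = Fr.phi (f (Fr.phi⁻¹ • x)) + Fr.phi (f' (Fr.phi⁻¹ • x))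
      rw [map_add]
    rw [h1]
    exact Submodule.add_mem _ ih ih'
  | smul c f _ ih =>
    have h1 : cj Fr.phi (c • f) = (⟨Fr.phi (c : Ω), L6b_kb Fr.phi c.2⟩ : kb k Ω) • cj Fr.phi f := by
      funext x
      show Fr.phi ((c : Ω) * f (Fr.phi⁻¹ • x)) = Fr.phi (c : Ω) * Fr.phi (f (Fr.phi⁻¹ • x))
      rw [map_mul]
    rw [h1]
    exact Submodule.smul_mem _ _ ih

/-- `Fro.gal` for the set `S` of `VV_cont`: `σ = φ^n τ` with `τ` fixing `S`; `cj σ F = cj (φ^n) F`. -/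
theorem VV_cj (E : Spc H g d cT) (Fr : Fro U ℓ) (n m : ℕ) (hm : 0 < m) (u : ρ → J)
    (hu : ℓ ^ n • u = 0) (hs : s ∈ E.HH (ℓ ^ n)) (h0 : s ≠ 0) (hL : TT H n u (cj Fr.phi s) = s)
    (c₀ : ρ → J) (hc : ∃ n, ℓ ^ n • c₀ = 0) (hcu : Fr.phi • c₀ - c₀ = u) (F : (ρ → J) → Ω)
    (hF : F ∈ VV E (ℓ ^ n) m s c₀) (σ : Ω ≃ₐ[k] Ω) : cj σ F ∈ VV E (ℓ ^ n) m s c₀ := by
  obtain ⟨S, hS, hSF⟩ := VV_cont E Fr (ℓ ^ n) m hm hs c₀ hc F hF
  obtain ⟨r, hr⟩ := Fr.gal S hS σ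
  have hpow : ∀ r : ℕ, cj (Fr.phi ^ r) F ∈ VV E (ℓ ^ n) m s c₀ := by
    intro r
    induction r with
    | zero =>
      have h1 : cj (Fr.phi ^ 0) F = F := by
        funext x
        show (Fr.phi ^ 0) (F ((Fr.phi ^ 0)⁻¹ • x)) = F x
        rw [pow_zero, inv_one, one_smul]
        rfl
      rw [h1]
      exact hF
    | succ r ih =>
      rw [pow_succ', cj_mul]
      exact VV_phi E Fr n m hm u hu hs h0 hL c₀ hc hcu _ ih
  have hτ : cj ((Fr.phi ^ r)⁻¹ * σ) F = F := by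
    refine hSF _ fun z hz => ?_
    show (Fr.phi ^ r)⁻¹ (σ z) = z
    rw [hr z hz]
    exact (Fr.phi ^ r).symm_apply_apply z
  have h2 : cj σ F = cj (Fr.phi ^ r) F := by
    conv_lhs => rw [← mul_inv_cancel_left (Fr.phi ^ r) σ]
    rw [cj_mul, hτ]
  rw [h2]
  exact hpow r

end TIFG
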