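import Mathlib
import Pool.Agent.TIFG.L6b

/-!
# [TIF] block PIG, functions on the quotients, row L7a

`A = ρ → J`, `x ∈ A(K)` means `∀ i, x i ∈ U.Rt K`; generic means `U.Gn (kb k Ω)`; `V(·)` = `V.valuation`;
`A_V(x) = V(s x) Th(x)^{ℓ^{2c}}`.
-/

set_option autoImplicit false
set_option linter.unusedSectionVars false
set_option linter.unusedVariables false

open IntermediateField Pool.Agent.TIFA

namespace TIFG

variable {k Ω J : Type} [Field k] [Field Ω] [Algebra k Ω] [IsAlgClosed Ω] [AddCommGroup J]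
  [DistribMulAction (Ω ≃ₐ[k] Ω) J] {ρ : Type} [Fintype ρ] [DecidableEq ρ]
  {U : Uni k Ω J ρ} {ℓ : ℕ} [Fact ℓ.Prime] {e : ℕ → J → J → Ω} {H : Tht U ℓ e} {g d cT : ℕ}
  {E : Spc H g d cT}

variable {L : Lag ℓ (Ω ≃ₐ[k] Ω) ρ e} {s lam : (ρ → J) → Ω}

/-- the linear map `G ↦ (x ↦ G(x + c₀) / s(x + c₀)^m)` -/
noncomputable def L7a_lin (s : (ρ → J) → Ω) (c₀ : ρ → J) (m : ℕ) :
    ((ρ → J) → Ω) →ₗ[kb k Ω] ((ρ → J) → Ω) where
  toFun G := fun x => G (x + c₀) / s (x + c₀) ^ m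
  map_add' G G' := by
    funext x
    exact add_div _ _ _
  map_smul' c G := by
    funext x
    simp only [Pi.smul_apply, RingHom.id_apply]
    exact smul_div_assoc c _ _

/-- `F ↦ (x ↦ F(x - c₀) s(x)^m)` is an injective linear map from `VV` to `HH (m N)` (`cm_pr`; `mul` for linear
combinations is not needed). -/
theorem VV_fin (E : Spc H g d cT) (N m : ℕ) (hm : 0 < m) (hs : s ∈ E.HH N) (h0 : s ≠ 0)
    (c₀ : ρ → J) (hc : ∃ n, ℓ ^ n • c₀ = 0) : FiniteDimensional (kb k Ω) (VV E N m s c₀) := by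
  have := E.fin (m * N)
  have : FiniteDimensional (kb k Ω) ((E.HH (m * N)).map (L7a_lin s c₀ m)) :=
    Module.Finite.map (E.HH (m * N)) (L7a_lin s c₀ m)
  have hle : VV E N m s c₀ ≤ (E.HH (m * N)).map (L7a_lin s c₀ m) := by
    refine Submodule.span_le.2 ?_
    rintro f ⟨a, ha, rfl⟩
    exact ⟨fun x => (∏ i, s (x + a i)) * E.Cm m a x ^ N, E.cm_pr m a ha hm N (fun _ => s) (fun _ => hs),
      rfl⟩
  exact Submodule.finiteDimensional_of_le hle

end TIFG
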