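import Mathlib
import Pool.Agent.TIFG.L7a

/-!
# [TIF] block PIG, functions on the quotients, row L7b

`A = ρ → J`, `x ∈ A(K)` means `∀ i, x i ∈ U.Rt K`; generic means `U.Gn (kb k Ω)`; `V(·)` = `V.valuation`;
`A_V(x) = V(s x) Th(x)^{ℓ^{2c}}`.
-/

set_option autoImplicit false
set_option linter.unusedSectionVars false
set_option linter.unusedVariables false

open IntermediateField Pool.Agent.TIFA

namespace TIFG

/-- linear independence of characters of a subgroup -/
theorem L7b_char {A Ω ι : Type} [AddCommGroup A] [Field Ω] [Fintype ι] (D : AddSubgroup A)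
    (χ : ι → A → Ω) (h1 : ∀ i, ∀ t ∈ D, ∀ t' ∈ D, χ i (t + t') = χ i t * χ i t')
    (h2 : ∀ i, ∀ t ∈ D, χ i t ≠ 0) (h3 : ∀ i j, (∀ t ∈ D, χ i t = χ j t) → i = j)
    (c : ι → Ω) (h : ∀ t ∈ D, ∑ i, c i * χ i t = 0) (i : ι) : c i = 0 := by
  have h10 : ∀ i, χ i 0 = 1 := by
    intro i
    have h4 := h1 i 0 D.zero_mem 0 D.zero_mem
    rw [add_zero] at h4
    exact (mul_eq_left₀ (h2 i 0 D.zero_mem)).1 h4.symm
  let X : ι → (Multiplicative D →* Ω) := fun i =>
    { toFun := fun t => χ i ((Multiplicative.toAdd t : D) : A)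
      map_one' := h10 i
      map_mul' := fun t t' => h1 i _ (Multiplicative.toAdd t).2 _ (Multiplicative.toAdd t').2 }
  have hX : Function.Injective X := by
    intro i j hij
    refine h3 i j fun t ht => ?_
    exact DFunLike.congr_fun hij (Multiplicative.ofAdd (⟨t, ht⟩ : D))
  have hli : LinearIndependent Ω (fun i => ((X i : Multiplicative D →* Ω) :
      Multiplicative D → Ω)) :=
    (linearIndependent_monoidHom (Multiplicative D) Ω).comp X hX
  refine Fintype.linearIndependent_iff.1 hli c ?_ i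
  funext t
  rw [Finset.sum_apply, Pi.zero_apply]
  exact h _ (Multiplicative.toAdd t).2

variable {k Ω J : Type} [Field k] [Field Ω] [Algebra k Ω] [IsAlgClosed Ω] [AddCommGroup J]
  [DistribMulAction (Ω ≃ₐ[k] Ω) J] {ρ : Type} [Fintype ρ] [DecidableEq ρ]
  {U : Uni k Ω J ρ} {ℓ : ℕ} [Fact ℓ.Prime] {e : ℕ → J → J → Ω} {H : Tht U ℓ e} {g d cT : ℕ}
  {E : Spc H g d cT}

variable {L : Lag ℓ (Ω ≃ₐ[k] Ω) ρ e} {s lam : (ρ → J) → Ω}

/-- the functions `G_i = TT (2c) (Y i) s / s`, `Y` as in `Dua.idx`, are eigenfunctions with different characters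
of `L.D` -/
theorem L7b_exists_char (Du : Dua k Ω J ρ ℓ e g) (hE : Eig E L s lam) :
    ∃ (G : Fin ((ℓ ^ (2 * L.c)) ^ (g * Fintype.card ρ)) → (ρ → J) → Ω)
      (χ : Fin ((ℓ ^ (2 * L.c)) ^ (g * Fintype.card ρ)) → (ρ → J) → Ω),
      (∀ i, U.Fnu (G i)) ∧ (∀ i, (fun x => G i x * s x) ∈ E.HH (ℓ ^ (2 * L.c))) ∧
      (∀ i, ∀ t ∈ L.D, ∀ w, U.Gn (kb k Ω) w → G i (w + t) = χ i t * G i w) ∧
      (∀ i, ∀ t ∈ L.D, ∀ t' ∈ L.D, χ i (t + t') = χ i t * χ i t') ∧ (∀ i, ∀ t ∈ L.D, χ i t ≠ 0) ∧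
      ∀ i j, (∀ t ∈ L.D, χ i t = χ j t) → i = j := by
  obtain ⟨Y, hY, hYD⟩ := Du.idx L
  have hs : U.Fnu s := E.fn _ s hE.mem hE.ne
  have hT : ∀ i, TT H (2 * L.c) (Y i) s ∈ E.HH (ℓ ^ (2 * L.c)) := fun i =>
    TT_mem E _ _ (hY i) s hE.mem
  have hT0 : ∀ i, TT H (2 * L.c) (Y i) s ≠ 0 := fun i h =>
    hE.ne (TT_inj E _ _ (hY i) s hE.mem h)
  have hTf : ∀ i, U.Fnu (TT H (2 * L.c) (Y i) s) := fun i => E.fn _ _ (hT i) (hT0 i)
  have hsupp : ∀ w, ¬ U.Gn (kb k Ω) w → s w = 0 := fun w hw => E.supp _ s hE.mem w hw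
  refine ⟨fun i x => TT H (2 * L.c) (Y i) s x / s x, fun i t => eA e (2 * L.c) t (Y i) ^ H.sg,
    ?_, ?_, ?_, ?_, ?_, ?_⟩
  · intro i
    refine ⟨fun x hx => div_ne_zero ((hTf i).ne x hx) (hs.ne x hx), fun σ hσ x hx => ?_⟩
    show TT H (2 * L.c) (Y i) s (σ • x) / s (σ • x) = σ (TT H (2 * L.c) (Y i) s x / s x)
    rw [map_div₀, (hTf i).equ σ hσ x hx, hs.equ σ hσ x hx]
  · intro i
    have h1 : (fun x => TT H (2 * L.c) (Y i) s x / s x * s x) = TT H (2 * L.c) (Y i) s := by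
      funext x
      by_cases hx : U.Gn (kb k Ω) x
      · exact div_mul_cancel₀ _ (hs.ne x hx)
      · rw [hsupp x hx, mul_zero, E.supp _ _ (hT i) x hx]
    rw [h1]
    exact hT i
  · intro i t ht w hw
    have ht' : ℓ ^ (2 * L.c) • t = 0 := lag_tors L ht
    have h1 := congrFun (TT_comm E (2 * L.c) t (Y i) ht' (hY i) s hE.mem) w
    have h2 := hE.eig t ht
    have h3 : TT H (2 * L.c) (Y i) (TT H (2 * L.c) t s) w =
        lam t * TT H (2 * L.c) (Y i) s w := by
      rw [h2]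
      show H.cc (2 * L.c) (Y i) w * (lam t * s (w + Y i)) =
        lam t * (H.cc (2 * L.c) (Y i) w * s (w + Y i))
      ring
    have h4 : H.cc (2 * L.c) t w * TT H (2 * L.c) (Y i) s (w + t) =
        eA e (2 * L.c) t (Y i) ^ H.sg * (lam t * TT H (2 * L.c) (Y i) s w) := by
      rw [← h3]
      exact h1
    have h5 : H.cc (2 * L.c) t w * s (w + t) = lam t * s w := congrFun h2 w
    have hwt : U.Gn (kb k Ω) (w + t) := gn_tors H ht' hw
    have hcc : H.cc (2 * L.c) t w ≠ 0 := (H.cc_fn (2 * L.c) t ht').ne w hw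
    show TT H (2 * L.c) (Y i) s (w + t) / s (w + t) =
      eA e (2 * L.c) t (Y i) ^ H.sg * (TT H (2 * L.c) (Y i) s w / s w)
    have h6 : TT H (2 * L.c) (Y i) s (w + t) / s (w + t) =
        (H.cc (2 * L.c) t w * TT H (2 * L.c) (Y i) s (w + t)) /
          (H.cc (2 * L.c) t w * s (w + t)) := by
      rw [mul_div_mul_left _ _ hcc]
    rw [h6, h4, h5]
    have hl : lam t ≠ 0 := hE.lam_ne t ht
    have hsw : s w ≠ 0 := hs.ne w hw
    field_simp
  · intro i t ht t' ht'
    show eA e (2 * L.c) (t + t') (Y i) ^ H.sg = eA e (2 * L.c) t (Y i) ^ H.sg *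
      eA e (2 * L.c) t' (Y i) ^ H.sg
    rw [Du.add_left _ _ _ _ (lag_tors L ht) (lag_tors L ht') (hY i), mul_zpow]
  · intro i t ht
    exact zpow_ne_zero _ (Du.ne _ _ _ (lag_tors L ht) (hY i))
  · intro i j hij
    have h1 : ∀ t ∈ L.D, eA e (2 * L.c) t (Y i) = eA e (2 * L.c) t (Y j) := by
      intro t ht
      have h2 : eA e (2 * L.c) t (Y i) ^ H.sg = eA e (2 * L.c) t (Y j) ^ H.sg := hij t ht
      rcases H.sg_eq with h | h
      · rw [h, zpow_one, zpow_one] at h2
        exact h2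
      · rw [h, zpow_neg, zpow_neg, zpow_one, zpow_one] at h2
        exact inv_injective h2
    refine hYD i j ((L.lag _).2 ⟨?_, ?_⟩)
    · rw [smul_sub, hY, hY, sub_zero]
    · intro t ht
      have ht' := lag_tors L ht
      have hd : ℓ ^ (2 * L.c) • (Y i - Y j) = 0 := by rw [smul_sub, hY, hY, sub_zero]
      have h2 := Du.add_left (2 * L.c) (Y i - Y j) (Y j) t hd (hY j) ht'
      rw [sub_add_cancel] at h2
      have h3 := Du.anti (2 * L.c) t (Y i) ht' (hY i)
      have h4 := Du.anti (2 * L.c) t (Y j) ht' (hY j)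
      rw [← h1 t ht] at h4
      have hne : eA e (2 * L.c) t (Y i) ≠ 0 := Du.ne _ _ _ ht' (hY i)
      have h5 : eA e (2 * L.c) (Y i) t = eA e (2 * L.c) (Y j) t :=
        mul_left_cancel₀ hne (h3.trans h4.symm)
      rw [h5] at h2
      have h6 : eA e (2 * L.c) (Y j) t ≠ 0 := Du.ne _ _ _ (hY j) ht'
      exact mul_right_cancel₀ h6 (by rw [← h2, one_mul])

/-- elements of `VV` times `s ^ m` are in `HH (m N)` -/
theorem L7b_mem (E : Spc H g d cT) (N m : ℕ) (hN : 0 < N) (hm : 0 < m) (hs : s ∈ E.HH N)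
    (h0 : s ≠ 0) (c₀ : ρ → J) (F : (ρ → J) → Ω) (hF : F ∈ VV E N m s c₀) :
    (fun x => F (x - c₀) * s x ^ m) ∈ E.HH (m * N) := by
  unfold VV at hF
  induction hF using Submodule.span_induction with
  | mem F h =>
    obtain ⟨a, ha, rfl⟩ := h
    have h1 : (fun x => (fun x => FF E N m s a (x + c₀)) (x - c₀) * s x ^ m) =
        fun x => (∏ i, s (x + a i)) * E.Cm m a x ^ N := by
      funext x
      show FF E N m s a (x - c₀ + c₀) * s x ^ m = _
      rw [sub_add_cancel]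
      by_cases hx : U.Gn (kb k Ω) x
      · unfold FF
        exact div_mul_cancel₀ _ (pow_ne_zero _ ((E.fn _ s hs h0).ne x hx))
      · rw [FF_supp E N m hm hs a x hx, zero_mul,
          E.supp m _ (E.cm_mem m a ha) x hx, zero_pow hN.ne', mul_zero]
    rw [h1]
    exact E.cm_pr m a ha hm N (fun _ => s) fun _ => hs
  | zero =>
    have h1 : (fun x => (0 : (ρ → J) → Ω) (x - c₀) * s x ^ m) = 0 := by
      funext x
      exact zero_mul _
    rw [h1]
    exact zero_mem _
  | add F F' _ _ h h' =>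
    have h1 : (fun x => (F + F') (x - c₀) * s x ^ m) =
        (fun x => F (x - c₀) * s x ^ m) + fun x => F' (x - c₀) * s x ^ m := by
      funext x
      exact add_mul _ _ _
    rw [h1]
    exact add_mem h h'
  | smul c F _ h =>
    have h1 : (fun x => (c • F) (x - c₀) * s x ^ m) = c • fun x => F (x - c₀) * s x ^ m := by
      funext x
      show (c • F (x - c₀)) * s x ^ m = c • (F (x - c₀) * s x ^ m)
      rw [smul_mul_assoc]
    rw [h1]
    exact Submodule.smul_mem _ _ h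

theorem L7b_inv (E : Spc H g d cT) (hE : Eig E L s lam) (m : ℕ) (c₀ : ρ → J) (F : (ρ → J) → Ω)
    (hF : F ∈ VV E (ℓ ^ (2 * L.c)) m s c₀) (t : ρ → J) (ht : t ∈ L.D) (w : ρ → J)
    (hw : U.Gn (kb k Ω) w) : F (w + t - c₀) = F (w - c₀) := by
  unfold VV at hF
  induction hF using Submodule.span_induction with
  | mem F h =>
    obtain ⟨a, ha, rfl⟩ := h
    show FF E (ℓ ^ (2 * L.c)) m s a (w + t - c₀ + c₀) = FF E (ℓ ^ (2 * L.c)) m s a (w - c₀ + c₀)
    rw [sub_add_cancel, sub_add_cancel]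
    exact FF_inv E hE m a ha t ht w hw
  | zero => rfl
  | add F F' _ _ h h' =>
    show F (w + t - c₀) + F' (w + t - c₀) = F (w - c₀) + F' (w - c₀)
    rw [h, h']
  | smul c F _ h =>
    show c • F (w + t - c₀) = c • F (w - c₀)
    rw [h]

theorem L7b_supp (E : Spc H g d cT) (N m : ℕ) (hm : 0 < m) (hs : s ∈ E.HH N) (c₀ : ρ → J)
    (F : (ρ → J) → Ω) (hF : F ∈ VV E N m s c₀) (w : ρ → J)
    (hw : ¬ U.Gn (kb k Ω) w) : F (w - c₀) = 0 := by
  unfold VV at hF
  induction hF using Submodule.span_induction with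
  | mem F h =>
    obtain ⟨a, ha, rfl⟩ := h
    show FF E N m s a (w - c₀ + c₀) = 0
    rw [sub_add_cancel]
    exact FF_supp E N m hm hs a w hw
  | zero => rfl
  | add F F' _ _ h h' =>
    show F (w - c₀) + F' (w - c₀) = 0
    rw [h, h', add_zero]
  | smul c F _ h =>
    show c • F (w - c₀) = 0
    rw [h, smul_zero]

/-- Let `N = ℓ^{2c}` and `Y` as in `Dua.idx`. `G_i := TT (2c) (Y i) s / s` satisfies
`G_i(w + t) = eA e (2c) t (Y i) ^ sg · G_i(w)` for `t ∈ L.D` (`TT_comm` and `Eig.eig`), and these characters of `L.D` are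
different for different `i` (if `eA e (2c) t (Y i) = eA e (2c) t (Y j)` for all `t ∈ L.D` then `Y i - Y j ∈ L.D` by `L.lag`,
`Dua.anti`, `add_right`). If `F_1, .., F_n` are linearly independent elements of `VV` (with `c₀ = 0` after translation)
then the functions `F_i G_j s^{m+1} ∈ HH ((m + 1) N)` are linearly independent: they are, by `FF_inv` and the
linear independence of characters. So `n · N^{g |ρ|} ≤ ((m + 1) N g + 1)^{g |ρ|} ≤ (((m + 1) g + 1) N)^{g |ρ|}`. -/
theorem VV_card (E : Spc H g d cT) (Du : Dua k Ω J ρ ℓ e g) (hE : Eig E L s lam) (m : ℕ) (hm : 0 < m)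
    (c₀ : ρ → J) (hc : ∃ n, ℓ ^ n • c₀ = 0) :
    Module.finrank (kb k Ω) (VV E (ℓ ^ (2 * L.c)) m s c₀) ≤
      ((m + 1) * g + 1) ^ (g * Fintype.card ρ) := by
  have hN : 0 < ℓ ^ (2 * L.c) := pow_pos (Fact.out : ℓ.Prime).pos _
  set N := ℓ ^ (2 * L.c) with hNdef
  obtain ⟨G, χ, hG1, hG2, hG3, hχ1, hχ2, hχ3⟩ := L7b_exists_char Du hE
  have hfin : FiniteDimensional (kb k Ω) (VV E N m s c₀) :=
    VV_fin E N m hm hE.mem hE.ne c₀ hc
  have hfinH : FiniteDimensional (kb k Ω) (E.HH (m * N + N)) := E.fin _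
  let b := Module.finBasis (kb k Ω) (VV E N m s c₀)
  have hs : U.Fnu s := E.fn _ s hE.mem hE.ne
  let v : Fin (Module.finrank (kb k Ω) (VV E N m s c₀)) × Fin (N ^ (g * Fintype.card ρ)) →
      E.HH (m * N + N) := fun p =>
    ⟨(fun x => (b p.1 : (ρ → J) → Ω) (x - c₀) * s x ^ m) * fun x => G p.2 x * s x,
      E.mul _ _ _ (L7b_mem E N m hN hm hE.mem hE.ne c₀ _ (b p.1).2) _ (hG2 p.2)⟩
  have hli : LinearIndependent (kb k Ω) v := by
    rw [Fintype.linearIndependent_iff]
    intro c hc0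
    -- the values
    have hval : ∀ x, U.Gn (kb k Ω) x → ∑ j, (∑ i, (c (i, j) : Ω) *
        (b i : (ρ → J) → Ω) (x - c₀)) * G j x = 0 := by
      intro x hx
      have h1 := congrArg (fun z : E.HH (m * N + N) => (z : (ρ → J) → Ω) x) hc0
      have h2 : ((∑ p, c p • v p : E.HH (m * N + N)) : (ρ → J) → Ω) x =
          ∑ p : Fin (Module.finrank (kb k Ω) (VV E N m s c₀)) × Fin (N ^ (g * Fintype.card ρ)),
            (c p : Ω) * (((b p.1 : (ρ → J) → Ω) (x - c₀) * s x ^ m) * (G p.2 x * s x)) := by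
        rw [AddSubmonoidClass.coe_finsetSum, Finset.sum_apply]
        rfl
      have h3 : ∑ p : Fin (Module.finrank (kb k Ω) (VV E N m s c₀)) ×
          Fin (N ^ (g * Fintype.card ρ)),
            (c p : Ω) * (((b p.1 : (ρ → J) → Ω) (x - c₀) * s x ^ m) * (G p.2 x * s x)) = 0 := by
        rw [← h2]
        exact h1
      rw [Fintype.sum_prod_type, Finset.sum_comm] at h3
      have h4 : (∑ j, (∑ i, (c (i, j) : Ω) * (b i : (ρ → J) → Ω) (x - c₀)) * G j x) *
          s x ^ (m + 1) = 0 := by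
        rw [← h3, Finset.sum_mul]
        refine Finset.sum_congr rfl fun j _ => ?_
        rw [Finset.sum_mul, Finset.sum_mul]
        refine Finset.sum_congr rfl fun i _ => ?_
        ring
      exact (mul_eq_zero.1 h4).resolve_right (pow_ne_zero _ (hs.ne x hx))
    have hzero : ∀ j x, ∑ i, (c (i, j) : Ω) * (b i : (ρ → J) → Ω) (x - c₀) = 0 := by
      intro j x
      by_cases hx : U.Gn (kb k Ω) x
      · have h1 := L7b_char L.D χ hχ1 hχ2 hχ3
          (fun j => (∑ i, (c (i, j) : Ω) * (b i : (ρ → J) → Ω) (x - c₀)) * G j x) (by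
            intro t ht
            have h2 := hval (x + t) (gn_tors H (lag_tors L ht) hx)
            rw [← h2]
            refine Finset.sum_congr rfl fun j _ => ?_
            rw [hG3 j t ht x hx]
            have h3 : ∀ i, (b i : (ρ → J) → Ω) (x + t - c₀) = (b i : (ρ → J) → Ω) (x - c₀) :=
              fun i => L7b_inv E hE m c₀ _ (b i).2 t ht x hx
            simp only [h3]
            ring) j
        exact (mul_eq_zero.1 h1).resolve_right ((hG1 j).ne x hx)
      · refine Finset.sum_eq_zero fun i _ => ?_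
        rw [L7b_supp E N m hm hE.mem c₀ _ (b i).2 x hx, mul_zero]
    intro p
    have h5 : ∑ i, c (i, p.2) • b i = 0 := by
      apply Subtype.ext
      rw [AddSubmonoidClass.coe_finsetSum]
      funext y
      rw [Finset.sum_apply]
      have h6 := hzero p.2 (y + c₀)
      rw [add_sub_cancel_right] at h6
      exact h6
    exact Fintype.linearIndependent_iff.1 b.linearIndependent (fun i => c (i, p.2)) h5 p.1
  have hcard := hli.fintype_card_le_finrank
  rw [Fintype.card_prod, Fintype.card_fin, Fintype.card_fin] at hcard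
  have h1 := hcard.trans (E.card (m * N + N))
  have h2 : ((m * N + N) * g + 1) ^ (g * Fintype.card ρ) ≤
      (((m + 1) * g + 1) * N) ^ (g * Fintype.card ρ) := by
    refine Nat.pow_le_pow_left ?_ _
    have : (m * N + N) * g + 1 ≤ (m * N + N) * g + N := by omega
    refine this.trans (le_of_eq ?_)
    ring
  rw [mul_pow] at h2
  exact Nat.le_of_mul_le_mul_right (h1.trans h2) (pow_pos hN _)

end TIFG
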