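import Mathlib
import Pool.Agent.TIFG.L7b
import Pool.Agent.TIFP.Sem

/-!
# [TIF] block PIG, functions on the quotients, row L8

`A = ρ → J`, `x ∈ A(K)` means `∀ i, x i ∈ U.Rt K`; generic means `U.Gn (kb k Ω)`; `V(·)` = `V.valuation`;
`A_V(x) = V(s x) Th(x)^{ℓ^{2c}}`.
-/

set_option autoImplicit false
set_option linter.unusedSectionVars false
set_option linter.unusedVariables false

open IntermediateField Pool.Agent.TIFA

namespace TIFG

variable {k Ω J : Type} [Field k] [Field Ω] [Algebra k Ω] [IsAlgClosed Ω] [AddCommGroup J]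
  [DistribMulAction (Ω ≃ₐ[k] Ω) J] {ρ : Type} [Fintype ρ] [DecidableEq ρ]
  {U : Uni k Ω J ρ} {ℓ : ℕ} [Fact ℓ.Prime] {e : ℕ → J → J → Ω} {H : Tht U ℓ e} {g d cT : ℕ}
  {E : Spc H g d cT}

/-- conjugation as an additive map -/
def L8_cj (σ : Ω ≃ₐ[k] Ω) : ((ρ → J) → Ω) →+ ((ρ → J) → Ω) where
  toFun := cj σ
  map_zero' := by
    funext x
    exact map_zero σ
  map_add' F G := by
    funext x
    exact map_add σ _ _

theorem L8_adjoin [Finite k] (S : Finset Ω) (hS : ∀ z ∈ S, z ∈ kb k Ω) :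
    adjoin k (S : Set Ω) ≤ kb k Ω ∧ FiniteDimensional k (adjoin k (S : Set Ω)) ∧
      Normal k (adjoin k (S : Set Ω)) := by
  have h1 : adjoin k (S : Set Ω) ≤ kb k Ω := adjoin_le_iff.2 fun z hz => hS z hz
  have h2 : FiniteDimensional k (adjoin k (S : Set Ω)) := by
    refine finiteDimensional_adjoin fun z hz => ?_
    have h : IsAlgebraic k z := mem_algebraicClosure_iff.1 (hS z hz)
    exact h.isIntegral
  have := h2
  have : Finite (adjoin k (S : Set Ω)) := Module.finite_of_finite k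
  exact ⟨h1, h2, inferInstance⟩

/-- `exists_lang`, `Fro.surj` for `u` (`c₀`), `VV_cj`, `VV_cont`, `VV_fin`, `VV_card`; Galois descent
`Pool.Agent.TIFP.descent_basis` (with `K = adjoin k S`, finite and normal as `k` is finite) gives a basis of
invariant functions; complete it with zeros. -/
theorem exists_YD [Finite k] (E : Spc H g d cT) (hd : 0 < d) (Fr : Fro U ℓ) (Du : Dua k Ω J ρ ℓ e g)
    (L : Lag ℓ (Ω ≃ₐ[k] Ω) ρ e) :
    ∃ (y : Fin (((3 * d + 1) * g + 1) ^ (g * Fintype.card ρ)) → (ρ → J) → Ω) (s lam : (ρ → J) → Ω)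
      (c₀ : ρ → J), YD E L y s lam c₀ := by
  obtain ⟨s, lam, u, hE, hu, hL⟩ := exists_lang E Fr Du L
  obtain ⟨m, c₀, hc, hcu⟩ := Fr.surj (2 * L.c) u hu
  have hcT : ∃ n, ℓ ^ n • c₀ = 0 := ⟨m, hc⟩
  have hm : 0 < 3 * d := by omega
  have hfin : FiniteDimensional (kb k Ω) (VV E (ℓ ^ (2 * L.c)) (3 * d) s c₀) :=
    VV_fin E (ℓ ^ (2 * L.c)) (3 * d) hm hE.mem hE.ne c₀ hcT
  have hcard := VV_card E Du hE (3 * d) hm c₀ hcT
  obtain ⟨w, -, hspan, hfix⟩ := Pool.Agent.TIFP.descent_basis (k := k) (Ω := Ω)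
    (V := (ρ → J) → Ω) (L8_cj (k := k) (Ω := Ω) (J := J) (ρ := ρ))
    (fun σ τ v => cj_mul σ τ v) (fun σ c v => cj_smul σ c v) (kb k Ω)
    (VV E (ℓ ^ (2 * L.c)) (3 * d) s c₀)
    (fun σ F hF => VV_cj E Fr (2 * L.c) (3 * d) hm u hu hE.mem hE.ne hL c₀ hcT hcu F hF σ)
    (fun F hF => by
      obtain ⟨S, hS, hSf⟩ := VV_cont E Fr (ℓ ^ (2 * L.c)) (3 * d) hm hE.mem c₀ hcT F hF
      obtain ⟨h1, h2, h3⟩ := L8_adjoin (k := k) S hS
      exact ⟨adjoin k (S : Set Ω), h1, h2, h3, fun σ hσ =>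
        hSf σ fun z hz => hσ z (subset_adjoin k _ hz)⟩)
  have hwS : ∀ i, w i ∈ VV E (ℓ ^ (2 * L.c)) (3 * d) s c₀ := fun i => by
    rw [← hspan]
    exact Submodule.subset_span ⟨i, rfl⟩
  refine ⟨fun j => if h : j.1 < Module.finrank (kb k Ω) (VV E (ℓ ^ (2 * L.c)) (3 * d) s c₀)
    then w ⟨j.1, h⟩ else 0, s, lam, c₀, hE, hcT, ?_, ?_, ?_⟩
  · intro j
    split_ifs with h
    · exact hwS _
    · exact Submodule.zero_mem _
  · conv_lhs => rw [← hspan]
    refine Submodule.span_mono ?_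
    rintro _ ⟨i, rfl⟩
    refine ⟨⟨i.1, lt_of_lt_of_le i.2 hcard⟩, ?_⟩
    dsimp only
    rw [dif_pos i.2]
  · intro j x σ
    split_ifs with h
    · have h1 : cj σ (w ⟨j.1, h⟩) = w ⟨j.1, h⟩ := hfix _ σ
      have h2 := congrFun h1 (σ • x)
      unfold cj at h2
      rw [inv_smul_smul] at h2
      exact h2.symm
    · rw [Pi.zero_apply, Pi.zero_apply, map_zero]

end TIFG
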