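import Mathlib
import Pool.Agent.TIFG.L8

/-!
# [TIF] block PIG, functions on the quotients, row L9

`A = ρ → J`, `x ∈ A(K)` means `∀ i, x i ∈ U.Rt K`; generic means `U.Gn (kb k Ω)`; `V(·)` = `V.valuation`;
`A_V(x) = V(s x) Th(x)^{ℓ^{2c}}`.
-/

set_option autoImplicit false
set_option linter.unusedSectionVars false
set_option linter.unusedVariables false

open IntermediateField Pool.Agent.TIFA

namespace TIFG

variable {k Ω J : Type} [Field k] [Field Ω] [Algebra k Ω] [IsAlgClosed Ω] [AddCommGroup J]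
  [DistribMulAction (Ω ≃ₐ[k] Ω) J] {ρ : Type} [Fintype ρ] [DecidableEq ρ]
  {U : Uni k Ω J ρ} {ℓ : ℕ} [Fact ℓ.Prime] {e : ℕ → J → J → Ω} {H : Tht U ℓ e} {g d cT : ℕ}
  {E : Spc H g d cT}

variable {L : Lag ℓ (Ω ≃ₐ[k] Ω) ρ e} {D : ℕ} {y : Fin D → (ρ → J) → Ω} {s lam : (ρ → J) → Ω}
  {c₀ : ρ → J}

private theorem L9_c0 (hy : YD E L y s lam c₀) (i : ρ) : c₀ i ∈ U.Rt (kb k Ω) := by
  obtain ⟨n, hn⟩ := hy.tors
  refine U.rt_tors (c₀ i) (ℓ ^ n) ?_ ?_
  · rw [Nat.cast_pow]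
    exact pow_ne_zero n H.ell_ne
  · have h := congrFun hn i
    rw [Pi.smul_apply, Pi.zero_apply] at h
    exact h

private theorem L9_gn (hy : YD E L y s lam c₀) {x : ρ → J} (hx : U.Gn (kb k Ω) x) :
    U.Gn (kb k Ω) (x + c₀) :=
  U.gn_add _ x c₀ le_rfl hx (L9_c0 hy)

/-- every element of `VV` is over `K ⊇ kb` (`FF_hon`; `c₀` is over `kb`) -/
theorem VV_hon (hy : YD E L y s lam c₀) (F : (ρ → J) → Ω) (hF : F ∈ VV E (ℓ ^ (2 * L.c)) (3 * d) s c₀)
    (K : IntermediateField k Ω) (hb : kb k Ω ≤ K) (x : ρ → J) (hx : U.Gn (kb k Ω) x)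
    (hxK : ∀ i, x i ∈ U.Rt K) : F x ∈ K := by
  refine Submodule.span_induction (p := fun F _ => F x ∈ K) ?_ ?_ ?_ ?_ hF
  · rintro _ ⟨a, ha, rfl⟩
    refine FF_hon E _ _ hy.eig.mem a ha K hb (x + c₀) (L9_gn hy hx) fun i => ?_
    rw [Pi.add_apply]
    exact (U.Rt K).add_mem (hxK i) (U.rt_mono _ _ hb (L9_c0 hy i))
  · exact K.zero_mem
  · intro F G _ _ h1 h2
    exact K.add_mem h1 h2
  · intro c F _ h1
    rw [Pi.smul_apply]
    exact K.mul_mem (hb c.2) h1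

/-- `VV_hon` for `K ⊔ kb`, then `Fro.el_gal`: `σ (y j x) = y j (σ x) = y j x` (`rt_fix`). -/
theorem YD_hon (Fr : Fro U ℓ) (hy : YD E L y s lam c₀) (j : Fin D) (K : IntermediateField k Ω)
    (x : ρ → J) (hx : U.Gn (kb k Ω) x) (hxK : ∀ i, x i ∈ U.Rt K) : y j x ∈ K := by
  refine Fr.el_gal K (y j x) ?_ fun σ hσ => ?_
  · exact VV_hon hy (y j) (hy.mem j) (K ⊔ kb k Ω) le_sup_right x hx fun i =>
      U.rt_mono _ _ le_sup_left (hxK i)
  · rw [← hy.equ j x σ]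
    congr 1
    funext i
    rw [Pi.smul_apply]
    exact U.rt_fix K (x i) (hxK i) σ hσ

/-- `FF_inv` -/
theorem VV_inv (hy : YD E L y s lam c₀) (F : (ρ → J) → Ω) (hF : F ∈ VV E (ℓ ^ (2 * L.c)) (3 * d) s c₀)
    (x t : ρ → J) (hx : U.Gn (kb k Ω) x) (ht : t ∈ L.D) : F (x + t) = F x := by
  refine Submodule.span_induction (p := fun F _ => F (x + t) = F x) ?_ ?_ ?_ ?_ hF
  · rintro _ ⟨a, ha, rfl⟩
    show FF E _ _ s a (x + t + c₀) = FF E _ _ s a (x + c₀)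
    rw [add_right_comm]
    exact FF_inv E hy.eig _ a ha t ht (x + c₀) (L9_gn hy hx)
  · rfl
  · intro F G _ _ h1 h2
    rw [Pi.add_apply, Pi.add_apply, h1, h2]
  · intro c F _ h1
    rw [Pi.smul_apply, Pi.smul_apply, h1]

private theorem L9_kb {V : ValuationSubring Ω} (hV : Pl k Ω V) (c : kb k Ω) :
    V.valuation (c : Ω) ≤ 1 := (V.valuation_le_one_iff _).2 (hV c c.2)

/-- `FF_le`, ultrametric inequality -/
theorem VV_le (hy : YD E L y s lam c₀) (F : (ρ → J) → Ω) (hF : F ∈ VV E (ℓ ^ (2 * L.c)) (3 * d) s c₀)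
    (V : ValuationSubring Ω) (hV : Pl k Ω V) (x : ρ → J) (hx : U.Gn (kb k Ω) x) :
    V.valuation (F x) *
      (V.valuation (s (x + c₀)) * H.Th V (x + c₀) ^ ℓ ^ (2 * L.c)) ^ (3 * d) ≤ 1 := by
  refine Submodule.span_induction (p := fun F _ => V.valuation (F x) *
      (V.valuation (s (x + c₀)) * H.Th V (x + c₀) ^ ℓ ^ (2 * L.c)) ^ (3 * d) ≤ 1) ?_ ?_ ?_ ?_ hF
  · rintro _ ⟨a, ha, rfl⟩
    exact FF_le E _ _ hy.eig.mem hy.eig.ne a ha V hV (x + c₀) (L9_gn hy hx)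
  · rw [Pi.zero_apply, map_zero, zero_mul]
    exact zero_le_one
  · intro F G _ _ h1 h2
    rw [Pi.add_apply]
    rcases le_max_iff.1 (V.valuation.map_add (F x) (G x)) with h | h
    · exact (mul_le_mul_left h _).trans h1
    · exact (mul_le_mul_left h _).trans h2
  · intro c F _ h1
    have e1 : (c • F) x = (c : Ω) * F x := rfl
    rw [e1, map_mul, mul_assoc]
    exact mul_le_one' (L9_kb hV c) h1

/-- `FF_bpf` at `x + c₀`: `F_a(· + c₀)` is a combination of the `y j` with coefficients in `kb` (`YD.span`); if all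
`V(y j x) A^{3d} < 1` then `V(F_a(x + c₀)) A^{3d} < 1`. -/
theorem YD_val (hy : YD E L y s lam c₀) (V : ValuationSubring Ω) (hV : Pl k Ω V) (x : ρ → J)
    (hx : U.Gn (kb k Ω) x) : ∃ j, V.valuation (y j x) *
      (V.valuation (s (x + c₀)) * H.Th V (x + c₀) ^ ℓ ^ (2 * L.c)) ^ (3 * d) = 1 := by
  by_contra hcon
  push Not at hcon
  have hlt : ∀ j, V.valuation (y j x) *
      (V.valuation (s (x + c₀)) * H.Th V (x + c₀) ^ ℓ ^ (2 * L.c)) ^ (3 * d) < 1 := fun j =>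
    lt_of_le_of_ne (VV_le hy (y j) (hy.mem j) V hV x hx) (hcon j)
  obtain ⟨a, ha, h1⟩ := FF_bpf E (ℓ ^ (2 * L.c)) hy.eig.mem hy.eig.ne V hV (x + c₀) (L9_gn hy hx)
  have hF : (fun x => FF E (ℓ ^ (2 * L.c)) (3 * d) s a (x + c₀)) ∈
      Submodule.span (kb k Ω) (Set.range y) :=
    hy.span (Submodule.subset_span ⟨a, ha, rfl⟩)
  have h2 : V.valuation ((fun x => FF E (ℓ ^ (2 * L.c)) (3 * d) s a (x + c₀)) x) *
      (V.valuation (s (x + c₀)) * H.Th V (x + c₀) ^ ℓ ^ (2 * L.c)) ^ (3 * d) < 1 := by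
    refine Submodule.span_induction (p := fun F _ => V.valuation (F x) *
      (V.valuation (s (x + c₀)) * H.Th V (x + c₀) ^ ℓ ^ (2 * L.c)) ^ (3 * d) < 1) ?_ ?_ ?_ ?_ hF
    · rintro _ ⟨j, rfl⟩
      exact hlt j
    · rw [Pi.zero_apply, map_zero, zero_mul]
      exact zero_lt_one
    · intro F G _ _ h1 h2
      rw [Pi.add_apply]
      rcases le_max_iff.1 (V.valuation.map_add (F x) (G x)) with h | h
      · exact (mul_le_mul_left h _).trans_lt h1
      · exact (mul_le_mul_left h _).trans_lt h2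
    · intro c F _ h1
      have e1 : (c • F) x = (c : Ω) * F x := rfl
      rw [e1, map_mul, mul_assoc]
      exact (mul_le_mul_left (L9_kb hV c) _).trans_lt (by rwa [one_mul])
  exact absurd h1 h2.ne

end TIFG
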