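import Mathlib
import Pool.Agent.TIFG.L9

/-!
# [TIF] block PIG, functions on the quotients, row L10

`A = ρ → J`, `x ∈ A(K)` means `∀ i, x i ∈ U.Rt K`; generic means `U.Gn (kb k Ω)`; `V(·)` = `V.valuation`;
`A_V(x) = V(s x) Th(x)^{ℓ^{2c}}`.
-/

set_option autoImplicit false
set_option linter.unusedSectionVars false
set_option linter.unusedVariables false

open IntermediateField Pool.Agent.TIFA

namespace TIFG

variable {k Ω J : Type} [Field k] [Field Ω] [Algebra k Ω] [IsAlgClosed Ω] [AddCommGroup J]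
  [DistribMulAction (Ω ≃ₐ[k] Ω) J] {ρ : Type} [Fintype ρ] [DecidableEq ρ]
  {U : Uni k Ω J ρ} {ℓ : ℕ} [Fact ℓ.Prime] {e : ℕ → J → J → Ω} {H : Tht U ℓ e} {g d cT : ℕ}
  {E : Spc H g d cT}

variable {L : Lag ℓ (Ω ≃ₐ[k] Ω) ρ e} {D : ℕ} {y : Fin D → (ρ → J) → Ω} {s lam : (ρ → J) → Ω}
  {c₀ : ρ → J}

/-- all functions of `VV` have the same values at points with the same coordinates -/
theorem L10_eq (hy : YD E L y s lam c₀) (x x' : ρ → J) (h : ∀ j, y j x = y j x')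
    {F : (ρ → J) → Ω} (hF : F ∈ VV E (ℓ ^ (2 * L.c)) (3 * d) s c₀) : F x = F x' := by
  have h1 := hy.span hF
  refine Submodule.span_induction (p := fun F _ => F x = F x') ?_ ?_ ?_ ?_ h1
  · rintro _ ⟨j, rfl⟩
    exact h j
  · rfl
  · intro F G _ _ hF hG
    rw [Pi.add_apply, Pi.add_apply, hF, hG]
  · intro c F _ hF
    rw [Pi.smul_apply, Pi.smul_apply, hF]

/-- the functions `F_a` are in `VV` -/
theorem L10_mem (N m : ℕ) (s : (ρ → J) → Ω) (c₀ : ρ → J) (a : Fin m → ρ → J) (ha : Z0 U a) :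
    (fun x => FF E N m s a (x + c₀)) ∈ VV E N m s c₀ :=
  Submodule.subset_span ⟨a, ha, rfl⟩

/-- points with the same coordinates differ by `N`-torsion: `σ` over `kb` with `σ x = x'`; `κ :=` the field
generated over `kb` by the values `F(x)`, `F ∈ VV`. `σ` fixes `κ` (each `F` is in the span of the `y j`;
`σ (y j x) = y j (σ x) = y j x' = y j x`). By `Spc.rat` at `w = x + c₀` (the hypothesis is: `F_a(x + c₀) ∈ κ`):
`N (x + c₀)_i ∈ Rt κ`, so it is fixed by `σ`; `c₀` is fixed by `σ`. -/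
theorem sep_tors (hy : YD E L y s lam c₀) (x x' : ρ → J) (hx : U.Gn (kb k Ω) x)
    (hx' : U.Gn (kb k Ω) x') (h : ∀ j, y j x = y j x') : ℓ ^ (2 * L.c) • (x' - x) = 0 := by
  obtain ⟨σ, hσ, hσx⟩ := U.gn_hom _ small_kb le_rfl x x' hx hx'
  obtain ⟨n, hn⟩ := hy.tors
  have hσc : σ • c₀ = c₀ := fix_tors H hn σ hσ
  have hkb : ∀ c ∈ kb k Ω, σ c = c := fun c hc => hσ ⟨c, hc⟩
  obtain ⟨κ, hκ⟩ : ∃ κ : IntermediateField k Ω, κ = kb k Ω ⊔ adjoin k
      {z | ∃ F ∈ VV E (ℓ ^ (2 * L.c)) (3 * d) s c₀, z = F x} := ⟨_, rfl⟩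
  have hle : kb k Ω ≤ κ := hκ ▸ le_sup_left
  -- `σ` fixes `κ`
  have hval : ∀ F ∈ VV E (ℓ ^ (2 * L.c)) (3 * d) s c₀, σ (F x) = F x := by
    intro F hF
    refine Submodule.span_induction (p := fun F _ => σ (F x) = F x) ?_ ?_ ?_ ?_ (hy.span hF)
    · rintro _ ⟨j, rfl⟩
      rw [← hy.equ, hσx, h j]
    · rw [Pi.zero_apply, map_zero]
    · intro F G _ _ hF hG
      rw [Pi.add_apply, map_add, hF, hG]
    · intro c F _ hF
      have h1 : (c • F) x = (c : Ω) * F x := rfl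
      rw [h1, map_mul, hF, hkb c c.2]
  have hfix : σ ∈ κ.fixingSubgroup := by
    have h1 : κ ≤ IntermediateField.fixedField (Subgroup.zpowers σ) := by
      rw [hκ]
      refine sup_le ?_ (adjoin_le_iff.2 ?_)
      · intro z hz
        rw [IntermediateField.mem_fixedField_iff]
        intro τ hτ
        obtain ⟨i, rfl⟩ := Subgroup.mem_zpowers_iff.1 hτ
        have h4 : σ ∈ MulAction.stabilizer (Ω ≃ₐ[k] Ω) z := hkb z hz
        exact (MulAction.stabilizer (Ω ≃ₐ[k] Ω) z).zpow_mem h4 i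
      · rintro z ⟨F, hF, rfl⟩
        rw [SetLike.mem_coe, IntermediateField.mem_fixedField_iff]
        intro τ hτ
        obtain ⟨i, rfl⟩ := Subgroup.mem_zpowers_iff.1 hτ
        have h4 : σ ∈ MulAction.stabilizer (Ω ≃ₐ[k] Ω) (F x) := hval F hF
        exact (MulAction.stabilizer (Ω ≃ₐ[k] Ω) (F x)).zpow_mem h4 i
    rintro ⟨z, hz⟩
    have h2 := h1 hz
    rw [IntermediateField.mem_fixedField_iff] at h2
    exact h2 σ (Subgroup.mem_zpowers σ)
  have hw : U.Gn (kb k Ω) (x + c₀) := gn_tors H hn hx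
  have hrat := E.rat (ℓ ^ (2 * L.c)) s hy.eig.mem hy.eig.ne (x + c₀) hw κ hle (by
    intro a ha
    have h1 : FF E (ℓ ^ (2 * L.c)) (3 * d) s a (x + c₀) ∈ κ := by
      rw [hκ]
      refine (le_sup_right : adjoin k _ ≤ _) (subset_adjoin k _ ?_)
      exact ⟨_, L10_mem (E := E) _ _ s c₀ a ha, rfl⟩
    exact h1)
  have h2 : ℓ ^ (2 * L.c) • (x' + c₀) = ℓ ^ (2 * L.c) • (x + c₀) := by
    funext i
    have h3 := U.rt_fix κ _ (hrat i) σ hfix
    have h3' : σ • (ℓ ^ (2 * L.c) • (x + c₀) i) = ℓ ^ (2 * L.c) • (σ • (x + c₀) i) :=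
      map_nsmul (DistribSMul.toAddMonoidHom J σ) (ℓ ^ (2 * L.c)) ((x + c₀) i)
    rw [h3'] at h3
    have h4 : σ • (x + c₀) i = (x' + c₀) i := by
      have h6 : x' + c₀ = σ • (x + c₀) := by rw [smul_add, hσx, hσc]
      rw [h6]
      rfl
    rw [h4] at h3
    exact h3
  have h5 : x' - x = (x' + c₀) - (x + c₀) := by abel
  rw [h5, nsmul_sub, h2, sub_self]

/-- Let `δ = x' - x` (`sep_tors`), `N = ℓ^{2c}`, `A_V(w) = V(s w) Th(w)^N`. All `F_a` satisfy `F_a(w + δ) = F_a(w)` at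
`w = x + c₀`, hence at all generic `w` (automorphisms over `kb`, `fix_tors`). By `FF_bpf`, `FF_le` at `w` and at
`w + δ`: `A_V(w + δ) = A_V(w)` for all `V, w`. So `TT (2c) δ s` and `s` have the same values, and
`TT (2c) δ s = κ s` (`fn_eq`). `TT_comm` for `(δ, t)`, `t ∈ L.D`: `κ lam t s = eA e (2c) δ t ^ sg · lam t κ s`, so
`eA e (2c) δ t = 1` for all `t ∈ L.D`, and `δ ∈ L.D` by `L.lag`. -/
theorem YD_sep (hy : YD E L y s lam c₀) (hd : 0 < d) (x x' : ρ → J) (hx : U.Gn (kb k Ω) x)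
    (hx' : U.Gn (kb k Ω) x') (h : ∀ j, y j x = y j x') : x' - x ∈ L.D := by
  have hδ := sep_tors hy x x' hx hx' h
  obtain ⟨n, hn⟩ := hy.tors
  obtain ⟨δ, hδ'⟩ : ∃ δ, δ = x' - x := ⟨_, rfl⟩
  rw [← hδ'] at hδ ⊢
  have hw₀ : U.Gn (kb k Ω) (x + c₀) := gn_tors H hn hx
  have hx'e : x' + c₀ = x + c₀ + δ := by
    rw [hδ']
    abel
  have hsm := hy.eig.mem
  have hs0 := hy.eig.ne
  -- the functions `F_a` are invariant under `δ`
  have hinv : ∀ (a : Fin (3 * d) → ρ → J), Z0 U a → ∀ w, U.Gn (kb k Ω) w →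
      FF E (ℓ ^ (2 * L.c)) (3 * d) s a (w + δ) = FF E (ℓ ^ (2 * L.c)) (3 * d) s a w := by
    intro a ha w hw
    have hF := FF_fn E (ℓ ^ (2 * L.c)) (3 * d) hsm hs0 a ha
    obtain ⟨τ, hτ, hτw⟩ := U.gn_hom _ small_kb le_rfl _ _ hw₀ hw
    have h1 : w + δ = τ • (x + c₀ + δ) := by
      rw [smul_add, hτw, fix_tors H hδ τ hτ]
    have h2 : FF E (ℓ ^ (2 * L.c)) (3 * d) s a (x + c₀ + δ) = FF E (ℓ ^ (2 * L.c)) (3 * d) s a (x + c₀) := by
      have h3 := L10_eq hy x x' h (L10_mem (E := E) _ _ s c₀ a ha)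
      simp only [hx'e] at h3
      exact h3.symm
    rw [h1, hF.equ τ hτ _ (gn_tors H hδ hw₀), h2, ← hF.equ τ hτ _ hw₀, hτw]
  -- the local theta functions
  have h3d : 3 * d ≠ 0 := by omega
  have hA : ∀ V, Pl k Ω V → ∀ w, U.Gn (kb k Ω) w →
      V.valuation (s (w + δ)) * H.Th V (w + δ) ^ ℓ ^ (2 * L.c) =
        V.valuation (s w) * H.Th V w ^ ℓ ^ (2 * L.c) := by
    intro V hV w hw
    have hwδ : U.Gn (kb k Ω) (w + δ) := gn_tors H hδ hw
    have key : ∀ (z a b : V.ValueGroup), z * a ^ (3 * d) ≤ 1 → z * b ^ (3 * d) = 1 → a ≤ b := by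
      intro z a b h1 h2
      have hz : z ≠ 0 := by
        rintro rfl
        rw [zero_mul] at h2
        exact zero_ne_one h2
      rw [← h2] at h1
      have h3 : a ^ (3 * d) ≤ b ^ (3 * d) := (mul_le_mul_iff_right₀ (zero_lt_iff.2 hz)).1 h1
      exact (pow_le_pow_iff_left₀ zero_le zero_le h3d).1 h3
    obtain ⟨a, ha, h1⟩ := FF_bpf E (ℓ ^ (2 * L.c)) hsm hs0 V hV w hw
    obtain ⟨b, hb, h2⟩ := FF_bpf E (ℓ ^ (2 * L.c)) hsm hs0 V hV (w + δ) hwδ
    have h3 := FF_le E (ℓ ^ (2 * L.c)) (3 * d) hsm hs0 a ha V hV (w + δ) hwδ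
    have h4 := FF_le E (ℓ ^ (2 * L.c)) (3 * d) hsm hs0 b hb V hV w hw
    rw [hinv a ha w hw] at h3
    rw [hinv b hb w hw] at h2
    exact le_antisymm (key _ _ _ h3 h1) (key _ _ _ h4 h2)
  have hTm := TT_mem E (2 * L.c) δ hδ s hsm
  have hT0 : TT H (2 * L.c) δ s ≠ 0 := fun h0 => hs0 (TT_inj E (2 * L.c) δ hδ s hsm h0)
  have hTf := E.fn _ _ hTm hT0
  have hsf := E.fn _ _ hsm hs0
  obtain ⟨κ, hκ, hκ0, hκe⟩ := fn_eq _ _ hTf hsf (by
    intro V hV w hw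
    have h1 := H.cc_val (2 * L.c) δ hδ V hV w hw
    have hth : H.Th V w ^ ℓ ^ (2 * L.c) ≠ 0 := pow_ne_zero _ (H.th_ne V hV w hw)
    apply mul_right_cancel₀ hth
    rw [← hA V hV w hw]
    change V.valuation (H.cc (2 * L.c) δ w * s (w + δ)) * _ = _
    rw [map_mul, mul_right_comm, h1, mul_comm])
  have hκe' : TT H (2 * L.c) δ s = fun w => κ * s w := by
    funext w
    by_cases hw : U.Gn (kb k Ω) w
    · exact hκe w hw
    · rw [E.supp _ _ hTm w hw, E.supp _ _ hsm w hw, mul_zero]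
  refine (L.lag δ).2 ⟨hδ, fun t ht => ?_⟩
  have h1 := congrFun (TT_comm E (2 * L.c) δ t hδ (lag_tors L ht) s hsm) x
  rw [hy.eig.eig t ht, hκe'] at h1
  have h2 : TT H (2 * L.c) δ (fun w => lam t * s w) x = lam t * (κ * s x) := by
    have h3 := congrFun hκe' x
    have h4 : TT H (2 * L.c) δ (fun w => lam t * s w) x = lam t * TT H (2 * L.c) δ s x := by
      unfold TT
      ring
    rw [h4, h3]
  have h3 : TT H (2 * L.c) t (fun w => κ * s w) x = κ * (lam t * s x) := by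
    have h5 := congrFun (hy.eig.eig t ht) x
    have h4 : TT H (2 * L.c) t (fun w => κ * s w) x = κ * TT H (2 * L.c) t s x := by
      unfold TT
      ring
    rw [h4, h5]
  rw [h2] at h1
  have h4 : lam t * (κ * s x) = eA e (2 * L.c) δ t ^ H.sg * (κ * (lam t * s x)) := by
    rw [h1]
    exact congrArg _ h3
  have hz : κ * (lam t * s x) ≠ 0 := mul_ne_zero hκ0 (mul_ne_zero (hy.eig.lam_ne t ht) (hsf.ne x hx))
  have h5 : eA e (2 * L.c) δ t ^ H.sg = 1 := by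
    have h6 : eA e (2 * L.c) δ t ^ H.sg * (κ * (lam t * s x)) = 1 * (κ * (lam t * s x)) := by
      rw [← h4]
      ring
    exact mul_right_cancel₀ hz h6
  rcases H.sg_eq with h6 | h6
  · rw [h6, zpow_one] at h5
    exact h5
  · rw [h6, zpow_neg, zpow_one, inv_eq_one] at h5
    exact h5

end TIFG
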