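import Mathlib
import Pool.Agent.TIFG.L10

/-!
# [TIF] block PIG, functions on the quotients, row L11

`A = ρ → J`, `x ∈ A(K)` means `∀ i, x i ∈ U.Rt K`; generic means `U.Gn (kb k Ω)`; `V(·)` = `V.valuation`;
`A_V(x) = V(s x) Th(x)^{ℓ^{2c}}`.
-/

set_option autoImplicit false
set_option linter.unusedSectionVars false
set_option linter.unusedVariables false

open IntermediateField Pool.Agent.TIFA

namespace TIFG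

variable {k Ω J : Type} [Field k] [Field Ω] [Algebra k Ω] [IsAlgClosed Ω] [AddCommGroup J]
  [DistribMulAction (Ω ≃ₐ[k] Ω) J] {ρ : Type} [Fintype ρ] [DecidableEq ρ]
  {U : Uni k Ω J ρ} {ℓ : ℕ} [Fact ℓ.Prime] {e : ℕ → J → J → Ω} {H : Tht U ℓ e} {g d cT : ℕ}
  {E : Spc H g d cT}

variable {L : Lag ℓ (Ω ≃ₐ[k] Ω) ρ e} {D : ℕ} {y : Fin D → (ρ → J) → Ω} {s lam : (ρ → J) → Ω}
  {c₀ : ρ → J}

/-- `κ₀ := adjoin k (range (y · x))`. `F_a(x + c₀) ∈ κ₀ ⊔ kb`, so `N x_i ∈ Rt (κ₀ ⊔ kb)` by `Spc.rat`. For `σ` over `κ₀`: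
`y j (σ x) = y j x`, so `σ x - x ∈ L.D` (`YD_sep`) and `σ (N x_i) = N x_i`. `Fro.rt_gal`. -/
theorem YD_rat (Fr : Fro U ℓ) (hy : YD E L y s lam c₀) (hd : 0 < d) (x : ρ → J)
    (hx : U.Gn (kb k Ω) x) (i : ρ) :
    ℓ ^ (2 * L.c) • x i ∈ U.Rt (adjoin k (Set.range fun j => y j x)) := by
  obtain ⟨κ₀, hκ⟩ : ∃ κ₀, κ₀ = adjoin k (Set.range fun j => y j x) := ⟨_, rfl⟩
  rw [← hκ]
  have hyκ : ∀ j, y j x ∈ κ₀ := fun j => by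
    rw [hκ]
    exact subset_adjoin k _ ⟨j, rfl⟩
  obtain ⟨n, hn⟩ := hy.tors
  have hF : ∀ F ∈ VV E (ℓ ^ (2 * L.c)) (3 * d) s c₀, F x ∈ κ₀ ⊔ kb k Ω := by
    intro F hF
    refine Submodule.span_induction (p := fun F _ => F x ∈ κ₀ ⊔ kb k Ω) ?_ ?_ ?_ ?_ (hy.span hF)
    · rintro _ ⟨j, rfl⟩
      exact (le_sup_left : κ₀ ≤ κ₀ ⊔ kb k Ω) (hyκ j)
    · exact (κ₀ ⊔ kb k Ω).zero_mem
    · intro F G _ _ h1 h2
      exact (κ₀ ⊔ kb k Ω).add_mem h1 h2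
    · intro c F _ h1
      rw [Pi.smul_apply]
      exact (κ₀ ⊔ kb k Ω).mul_mem ((le_sup_right : kb k Ω ≤ κ₀ ⊔ kb k Ω) c.2) h1
  have h1 := E.rat (ℓ ^ (2 * L.c)) s hy.eig.mem hy.eig.ne (x + c₀) (gn_tors H hn hx)
    (κ₀ ⊔ kb k Ω) le_sup_right (fun a ha => hF _ (Submodule.subset_span ⟨a, ha, rfl⟩)) i
  have h2 : c₀ i ∈ U.Rt (κ₀ ⊔ kb k Ω) := U.rt_mono _ _ le_sup_right (tors_rt H hn i)
  have h3 : ℓ ^ (2 * L.c) • x i ∈ U.Rt (κ₀ ⊔ kb k Ω) := by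
    have h4 : ℓ ^ (2 * L.c) • x i = ℓ ^ (2 * L.c) • (x + c₀) i - ℓ ^ (2 * L.c) • c₀ i := by
      rw [Pi.add_apply, smul_add, add_sub_cancel_right]
    rw [h4]
    exact (U.Rt _).sub_mem h1 ((U.Rt _).nsmul_mem h2 _)
  refine Fr.rt_gal κ₀ _ h3 fun σ hσ => ?_
  have h5 : σ • x - x ∈ L.D := by
    refine YD_sep hy hd x (σ • x) hx (gn_smul σ x hx) fun j => ?_
    rw [hy.equ j x σ]
    exact (((mem_fixingSubgroup_iff κ₀ σ).1 hσ) (y j x) (hyκ j)).symm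
  have h6 := congrFun (lag_tors L h5) i
  rw [Pi.smul_apply, Pi.sub_apply, Pi.smul_apply, Pi.zero_apply, smul_sub, sub_eq_zero] at h6
  rw [smul_comm, h6]

end TIFG
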