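import Mathlib
import Pool.Agent.TIFG.L11

/-!
# [TIF] block PIG, functions on the quotients, row L12a

`A = ρ → J`, `x ∈ A(K)` means `∀ i, x i ∈ U.Rt K`; generic means `U.Gn (kb k Ω)`; `V(·)` = `V.valuation`;
`A_V(x) = V(s x) Th(x)^{ℓ^{2c}}`.
-/

set_option autoImplicit false
set_option linter.unusedSectionVars false
set_option linter.unusedVariables false

open IntermediateField Pool.Agent.TIFA

namespace TIFG

variable {k Ω J : Type} [Field k] [Field Ω] [Algebra k Ω] [IsAlgClosed Ω] [AddCommGroup J]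
  [DistribMulAction (Ω ≃ₐ[k] Ω) J] {ρ : Type} [Fintype ρ] [DecidableEq ρ]
  {U : Uni k Ω J ρ} {ℓ : ℕ} [Fact ℓ.Prime] {e : ℕ → J → J → Ω} {H : Tht U ℓ e} {g d cT : ℕ}
  {E : Spc H g d cT}

variable {L : Lag ℓ (Ω ≃ₐ[k] Ω) ρ e} {D : ℕ} {y : Fin D → (ρ → J) → Ω} {s lam : (ρ → J) → Ω}
  {c₀ : ρ → J}

/-- the constant function: `HH 0` is a line and closed under products -/
theorem L12a_one (E : Spc H g d cT) : ∃ F ∈ E.HH 0, ∀ x, U.Gn (kb k Ω) x → F x = 1 := by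
  obtain ⟨F, hF, hF0⟩ := E.ne 0
  have hfin := E.fin 0
  have hcard := E.card 0
  rw [zero_mul, zero_add, one_pow] at hcard
  have hF0' : (⟨F, hF⟩ : E.HH 0) ≠ 0 := fun h => hF0 (congrArg Subtype.val h)
  have hone : Module.finrank (kb k Ω) (E.HH 0) = 1 := by
    refine le_antisymm hcard ?_
    exact Module.finrank_pos_iff_exists_ne_zero.2 ⟨_, hF0'⟩
  have hmul := E.mul 0 0 F hF F hF
  rw [add_zero] at hmul
  obtain ⟨c, hc⟩ := (finrank_eq_one_iff_of_nonzero' _ hF0').1 hone ⟨F * F, hmul⟩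
  have hc' : ∀ x, (c : Ω) * F x = F x * F x := fun x => congrFun (congrArg Subtype.val hc) x
  have hfn := E.fn 0 F hF hF0
  have hFx : ∀ x, U.Gn (kb k Ω) x → F x = (c : Ω) := fun x hx =>
    (mul_right_cancel₀ (hfn.ne x hx) (hc' x)).symm
  refine ⟨c⁻¹ • F, (E.HH 0).smul_mem _ hF, fun x hx => ?_⟩
  have h1 : (c : Ω) ≠ 0 := by
    rw [← hFx x hx]
    exact hfn.ne x hx
  show ((c⁻¹ : kb k Ω) : Ω) * F x = 1
  rw [hFx x hx]
  show (c : Ω)⁻¹ * (c : Ω) = 1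
  exact inv_mul_cancel₀ h1

/-- products of three functions of weight `3 d e N` -/
def L12a_G (E : Spc H g d cT) (N : ℕ) (w₁ w₂ w₃ : ρ → J) (e₀ : ℕ) (z : Ω) : Prop :=
  ∃ f ∈ E.HH (3 * d * e₀ * N), ∃ f' ∈ E.HH (3 * d * e₀ * N), ∃ f'' ∈ E.HH (3 * d * e₀ * N),
    z = f w₁ * f' w₂ * f'' w₃

theorem L12a_G_mul (E : Spc H g d cT) {N : ℕ} {w₁ w₂ w₃ : ρ → J} {a b : ℕ} {z z' : Ω}
    (h : L12a_G E N w₁ w₂ w₃ a z) (h' : L12a_G E N w₁ w₂ w₃ b z') :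
    L12a_G E N w₁ w₂ w₃ (a + b) (z * z') := by
  obtain ⟨f₁, h₁, f₂, h₂, f₃, h₃, rfl⟩ := h
  obtain ⟨f₁', h₁', f₂', h₂', f₃', h₃', rfl⟩ := h'
  have hN : 3 * d * (a + b) * N = 3 * d * a * N + 3 * d * b * N := by ring
  refine ⟨f₁ * f₁', ?_, f₂ * f₂', ?_, f₃ * f₃', ?_, ?_⟩
  · rw [hN]
    exact E.mul _ _ _ h₁ _ h₁'
  · rw [hN]
    exact E.mul _ _ _ h₂ _ h₂'
  · rw [hN]
    exact E.mul _ _ _ h₃ _ h₃'
  · simp only [Pi.mul_apply]
    ring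

theorem L12a_G_one (E : Spc H g d cT) {N : ℕ} {w₁ w₂ w₃ : ρ → J} (h₁ : U.Gn (kb k Ω) w₁)
    (h₂ : U.Gn (kb k Ω) w₂) (h₃ : U.Gn (kb k Ω) w₃) : L12a_G E N w₁ w₂ w₃ 0 1 := by
  obtain ⟨F, hF, hF1⟩ := L12a_one E
  have h0 : 3 * d * 0 * N = 0 := by ring
  refine ⟨F, by rw [h0]; exact hF, F, by rw [h0]; exact hF, F, by rw [h0]; exact hF, ?_⟩
  rw [hF1 _ h₁, hF1 _ h₂, hF1 _ h₃, one_mul, one_mul]

theorem L12a_G_pow (E : Spc H g d cT) {N : ℕ} {w₁ w₂ w₃ : ρ → J} (h₁ : U.Gn (kb k Ω) w₁)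
    (h₂ : U.Gn (kb k Ω) w₂) (h₃ : U.Gn (kb k Ω) w₃) {z : Ω} (h : L12a_G E N w₁ w₂ w₃ 1 z) (n : ℕ) :
    L12a_G E N w₁ w₂ w₃ n (z ^ n) := by
  induction n with
  | zero =>
    rw [pow_zero]
    exact L12a_G_one E h₁ h₂ h₃
  | succ n ih =>
    rw [pow_succ]
    exact L12a_G_mul E ih h

/-- powers of a function -/
theorem L12a_pow (E : Spc H g d cT) {N : ℕ} {F : (ρ → J) → Ω} (hF : F ∈ E.HH N) (n : ℕ)
    (hn : 0 < n) : F ^ n ∈ E.HH (n * N) := by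
  induction n with
  | zero => omega
  | succ n ih =>
    by_cases h : n = 0
    · subst h
      rw [zero_add, pow_one, one_mul]
      exact hF
    · rw [pow_succ, add_mul, one_mul]
      exact E.mul _ _ _ (ih (by omega)) _ hF

/-- elements of `VV` times a power of the section -/
theorem L12a_VV (E : Spc H g d cT) {N m : ℕ} (hm : 0 < m) (hs : s ∈ E.HH N) (h0 : s ≠ 0)
    (hc : ∃ n, ℓ ^ n • c₀ = 0) (f : (ρ → J) → Ω) (hf : f ∈ VV E N m s c₀) :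
    ∃ G ∈ E.HH (m * N), ∀ x, U.Gn (kb k Ω) x → f x * s (x + c₀) ^ m = G (x + c₀) := by
  obtain ⟨n, hn⟩ := hc
  refine Submodule.span_induction (p := fun f _ => ∃ G ∈ E.HH (m * N), ∀ x, U.Gn (kb k Ω) x →
    f x * s (x + c₀) ^ m = G (x + c₀)) ?_ ?_ ?_ ?_ hf
  · rintro f ⟨a, ha, rfl⟩
    refine ⟨_, E.cm_pr m a ha hm N (fun _ => s) (fun _ => hs), fun x hx => ?_⟩
    have hne : s (x + c₀) ^ m ≠ 0 := pow_ne_zero _ ((E.fn N s hs h0).ne _ (gn_tors H hn hx))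
    show (∏ i, s (x + c₀ + a i)) * E.Cm m a (x + c₀) ^ N / s (x + c₀) ^ m * s (x + c₀) ^ m =
      (∏ i, s (x + c₀ + a i)) * E.Cm m a (x + c₀) ^ N
    rw [div_mul_cancel₀ _ hne]
  · exact ⟨0, Submodule.zero_mem _, fun x _ => by rw [Pi.zero_apply, zero_mul, Pi.zero_apply]⟩
  · rintro f f' _ _ ⟨G, hG, h⟩ ⟨G', hG', h'⟩
    refine ⟨G + G', Submodule.add_mem _ hG hG', fun x hx => ?_⟩
    rw [Pi.add_apply, Pi.add_apply, add_mul, h x hx, h' x hx]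
  · rintro c f _ ⟨G, hG, h⟩
    refine ⟨c • G, Submodule.smul_mem _ c hG, fun x hx => ?_⟩
    rw [Pi.smul_apply, Pi.smul_apply, smul_mul_assoc, h x hx]

/-- the value at `(x, x')` of a polynomial in the triple, multiplied by `(s(x+c₀) s(x'+c₀) s(x+x'+c₀))^{3de₀}`, is in the
span of the products of `Spc.pd` with `m₁ = m₂ = m₃ = 3 d e₀ N`, at the points `w = x + c₀`, `w' = x' + c₀`, `a = -c₀`
(a monomial of degree `≤ e₀` in elements of `VV` times `s(· + c₀)^{3de₀}` is of the form `G(· + c₀)`, `G ∈ HH(3de₀N)`: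
`cm_pr`, `mul`). -/
theorem trip_mem (hy : YD E L y s lam c₀) (hd : 0 < d) (e₀ : ℕ) (P : MvPolynomial (Fin (3 * D)) k)
    (hP : P.totalDegree ≤ e₀) (K : IntermediateField k Ω) (hb : kb k Ω ≤ K) (x x' : ρ → J)
    (hx : U.Gn (kb k Ω) x) (hxK : ∀ i, x i ∈ U.Rt K) (hx' : U.Gn K x') :
    MvPolynomial.aeval (trip y x x') P * (s (x + c₀) * s (x' + c₀) * s (x + x' + c₀)) ^ (3 * d * e₀) ∈
      Submodule.span (kb k Ω) {z | ∃ f ∈ E.HH (3 * d * e₀ * ℓ ^ (2 * L.c)),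
        ∃ f' ∈ E.HH (3 * d * e₀ * ℓ ^ (2 * L.c)), ∃ f'' ∈ E.HH (3 * d * e₀ * ℓ ^ (2 * L.c)),
        z = f (x + c₀) * f' (x' + c₀) * f'' ((x + c₀) + (x' + c₀) + -c₀)} := by
  classical
  obtain ⟨nc, hnc⟩ := hy.tors
  have hs := hy.eig.mem
  have hs0 := hy.eig.ne
  have hm : 0 < 3 * d := by omega
  -- the three points
  have hx'b : U.Gn (kb k Ω) x' := gn_kb hb hx'
  have hxx : U.Gn (kb k Ω) (x + x') := by
    rw [add_comm]
    exact gn_kb hb (U.gn_add K x' x hb hx' hxK)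
  have g₁ : U.Gn (kb k Ω) (x + c₀) := gn_tors H hnc hx
  have g₂ : U.Gn (kb k Ω) (x' + c₀) := gn_tors H hnc hx'b
  have g₃ : U.Gn (kb k Ω) (x + x' + c₀) := gn_tors H hnc hxx
  have h3 : (x + c₀) + (x' + c₀) + -c₀ = x + x' + c₀ := by abel
  rw [h3]
  obtain ⟨N, hN⟩ : ∃ N, N = ℓ ^ (2 * L.c) := ⟨_, rfl⟩
  have hyV : ∀ j, y j ∈ VV E N (3 * d) s c₀ := by
    intro j
    rw [hN]
    exact hy.mem j
  rw [← hN] at hs ⊢
  have hspow : s ^ (3 * d) ∈ E.HH (3 * d * 1 * N) := by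
    rw [mul_one]
    exact L12a_pow E hs _ hm
  obtain ⟨σ, hσ⟩ : ∃ σ, σ = s (x + c₀) * s (x' + c₀) * s (x + x' + c₀) := ⟨_, rfl⟩
  rw [← hσ]
  have hG1 : L12a_G E N (x + c₀) (x' + c₀) (x + x' + c₀) 1 (σ ^ (3 * d)) := by
    refine ⟨_, hspow, _, hspow, _, hspow, ?_⟩
    rw [hσ, mul_pow, mul_pow]
    rfl
  have hvar : ∀ i, L12a_G E N (x + c₀) (x' + c₀) (x + x' + c₀) 1 (trip y x x' i * σ ^ (3 * d)) := by
    intro i
    obtain ⟨G, hG, hG'⟩ := L12a_VV E hm hs hs0 ⟨nc, hnc⟩ _ (hyV (finProdFinEquiv.symm i).2)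
    have hG1 : G ∈ E.HH (3 * d * 1 * N) := by
      rw [mul_one]
      exact hG
    have key : ∀ t : Fin 3, L12a_G E N (x + c₀) (x' + c₀) (x + x' + c₀) 1
        (y (finProdFinEquiv.symm i).2 (![x, x', x + x'] t) * σ ^ (3 * d)) := by
      intro t
      fin_cases t
      · refine ⟨G, hG1, _, hspow, _, hspow, ?_⟩
        show y (finProdFinEquiv.symm i).2 x * σ ^ (3 * d) = G (x + c₀) * s (x' + c₀) ^ (3 * d) *
          s (x + x' + c₀) ^ (3 * d)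
        rw [← hG' x hx, hσ, mul_pow, mul_pow]
        ring
      · refine ⟨_, hspow, G, hG1, _, hspow, ?_⟩
        show y (finProdFinEquiv.symm i).2 x' * σ ^ (3 * d) = s (x + c₀) ^ (3 * d) * G (x' + c₀) *
          s (x + x' + c₀) ^ (3 * d)
        rw [← hG' x' hx'b, hσ, mul_pow, mul_pow]
        ring
      · refine ⟨_, hspow, _, hspow, G, hG1, ?_⟩
        show y (finProdFinEquiv.symm i).2 (x + x') * σ ^ (3 * d) = s (x + c₀) ^ (3 * d) *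
          s (x' + c₀) ^ (3 * d) * G (x + x' + c₀)
        rw [← hG' (x + x') hxx, hσ, mul_pow, mul_pow]
        ring
    exact key _
  -- monomials
  have hmon : ∀ (n : Fin (3 * D) → ℕ) (S : Finset (Fin (3 * D))),
      L12a_G E N (x + c₀) (x' + c₀) (x + x' + c₀) (∑ i ∈ S, n i)
        ((∏ i ∈ S, trip y x x' i ^ n i) * (σ ^ (3 * d)) ^ (∑ i ∈ S, n i)) := by
    intro n S
    induction S using Finset.induction_on with
    | empty =>
      rw [Finset.sum_empty, Finset.prod_empty, pow_zero, mul_one]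
      exact L12a_G_one E g₁ g₂ g₃
    | insert i S hi ih =>
      rw [Finset.sum_insert hi, Finset.prod_insert hi]
      have h1 := L12a_G_mul E (L12a_G_pow E g₁ g₂ g₃ (hvar i) (n i)) ih
      have h2 : (trip y x x' i * σ ^ (3 * d)) ^ n i * ((∏ i ∈ S, trip y x x' i ^ n i) *
          (σ ^ (3 * d)) ^ (∑ i ∈ S, n i)) = trip y x x' i ^ n i * (∏ i ∈ S, trip y x x' i ^ n i) *
          (σ ^ (3 * d)) ^ (n i + ∑ i ∈ S, n i) := by
        rw [mul_pow, pow_add]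
        ring
      rw [h2] at h1
      exact h1
  rw [MvPolynomial.aeval_def, MvPolynomial.eval₂_eq', Finset.sum_mul]
  refine Submodule.sum_mem _ fun n hn => ?_
  have hdeg : ∑ i, n i ≤ e₀ := by
    have h1 := MvPolynomial.le_totalDegree hn
    rw [Finsupp.sum_fintype _ _ (fun _ => rfl)] at h1
    exact h1.trans hP
  have h1 := L12a_G_mul E (hmon n Finset.univ) (L12a_G_pow E g₁ g₂ g₃ hG1 (e₀ - ∑ i, n i))
  have h2 : (∑ i, n i) + (e₀ - ∑ i, n i) = e₀ := by omega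
  have h4 : (∏ i, trip y x x' i ^ n i) * (σ ^ (3 * d)) ^ (∑ i, n i) *
      (σ ^ (3 * d)) ^ (e₀ - ∑ i, n i) = (∏ i, trip y x x' i ^ n i) * σ ^ (3 * d * e₀) := by
    rw [mul_assoc, ← pow_add, h2, ← pow_mul]
  rw [h2, h4] at h1
  have h5 : algebraMap k Ω (MvPolynomial.coeff n P) * (∏ i, trip y x x' i ^ n i) * σ ^ (3 * d * e₀) =
      (algebraMap k (kb k Ω) (MvPolynomial.coeff n P)) •
        ((∏ i, trip y x x' i ^ n i) * σ ^ (3 * d * e₀)) := by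
    rw [mul_assoc]
    rfl
  rw [h5]
  exact Submodule.smul_mem _ _ (Submodule.subset_span h1)

end TIFG
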