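import Mathlib
import Pool.Agent.TIFG.L12a

/-!
# [TIF] block PIG, functions on the quotients, row L12b

`A = ρ → J`, `x ∈ A(K)` means `∀ i, x i ∈ U.Rt K`; generic means `U.Gn (kb k Ω)`; `V(·)` = `V.valuation`;
`A_V(x) = V(s x) Th(x)^{ℓ^{2c}}`.
-/

set_option autoImplicit false
set_option linter.unusedSectionVars false
set_option linter.unusedVariables false

open IntermediateField Pool.Agent.TIFA

namespace TIFG

variable {k Ω J : Type} [Field k] [Field Ω] [Algebra k Ω] [IsAlgClosed Ω] [AddCommGroup J]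
  [DistribMulAction (Ω ≃ₐ[k] Ω) J] {ρ : Type} [Fintype ρ] [DecidableEq ρ]
  {U : Uni k Ω J ρ} {ℓ : ℕ} [Fact ℓ.Prime] {e : ℕ → J → J → Ω} {H : Tht U ℓ e} {g d cT : ℕ}
  {E : Spc H g d cT}

variable {L : Lag ℓ (Ω ≃ₐ[k] Ω) ρ e} {D : ℕ} {y : Fin D → (ρ → J) → Ω} {s lam : (ρ → J) → Ω}
  {c₀ : ρ → J}

/-- the functions `G_i = TT (2c) (Y i) s / s`, `Y` as in `Dua.idx`, are eigenfunctions with different characters
of `L.D` -/
theorem exists_char (Du : Dua k Ω J ρ ℓ e g) (hE : Eig E L s lam) :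
    ∃ (G : Fin ((ℓ ^ (2 * L.c)) ^ (g * Fintype.card ρ)) → (ρ → J) → Ω)
      (χ : Fin ((ℓ ^ (2 * L.c)) ^ (g * Fintype.card ρ)) → (ρ → J) → Ω),
      (∀ i, U.Fnu (G i)) ∧ (∀ i, (fun x => G i x * s x) ∈ E.HH (ℓ ^ (2 * L.c))) ∧
      (∀ i, ∀ t ∈ L.D, ∀ w, U.Gn (kb k Ω) w → G i (w + t) = χ i t * G i w) ∧
      (∀ i, ∀ t ∈ L.D, ∀ t' ∈ L.D, χ i (t + t') = χ i t * χ i t') ∧ (∀ i, ∀ t ∈ L.D, χ i t ≠ 0) ∧
      ∀ i j, (∀ t ∈ L.D, χ i t = χ j t) → i = j :=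
  L7b_exists_char Du hE

end TIFG
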