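import Mathlib
import Pool.Agent.TIFG.L12b

/-!
# [TIF] block PIG, functions on the quotients, row L12c

`A = ρ → J`, `x ∈ A(K)` means `∀ i, x i ∈ U.Rt K`; generic means `U.Gn (kb k Ω)`; `V(·)` = `V.valuation`;
`A_V(x) = V(s x) Th(x)^{ℓ^{2c}}`.
-/

set_option autoImplicit false
set_option linter.unusedSectionVars false
set_option linter.unusedVariables false

open IntermediateField Pool.Agent.TIFA

namespace TIFG

variable {k Ω J : Type} [Field k] [Field Ω] [Algebra k Ω] [IsAlgClosed Ω] [AddCommGroup J]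
  [DistribMulAction (Ω ≃ₐ[k] Ω) J] {ρ : Type} [Fintype ρ] [DecidableEq ρ]
  {U : Uni k Ω J ρ} {ℓ : ℕ} [Fact ℓ.Prime] {e : ℕ → J → J → Ω} {H : Tht U ℓ e} {g d cT : ℕ}
  {E : Spc H g d cT}

variable {L : Lag ℓ (Ω ≃ₐ[k] Ω) ρ e} {D : ℕ} {y : Fin D → (ρ → J) → Ω} {s lam : (ρ → J) → Ω}
  {c₀ : ρ → J}

/-- `y j` is invariant under `L.D` -/
theorem L12c_y (hy : YD E L y s lam c₀) (j : Fin D) (t : ρ → J) (ht : t ∈ L.D) (w : ρ → J)
    (hw : U.Gn (kb k Ω) w) : y j (w + t) = y j w := by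
  obtain ⟨n, hn⟩ := hy.tors
  have h := L7b_inv E hy.eig (3 * d) c₀ (y j) (hy.mem j) t ht (w + c₀) (gn_tors H hn hw)
  have h1 : w + c₀ + t - c₀ = w + t := by abel
  have h2 : w + c₀ - c₀ = w := by abel
  rwa [h1, h2] at h

/-- automorphisms which translate by elements of `L.D` fix the coordinates of the triple -/
theorem L12c_trip (hy : YD E L y s lam c₀) (x x' t t' : ρ → J) (hx : U.Gn (kb k Ω) x)
    (hx' : U.Gn (kb k Ω) x') (hxx : U.Gn (kb k Ω) (x + x')) (ht : t ∈ L.D) (ht' : t' ∈ L.D)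
    (τ : Ω ≃ₐ[k] Ω) (h1 : τ • x = x + t) (h2 : τ • x' = x' + t') (i : Fin (3 * D)) :
    τ (trip y x x' i) = trip y x x' i := by
  have key : ∀ (j : Fin D) (i : Fin 3), τ (y j (![x, x', x + x'] i)) =
      y j (![x, x', x + x'] i) := by
    intro j i
    rw [← hy.equ]
    fin_cases i
    · show y j (τ • x) = y j x
      rw [h1]
      exact L12c_y hy j t ht x hx
    · show y j (τ • x') = y j x'
      rw [h2]
      exact L12c_y hy j t' ht' x' hx'
    · show y j (τ • (x + x')) = y j (x + x')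
      rw [smul_add, h1, h2]
      have h3 : x + t + (x' + t') = x + x' + (t + t') := by abel
      rw [h3]
      exact L12c_y hy j (t + t') (L.D.add_mem ht ht') _ hxx
  exact key _ _

theorem L12c_aeval {n : ℕ} (v : Fin n → Ω) (P : MvPolynomial (Fin n) (kb k Ω))
    (τ : Ω ≃ₐ[k] Ω) (hτ : τ ∈ (kb k Ω).fixingSubgroup) (h : ∀ i, τ (v i) = v i) :
    τ (MvPolynomial.aeval v P) = MvPolynomial.aeval v P := by
  have h1 := MvPolynomial.eval₂_comp_left ((τ : Ω ≃+* Ω) : Ω →+* Ω) (algebraMap (kb k Ω) Ω) v P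
  have h2 : (((τ : Ω ≃+* Ω) : Ω →+* Ω)).comp (algebraMap (kb k Ω) Ω) =
      algebraMap (kb k Ω) Ω := by
    ext c
    exact (IntermediateField.mem_fixingSubgroup_iff _ _).1 hτ c c.2
  have h3 : (((τ : Ω ≃+* Ω) : Ω →+* Ω) : Ω → Ω) ∘ v = v := by
    funext i
    exact h i
  rw [h2, h3] at h1
  exact h1

/-- `trip_mem` for polynomials with coefficients in `kb` -/
theorem L12c_mem (hy : YD E L y s lam c₀) (hd : 0 < d) (e₀ : ℕ)
    (P : MvPolynomial (Fin (3 * D)) (kb k Ω))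
    (hP : P.totalDegree ≤ e₀) (K : IntermediateField k Ω) (hb : kb k Ω ≤ K) (x x' : ρ → J)
    (hx : U.Gn (kb k Ω) x) (hxK : ∀ i, x i ∈ U.Rt K) (hx' : U.Gn K x') :
    MvPolynomial.aeval (trip y x x') P * (s (x + c₀) * s (x' + c₀) * s (x + x' + c₀)) ^ (3 * d * e₀) ∈
      Submodule.span (kb k Ω) {z | ∃ f ∈ E.HH (3 * d * e₀ * ℓ ^ (2 * L.c)),
        ∃ f' ∈ E.HH (3 * d * e₀ * ℓ ^ (2 * L.c)), ∃ f'' ∈ E.HH (3 * d * e₀ * ℓ ^ (2 * L.c)),
        z = f (x + c₀) * f' (x' + c₀) * f'' ((x + c₀) + (x' + c₀) + -c₀)} := by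
  have h1 : MvPolynomial.aeval (trip y x x') P = ∑ m ∈ P.support, P.coeff m •
      MvPolynomial.aeval (trip y x x') (MvPolynomial.monomial m (1 : k)) := by
    rw [MvPolynomial.aeval_def, MvPolynomial.eval₂_eq]
    refine Finset.sum_congr rfl fun m _ => ?_
    rw [MvPolynomial.aeval_monomial, map_one, one_mul, Algebra.smul_def]
    rfl
  rw [h1, Finset.sum_mul]
  refine Submodule.sum_mem _ fun m hm => ?_
  rw [smul_mul_assoc]
  refine Submodule.smul_mem _ _ (trip_mem hy hd e₀ _ ?_ K hb x x' hx hxK hx')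
  rw [MvPolynomial.totalDegree_monomial _ one_ne_zero]
  exact (MvPolynomial.le_totalDegree hm).trans hP

/-- Let `z_1, .., z_n` be `kb`-independent elements of `kb[trip]` of degree `≤ e₀`. Then the `n N^{2 g |ρ|}` elements
`z_l G_i(x + c₀) G_j(x' + c₀)` are `kb`-independent: for `t, t' ∈ L.D` there is `τ` over `kb` with `τ x = x + t`,
`τ x' = x' + t'` (`pair_hom`), it fixes the `z_l` (`VV_inv`) and multiplies `G_i(x + c₀) G_j(x' + c₀)` by `χ_i(t) χ_j(t')`;
linear independence of characters. Multiplied by `(s(x+c₀) s(x'+c₀))^{3de₀+1} s(x+x'+c₀)^{3de₀}` they are in the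
span of `Spc.pd` with `m₁ = m₂ = (3de₀+1)N`, `m₃ = 3de₀N`, so
`n N^{2g|ρ|} ≤ (3 cT (3de₀+1) N + 1)^{2g|ρ|}`. -/
theorem trip_card (Du : Dua k Ω J ρ ℓ e g) (hy : YD E L y s lam c₀) (hd : 0 < d) (e₀ n : ℕ)
    (P : Fin n → MvPolynomial (Fin (3 * D)) (kb k Ω)) (hP : ∀ l, (P l).totalDegree ≤ e₀)
    (K : IntermediateField k Ω) (hb : kb k Ω ≤ K) (hK : Small K) (x x' : ρ → J)
    (hx : U.Gn (kb k Ω) x)
    (hxK : ∀ i, x i ∈ U.Rt K) (hx' : U.Gn K x')
    (hli : LinearIndependent (kb k Ω) fun l => MvPolynomial.aeval (trip y x x') (P l)) :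
    n ≤ (3 * cT * (3 * d * e₀ + 1) + 1) ^ (2 * (g * Fintype.card ρ)) := by
  have hN : 0 < ℓ ^ (2 * L.c) := pow_pos (Fact.out : ℓ.Prime).pos _
  obtain ⟨G, χ, hG1, hG2, hG3, hχ1, hχ2, hχ3⟩ := exists_char Du hy.eig
  have hsm : s ∈ E.HH (ℓ ^ (2 * L.c)) := hy.eig.mem
  have hs : U.Fnu s := E.fn _ s hy.eig.mem hy.eig.ne
  obtain ⟨r, hr⟩ := hy.tors
  have hx'b : U.Gn (kb k Ω) x' := gn_kb hb hx'
  have hxx : U.Gn (kb k Ω) (x + x') := by
    have h1 := U.gn_add K x' x hb hx' hxK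
    rw [add_comm] at h1
    exact gn_kb hb h1
  have hw : U.Gn (kb k Ω) (x + c₀) := gn_tors H hr hx
  have hw' : U.Gn (kb k Ω) (x' + c₀) := gn_tors H hr hx'b
  have hw'' : U.Gn (kb k Ω) (x + x' + c₀) := gn_tors H hr hxx
  have hc₀ : ∀ i, c₀ i ∈ U.Rt (kb k Ω) := fun i => tors_rt H hr i
  -- the family
  let I := Fin n × Fin ((ℓ ^ (2 * L.c)) ^ (g * Fintype.card ρ)) ×
    Fin ((ℓ ^ (2 * L.c)) ^ (g * Fintype.card ρ))
  let Z : I → Ω := fun p => (MvPolynomial.aeval (trip y x x') (P p.1) *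
    (s (x + c₀) * s (x' + c₀) * s (x + x' + c₀)) ^ (3 * d * e₀)) *
      ((G p.2.1 (x + c₀) * s (x + c₀)) * (G p.2.2 (x' + c₀) * s (x' + c₀)))
  have hZ : ∀ p, Z p ∈ Submodule.span (kb k Ω)
      {z | ∃ f ∈ E.HH (3 * d * e₀ * ℓ ^ (2 * L.c) + ℓ ^ (2 * L.c)),
        ∃ f' ∈ E.HH (3 * d * e₀ * ℓ ^ (2 * L.c) + ℓ ^ (2 * L.c)),
        ∃ f'' ∈ E.HH (3 * d * e₀ * ℓ ^ (2 * L.c)),
        z = f (x + c₀) * f' (x' + c₀) * f'' ((x + c₀) + (x' + c₀) + -c₀)} := by
    intro p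
    have h1 := L12c_mem hy hd e₀ (P p.1) (hP p.1) K hb x x' hx hxK hx'
    show _ * _ ∈ _
    generalize (MvPolynomial.aeval (trip y x x') (P p.1) *
      (s (x + c₀) * s (x' + c₀) * s (x + x' + c₀)) ^ (3 * d * e₀)) = z at h1
    induction h1 using Submodule.span_induction with
    | mem z h =>
      obtain ⟨f, hf, f', hf', f'', hf'', rfl⟩ := h
      refine Submodule.subset_span ⟨f * fun x => G p.2.1 x * s x,
        E.mul _ _ f hf _ (hG2 p.2.1), f' * fun x => G p.2.2 x * s x,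
        E.mul _ _ f' hf' _ (hG2 p.2.2), f'', hf'', ?_⟩
      show f (x + c₀) * f' (x' + c₀) * f'' ((x + c₀) + (x' + c₀) + -c₀) *
        ((G p.2.1 (x + c₀) * s (x + c₀)) * (G p.2.2 (x' + c₀) * s (x' + c₀))) =
        (f (x + c₀) * (G p.2.1 (x + c₀) * s (x + c₀))) *
          (f' (x' + c₀) * (G p.2.2 (x' + c₀) * s (x' + c₀))) *
            f'' ((x + c₀) + (x' + c₀) + -c₀)
      ring
    | zero => rw [zero_mul]; exact zero_mem _
    | add z z' _ _ h h' => rw [add_mul]; exact add_mem h h'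
    | smul c z _ h => rw [smul_mul_assoc]; exact Submodule.smul_mem _ _ h
  have hZli : LinearIndependent (kb k Ω) Z := by
    rw [Fintype.linearIndependent_iff]
    intro c hc
    -- the relation without the common factor
    have hrel : ∑ i, ∑ j, (∑ l, (c (l, i, j) : Ω) * MvPolynomial.aeval (trip y x x') (P l)) *
        (G i (x + c₀) * G j (x' + c₀)) = 0 := by
      have h1 : (∑ i, ∑ j, (∑ l, (c (l, i, j) : Ω) *
          MvPolynomial.aeval (trip y x x') (P l)) *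
          (G i (x + c₀) * G j (x' + c₀))) *
          ((s (x + c₀) * s (x' + c₀) * s (x + x' + c₀)) ^ (3 * d * e₀) *
            (s (x + c₀) * s (x' + c₀))) = 0 := by
        rw [Fintype.sum_prod_type, Finset.sum_comm, Fintype.sum_prod_type] at hc
        rw [← hc, Finset.sum_mul]
        refine Finset.sum_congr rfl fun i _ => ?_
        rw [Finset.sum_mul]
        refine Finset.sum_congr rfl fun j _ => ?_
        rw [Finset.sum_mul, Finset.sum_mul]
        refine Finset.sum_congr rfl fun l _ => ?_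
        rw [Algebra.smul_def]
        show _ = (c (l, i, j) : Ω) * ((MvPolynomial.aeval (trip y x x') (P l) *
          (s (x + c₀) * s (x' + c₀) * s (x + x' + c₀)) ^ (3 * d * e₀)) *
          ((G i (x + c₀) * s (x + c₀)) * (G j (x' + c₀) * s (x' + c₀))))
        ring
      refine (mul_eq_zero.1 h1).resolve_right (mul_ne_zero (pow_ne_zero _ ?_) ?_)
      · exact mul_ne_zero (mul_ne_zero (hs.ne _ hw) (hs.ne _ hw')) (hs.ne _ hw'')
      · exact mul_ne_zero (hs.ne _ hw) (hs.ne _ hw')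
    have hrel2 : ∀ t ∈ L.D, ∀ t' ∈ L.D, ∑ i, (∑ j, ((∑ l, (c (l, i, j) : Ω) *
        MvPolynomial.aeval (trip y x x') (P l)) *
        (G i (x + c₀) * G j (x' + c₀))) * χ j t') * χ i t = 0 := by
      intro t ht t' ht'
      have htt := lag_tors L ht
      have htt' := lag_tors L ht'
      obtain ⟨τ, hτ, h1, h2⟩ := pair_hom K K hK hK hb hb x x' (x + t) (x' + t') hx
        (gn_tors H htt hx) hxK
        (fun i => (U.Rt K).add_mem (hxK i) (U.rt_mono _ _ hb (tors_rt H htt i))) hx'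
        (U.gn_add K x' t' hb hx' fun i => U.rt_mono _ _ hb (tors_rt H htt' i))
      have h3 := congrArg τ hrel
      rw [map_zero, map_sum] at h3
      rw [← h3]
      refine Finset.sum_congr rfl fun i _ => ?_
      rw [map_sum, Finset.sum_mul]
      refine Finset.sum_congr rfl fun j _ => ?_
      have hGi : τ (G i (x + c₀)) = χ i t * G i (x + c₀) := by
        rw [← (hG1 i).equ τ hτ _ hw, smul_add, h1, fix_tors H hr τ hτ]
        have h4 : x + t + c₀ = x + c₀ + t := by abel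
        rw [h4]
        exact hG3 i t ht _ hw
      have hGj : τ (G j (x' + c₀)) = χ j t' * G j (x' + c₀) := by
        rw [← (hG1 j).equ τ hτ _ hw', smul_add, h2, fix_tors H hr τ hτ]
        have h4 : x' + t' + c₀ = x' + c₀ + t' := by abel
        rw [h4]
        exact hG3 j t' ht' _ hw'
      have hz : τ (∑ l, (c (l, i, j) : Ω) * MvPolynomial.aeval (trip y x x') (P l)) =
          ∑ l, (c (l, i, j) : Ω) * MvPolynomial.aeval (trip y x x') (P l) := by
        rw [map_sum]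
        refine Finset.sum_congr rfl fun l _ => ?_
        rw [map_mul]
        congr 1
        · exact (IntermediateField.mem_fixingSubgroup_iff _ _).1 hτ _ (c (l, i, j)).2
        · exact L12c_aeval _ _ τ hτ (L12c_trip hy x x' t t' hx hx'b hxx ht ht' τ h1 h2)
      rw [map_mul, map_mul, hGi, hGj, hz]
      ring
    have hzero : ∀ i j, ∑ l, (c (l, i, j) : Ω) *
        MvPolynomial.aeval (trip y x x') (P l) = 0 := by
      intro i j
      have h1 : ∀ t' ∈ L.D, ∑ j, ((∑ l, (c (l, i, j) : Ω) *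
          MvPolynomial.aeval (trip y x x') (P l)) *
          (G i (x + c₀) * G j (x' + c₀))) * χ j t' = 0 := fun t' ht' =>
        L7b_char L.D χ hχ1 hχ2 hχ3 (fun i => ∑ j, ((∑ l, (c (l, i, j) : Ω) *
          MvPolynomial.aeval (trip y x x') (P l)) *
          (G i (x + c₀) * G j (x' + c₀))) * χ j t') (fun t ht => hrel2 t ht t' ht') i
      have h2 := L7b_char L.D χ hχ1 hχ2 hχ3 (fun j => (∑ l, (c (l, i, j) : Ω) *
          MvPolynomial.aeval (trip y x x') (P l)) *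
          (G i (x + c₀) * G j (x' + c₀))) h1 j
      exact (mul_eq_zero.1 h2).resolve_right (mul_ne_zero ((hG1 i).ne _ hw) ((hG1 j).ne _ hw'))
    rintro ⟨l, i, j⟩
    refine Fintype.linearIndependent_iff.1 hli (fun l => c (l, i, j)) ?_ l
    rw [← hzero i j]
    refine Finset.sum_congr rfl fun l _ => ?_
    rw [Algebra.smul_def]
    rfl
  -- the bound
  let ε := Fintype.equivFin I
  have hli' : LinearIndependent (kb k Ω) (Z ∘ ε.symm) := hZli.comp _ ε.symm.injective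
  have hbound := E.pd K (x + c₀) (x' + c₀) (-c₀) hK hb hw
    (fun i => (U.Rt K).add_mem (hxK i) (U.rt_mono _ _ hb (hc₀ i)))
    (U.gn_add K x' c₀ hb hx' fun i => U.rt_mono _ _ hb (hc₀ i))
    (fun i => (U.Rt (kb k Ω)).neg_mem (hc₀ i)) _ _ _ _ (Z ∘ ε.symm) hli' (fun j => hZ _)
  have hcard : Fintype.card I = n * ((ℓ ^ (2 * L.c)) ^ (g * Fintype.card ρ) *
      (ℓ ^ (2 * L.c)) ^ (g * Fintype.card ρ)) := by
    simp only [I, Fintype.card_prod, Fintype.card_fin]
  rw [hcard, ← pow_add, ← two_mul] at hbound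
  have h2 : (cT * (3 * d * e₀ * ℓ ^ (2 * L.c) + ℓ ^ (2 * L.c) +
      (3 * d * e₀ * ℓ ^ (2 * L.c) + ℓ ^ (2 * L.c)) + 3 * d * e₀ * ℓ ^ (2 * L.c)) + 1) ^
      (2 * (g * Fintype.card ρ)) ≤
      ((3 * cT * (3 * d * e₀ + 1) + 1) * ℓ ^ (2 * L.c)) ^ (2 * (g * Fintype.card ρ)) := by
    refine Nat.pow_le_pow_left ?_ _
    generalize ℓ ^ (2 * L.c) = N at hN
    have h3 : 3 * d * e₀ * N + N + (3 * d * e₀ * N + N) + 3 * d * e₀ * N ≤
        3 * (3 * d * e₀ + 1) * N := by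
      have : 3 * (3 * d * e₀ + 1) * N =
        3 * d * e₀ * N + N + (3 * d * e₀ * N + N) + 3 * d * e₀ * N + N := by ring
      omega
    calc cT * (3 * d * e₀ * N + N + (3 * d * e₀ * N + N) + 3 * d * e₀ * N) + 1
        ≤ cT * (3 * (3 * d * e₀ + 1) * N) + N :=
          Nat.add_le_add (Nat.mul_le_mul_left _ h3) hN
      _ = (3 * cT * (3 * d * e₀ + 1) + 1) * N := by ring
  rw [mul_pow] at h2
  exact Nat.le_of_mul_le_mul_right (hbound.trans h2) (pow_pos hN _)

end TIFG
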