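import Mathlib
import Pool.Agent.TIFG.L12c
import Pool.Agent.TIFP.Sem

/-!
# [TIF] block PIG, functions on the quotients, row L12d

`A = ρ → J`, `x ∈ A(K)` means `∀ i, x i ∈ U.Rt K`; generic means `U.Gn (kb k Ω)`; `V(·)` = `V.valuation`;
`A_V(x) = V(s x) Th(x)^{ℓ^{2c}}`.
-/

set_option autoImplicit false
set_option linter.unusedSectionVars false
set_option linter.unusedVariables false

open IntermediateField Pool.Agent.TIFA

namespace TIFG

variable {k Ω J : Type} [Field k] [Field Ω] [Algebra k Ω] [IsAlgClosed Ω] [AddCommGroup J]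
  [DistribMulAction (Ω ≃ₐ[k] Ω) J] {ρ : Type} [Fintype ρ] [DecidableEq ρ]
  {U : Uni k Ω J ρ} {ℓ : ℕ} [Fact ℓ.Prime] {e : ℕ → J → J → Ω} {H : Tht U ℓ e} {g d cT : ℕ}
  {E : Spc H g d cT}

variable {L : Lag ℓ (Ω ≃ₐ[k] Ω) ρ e} {D : ℕ} {y : Fin D → (ρ → J) → Ω} {s lam : (ρ → J) → Ω}
  {c₀ : ρ → J}

private theorem L12d_kb (σ : Ω ≃ₐ[k] Ω) (z : kb k Ω) : σ (z : Ω) ∈ kb k Ω := by
  have h : σ (z : Ω) ∈ (kb k Ω).map (σ : Ω →ₐ[k] Ω) := ⟨z, z.2, rfl⟩
  rwa [kb_map σ] at h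

/-- the restriction of an automorphism to the algebraic closure of `k` -/
private noncomputable def L12d_rk (σ : Ω ≃ₐ[k] Ω) : kb k Ω →+* kb k Ω :=
  ((σ : Ω →+* Ω).comp (algebraMap (kb k Ω) Ω)).codRestrict (kb k Ω) (L12d_kb σ)

private theorem L12d_rk_apply (σ : Ω ≃ₐ[k] Ω) (z : kb k Ω) :
    ((L12d_rk σ z : kb k Ω) : Ω) = σ (z : Ω) := rfl

private theorem L12d_trip (hy : YD E L y s lam c₀) (x x' : ρ → J) (σ : Ω ≃ₐ[k] Ω) (h : σ • x = x)
    (h' : σ • x' = x') (i : Fin (3 * D)) : σ (trip y x x' i) = trip y x x' i := by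
  have key : ∀ (j : Fin D) (t : Fin 3), σ (y j (![x, x', x + x'] t)) = y j (![x, x', x + x'] t) := by
    intro j t
    rw [← hy.equ j _ σ]
    congr 1
    fin_cases t
    · exact h
    · exact h'
    · show σ • (x + x') = x + x'
      rw [smul_add, h, h']
  exact key _ _

private theorem L12d_deg {N : ℕ} (p : MvPolynomial (Fin N) k) :
    (MvPolynomial.map (algebraMap k (kb k Ω)) p).totalDegree ≤ p.totalDegree :=
  Finset.sup_mono (MvPolynomial.support_map_subset (algebraMap k (kb k Ω)) p)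

/-- elements fixed by the automorphisms which fix `x`, `x'` -/
private theorem L12d_li (Fr : Fro U ℓ)
    (K : IntermediateField k Ω) (hb : kb k Ω ≤ K) (hK : Small K) (x x' : ρ → J)
    (hx : U.Gn (kb k Ω) x) (hxK : ∀ i, x i ∈ U.Rt K) (hx' : U.Gn K x') {n : ℕ} (v : Fin n → Ω)
    (hv : ∀ σ : Ω ≃ₐ[k] Ω, σ • x = x → σ • x' = x' → ∀ l, σ (v l) = v l)
    (hli : LinearIndependent k v) : LinearIndependent (kb k Ω) v := by
  refine Pool.Agent.TIFP.linearIndependent_of_fixed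
    (G := {σ : Ω ≃ₐ[k] Ω // σ • x = x ∧ σ • x' = x'}) (K := k) (E := kb k Ω) (V := Ω)
    (fun g => L12d_rk g.1) (fun g => ((g.1 : Ω ≃ₐ[k] Ω) : Ω →+* Ω).toAddMonoidHom) ?_ ?_ v ?_ hli
  · intro g c v
    show g.1 (c • v) = L12d_rk g.1 c • g.1 v
    have e1 : c • v = (c : Ω) * v := rfl
    have e2 : L12d_rk g.1 c • g.1 v = ((L12d_rk g.1 c : kb k Ω) : Ω) * g.1 v := rfl
    rw [e1, e2, map_mul, L12d_rk_apply]
  · intro c hc
    obtain ⟨τ, hτ, h1, h2⟩ := pair_hom (U := U) (K.map (Fr.phi : Ω →ₐ[k] Ω)) K (small_map hK Fr.phi) hK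
      (kb_le_map hb Fr.phi) hb (Fr.phi • x) (Fr.phi • x') x x' (gn_smul Fr.phi x hx) hx
      (fun i => U.rt_map Fr.phi K (x i) (hxK i)) hxK (U.gn_map Fr.phi K x' hx') hx'
    have h3 := hc ⟨τ * Fr.phi, by rw [mul_smul, h1], by rw [mul_smul, h2]⟩
    have h4 : τ (Fr.phi (c : Ω)) = (c : Ω) := congrArg (fun z : kb k Ω => (z : Ω)) h3
    have h5 : τ (Fr.phi (c : Ω)) = Fr.phi (c : Ω) :=
      ((mem_fixingSubgroup_iff (kb k Ω) τ).1 hτ) _ (L12d_kb Fr.phi c)
    rw [h5] at h4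
    obtain ⟨a, ha⟩ := IntermediateField.mem_bot.1 (Fr.fix_kb (c : Ω) c.2 h4)
    exact ⟨a, Subtype.ext ha⟩
  · intro g l
    exact hv g.1 g.2.1 g.2.2 l

/-- a basis of the space of the values of the polynomials of degree `≤ e₀` -/
private theorem L12d_basis {N : ℕ} (t : Fin N → Ω) (e₀ : ℕ) :
    ∃ (P : Fin (Pool.Agent.TIFP.hilb k t e₀) → MvPolynomial (Fin N) k),
      (∀ l, (P l).totalDegree ≤ e₀) ∧
      LinearIndependent k fun l => MvPolynomial.aeval t (P l) := by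
  unfold Pool.Agent.TIFP.hilb
  generalize hW : (MvPolynomial.restrictTotalDegree (Fin N) k e₀).map
    (MvPolynomial.aeval t : MvPolynomial (Fin N) k →ₐ[k] Ω).toLinearMap = W
  by_cases hfd : Module.Finite k W
  · let b := Module.finBasis k W
    have hP : ∀ l, ∃ P : MvPolynomial (Fin N) k, P.totalDegree ≤ e₀ ∧
        MvPolynomial.aeval t P = (b l : Ω) := by
      intro l
      have h1 : (b l : Ω) ∈ W := (b l).2
      obtain ⟨P, hP, hP'⟩ := hW.ge h1
      exact ⟨P, (MvPolynomial.mem_restrictTotalDegree _ _ _).1 hP, hP'⟩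
    choose P hPd hPe using hP
    refine ⟨P, hPd, ?_⟩
    have hfun : (fun l => MvPolynomial.aeval t (P l)) = fun l => (b l : Ω) := funext hPe
    rw [hfun]
    exact b.linearIndependent.map' W.subtype (Submodule.ker_subtype W)
  · rw [Module.finrank_of_not_finite hfd]
    exact ⟨fun _ => 0, fun l => l.elim0, linearIndependent_empty_type⟩

/-- `hilb` is a dimension over `k`. A `k`-basis of the space of values `P(trip)`, `deg P ≤ e₀`, is `kb`-independent:
`Pool.Agent.TIFP.linearIndependent_of_fixed` for the group of the `σ : Ω ≃ₐ[k] Ω` with `σ x = x`, `σ x' = x'` (they fix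
the values, by `YD.equ`); for `c ∈ kb` fixed by this group: it contains `τ φ`, where `τ` over `kb` maps `(φ x, φ x')` to
`(x, x')` (`pair_hom`), so `φ c = c` and `c ∈ k` (`Fro.fix_kb`). -/
theorem hilb_le (Fr : Fro U ℓ) (Du : Dua k Ω J ρ ℓ e g) (hy : YD E L y s lam c₀) (hd : 0 < d) (e₀ : ℕ)
    (K : IntermediateField k Ω) (hb : kb k Ω ≤ K) (hK : Small K) (x x' : ρ → J)
    (hx : U.Gn (kb k Ω) x) (hxK : ∀ i, x i ∈ U.Rt K) (hx' : U.Gn K x') :
    Pool.Agent.TIFP.hilb k (trip y x x') e₀ ≤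
      (3 * cT * (3 * d * e₀ + 1) + 1) ^ (2 * (g * Fintype.card ρ)) := by
  obtain ⟨P, hPd, hli⟩ := L12d_basis (k := k) (trip y x x') e₀
  have hfun : (fun l => MvPolynomial.aeval (trip y x x')
      (MvPolynomial.map (algebraMap k (kb k Ω)) (P l))) =
      fun l => MvPolynomial.aeval (trip y x x') (P l) :=
    funext fun l => MvPolynomial.aeval_map_algebraMap _ _ _
  refine trip_card Du hy hd e₀ _
    (fun l => MvPolynomial.map (algebraMap k (kb k Ω)) (P l))
    (fun l => (L12d_deg (P l)).trans (hPd l)) K hb hK x x' hx hxK hx' ?_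
  rw [hfun]
  refine L12d_li Fr K hb hK x x' hx hxK hx' _ (fun σ h1 h2 l => ?_) hli
  have h3 : σ (MvPolynomial.aeval (trip y x x') (P l)) =
      MvPolynomial.aeval (fun i => σ (trip y x x' i)) (P l) :=
    MvPolynomial.comp_aeval_apply (trip y x x') (σ : Ω →ₐ[k] Ω) (P l)
  rw [h3]
  have h4 : (fun i => σ (trip y x x' i)) = trip y x x' :=
    funext fun i => L12d_trip hy x x' σ h1 h2 i
  rw [h4]

end TIFG
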