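import Mathlib
import Pool.Agent.TIFG.L12d

/-!
# [TIF] block PIG, functions on the quotients, row L13a

`A = ρ → J`, `x ∈ A(K)` means `∀ i, x i ∈ U.Rt K`; generic means `U.Gn (kb k Ω)`; `V(·)` = `V.valuation`;
`A_V(x) = V(s x) Th(x)^{ℓ^{2c}}`.
-/

set_option autoImplicit false
set_option linter.unusedSectionVars false
set_option linter.unusedVariables false

open IntermediateField Pool.Agent.TIFA

namespace TIFG

variable {k Ω J : Type} [Field k] [Field Ω] [Algebra k Ω] [IsAlgClosed Ω] [AddCommGroup J]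
  [DistribMulAction (Ω ≃ₐ[k] Ω) J] {ρ : Type} [Fintype ρ] [DecidableEq ρ]
  {U : Uni k Ω J ρ} {ℓ : ℕ} [Fact ℓ.Prime] {e : ℕ → J → J → Ω} {H : Tht U ℓ e} {g d cT : ℕ}
  {E : Spc H g d cT}

/-- elementary: `(e₀+1)^{M+1} / (M+1)! ≤ choose (M+1+e₀) e₀` -/
theorem exists_e0 (M c d : ℕ) : ∃ e₀ : ℕ,
    (3 * c * (3 * d * e₀ + 1) + 1) ^ M < (M + 1 + e₀).choose e₀ := by
  refine ⟨(M + 1).factorial * (9 * c * d + 3 * c + 1) ^ M, ?_⟩
  generalize he : (M + 1).factorial * (9 * c * d + 3 * c + 1) ^ M = e₀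
  have h1 : 3 * c * (3 * d * e₀ + 1) + 1 ≤ (9 * c * d + 3 * c + 1) * (e₀ + 1) := by nlinarith
  have h2 : (3 * c * (3 * d * e₀ + 1) + 1) ^ M ≤
      (9 * c * d + 3 * c + 1) ^ M * (e₀ + 1) ^ M := by
    rw [← mul_pow]
    exact Nat.pow_le_pow_left h1 M
  have h3 : (e₀ + 1) ^ (M + 1) ≤ (M + 1).factorial * (M + 1 + e₀).choose (M + 1) := by
    have h := Nat.pow_sub_le_descFactorial (M + 1 + e₀) (M + 1)
    rw [Nat.descFactorial_eq_factorial_mul_choose] at h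
    have h4 : M + 1 + e₀ + 1 - (M + 1) = e₀ + 1 := by omega
    rwa [h4] at h
  have h5 : (M + 1 + e₀).choose (M + 1) = (M + 1 + e₀).choose e₀ :=
    Nat.choose_symm_add
  rw [h5] at h3
  have hf : 0 < (M + 1).factorial := Nat.factorial_pos _
  have hp : 0 < (e₀ + 1) ^ M := by positivity
  refine lt_of_mul_lt_mul_left (a := (M + 1).factorial) ?_ (Nat.zero_le _)
  calc (M + 1).factorial * (3 * c * (3 * d * e₀ + 1) + 1) ^ M
      ≤ (M + 1).factorial * ((9 * c * d + 3 * c + 1) ^ M * (e₀ + 1) ^ M) :=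
        Nat.mul_le_mul_left _ h2
    _ = e₀ * (e₀ + 1) ^ M := by rw [← mul_assoc, he]
    _ < (e₀ + 1) * (e₀ + 1) ^ M := by nlinarith
    _ = (e₀ + 1) ^ (M + 1) := by rw [pow_succ, mul_comm]
    _ ≤ _ := h3

end TIFG
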