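import Mathlib
import Pool.Agent.TIFG.L13a

/-!
# [TIF] block PIG, functions on the quotients, row L13b

`A = ρ → J`, `x ∈ A(K)` means `∀ i, x i ∈ U.Rt K`; generic means `U.Gn (kb k Ω)`; `V(·)` = `V.valuation`;
`A_V(x) = V(s x) Th(x)^{ℓ^{2c}}`.
-/

set_option autoImplicit false
set_option linter.unusedSectionVars false
set_option linter.unusedVariables false

open IntermediateField Pool.Agent.TIFA

namespace TIFG

variable {k Ω J : Type} [Field k] [Field Ω] [Algebra k Ω] [IsAlgClosed Ω] [AddCommGroup J]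
  [DistribMulAction (Ω ≃ₐ[k] Ω) J] {ρ : Type} [Fintype ρ] [DecidableEq ρ]
  {U : Uni k Ω J ρ} {ℓ : ℕ} [Fact ℓ.Prime] {e : ℕ → J → J → Ω} {H : Tht U ℓ e} {g d cT : ℕ}
  {E : Spc H g d cT}

theorem L13b_sub {D : ℕ} (y : Fin D → (ρ → J) → Ω) (x x' : ρ → J) (i : Fin 3) :
    adjoin k (Set.range fun j => y j (![x, x', x + x'] i)) ≤ adjoin k (Set.range (trip y x x')) := by
  refine adjoin.mono k _ _ ?_
  rintro z ⟨j, rfl⟩
  refine ⟨finProdFinEquiv (i, j), ?_⟩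
  simp only [trip, Equiv.symm_apply_apply]

theorem L13b_hil (Fr : Fro U ℓ) (Du : Dua k Ω J ρ ℓ e g) {L : Lag ℓ (Ω ≃ₐ[k] Ω) ρ e} {D : ℕ}
    {y : Fin D → (ρ → J) → Ω} {s lam : (ρ → J) → Ω} {c₀ : ρ → J} (hy : YD E L y s lam c₀)
    (hd : 0 < d) (e₀ : ℕ)
    (he₀ : (3 * cT * (3 * d * e₀ + 1) + 1) ^ (2 * (g * Fintype.card ρ)) <
      (2 * (g * Fintype.card ρ) + 1 + e₀).choose e₀)
    (K : IntermediateField k Ω) (hb : kb k Ω ≤ K) (x x' : ρ → J) (hx : U.Gn (kb k Ω) x)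
    (hxK : ∀ i, x i ∈ U.Rt K) (hx' : U.Gn K x') :
    ((2 * (g * Fintype.card ρ) : ℕ) : Cardinal) ≤
        Algebra.trdeg k (adjoin k (Set.range (trip y x x'))) ∧
      Pool.Agent.TIFP.hilb k (trip y x x') e₀ < (2 * (g * Fintype.card ρ) + 1 + e₀).choose e₀ := by
  classical
  choose S hS using fun i => U.rt_fin (x i)
  let T : Finset Ω := Finset.univ.biUnion S
  have hT : ∀ i, x i ∈ U.Rt (kb k Ω ⊔ adjoin k (T : Set Ω)) := by
    intro i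
    refine U.rt_mono _ _ ?_ (hS i)
    refine le_trans (adjoin.mono k _ _ ?_) le_sup_right
    intro z hz
    exact Finset.mem_coe.2 (Finset.mem_biUnion.2 ⟨i, Finset.mem_univ i, hz⟩)
  have hb' : kb k Ω ≤ K ⊓ (kb k Ω ⊔ adjoin k (T : Set Ω)) := le_inf hb le_sup_left
  have hK' : Small (K ⊓ (kb k Ω ⊔ adjoin k (T : Set Ω))) := ⟨T, inf_le_right⟩
  have hxK' : ∀ i, x i ∈ U.Rt (K ⊓ (kb k Ω ⊔ adjoin k (T : Set Ω))) := fun i =>
    U.rt_inf _ _ _ (hxK i) (hT i)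
  have hx'' : U.Gn (K ⊓ (kb k Ω ⊔ adjoin k (T : Set Ω))) x' := U.gn_anti _ _ _ inf_le_left hx'
  have hx3 : U.Gn (kb k Ω) x' := U.gn_anti _ _ _ hb hx'
  refine ⟨?_, lt_of_le_of_lt (hilb_le Fr Du hy hd e₀ _ hb' hK' x x' hx hxK' hx'') he₀⟩
  refine E.trd _ x x' _ (2 * L.c) hK' hb' hx hxK' hx'' (fun i => ?_) (fun i => ?_)
  · exact U.rt_mono _ _ (L13b_sub y x x' 0) (YD_rat Fr hy hd x hx i)
  · exact U.rt_mono _ _ (L13b_sub y x x' 1) (YD_rat Fr hy hd x' hx3 i)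

/-- `m₀ = 3 d`, `D = ((3d+1)g+1)^{g|ρ|}`, `N₀ = 2g|ρ|`, `e₀` from `exists_e0`; `exists_YD` and the rows L9-L12. For
`LD.hil` replace `K` by the small field `K ⊓ (kb ⊔ adjoin k S)`, `x` over `adjoin k S` (`rt_fin`, `rt_mono`, `rt_inf`,
`gn_anti`); the lower bound of the transcendence degree is `Spc.trd` with `YD_rat` (`n = 2c`, `rt_mono`). -/
theorem exists_LD [Finite k] (E : Spc H g d cT) (hd : 0 < d) (Fr : Fro U ℓ) (Du : Dua k Ω J ρ ℓ e g) :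
    ∃ m₀ D N₀ e₀ : ℕ, 0 < m₀ ∧ ∀ L : Lag ℓ (Ω ≃ₐ[k] Ω) ρ e, ∃ y s c₀, LD H L m₀ D N₀ e₀ y s c₀ := by
  obtain ⟨e₀, he₀⟩ := exists_e0 (2 * (g * Fintype.card ρ)) cT d
  refine ⟨3 * d, ((3 * d + 1) * g + 1) ^ (g * Fintype.card ρ), 2 * (g * Fintype.card ρ), e₀,
    by omega, fun L => ?_⟩
  obtain ⟨y, s, lam, c₀, hy⟩ := exists_YD E hd Fr Du L
  refine ⟨y, s, c₀, ?_⟩
  have hsF : U.Fnu s := E.fn _ s hy.eig.mem hy.eig.ne
  exact
    { equ := fun j x _ σ => hy.equ j x σ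
      hon := fun j K x hx hxK => YD_hon Fr hy j K x hx hxK
      inv := fun j x t hx ht => VV_inv hy (y j) (hy.mem j) x t hx ht
      sep := fun x x' hx hx' h => YD_sep hy hd x x' hx hx' h
      rat := fun x hx i => YD_rat Fr hy hd x hx i
      hil := fun K x x' hb hx hxK hx' => L13b_hil Fr Du hy hd e₀ he₀ K hb x x' hx hxK hx'
      s_fn := hsF
      s_eig := fun t ht => ⟨lam t, hy.eig.lam_ne t ht, fun x _ => congrFun (hy.eig.eig t ht) x⟩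
      c_tors := hy.tors
      val1 := fun V hV x hx => E.le _ s hy.eig.mem V hV x hx
      val := fun V hV x hx =>
        ⟨fun j => VV_le hy (y j) (hy.mem j) V hV x hx, YD_val hy V hV x hx⟩ }

end TIFG
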