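import Mathlib
import Pool.Agent.MP_c1dca2_ag.GT.A10

/-!
# [TIF PIG] Northcott, row NA: the degree of a fraction one of whose powers is a fraction of small degree
-/

set_option autoImplicit false
set_option linter.unusedSectionVars false

open Polynomial

namespace TIFG

open GT

variable {d : ℕ} [NeZero d] {κ : Type} [Field κ] [IsAlgClosed κ] {T : Tab κ d}
  [IsDedekindDomain (WB T)]

theorem na_len_pow {I : Ideal (WB T)} (hI : I ≠ ⊥) (s : ℕ) : len (I ^ s) = s * len I := by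
  induction s with
  | zero => rw [pow_zero, zero_mul, Ideal.one_eq_top, len_top]
  | succ s ih => rw [pow_succ, len_mul (pow_ne_zero s hI) hI, ih, Nat.succ_mul]

theorem na_pord_zero : pord (0 : WB T) = 0 := by
  have h0 : (0 : WB T) ∈ Ble T 0 := Submodule.zero_mem _
  exact Nat.le_zero.1 ((mem_Ble_iff _ _).1 h0)

theorem na_pord_one : pord (1 : WB T) = 0 := by
  have h := pord_pow (one_ne_zero (α := WB T)) 0
  rwa [pow_zero, zero_mul] at h

/-- `A₀ / B₀` is a fraction of degree `≤ h` if `(A₀ / B₀) ^ s = b / a` with `a`, `b` of degree `≤ s h` -/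
theorem deg_frac {A₀ B₀ a b : WB T} (hB : B₀ ≠ 0) (ha : a ≠ 0) {s h : ℕ} (hs : 0 < s)
    (hab : a * A₀ ^ s = b * B₀ ^ s) (hpa : pord a ≤ s * h) (hpb : pord b ≤ s * h) :
    ∃ A B : WB T, B ≠ 0 ∧ B * A₀ = A * B₀ ∧ pord A ≤ 2 * h + gp T ∧ pord B ≤ h + gp T := by
  classical
  by_cases hA : A₀ = 0
  · refine ⟨0, 1, one_ne_zero, by rw [hA, mul_zero, zero_mul], ?_, ?_⟩
    · rw [na_pord_zero]; exact Nat.zero_le _
    · rw [na_pord_one]; exact Nat.zero_le _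
  have hb : b ≠ 0 := by
    rintro rfl
    rw [zero_mul] at hab
    exact (mul_ne_zero ha (pow_ne_zero s hA)) hab
  -- the ideals
  set 𝔤 : Ideal (WB T) := Ideal.span {A₀} ⊔ Ideal.span {B₀} with h𝔤
  obtain ⟨𝔞, h𝔞⟩ : 𝔤 ∣ Ideal.span {A₀} := Ideal.dvd_iff_le.2 le_sup_left
  obtain ⟨𝔟, h𝔟⟩ : 𝔤 ∣ Ideal.span {B₀} := Ideal.dvd_iff_le.2 le_sup_right
  have hA' : Ideal.span {A₀} ≠ (⊥ : Ideal (WB T)) := by rwa [Ne, Ideal.span_singleton_eq_bot]
  have hB' : Ideal.span {B₀} ≠ (⊥ : Ideal (WB T)) := by rwa [Ne, Ideal.span_singleton_eq_bot]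
  clear_value 𝔤
  have hg0 : 𝔤 ≠ 0 := by
    intro h0
    rw [h0, zero_mul] at h𝔟
    exact hB' h𝔟
  have h𝔞0 : 𝔞 ≠ 0 := by
    intro h0
    rw [h0, mul_zero] at h𝔞
    exact hA' h𝔞
  have h𝔟0 : 𝔟 ≠ 0 := by
    intro h0
    rw [h0, mul_zero] at h𝔟
    exact hB' h𝔟
  have hcop : IsCoprime 𝔟 𝔞 := by
    rw [Ideal.isCoprime_iff_sup_eq]
    have h1 : 𝔤 * (𝔟 ⊔ 𝔞) = 𝔤 * ⊤ := by
      rw [Ideal.mul_sup, ← h𝔞, ← h𝔟, Ideal.mul_top, sup_comm, ← h𝔤]
    exact mul_left_cancel₀ hg0 h1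
  have h1 : Ideal.span {a} * 𝔞 ^ s = Ideal.span {b} * 𝔟 ^ s := by
    have h2 : Ideal.span {a} * Ideal.span {A₀} ^ s = Ideal.span {b} * Ideal.span {B₀} ^ s := by
      rw [Ideal.span_singleton_pow, Ideal.span_singleton_pow, Ideal.span_singleton_mul_span_singleton,
        Ideal.span_singleton_mul_span_singleton, hab]
    rw [h𝔞, h𝔟, mul_pow, mul_pow, mul_left_comm, mul_left_comm (Ideal.span {b})] at h2
    exact mul_left_cancel₀ (pow_ne_zero s hg0) h2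
  have h2 : 𝔟 ^ s ∣ Ideal.span {a} := by
    have h3 : 𝔟 ^ s ∣ Ideal.span {a} * 𝔞 ^ s := by
      rw [h1]
      exact dvd_mul_left _ _
    exact (hcop.pow).dvd_of_dvd_mul_right h3
  have ha' : Ideal.span {a} ≠ (⊥ : Ideal (WB T)) := by rwa [Ne, Ideal.span_singleton_eq_bot]
  have hlen : len 𝔟 ≤ h := by
    obtain ⟨𝔠, h𝔠⟩ := h2
    have h𝔠0 : 𝔠 ≠ ⊥ := by
      intro h0
      rw [h0, Ideal.mul_bot] at h𝔠
      exact ha' h𝔠
    have h3 : len (Ideal.span {a}) = s * len 𝔟 + len 𝔠 := by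
      rw [h𝔠, len_mul (pow_ne_zero s h𝔟0) h𝔠0, na_len_pow h𝔟0]
    rw [len_span ha] at h3
    have h4 : s * len 𝔟 ≤ s * h := by omega
    exact Nat.le_of_mul_le_mul_left h4 hs
  -- the denominator
  obtain ⟨B, hB1, hB2, hB3⟩ : ∃ B ∈ 𝔟, B ≠ 0 ∧ pord B ≤ h + gp T := by
    have h3 := finrank_IB_ge 𝔟 h𝔟0 (h + gp T)
    have h4 : 0 < Module.finrank κ (IB 𝔟 (h + gp T)) := by omega
    have h5 : IB 𝔟 (h + gp T) ≠ ⊥ := by
      intro h0
      rw [h0, finrank_bot] at h4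
      exact lt_irrefl _ h4
    obtain ⟨B, hB, hB0⟩ := Submodule.exists_mem_ne_zero_of_ne_bot h5
    exact ⟨B, (mem_IB.1 hB).1, hB0, (mem_IB.1 hB).2⟩
  obtain ⟨A, hAB⟩ : ∃ A, B * A₀ = A * B₀ := by
    have h3 : B * A₀ ∈ Ideal.span {B₀} := by
      have h4 : B * A₀ ∈ 𝔟 * Ideal.span {A₀} :=
        Ideal.mul_mem_mul hB1 (Ideal.mem_span_singleton_self _)
      have h5 : 𝔟 * Ideal.span {A₀} = Ideal.span {B₀} * 𝔞 := by
        rw [h𝔞, h𝔟]
        ring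
      rw [h5] at h4
      exact (Ideal.mul_le_left : Ideal.span {B₀} * 𝔞 ≤ Ideal.span {B₀}) h4
    have h6 : B₀ ∣ B * A₀ := Ideal.mem_span_singleton.1 h3
    obtain ⟨A, hA⟩ := h6
    exact ⟨A, by rw [hA, mul_comm]⟩
  refine ⟨A, B, hB2, hAB, ?_, hB3⟩
  have hA0 : A ≠ 0 := by
    rintro rfl
    rw [zero_mul] at hAB
    exact mul_ne_zero hB2 hA hAB
  have h3 : a * A ^ s = b * B ^ s := by
    have h4 : (a * A ^ s) * B₀ ^ s = (b * B ^ s) * B₀ ^ s := by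
      calc (a * A ^ s) * B₀ ^ s = a * (A * B₀) ^ s := by ring
        _ = a * (B * A₀) ^ s := by rw [hAB]
        _ = (a * A₀ ^ s) * B ^ s := by ring
        _ = (b * B₀ ^ s) * B ^ s := by rw [hab]
        _ = (b * B ^ s) * B₀ ^ s := by ring
    exact mul_right_cancel₀ (pow_ne_zero s hB) h4
  have h5 := congrArg pord h3
  rw [pord_mul ha (pow_ne_zero s hA0), pord_mul hb (pow_ne_zero s hB2), pord_pow hA0,
    pord_pow hB2] at h5
  have h6 : s * pord A ≤ s * (2 * h + gp T) := by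
    calc s * pord A ≤ pord b + s * pord B := by omega
      _ ≤ s * h + s * (h + gp T) := Nat.add_le_add hpb (Nat.mul_le_mul_left s hB3)
      _ = s * (2 * h + gp T) := by ring
  exact Nat.le_of_mul_le_mul_left h6 hs

end TIFG
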