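import Mathlib
import Pool.Agent.MP_c1dca2_ag.GT.A10
import Pool.Agent.MP_c1dca2_ag.GT.A3b

/-!
# [TIF PIG] Northcott, row NB: values at the valuations which are trivial on the constants
-/

set_option autoImplicit false
set_option linter.unusedSectionVars false

open Polynomial

namespace TIFG

open GT

section inf

variable {d : ℕ} [NeZero d] {K Ω : Type} [Field K] [Field Ω] [Algebra K Ω] {T : Tab K d}

theorem nb_sum {Γ : Type} [LinearOrderedCommGroupWithZero Γ] (v : Valuation Ω Γ) (n : ℕ) {ι : Type}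
    (s : Finset ι) (f : ι → Ω) {G : Γ} (h : ∀ i ∈ s, v (f i) ^ n ≤ G) (hn : 0 < n) :
    v (∑ i ∈ s, f i) ^ n ≤ G := by
  classical
  induction s using Finset.induction_on with
  | empty =>
    rw [Finset.sum_empty, map_zero, zero_pow hn.ne']
    exact zero_le
  | insert a s ha ih =>
    rw [Finset.sum_insert ha]
    have h1 := h a (Finset.mem_insert_self a s)
    have h2 := ih fun i hi => h i (Finset.mem_insert_of_mem hi)
    rcases le_total (v (f a)) (v (∑ i ∈ s, f i)) with h3 | h3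
    · exact (pow_le_pow_left' ((v.map_add _ _).trans (max_le h3 le_rfl)) n).trans h2
    · exact (pow_le_pow_left' ((v.map_add _ _).trans (max_le le_rfl h3)) n).trans h1

variable (V : ValuationSubring Ω) (ψ : WB T →+* Ω)

/-- bound by the order of the pole, with a factor -/
theorem nb_up (hψ : ∀ c : K, ψ (algebraMap K (WB T) c) = algebraMap K Ω c)
    (hV : ∀ c : K, algebraMap K Ω c ∈ V) (hx : ψ (WB.x T) ∉ V) {μ : V.ValueGroup}
    (hμ : ∀ j, V.valuation (ψ (WB.f T j)) ^ d ≤ μ * V.valuation (ψ (WB.x T)) ^ T.w j)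
    {m : ℕ} {b : WB T} (hb : b ∈ Ble T m) :
    V.valuation (ψ b) ^ d ≤ μ * V.valuation (ψ (WB.x T)) ^ m := by
  have hd : 0 < d := Nat.pos_of_ne_zero (NeZero.ne d)
  have hx1 : 1 < V.valuation (ψ (WB.x T)) := by
    rw [← not_le, ValuationSubring.valuation_le_one_iff]
    exact hx
  have h1 : ψ b = ∑ j, (b.co j).eval₂ (algebraMap K Ω) (ψ (WB.x T)) * ψ (WB.f T j) := by
    rw [lift_unique (g := algebraMap K Ω) ψ hψ b, lift_apply]
  rw [h1]
  refine nb_sum V.valuation d _ _ (fun j _ => ?_) hd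
  rw [eval₂_eq_sum, Polynomial.sum, Finset.sum_mul]
  refine nb_sum V.valuation d _ _ (fun n hn => ?_) hd
  have h2 : d * n + T.w j ≤ m := by
    by_contra hlt
    exact (Polynomial.mem_support_iff.1 hn) (hb j n (not_le.1 hlt))
  rw [map_mul, map_mul, map_pow, mul_pow, mul_pow]
  have h3 : V.valuation (algebraMap K Ω ((b.co j).coeff n)) ^ d ≤ 1 :=
    pow_le_one₀ zero_le ((ValuationSubring.valuation_le_one_iff V _).2 (hV _))
  calc V.valuation (algebraMap K Ω ((b.co j).coeff n)) ^ d * (V.valuation (ψ (WB.x T)) ^ n) ^ d *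
        V.valuation (ψ (WB.f T j)) ^ d
      ≤ 1 * (V.valuation (ψ (WB.x T)) ^ n) ^ d * (μ * V.valuation (ψ (WB.x T)) ^ T.w j) :=
        mul_le_mul' (mul_le_mul' h3 le_rfl) (hμ j)
    _ = μ * V.valuation (ψ (WB.x T)) ^ (d * n + T.w j) := by
        rw [one_mul, ← pow_mul, mul_comm n d, pow_add, mul_left_comm]
    _ ≤ μ * V.valuation (ψ (WB.x T)) ^ m := mul_le_mul' le_rfl (pow_le_pow_right₀ hx1.le h2)

/-- bound by the order of the pole -/
theorem nb_le (hψ : ∀ c : K, ψ (algebraMap K (WB T) c) = algebraMap K Ω c)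
    (hV : ∀ c : K, algebraMap K Ω c ∈ V) (hx : ψ (WB.x T) ∉ V) {m : ℕ} {b : WB T}
    (hb : b ∈ Ble T m) :
    V.valuation (ψ b) ^ d ≤ V.valuation (ψ (WB.x T)) ^ m := by
  classical
  have hx1 : 1 < V.valuation (ψ (WB.x T)) := by
    rw [← not_le, ValuationSubring.valuation_le_one_iff]
    exact hx
  have hx0 : ∀ n : ℕ, V.valuation (ψ (WB.x T)) ^ n ≠ 0 := fun n =>
    pow_ne_zero n (zero_lt_one.trans hx1).ne'
  obtain ⟨j₀, -, hj₀⟩ := Finset.exists_max_image (Finset.univ : Finset (ZMod d))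
    (fun j => V.valuation (ψ (WB.f T j)) ^ d / V.valuation (ψ (WB.x T)) ^ T.w j)
    Finset.univ_nonempty
  set μ := V.valuation (ψ (WB.f T j₀)) ^ d / V.valuation (ψ (WB.x T)) ^ T.w j₀ with hμd
  have hμ : ∀ j, V.valuation (ψ (WB.f T j)) ^ d ≤ μ * V.valuation (ψ (WB.x T)) ^ T.w j := by
    intro j
    have h1 := hj₀ j (Finset.mem_univ j)
    rwa [div_le_iff₀ (zero_lt_iff.2 (hx0 _))] at h1
  have h2 : WB.f T j₀ * WB.f T j₀ ∈ Ble T (T.w j₀ + T.w j₀) :=
    Ble_mul (a3_mem_v j₀) (a3_mem_v j₀)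
  have h3 := nb_up V ψ hψ hV hx hμ h2
  rw [map_mul, map_mul, mul_pow] at h3
  have h4 : V.valuation (ψ (WB.f T j₀)) ^ d = μ * V.valuation (ψ (WB.x T)) ^ T.w j₀ := by
    rw [hμd, div_mul_cancel₀ _ (hx0 _)]
  rw [h4, pow_add] at h3
  have h5 : μ ≤ 1 := by
    by_contra hlt
    rw [not_le] at hlt
    have hμ0 : μ ≠ 0 := (zero_lt_one.trans hlt).ne'
    have h6 : μ * μ * (V.valuation (ψ (WB.x T)) ^ T.w j₀ * V.valuation (ψ (WB.x T)) ^ T.w j₀) ≤
        μ * (V.valuation (ψ (WB.x T)) ^ T.w j₀ * V.valuation (ψ (WB.x T)) ^ T.w j₀) := by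
      refine le_trans (le_of_eq ?_) h3
      rw [mul_mul_mul_comm]
    have h7 : μ * μ ≤ μ := le_of_mul_le_mul_right h6
      (zero_lt_iff.2 (mul_ne_zero (hx0 _) (hx0 _)))
    have h8 : μ * μ ≤ μ * 1 := by rwa [mul_one]
    exact absurd (le_of_mul_le_mul_left h8 (zero_lt_iff.2 hμ0)) (not_le.2 hlt)
  refine (nb_up V ψ hψ hV hx hμ hb).trans ?_
  exact (mul_le_mul' h5 le_rfl).trans_eq (one_mul _)

/-- the value at a point at infinity -/
theorem nb_eq (hψ : ∀ c : K, ψ (algebraMap K (WB T) c) = algebraMap K Ω c)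
    (hV : ∀ c : K, algebraMap K Ω c ∈ V) (hx : ψ (WB.x T) ∉ V) {b : WB T} (hb : b ≠ 0) :
    V.valuation (ψ b) ^ d = V.valuation (ψ (WB.x T)) ^ pord b := by
  have hd : 0 < d := Nat.pos_of_ne_zero (NeZero.ne d)
  have hx1 : 1 < V.valuation (ψ (WB.x T)) := by
    rw [← not_le, ValuationSubring.valuation_le_one_iff]
    exact hx
  have hunit : ∀ c : K, c ≠ 0 → V.valuation (algebraMap K Ω c) = 1 := by
    intro c hc
    refine le_antisymm ((ValuationSubring.valuation_le_one_iff V _).2 (hV c)) ?_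
    have h1 : V.valuation (algebraMap K Ω c⁻¹) ≤ 1 :=
      (ValuationSubring.valuation_le_one_iff V _).2 (hV _)
    rw [map_inv₀, map_inv₀] at h1
    have h2 : 0 < V.valuation (algebraMap K Ω c) := zero_lt_iff.2 (by
      rw [Valuation.ne_zero_iff]
      exact (map_ne_zero (algebraMap K Ω)).2 hc)
    exact (inv_le_one₀ h2).1 h1
  set m := pord b with hm
  have hc : lc b ≠ 0 := lc_ne hb
  -- the element `lc ^ d x ^ m`
  set y : WB T := algebraMap K[X] (WB T) (C (lc b ^ d) * X ^ m) with hy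
  have hψy : V.valuation (ψ y) = V.valuation (ψ (WB.x T)) ^ m := by
    have h0 : ∀ c : K, algebraMap K[X] (WB T) (C c * X ^ m) = algebraMap K (WB T) c * WB.x T ^ m := by
      intro c
      rw [map_mul, map_pow, WB.x, ← Polynomial.algebraMap_eq, ← IsScalarTower.algebraMap_apply]
    have h1 : ψ y = algebraMap K Ω (lc b ^ d) * ψ (WB.x T) ^ m := by
      rw [hy, h0, map_mul, hψ, map_pow ψ]
    rw [h1, Valuation.map_mul, hunit _ (pow_ne_zero d hc), one_mul, Valuation.map_pow]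
  have hyp : pord y = d * m := by
    rw [hy, pord_algebraMap, natDegree_C_mul_X_pow _ _ (pow_ne_zero d hc)]
  have hyl : lc y = lc b ^ d := by
    rw [hy, lc_algebraMap, leadingCoeff_C_mul_X_pow]
  have hbp : pord (b ^ d) = d * m := pord_pow hb d
  have hbl : lc (b ^ d) = lc b ^ d := lc_pow b d
  by_cases heq : b ^ d = y
  · rw [← map_pow, ← map_pow, heq, hψy]
  · have h1 : pord (b ^ d - y) < pord (b ^ d) := pord_sub_lt (by rw [hbp, hyp]) (by rw [hbl, hyl]) heq
    rw [hbp] at h1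
    have h2 : V.valuation (ψ (b ^ d - y)) ^ d ≤ V.valuation (ψ (WB.x T)) ^ pord (b ^ d - y) :=
      nb_le V ψ hψ hV hx ((mem_Ble_iff _ _).2 le_rfl)
    have h3 : V.valuation (ψ (b ^ d - y)) ^ d < V.valuation (ψ y) ^ d := by
      rw [hψy, ← pow_mul, mul_comm m d]
      exact h2.trans_lt (pow_lt_pow_right₀ hx1 h1)
    have h4 : V.valuation (ψ (b ^ d - y)) < V.valuation (ψ y) := lt_of_pow_lt_pow_left' d h3
    have h5 : V.valuation (ψ (b ^ d - y) + ψ y) = V.valuation (ψ y) :=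
      Valuation.map_add_eq_of_lt_right _ h4
    rw [← map_add, sub_add_cancel, hψy, map_pow, map_pow] at h5
    exact h5

/-- a valuation at which `x` is infinite -/
theorem nb_exists_inf {x : Ω} (hx : Transcendental K x) :
    ∃ V : ValuationSubring Ω, (∀ c : K, algebraMap K Ω c ∈ V) ∧ x ∉ V := by
  have hx0 : x ≠ 0 := by
    rintro rfl
    exact hx isAlgebraic_zero
  set q : Ω := x⁻¹ with hq
  set A : Subalgebra K Ω := Algebra.adjoin K {q} with hA
  have hqA : q ∈ A.toSubring := Algebra.subset_adjoin rfl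
  set qA : A.toSubring := ⟨q, hqA⟩ with hqA'
  have hI : Ideal.span ({qA} : Set A.toSubring) ≠ ⊤ := by
    intro htop
    rw [Ideal.span_singleton_eq_top] at htop
    obtain ⟨r, hr⟩ := htop.exists_right_inv
    have hrA : ∀ z : Ω, z ∈ A → ∃ P : Polynomial K, Polynomial.aeval q P = z := by
      intro z hz
      rw [hA, Algebra.adjoin_singleton_eq_range_aeval] at hz
      exact hz
    obtain ⟨P, hP⟩ := hrA (r : Ω) r.2
    have h1 : q * (r : Ω) = 1 := congrArg Subtype.val hr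
    have halg : IsAlgebraic K q := by
      refine ⟨Polynomial.X * P - 1, ?_, ?_⟩
      · intro h0
        have := congrArg (Polynomial.eval 0) h0
        simp at this
      · have hP' : Polynomial.aeval q P = (r : Ω) := hP
        rw [map_sub, map_mul, Polynomial.aeval_X, map_one, hP', h1, sub_self]
    apply hx
    have := halg.inv
    rwa [hq, inv_inv] at this
  obtain ⟨V, hV1, hV2⟩ := Ideal.image_subset_nonunits_valuationSubring _ hI
  refine ⟨V, fun c => hV1 (A.algebraMap_mem c), fun hxV => ?_⟩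
  have hlt : V.valuation q < 1 := by
    rw [← ValuationSubring.mem_nonunits_iff]
    exact hV2 ⟨qA, Ideal.mem_span_singleton_self qA, rfl⟩
  have h3 : V.valuation x ≤ 1 := (ValuationSubring.valuation_le_one_iff V _).2 hxV
  have h4 : V.valuation x * V.valuation q = 1 := by
    rw [← map_mul, hq, mul_inv_cancel₀ hx0, map_one]
  have h5 : V.valuation x * V.valuation q < 1 := by
    calc V.valuation x * V.valuation q ≤ 1 * V.valuation q := mul_le_mul' h3 le_rfl
      _ < 1 := by rwa [one_mul]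
  exact absurd h4 h5.ne

/-- the order of the pole from the values at infinity -/
theorem nb_pord (hψ : ∀ c : K, ψ (algebraMap K (WB T) c) = algebraMap K Ω c)
    (hx : Transcendental K (ψ (WB.x T))) {a : WB T} (ha : a ≠ 0) {ι : Type} {u : ι → WB T}
    {s h : ℕ} (hu : ∀ l, pord (u l) ≤ h)
    (hbd : ∀ V : ValuationSubring Ω, (∀ c : K, algebraMap K Ω c ∈ V) → ψ (WB.x T) ∉ V →
      ∃ l, V.valuation (ψ a) ≤ V.valuation (ψ (u l)) ^ s) : pord a ≤ s * h := by
  obtain ⟨V, hV, hxV⟩ := nb_exists_inf (K := K) hx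
  obtain ⟨l, hl⟩ := hbd V hV hxV
  have hx1 : 1 < V.valuation (ψ (WB.x T)) := by
    rw [← not_le, ValuationSubring.valuation_le_one_iff]
    exact hxV
  have h1 := nb_eq V ψ hψ hV hxV ha
  have h2 := nb_le V ψ hψ hV hxV ((mem_Ble_iff (u l) h).2 (hu l))
  have h3 : V.valuation (ψ (WB.x T)) ^ pord a ≤ V.valuation (ψ (WB.x T)) ^ (s * h) := by
    rw [← h1]
    calc V.valuation (ψ a) ^ d ≤ (V.valuation (ψ (u l)) ^ s) ^ d := pow_le_pow_left' hl d
      _ = (V.valuation (ψ (u l)) ^ d) ^ s := by rw [← pow_mul, ← pow_mul, mul_comm]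
      _ ≤ (V.valuation (ψ (WB.x T)) ^ h) ^ s := pow_le_pow_left' h2 s
      _ = V.valuation (ψ (WB.x T)) ^ (s * h) := by rw [← pow_mul, mul_comm]
  exact (pow_le_pow_iff_right₀ hx1).1 h3

/-- an element of the field of functions which is finite at all places where `x` is finite -/
theorem nb_int [IsDedekindDomain (WB T)] (hψ : ∀ c : K, ψ (algebraMap K (WB T) c) = algebraMap K Ω c)
    (hinj : Function.Injective ψ) {z : Ω} {a₀ b₀ : WB T} (hb : b₀ ≠ 0) (hz : z * ψ b₀ = ψ a₀)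
    (h : ∀ V : ValuationSubring Ω, (∀ c : K, algebraMap K Ω c ∈ V) → ψ (WB.x T) ∈ V → z ∈ V) :
    ∃ c, ψ c = z := by
  classical
  let θ : K[X] →+* Ω := ψ.comp (algebraMap K[X] (WB T))
  have h1 : IsIntegral (Subring.closure (Set.range (algebraMap K Ω) ∪ {ψ (WB.x T)})) z := by
    have h2 : z ∈ (⨅ V : {V : ValuationSubring Ω //
        (Set.range (algebraMap K Ω) ∪ {ψ (WB.x T)} : Set Ω) ⊆ V.toSubring}, V.1.toSubring) := by
      rw [Subring.mem_iInf]
      rintro ⟨V, hV⟩
      exact h V (fun c => hV (Or.inl ⟨c, rfl⟩)) (hV (Or.inr rfl))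
    rw [iInf_valuationSubring_superset] at h2
    exact h2
  have hcl : Subring.closure (Set.range (algebraMap K Ω) ∪ {ψ (WB.x T)}) ≤ θ.range := by
    rw [Subring.closure_le]
    rintro _ (⟨c, rfl⟩ | rfl)
    · refine ⟨C c, ?_⟩
      change ψ (algebraMap K[X] (WB T) (C c)) = _
      rw [← hψ, IsScalarTower.algebraMap_apply K K[X] (WB T), Polynomial.algebraMap_eq]
    · exact ⟨X, rfl⟩
  obtain ⟨q, hq, hqz⟩ := h1
  let incl : Subring.closure (Set.range (algebraMap K Ω) ∪ {ψ (WB.x T)}) →+* Ω :=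
    (Subring.closure (Set.range (algebraMap K Ω) ∪ {ψ (WB.x T)})).subtype
  have hlift : q.map incl ∈ Polynomial.lifts θ := by
    rw [Polynomial.lifts_iff_coeff_lifts]
    intro n
    rw [coeff_map]
    obtain ⟨p, hp⟩ := hcl (q.coeff n).2
    exact ⟨p, hp⟩
  obtain ⟨p, hp, -, hpm⟩ := Polynomial.lifts_and_natDegree_eq_and_monic hlift (hq.map incl)
  have hpz : p.eval₂ θ z = 0 := by
    rw [← eval_map, hp, eval_map]
    exact hqz
  -- the fraction
  let F := FractionRing (WB T)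
  let Ψ : F →+* Ω := IsFractionRing.lift hinj
  have hΨ : ∀ b : WB T, Ψ (algebraMap (WB T) F b) = ψ b := fun b =>
    IsFractionRing.lift_algebraMap hinj b
  have hb' : algebraMap (WB T) F b₀ ≠ 0 := by
    intro h0
    exact hb ((IsFractionRing.injective (WB T) F) (by rw [h0, map_zero]))
  set ζ : F := algebraMap (WB T) F a₀ / algebraMap (WB T) F b₀ with hζ
  have hζz : Ψ ζ = z := by
    rw [hζ, map_div₀, hΨ, hΨ, div_eq_iff, hz]
    intro h0
    exact hb (hinj (by rw [h0, map_zero]))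
  have hint : IsIntegral (WB T) ζ := by
    refine ⟨p.map (algebraMap K[X] (WB T)), hpm.map _, ?_⟩
    rw [eval₂_map]
    apply Ψ.injective
    rw [map_zero, hom_eval₂, hζz, ← RingHom.comp_assoc]
    have h3 : Ψ.comp (algebraMap (WB T) F) = ψ := RingHom.ext hΨ
    rw [h3]
    exact hpz
  obtain ⟨c, hc⟩ := IsIntegrallyClosed.isIntegral_iff.1 hint
  exact ⟨c, by rw [← hΨ, hc, hζz]⟩

end inf

end TIFG
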