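import Mathlib
import Pool.Agent.TIFG.NA
import Pool.Agent.TIFG.NB
import Pool.Agent.TIFP.Crit
import Pool.Agent.TIFT.G5

/-!
# [TIF PIG] Northcott, row NC: the degree of a bounded function in one point
-/

set_option autoImplicit false
set_option linter.unusedSectionVars false

open Polynomial

namespace TIFG

open Pool.Agent GT TIF Pool.Agent.TIFT

section fin

variable {d : ℕ} [NeZero d] {K Ω : Type} [Field K] [Field Ω] [Algebra K Ω] {T : Tab K d}

/-- the values at the points where `x` is finite -/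
theorem nc_fin (V : ValuationSubring Ω) (ψ : WB T →+* Ω)
    (hψ : ∀ c : K, ψ (algebraMap K (WB T) c) = algebraMap K Ω c)
    (hV : ∀ c : K, algebraMap K Ω c ∈ V) (hx : ψ (WB.x T) ∈ V) (b : WB T) : ψ b ∈ V := by
  have hb : IsIntegral K[X] b := IsIntegral.of_finite K[X] b
  obtain ⟨q, hq, hqb⟩ := hb
  have hcoef : ∀ p : K[X], ψ (algebraMap K[X] (WB T) p) ∈ V := by
    intro p
    induction p using Polynomial.induction_on' with
    | add p q hp hq => rw [map_add, map_add]; exact V.add_mem _ _ hp hq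
    | monomial n a =>
      rw [← C_mul_X_pow_eq_monomial, map_mul, map_mul, map_pow, map_pow]
      refine V.mul_mem _ _ ?_ (pow_mem hx n)
      have h1 : algebraMap K[X] (WB T) (C a) = algebraMap K (WB T) a := by
        rw [IsScalarTower.algebraMap_apply K K[X] (WB T), Polynomial.algebraMap_eq]
      rw [h1, hψ]
      exact hV a
  let θ : K[X] →+* V :=
    { toFun := fun p => ⟨ψ (algebraMap K[X] (WB T) p), hcoef p⟩
      map_one' := Subtype.ext (by simp)
      map_mul' := fun p q => Subtype.ext (by simp)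
      map_zero' := Subtype.ext (by simp)
      map_add' := fun p q => Subtype.ext (by simp) }
  have hint : IsIntegral V (ψ b) := by
    refine ⟨q.map θ, hq.map _, ?_⟩
    rw [eval₂_map]
    have h1 := congrArg ψ hqb
    rw [hom_eval₂, map_zero] at h1
    exact h1
  obtain ⟨c, hc⟩ := IsIntegrallyClosed.isIntegral_iff.1 hint
  rw [← hc]
  exact c.2

end fin

section step

variable {d : ℕ} [NeZero d] {K Ω : Type} [Field K] [IsAlgClosed K] [Field Ω] [Algebra K Ω]
  {T : Tab K d} [IsDedekindDomain (WB T)]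

/-- **the degree of a bounded function**, in the field of fractions of `WB T` embedded in `Ω` -/
theorem nc_step (ψ : WB T →+* Ω) (hψ : ∀ c : K, ψ (algebraMap K (WB T) c) = algebraMap K Ω c)
    (hinj : Function.Injective ψ) (hx : Transcendental K (ψ (WB.x T)))
    {φ R : Ω} {t s q h h' : ℕ} (ht : 0 < t) (hq : 0 < q) (hR : R ≠ 0)
    {A₀ B₀ : WB T} (hB₀ : B₀ ≠ 0) (hφ : φ * ψ B₀ = ψ A₀)
    {A₁ B₁ : WB T} (hB₁ : B₁ ≠ 0) (hR' : R ^ q * ψ B₁ = ψ A₁)
    {ι : Type} {u : ι → WB T} {v : WB T} (hv : v ≠ 0) (hu : ∀ l, pord (u l) ≤ h)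
    (hh : s * h ≤ t * h')
    (hbd : ∀ V : ValuationSubring Ω, (∀ c : K, algebraMap K Ω c ∈ V) → ∃ l,
      V.valuation φ ^ t * V.valuation (ψ v) ^ s ≤ V.valuation R * V.valuation (ψ (u l)) ^ s ∧
      V.valuation (ψ v) ^ s ≤ V.valuation R * V.valuation (ψ (u l)) ^ s) :
    ∃ A B : WB T, B ≠ 0 ∧ φ * ψ B = ψ A ∧ pord A ≤ 2 * h' + gp T ∧ pord B ≤ h' + gp T := by
  have hψ0 : ∀ {b : WB T}, b ≠ 0 → ψ b ≠ 0 := fun {b} hb h0 => hb (hinj (by rw [h0, map_zero]))
  have hA₁ : A₁ ≠ 0 := by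
    rintro rfl
    rw [map_zero] at hR'
    exact mul_ne_zero (pow_ne_zero q hR) (hψ0 hB₁) hR'
  -- the two elements
  set U : Ω := (ψ v ^ s / R) ^ q with hU
  set W : Ω := φ ^ (t * q) * U with hW
  have hU1 : U * ψ A₁ = ψ (v ^ (s * q) * B₁) := by
    rw [hU, ← hR', div_pow, map_mul, map_pow, pow_mul]
    field_simp
  have hW1 : W * ψ (B₀ ^ (t * q) * A₁) = ψ (A₀ ^ (t * q) * (v ^ (s * q) * B₁)) := by
    rw [hW, map_mul, map_mul, map_pow, map_pow, ← hφ, mul_pow, ← hU1]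
    ring
  have hVU : ∀ V : ValuationSubring Ω, (∀ c : K, algebraMap K Ω c ∈ V) → ∃ l,
      V.valuation U ≤ V.valuation (ψ (u l)) ^ (s * q) ∧
      V.valuation W ≤ V.valuation (ψ (u l)) ^ (s * q) := by
    intro V hV
    obtain ⟨l, h1, h2⟩ := hbd V hV
    have hR0 : 0 < V.valuation R := zero_lt_iff.2 ((Valuation.ne_zero_iff _).2 hR)
    refine ⟨l, ?_, ?_⟩
    · rw [hU, map_pow, map_div₀, map_pow, pow_mul]
      refine pow_le_pow_left' ?_ q
      rw [div_le_iff₀ hR0, mul_comm]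
      exact h2
    · rw [hW, hU, map_mul, map_pow, map_pow, map_div₀, map_pow, pow_mul, pow_mul, ← mul_pow]
      refine pow_le_pow_left' ?_ q
      rw [← mul_div_assoc, div_le_iff₀ hR0, mul_comm (_ ^ s) (V.valuation R)]
      exact h1
  have hfin : ∀ V : ValuationSubring Ω, (∀ c : K, algebraMap K Ω c ∈ V) → ψ (WB.x T) ∈ V →
      U ∈ V ∧ W ∈ V := by
    intro V hV hxV
    obtain ⟨l, h1, h2⟩ := hVU V hV
    have h3 : V.valuation (ψ (u l)) ^ (s * q) ≤ 1 :=
      pow_le_one₀ zero_le ((ValuationSubring.valuation_le_one_iff V _).2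
        (nc_fin V ψ hψ hV hxV (u l)))
    exact ⟨(ValuationSubring.valuation_le_one_iff V _).1 (h1.trans h3),
      (ValuationSubring.valuation_le_one_iff V _).1 (h2.trans h3)⟩
  obtain ⟨a, ha⟩ := nb_int ψ hψ hinj hA₁ hU1 fun V hV hxV => (hfin V hV hxV).1
  obtain ⟨b, hb⟩ := nb_int ψ hψ hinj (mul_ne_zero (pow_ne_zero _ hB₀) hA₁) hW1
    fun V hV hxV => (hfin V hV hxV).2
  have hU0 : U ≠ 0 := pow_ne_zero q (div_ne_zero (pow_ne_zero s (hψ0 hv)) hR)
  have ha0 : a ≠ 0 := by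
    rintro rfl
    rw [map_zero] at ha
    exact hU0 ha.symm
  have hpa : pord a ≤ s * q * h := nb_pord ψ hψ hx ha0 hu fun V hV _ => by
    obtain ⟨l, h1, _⟩ := hVU V hV
    exact ⟨l, by rw [ha]; exact h1⟩
  have hpb : pord b ≤ s * q * h := by
    by_cases hb0 : b = 0
    · rw [hb0, a3_pord_zero]
      exact Nat.zero_le _
    · exact nb_pord ψ hψ hx hb0 hu fun V hV _ => by
        obtain ⟨l, _, h1⟩ := hVU V hV
        exact ⟨l, by rw [hb]; exact h1⟩
  have hab : a * A₀ ^ (t * q) = b * B₀ ^ (t * q) := by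
    apply hinj
    rw [map_mul, map_mul, map_pow, map_pow, ha, hb, hW, ← hφ]
    ring
  have hsq : s * q * h ≤ t * q * h' := by
    calc s * q * h = q * (s * h) := by ring
      _ ≤ q * (t * h') := Nat.mul_le_mul_left q hh
      _ = t * q * h' := by ring
  obtain ⟨A, B, h1, h2, h3, h4⟩ := deg_frac hB₀ ha0 (Nat.mul_pos ht hq) hab (hpa.trans hsq)
    (hpb.trans hsq)
  refine ⟨A, B, h1, ?_, h3, h4⟩
  have h5 : φ * ψ B * ψ B₀ = ψ A * ψ B₀ := by
    rw [← map_mul ψ A B₀, ← h2, map_mul, ← hφ]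
    ring
  exact mul_right_cancel₀ (hψ0 hB₀) h5

end step

end TIFG
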