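import Mathlib
import Pool.Agent.TIFG.NC
import Pool.Agent.TIFG.Uni

/-!
# [TIF PIG] Northcott, row ND: the points of `A` given by families of independent points of the curve
-/

set_option autoImplicit false
set_option linter.unusedSectionVars false

open Polynomial

namespace TIFG

open Pool.Agent GT TIF Pool.Agent.TIFT

section

variable {k Ω : Type} [Field k] [Field Ω] [Algebra k Ω] [IsAlgClosed Ω] {d : ℕ} [NeZero d]
  {T : Tab Ω d} [IsDedekindDomain (WB T)] {ρ : Type} [Fintype ρ]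

/-- independent points -/
def IndF (K : IntermediateField k Ω) {ι : Type} (P : ι → Pt T) : Prop :=
  AlgebraicIndependent K fun i => xx (P i)

theorem IndF.mono {K K' : IntermediateField k Ω} (h : K ≤ K') {ι : Type} {P : ι → Pt T}
    (hP : IndF K' P) : IndF K P := ai_mono h hP

theorem IndF.comp {K : IntermediateField k Ω} {ι κ : Type} {P : ι → Pt T} (hP : IndF K P)
    (f : κ → ι) (hf : Function.Injective f) : IndF K (P ∘ f) := AlgebraicIndependent.comp hP f hf

/-- the field of the other points -/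
noncomputable def oth {ι : Type} (P : ι → Pt T) (i : ι) : IntermediateField k Ω :=
  acl (kbF k Ω ⊔ ⨆ j : {j // j ≠ i}, kP k (P j))

noncomputable instance {ι : Type} (P : ι → Pt T) (i : ι) : IsAlgClosed (oth (k := k) P i) :=
  inferInstanceAs (IsAlgClosed (acl _))

theorem kb_le_oth {ι : Type} (P : ι → Pt T) (i : ι) : kbF k Ω ≤ oth P i :=
  le_sup_left.trans (TIFT.le_acl _)

theorem kP_le_oth {ι : Type} (P : ι → Pt T) {i j : ι} (h : j ≠ i) : kP k (P j) ≤ oth P i :=
  ((le_iSup (fun j : {j // j ≠ i} => kP k (P j)) ⟨j, h⟩).trans le_sup_right).trans (TIFT.le_acl _)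

theorem xx_mem_kP (P : Pt T) : xx P ∈ kP k P :=
  IntermediateField.subset_adjoin k _ ⟨WB.x T, g_cf_x, rfl⟩

/-- the points are generic over the field of the other points -/
theorem gen_oth (hT : Tk k T) {ι : Type} {P : ι → Pt T} (hP : IndF (kbF k Ω) P) (i : ι) :
    GenP k (oth P i) (P i) := by
  rw [genP_iff hT]
  have h1 : Transcendental (Algebra.adjoin (kbF k Ω) ((fun i => xx (P i)) '' {i}ᶜ)) (xx (P i)) :=
    AlgebraicIndependent.transcendental_adjoin (x := fun i => xx (P i)) hP (by simp)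
  rw [← g_tr] at h1
  intro h2
  apply h1
  rw [← TIFT.mem_acl]
  have h3 : oth P i ≤ acl (ad (kbF k Ω) ((fun i => xx (P i)) '' {i}ᶜ)) := by
    refine TIFT.acl_le (sup_le ((le_ad _ _).trans (TIFT.le_acl _)) (iSup_le fun j => ?_))
    refine g_kP_le hT (TIFT.le_acl _ (sub_ad _ _ ⟨j, j.2, rfl⟩))
  have h4 : xx (P i) ∈ acl (oth P i) := TIFT.mem_acl.2 h2
  exact TIFT.acl_le h3 h4

/-- conjugate fields -/
theorem acl_map (σ : Ω ≃ₐ[k] Ω) {K L : IntermediateField k Ω} (h : ∀ c ∈ K, σ c ∈ L) {c : Ω}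
    (hc : c ∈ acl K) : σ c ∈ acl L := by
  rw [TIFT.mem_acl] at hc ⊢
  obtain ⟨p, hp0, hp⟩ := hc
  let g : K →+* L :=
    { toFun := fun a => ⟨σ a, h a a.2⟩
      map_one' := Subtype.ext (by simp)
      map_mul' := fun p q => Subtype.ext (by simp)
      map_zero' := Subtype.ext (by simp)
      map_add' := fun p q => Subtype.ext (by simp) }
  have hg : Function.Injective g := g.injective
  refine ⟨p.map g, (Polynomial.map_ne_zero_iff hg).2 hp0, ?_⟩
  rw [Polynomial.aeval_def, Polynomial.eval₂_map]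
  have h1 : (algebraMap L Ω).comp g = (σ : Ω →+* Ω).comp (algebraMap K Ω) := RingHom.ext fun a => rfl
  rw [h1]
  have h2 := congrArg (σ : Ω →+* Ω) hp
  rw [map_zero, Polynomial.aeval_def, Polynomial.hom_eval₂] at h2
  exact h2

theorem kP_map (hT : Tk k T) (σ : Ω ≃ₐ[k] Ω) (P : Pt T) {c : Ω} (hc : c ∈ kP k P) :
    σ c ∈ kP k (aP hT σ P) := by
  have h1 : kP k P ≤ (kP k (aP hT σ P)).comap (σ : Ω →ₐ[k] Ω) := by
    rw [kP, IntermediateField.adjoin_le_iff]
    rintro _ ⟨b, hb, rfl⟩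
    change σ (P b) ∈ kP k (aP hT σ P)
    rw [← aP_cf hT σ P hb]
    exact IntermediateField.subset_adjoin k _ ⟨b, hb, rfl⟩
  exact h1 hc

theorem kb_map' (σ : Ω ≃ₐ[k] Ω) {c : Ω} (hc : c ∈ kbF k Ω) : σ c ∈ kbF k Ω := by
  have h1 : IsAlgebraic k c := mem_algebraicClosure_iff.1 hc
  exact mem_algebraicClosure_iff.2 (h1.algHom (σ : Ω →ₐ[k] Ω))

theorem oth_map (hT : Tk k T) (σ : Ω ≃ₐ[k] Ω) {ι : Type} (P : ι → Pt T) (i : ι) {c : Ω}
    (hc : c ∈ oth (k := k) P i) : σ c ∈ oth (k := k) (fun j => aP hT σ (P j)) i := by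
  refine acl_map σ (K := kbF k Ω ⊔ ⨆ j : {j // j ≠ i}, kP k (P j)) (fun c hc => ?_) hc
  have h1 : kbF k Ω ⊔ ⨆ j : {j // j ≠ i}, kP k (P j) ≤
      (kbF k Ω ⊔ ⨆ j : {j // j ≠ i}, kP k (aP hT σ (P j))).comap (σ : Ω →ₐ[k] Ω) := by
    refine sup_le (fun c hc => ?_) (iSup_le fun j => fun c hc => ?_)
    · exact (le_sup_left : kbF k Ω ≤ _) (kb_map' σ hc)
    · exact ((le_iSup (fun j : {j // j ≠ i} => kP k (aP hT σ (P j))) j).trans le_sup_right :
        kP k (aP hT σ (P j)) ≤ kbF k Ω ⊔ _) (kP_map hT σ (P j) hc)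
  exact h1 hc

/-! ### the point of `A` -/

/-- the point of `A` with the coordinates `P` -/
noncomputable def xP (hT : Tk k T) {M : ℕ} (e : Fin M ≃ ρ × Fin (gp T)) (P : Fin M → Pt T) :
    ρ → JJ hT :=
  fun s => toJ hT (cl (List.ofFn fun j => P (e.symm (s, j))))

theorem xP_smul (hT : Tk k T) {M : ℕ} (e : Fin M ≃ ρ × Fin (gp T)) (P : Fin M → Pt T)
    (σ : Ω ≃ₐ[k] Ω) : σ • xP hT e P = xP hT e (fun j => aP hT σ (P j)) := by
  funext s
  rw [Pi.smul_apply, xP, smul_toJ, ← cl_aP, xP, List.map_ofFn]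
  rfl

theorem xP_gen (hT : Tk k T) {M : ℕ} (e : Fin M ≃ ρ × Fin (gp T)) {K : IntermediateField k Ω}
    {P : Fin M → Pt T} (hP : IndF K P) : GenA K fun s => ofJ (xP hT e P s) := by
  refine ⟨fun s => List.ofFn fun j => P (e.symm (s, j)), fun s => List.length_ofFn, ?_,
    fun s => rfl⟩
  let f : (Σ s : ρ, Fin (List.ofFn fun j => P (e.symm (s, j))).length) → Fin M := fun p =>
    e.symm (p.1, Fin.cast List.length_ofFn p.2)
  have hf : Function.Injective f := by
    rintro ⟨s, j⟩ ⟨s', j'⟩ h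
    have h1 := e.symm.injective h
    rw [Prod.mk.injEq] at h1
    obtain ⟨rfl, h2⟩ := h1
    have h3 : j = j' := Fin.ext (by simpa using congrArg Fin.val h2)
    rw [h3]
  have h1 : AlgebraicIndependent K fun p => xx (P (f p)) := hP.comp f hf
  change AlgebraicIndependent K _
  convert h1 using 1
  funext p
  simp only [List.get_eq_getElem, List.getElem_ofFn]
  rfl

theorem xP_rt (hT : Tk k T) {M : ℕ} (e : Fin M ≃ ρ × Fin (gp T)) {F : IntermediateField k Ω}
    {P : Fin M → Pt T} (h : ∀ i, kP k (P i) ≤ F) (s : ρ) :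
    ofJ (xP hT e P s) ∈ JK (T := T) (F : Set Ω) := by
  refine cl_mem_JK hT F fun Q hQ => ?_
  rw [List.mem_ofFn] at hQ
  obtain ⟨j, rfl⟩ := hQ
  exact (PK_iff_kP F _).2 (h _)

end

end TIFG
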