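import Mathlib
import Pool.Agent.TIFG.ND
import Pool.Agent.TIFG.Spc
import Pool.Agent.TIFP.Grid
import Pool.Agent.TIFP.Sem
import Pool.Agent.TIFP.Fin2
import Pool.Agent.TIFP.Conj

/-!
# [TIF PIG] Northcott: equivariant functions, rational values, degree in every point
-/

set_option autoImplicit false
set_option linter.unusedSectionVars false
set_option linter.unusedVariables false

open Polynomial

namespace TIFG

open Pool.Agent GT TIF Pool.Agent.TIFT

section

variable {k Ω : Type} [Field k] [Field Ω] [Algebra k Ω] [IsAlgClosed Ω] {d : ℕ} [NeZero d]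
  {T : Tab Ω d} [IsDedekindDomain (WB T)] {ρ : Type} [Fintype ρ]

/-- `f` is equivariant on the generic points -/
def Equ {hT : Tk k T} (f : (ρ → JJ hT) → Ω) : Prop :=
  ∀ x : ρ → JJ hT, GenA (kbF k Ω) (fun s => ofJ (x s)) → ∀ σ : Ω ≃ₐ[k] Ω, f (σ • x) = σ (f x)

/-- `f` has rational values at the rational generic points -/
def Hnt {hT : Tk k T} (f : (ρ → JJ hT) → Ω) : Prop :=
  ∀ (K : IntermediateField k Ω) (x : ρ → JJ hT), GenA (kbF k Ω) (fun s => ofJ (x s)) →
    (∀ s, ofJ (x s) ∈ JK (T := T) (K : Set Ω)) → f x ∈ K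

/-- the degree of `f` in every point is at most `D` -/
def Dg {hT : Tk k T} {M : ℕ} (e : Fin M ≃ ρ × Fin (gp T)) (f : (ρ → JJ hT) → Ω) (D : ℕ) : Prop :=
  ∀ P : Fin M → Pt T, IndF (kbF k Ω) P → ∀ i, ∃ A B : WB T, Cf (oth (k := k) P i : Set Ω) A ∧
    Cf (oth (k := k) P i : Set Ω) B ∧ B ≠ 0 ∧ pord A ≤ D ∧ pord B ≤ D ∧
      f (xP hT e P) * P i B = P i A

/-- the vector of the coordinates of the points and of the value of `f` -/
noncomputable def Yv {hT : Tk k T} {M : ℕ} (e : Fin M ≃ ρ × Fin (gp T)) (f : (ρ → JJ hT) → Ω)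
    (P : Fin M → Pt T) : (Fin M × Option (ZMod d)) ⊕ Unit → Ω
  | Sum.inl (j, none) => xx (P j)
  | Sum.inl (j, some a) => P j (WB.f T a)
  | Sum.inr _ => f (xP hT e P)

end

end TIFG
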