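import Mathlib
import Pool.Agent.TIFG.NS

/-!
# [TIF PIG] Northcott, rows NE1, NE2: the equation of a function in one point; polynomials in the coordinates
-/

set_option autoImplicit false
set_option linter.unusedSectionVars false

open Polynomial

namespace TIFG

open Pool.Agent GT TIF Pool.Agent.TIFT

namespace P

section

variable {k Ω : Type} [Field k] [Field Ω] [Algebra k Ω] [IsAlgClosed Ω] {d : ℕ} [NeZero d]
  {T : Tab Ω d} [IsDedekindDomain (WB T)] {ρ : Type} [Fintype ρ]

/-- the equation in the `i`-th point holds for all points generic over the field of the other points -/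
theorem dg_all (hT : Tk k T) {M : ℕ} (e : Fin M ≃ ρ × Fin (gp T)) {f : (ρ → JJ hT) → Ω}
    (hf : Equ f) {P : Fin M → Pt T} (hP : IndF (kbF k Ω) P) (i : Fin M) {A B : WB T}
    (hA : Cf (oth (k := k) P i : Set Ω) A) (hB : Cf (oth (k := k) P i : Set Ω) B)
    (h : f (xP hT e P) * P i B = P i A) (P' : Pt T) (hP' : GenP k (oth P i) P') :
    f (xP hT e (Function.update P i P')) * P' B = P' A := by
  obtain ⟨σ, hσ, hσP⟩ := g_conj_one hT (gen_oth hT hP i) hP'
  have hcf : ∀ {b : WB T}, Cf (oth (k := k) P i : Set Ω) b → P' b = σ (P i b) := by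
    intro b hb
    have h1 : rac hT σ b = b := rac_cf hT σ fun j n => hσ _ (hb j n)
    rw [← hσP]
    change σ (P i ((rac hT σ).symm b)) = _
    rw [(RingEquiv.symm_apply_eq _).2 h1.symm]
  have h2 : (fun j => aP hT σ (P j)) = Function.update P i P' := by
    funext j
    by_cases hj : j = i
    · subst hj
      rw [Function.update_self, hσP]
    · rw [Function.update_of_ne hj]
      exact aP_fix hT σ fun c hc => hσ c (kP_le_oth P hj hc)
  rw [← h2, ← xP_smul, hf _ (xP_gen hT e hP), hcf hA, hcf hB, ← map_mul, h]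

/-- the numerator of a polynomial in the coordinates, as a function of the `i`-th point -/
theorem poly_num {hT : Tk k T} {M : ℕ} (e : Fin M ≃ ρ × Fin (gp T)) (f : (ρ → JJ hT) → Ω)
    (P : Fin M → Pt T) (i : Fin M) {A B : WB T} {D : ℕ} (hA : pord A ≤ D) (hB : pord B ≤ D)
    (s : ℕ) (p : MvPolynomial ((Fin M × Option (ZMod d)) ⊕ Unit) k) (hp : p.totalDegree ≤ s) :
    ∃ N : WB T, pord N ≤ s * (D + d + ∑ j, T.w j) ∧ ∀ P' : Pt T,
      f (xP hT e (Function.update P i P')) * P' B = P' A →
        P' N = MvPolynomial.aeval (Yv e f (Function.update P i P')) p * P' B ^ s := by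
  classical
  set C : ℕ := D + d + ∑ j, T.w j with hC
  have hBC : B ∈ Ble T C := (mem_Ble_iff _ _).2 (hB.trans (by omega))
  have hkey : ∀ ι : (Fin M × Option (ZMod d)) ⊕ Unit, ∃ Z : WB T, Z ∈ Ble T C ∧ ∀ P' : Pt T,
      f (xP hT e (Function.update P i P')) * P' B = P' A →
        P' Z = Yv e f (Function.update P i P') ι * P' B := by
    have hBm : ∀ {m : ℕ} {b : WB T}, b ∈ Ble T m → m ≤ d + ∑ j, T.w j → b * B ∈ Ble T C := by
      intro m b hb hm
      have h1 := Ble_mul hb ((mem_Ble_iff _ _).2 hB)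
      exact Ble_mono (by omega) h1
    rintro (⟨j, a⟩ | _)
    · by_cases hj : j = i
      · subst hj
        cases a with
        | none =>
          refine ⟨WB.x T * B, hBm (m := d) ?_ (by omega), fun P' _ => ?_⟩
          · rw [mem_Ble_iff, WB.x, pord_algebraMap, natDegree_X, mul_one]
          · rw [map_mul, Yv, Function.update_self]
            rfl
        | some a =>
          refine ⟨WB.f T a * B, hBm (m := T.w a) (a3_mem_v a) ?_, fun P' _ => ?_⟩
          · exact (Finset.single_le_sum (f := fun j => T.w j) (fun _ _ => Nat.zero_le _)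
              (Finset.mem_univ a)).trans (by omega)
          · rw [map_mul, Yv, Function.update_self]
      · cases a with
        | none =>
          refine ⟨xx (P j) • B, (Ble T C).smul_mem _ hBC, fun P' _ => ?_⟩
          rw [map_smul, Yv, Function.update_of_ne hj, smul_eq_mul]
        | some a =>
          refine ⟨P j (WB.f T a) • B, (Ble T C).smul_mem _ hBC, fun P' _ => ?_⟩
          rw [map_smul, Yv, Function.update_of_ne hj, smul_eq_mul]
    · exact ⟨A, (mem_Ble_iff _ _).2 (hA.trans (by omega)), fun P' h => h.symm⟩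
  choose Z hZ hZ' using hkey
  have hpow : ∀ {m : ℕ} {b : WB T}, b ∈ Ble T m → ∀ n : ℕ, b ^ n ∈ Ble T (n * m) := by
    intro m b hb n
    induction n with
    | zero =>
      rw [pow_zero, mem_Ble_iff, zero_mul, pord_one]
    | succ n ih =>
      rw [pow_succ, Nat.succ_mul]
      exact Ble_mul ih hb
  have hprod : ∀ (S : Finset ((Fin M × Option (ZMod d)) ⊕ Unit))
      (n : (Fin M × Option (ZMod d)) ⊕ Unit → ℕ),
      ∏ ι ∈ S, Z ι ^ n ι ∈ Ble T ((∑ ι ∈ S, n ι) * C) := by
    intro S n
    induction S using Finset.induction_on with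
    | empty => rw [Finset.prod_empty, Finset.sum_empty, mem_Ble_iff, zero_mul, pord_one]
    | insert a S ha ih =>
      rw [Finset.prod_insert ha, Finset.sum_insert ha, add_mul]
      exact Ble_mul (hpow (hZ a) _) ih
  have hdeg : ∀ n ∈ p.support, ∑ ι, n ι ≤ s := by
    intro n hn
    have h1 := MvPolynomial.le_totalDegree hn
    rw [Finsupp.sum_fintype _ _ (fun _ => rfl)] at h1
    exact h1.trans hp
  refine ⟨∑ n ∈ p.support, algebraMap k Ω (p.coeff n) •
    ((∏ ι, Z ι ^ n ι) * B ^ (s - ∑ ι, n ι)), ?_, fun P' h => ?_⟩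
  · rw [← mem_Ble_iff]
    refine Submodule.sum_mem _ fun n hn => Submodule.smul_mem _ _ ?_
    have h1 := Ble_mul (hprod Finset.univ n) (hpow hBC (s - ∑ ι, n ι))
    rwa [← add_mul, Nat.add_sub_cancel' (hdeg n hn)] at h1
  · rw [MvPolynomial.aeval_def, MvPolynomial.eval₂_eq', map_sum, Finset.sum_mul]
    refine Finset.sum_congr rfl fun n hn => ?_
    rw [map_smul, map_mul, map_pow, map_prod, smul_eq_mul]
    have h1 : ∏ ι, P' (Z ι ^ n ι) =
        (∏ ι, Yv e f (Function.update P i P') ι ^ n ι) * P' B ^ (∑ ι, n ι) := by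
      rw [← Finset.prod_pow_eq_pow_sum, ← Finset.prod_mul_distrib]
      refine Finset.prod_congr rfl fun ι _ => ?_
      rw [map_pow, hZ' ι P' h, mul_pow]
    rw [h1, mul_assoc, mul_assoc, ← pow_add, Nat.add_sub_cancel' (hdeg n hn)]

end

end P

end TIFG
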