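import Mathlib
import Pool.Agent.TIFP.Conj
import Pool.Agent.TIFT.C1

/-!
# [TIF PIG] Northcott, rows NE3, NE4, NE4b
-/

set_option autoImplicit false
set_option linter.unusedSectionVars false

open Polynomial

namespace TIFG.P

open Pool.Agent GT TIF Pool.Agent.TIFT

section fixed

open Pool.Agent.TIFP

/-- An element fixed by all automorphisms over `K` is purely inseparable over `K`. -/
theorem pow_mem_of_fixed {k Ω : Type} [Field k] [Field Ω] [Algebra k Ω] [IsAlgClosed Ω] (p : ℕ)
    [ExpChar k p] (K : IntermediateField k Ω) (c : Ω)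
    (h : ∀ σ : Ω ≃ₐ[k] Ω, (∀ x ∈ K, σ x = x) → σ c = c) : ∃ n : ℕ, c ^ p ^ n ∈ K := by
  have hK : ∀ σ : Ω ≃ₐ[K] Ω, σ c = c := fun σ => h (σ.restrictScalars k) fun x hx =>
    σ.commutes ⟨x, hx⟩
  have hexp : ExpChar K p := expChar_of_injective_algebraMap (algebraMap k K).injective p
  have halg : IsAlgebraic K c := by
    by_contra hc
    have h1 : ∀ x : Ω, Transcendental K x →
        RingHom.ker (MvPolynomial.aeval (fun _ : Unit => x) : MvPolynomial Unit K →ₐ[K] Ω) = ⊥ := by
      intro x hx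
      rw [RingHom.ker_eq_bot_iff_eq_zero]
      have h2 : AlgebraicIndependent K (fun _ : Unit => x) :=
        algebraicIndependent_unique_type_iff.2 hx
      exact (injective_iff_map_eq_zero _).1 h2
    have h3 : Transcendental K (c + 1) := by
      intro h4
      apply hc
      have := h4.sub (isAlgebraic_one (R := K))
      rwa [add_sub_cancel_right] at this
    obtain ⟨σ, hσ⟩ := exists_conj (k := K) (fun _ : Unit => c) (fun _ : Unit => c + 1)
      ((h1 c hc).trans (h1 _ h3).symm)
    have h5 := hσ ()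
    rw [hK σ] at h5
    exact one_ne_zero (left_eq_add.1 h5)
  have hint : IsIntegral K c := halg.isIntegral
  have hroot : ∀ c' ∈ (minpoly K c).aroots Ω, c' = c := by
    intro c' hc'
    let g : IntermediateField.adjoin K {c} →ₐ[K] Ω :=
      (IntermediateField.algHomAdjoinIntegralEquiv K hint).symm ⟨c', hc'⟩
    have hfd : FiniteDimensional K (IntermediateField.adjoin K {c}) :=
      IntermediateField.adjoin.finiteDimensional hint
    obtain ⟨σ, hσ⟩ := exists_aut (IntermediateField.adjoin K {c}).val g (by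
      rw [trdeg_eq_zero]
      exact Cardinal.aleph0_pos)
    have h1 := hσ (IntermediateField.AdjoinSimple.gen K c)
    rw [IntermediateField.algHomAdjoinIntegralEquiv_symm_apply_gen] at h1
    exact h1.symm.trans (hK σ)
  have hmem : c ∈ perfectClosure K Ω := by
    classical
    rw [mem_perfectClosure_iff_natSepDegree_eq_one, natSepDegree_eq_of_isAlgClosed (E := Ω),
      Finset.card_eq_one]
    refine ⟨c, ?_⟩
    ext x
    rw [Multiset.mem_toFinset, Finset.mem_singleton]
    refine ⟨hroot x, ?_⟩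
    rintro rfl
    rw [mem_aroots]
    exact ⟨minpoly.ne_zero hint, minpoly.aeval K x⟩
  rw [mem_perfectClosure_iff_pow_mem p] at hmem
  obtain ⟨n, y, hy⟩ := hmem
  exact ⟨n, hy ▸ y.2⟩

end fixed

section

variable {k Ω : Type} [Field k] [Field Ω] [Algebra k Ω] [IsAlgClosed Ω] {d : ℕ} [NeZero d]
  {T : Tab Ω d} [IsDedekindDomain (WB T)]

/-- row NE3. many zeros -/
theorem zero_of_zeros {N : WB T} {n : ℕ} (Q : Fin n → Pt T) (hQ : Function.Injective Q)
    (h : ∀ s, Q s N = 0) (hN : pord N < n) : N = 0 := by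
  by_contra hne
  set X : List (Pt T) := List.ofFn Q with hX
  have hnd : X.Nodup := List.nodup_ofFn.2 hQ
  have hmem : N ∈ dI X := by
    rw [dI_le_iff hnd]
    intro P hP
    rw [hX, List.mem_ofFn] at hP
    obtain ⟨s, rfl⟩ := hP
    exact h s
  have hle : Ideal.span {N} ≤ dI X := (Ideal.span_singleton_le_iff_mem _).2 hmem
  obtain ⟨J, hJ⟩ := Ideal.dvd_iff_le.2 hle
  have hsp : (Ideal.span {N} : Ideal (WB T)) ≠ ⊥ := by
    rwa [Ne, Ideal.span_singleton_eq_bot]
  have hJ0 : J ≠ ⊥ := by
    rintro rfl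
    apply hsp
    rw [hJ, Ideal.mul_bot]
  obtain ⟨Z, hZ⟩ := exists_dI hJ0
  have h1 : Ideal.span {N} = dI (X ++ Z) := by
    rw [hJ, dI_append, hZ]
  have h2 := len_dI (X ++ Z)
  rw [← h1, len_span hne, List.length_append, hX, List.length_ofFn] at h2
  omega

/-- row NE4b. the fixed field is `k` -/
theorem fixed_mem [Finite k] (c : Ω) (h : ∀ σ : Ω ≃ₐ[k] Ω, σ c = c) :
    ∃ a : k, algebraMap k Ω a = c := by
  haveI : Fintype k := Fintype.ofFinite k
  obtain ⟨p, hp⟩ := CharP.exists k
  haveI := hp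
  have hpp : p.Prime := CharP.char_is_prime k p
  haveI : Fact p.Prime := ⟨hpp⟩
  haveI : ExpChar k p := ExpChar.prime hpp
  obtain ⟨n, hn⟩ := pow_mem_of_fixed p (⊥ : IntermediateField k Ω) c
    (fun σ _ => h σ)
  rw [IntermediateField.mem_bot] at hn
  obtain ⟨a, ha⟩ := hn
  obtain ⟨b, hb⟩ := (bijective_iterateFrobenius k p (n := n)).2 a
  refine ⟨b, ?_⟩
  haveI : CharP Ω p := charP_of_injective_algebraMap (algebraMap k Ω).injective p
  have h1 : (algebraMap k Ω b) ^ p ^ n = c ^ p ^ n := by
    rw [← map_pow, ← ha, ← hb, iterateFrobenius_def]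
  exact iterateFrobenius_inj Ω p n (by rw [iterateFrobenius_def, iterateFrobenius_def]; exact h1)

end

/-- row NE4. a nonzero subspace stable under the group contains a nonzero vector with coordinates in `K` -/
theorem exists_rational {G K E ι : Type*} [Field K] [Field E] [Algebra K E] [Fintype ι]
    (s : G → E →+* E) (hfix : ∀ c : E, (∀ g, s g c = c) → ∃ a : K, algebraMap K E a = c)
    (R : Submodule E (ι → E)) (hR : ∀ g, ∀ c ∈ R, (fun i => s g (c i)) ∈ R) (h : R ≠ ⊥) :
    ∃ a : ι → K, a ≠ 0 ∧ (fun i => algebraMap K E (a i)) ∈ R := by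
  classical
  -- a vector with the least number of nonzero coordinates
  have hex : ∃ n : ℕ, ∃ c ∈ R, c ≠ 0 ∧ (Finset.univ.filter fun i => c i ≠ 0).card = n := by
    obtain ⟨c, hc, h0⟩ := Submodule.exists_mem_ne_zero_of_ne_bot h
    exact ⟨_, c, hc, h0, rfl⟩
  obtain ⟨c, hc, hc0, hcn⟩ := Nat.find_spec hex
  have hmin : ∀ c' ∈ R, c' ≠ 0 → (Finset.univ.filter fun i => c i ≠ 0).card ≤
      (Finset.univ.filter fun i => c' i ≠ 0).card := by
    intro c' hc' h0
    rw [hcn]
    exact Nat.find_min' hex ⟨c', hc', h0, rfl⟩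
  obtain ⟨j, hj⟩ := Function.ne_iff.1 hc0
  rw [Pi.zero_apply] at hj
  set b : ι → E := (c j)⁻¹ • c with hb
  have hbR : b ∈ R := R.smul_mem _ hc
  have hbj : b j = 1 := by
    rw [hb, Pi.smul_apply, smul_eq_mul, inv_mul_cancel₀ hj]
  have hb0 : ∀ i, b i = 0 ↔ c i = 0 := by
    intro i
    rw [hb, Pi.smul_apply, smul_eq_mul, mul_eq_zero, inv_eq_zero]
    tauto
  have hfixb : ∀ g i, s g (b i) = b i := by
    intro g
    set e : ι → E := (fun i => s g (b i)) - b with he
    have heR : e ∈ R := R.sub_mem (hR g b hbR) hbR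
    have he0 : e = 0 := by
      by_contra hne
      have h1 := hmin e heR hne
      have h2 : (Finset.univ.filter fun i => e i ≠ 0) ⊂ (Finset.univ.filter fun i => c i ≠ 0) := by
        rw [Finset.ssubset_iff_of_subset]
        · refine ⟨j, by simpa using hj, ?_⟩
          simp [he, hbj]
        · intro i hi
          rw [Finset.mem_filter] at hi ⊢
          refine ⟨Finset.mem_univ _, fun hci => hi.2 ?_⟩
          have h3 := (hb0 i).2 hci
          simp [he, h3]
      exact absurd (Finset.card_lt_card h2) (not_lt.2 h1)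
    intro i
    have := congrFun he0 i
    rw [he, Pi.sub_apply, Pi.zero_apply, sub_eq_zero] at this
    exact this
  choose a ha using fun i => hfix (b i) fun g => hfixb g i
  refine ⟨a, ?_, ?_⟩
  · intro h0
    have h1 := ha j
    rw [h0, Pi.zero_apply, map_zero, hbj] at h1
    exact zero_ne_one h1
  · have : (fun i => algebraMap K E (a i)) = b := funext ha
    rw [this]
    exact hbR

end TIFG.P
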