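import Mathlib
import Pool.Agent.TIFG.NS

/-!
# [TIF PIG] Northcott, row NE5a: the choice of the points of the grid
-/

set_option autoImplicit false
set_option linter.unusedSectionVars false

open Polynomial

namespace TIFG.P

open Pool.Agent GT TIF Pool.Agent.TIFT TIFG

section

variable {k Ω : Type} [Field k] [Field Ω] [Algebra k Ω] [IsAlgClosed Ω] {d : ℕ} [NeZero d]
  {T : Tab Ω d} [IsDedekindDomain (WB T)]

theorem exists_Q (hU : Univ k Ω) (hT : Tk k T) {M : ℕ} {P : Fin M → Pt T}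
    (hP : IndF (kbF k Ω) P) (n : ℕ) :
    ∃ Q : Fin M → Fin n → Pt T,
      IndF (kbF k Ω) (Sum.elim P (fun x : Fin M × Fin n => Q x.1 x.2)) ∧
        IndF (kbF k Ω ⊔ ⨆ i, ⨆ t, kP k (Q i t)) P := by
  have hs : TIFT.Small (ad (kbF k Ω) (Set.range fun i => xx (P i))) :=
    small_ad (small_kb k Ω) (Set.finite_range _)
  obtain ⟨f, hf⟩ := g_exists_ai hU hs (M * n)
  choose R hR using exists_xx T
  let Q : Fin M → Fin n → Pt T := fun i t => R (f (finProdFinEquiv (i, t)))
  have hQ : (fun x : Fin M × Fin n => xx (Q x.1 x.2)) = f ∘ finProdFinEquiv :=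
    funext fun x => hR _
  have h1 : AlgebraicIndependent (ad (kbF k Ω) (Set.range fun i => xx (P i)))
      (fun x : Fin M × Fin n => xx (Q x.1 x.2)) := by
    rw [hQ]
    exact hf.comp _ finProdFinEquiv.injective
  have h2 : AlgebraicIndependent (kbF k Ω)
      (Sum.elim (fun x : Fin M × Fin n => xx (Q x.1 x.2)) (fun i => xx (P i))) :=
    ai_sum.2 ⟨hP, h1⟩
  have h3 : AlgebraicIndependent (kbF k Ω)
      (Sum.elim (fun i => xx (P i)) (fun x : Fin M × Fin n => xx (Q x.1 x.2))) := by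
    have h4 := h2.comp _ (Equiv.sumComm (Fin M) (Fin M × Fin n)).injective
    convert h4 using 1
    funext x
    rcases x with x | x <;> rfl
  refine ⟨Q, ?_, ?_⟩
  · rw [IndF]
    convert h3 using 1
    funext x
    rcases x with x | x <;> rfl
  · have h5 := (ai_sum.1 h3).2
    refine ai_mono ?_ (ai_acl.2 h5)
    refine sup_le ((le_ad _ _).trans (le_acl _)) (iSup_le fun i => iSup_le fun t => ?_)
    exact g_kP_le hT (le_acl _ (sub_ad _ _ ⟨(i, t), rfl⟩))

end

end TIFG.P
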