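import Mathlib
import Pool.Agent.TIFG.NE12
import Pool.Agent.TIFG.NE34
import Pool.Agent.TIFG.NE5a

/-!
# [TIF PIG] Northcott, row NE5: the values at a generic point of polynomials in the coordinates and the
value of a function of bounded degree are linearly dependent over `k`
-/

set_option autoImplicit false
set_option linter.unusedSectionVars false

open Polynomial

namespace TIFG

open Pool.Agent GT TIF Pool.Agent.TIFT

namespace P

section

variable {k Ω : Type} [Field k] [Field Ω] [Algebra k Ω] [IsAlgClosed Ω] {d : ℕ} [NeZero d]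
  {T : Tab Ω d} [IsDedekindDomain (WB T)] {ρ : Type} [Fintype ρ]

theorem ne5_cf_f (j : ZMod d) : Cf (Set.range (algebraMap k Ω)) (WB.f T j) := by
  intro i n
  rw [WB.f_co]
  by_cases hj : i = j
  · rw [hj, Pi.single_eq_same, coeff_one]
    split_ifs
    · exact ⟨1, map_one _⟩
    · exact ⟨0, map_zero _⟩
  · rw [Pi.single_eq_of_ne hj, coeff_zero]
    exact ⟨0, map_zero _⟩

theorem ne5_mem {K : IntermediateField k Ω} {ι : Type} {y : ι → Ω} (h : ∀ i, y i ∈ K)
    (p : MvPolynomial ι k) : MvPolynomial.aeval y p ∈ K := by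
  have h1 : y = algebraMap K Ω ∘ fun i => (⟨y i, h i⟩ : K) := rfl
  rw [h1, MvPolynomial.aeval_algebraMap_apply]
  exact (MvPolynomial.aeval (fun i => (⟨y i, h i⟩ : K)) p).2

theorem ne5_Yv_mem {hT : Tk k T} {M : ℕ} (e : Fin M ≃ ρ × Fin (gp T)) {f : (ρ → JJ hT) → Ω}
    (hf' : Hnt f) {R : Fin M → Pt T} (hR : IndF (kbF k Ω) R) {K : IntermediateField k Ω}
    (hK : ∀ i, kP k (R i) ≤ K) : ∀ ι, Yv e f R ι ∈ K
  | Sum.inl (j, none) => hK j (xx_mem_kP (R j))
  | Sum.inl (j, some a) => hK j (IntermediateField.subset_adjoin k _ ⟨_, ne5_cf_f a, rfl⟩)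
  | Sum.inr _ => hf' K (xP hT e R) (xP_gen hT e hR) (fun s => xP_rt hT e hK s)

theorem ne5_Yv_conj {hT : Tk k T} {M : ℕ} (e : Fin M ≃ ρ × Fin (gp T)) {f : (ρ → JJ hT) → Ω}
    (hf : Equ f) {R : Fin M → Pt T} (hR : IndF (kbF k Ω) R) (σ : Ω ≃ₐ[k] Ω) :
    Yv e f (fun j => aP hT σ (R j)) = fun ι => σ (Yv e f R ι) := by
  funext ι
  rcases ι with ⟨j, _ | a⟩ | _
  · exact TIFG.xx_aP hT σ (R j)
  · exact aP_cf hT σ (R j) (ne5_cf_f a)
  · change f (xP hT e (fun j => aP hT σ (R j))) = σ (f (xP hT e R))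
    rw [← xP_smul]
    exact hf _ (xP_gen hT e hR) σ

theorem ne5_val_conj {hT : Tk k T} {M : ℕ} (e : Fin M ≃ ρ × Fin (gp T)) {f : (ρ → JJ hT) → Ω}
    (hf : Equ f) {R : Fin M → Pt T} (hR : IndF (kbF k Ω) R) (σ : Ω ≃ₐ[k] Ω)
    (p : MvPolynomial ((Fin M × Option (ZMod d)) ⊕ Unit) k) :
    MvPolynomial.aeval (Yv e f (fun j => aP hT σ (R j))) p =
      σ (MvPolynomial.aeval (Yv e f R) p) := by
  rw [ne5_Yv_conj e hf hR σ]
  exact (MvPolynomial.comp_aeval_apply (Yv e f R) (σ : Ω →ₐ[k] Ω) p).symm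

theorem ne5_small_map {K : IntermediateField k Ω} (hK : TIFT.Small K) (σ : Ω ≃ₐ[k] Ω) :
    TIFT.Small (K.map (σ : Ω →ₐ[k] Ω)) := by
  classical
  obtain ⟨S, hS⟩ := TIFP.small_iff.1 hK
  refine TIFP.small_iff.2 ⟨S.image σ, ?_⟩
  rintro _ ⟨c, hc, rfl⟩
  refine acl_map σ (K := IntermediateField.adjoin k (S : Set Ω)) (fun c hc => ?_) (hS hc)
  have h1 : IntermediateField.adjoin k (S : Set Ω) ≤
      (IntermediateField.adjoin k ((S.image σ : Finset Ω) : Set Ω)).comap (σ : Ω →ₐ[k] Ω) := by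
    rw [IntermediateField.adjoin_le_iff]
    intro x hx
    exact IntermediateField.subset_adjoin k _ (Finset.mem_coe.2 (Finset.mem_image_of_mem σ hx))
  exact h1 hc

theorem ne5_small_kP (hT : Tk k T) (P : Pt T) : TIFT.Small (kP k P) :=
  TIFP.small_iff.2 ⟨{xx P}, g_kP_le hT (TIFT.le_acl _ (IntermediateField.subset_adjoin k _ (by simp)))⟩

theorem ne5_ind_map (hT : Tk k T) (σ : Ω ≃ₐ[k] Ω) (K : IntermediateField k Ω) {ι : Type}
    {R : ι → Pt T} (h : IndF K R) :
    IndF (K.map (σ : Ω →ₐ[k] Ω)) (fun i => aP hT σ (R i)) := by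
  have h1 : AlgebraicIndependent K fun i => xx (R i) := h
  have h2 := h1.ringHom_of_comp_eq (S := K.map (σ : Ω →ₐ[k] Ω)) (B := Ω)
    (IntermediateField.intermediateFieldMap σ K : K ≃ₐ[k] _) (σ : Ω →+* Ω)
    (IntermediateField.intermediateFieldMap σ K).surjective σ.injective (RingHom.ext fun c => rfl)
  change AlgebraicIndependent _ _
  convert h2 using 1
  funext i
  exact TIFG.xx_aP hT σ _

theorem ne5_ind {M n : ℕ} {K : IntermediateField k Ω} {P : Fin M → Pt T}
    {Q : Fin M → Fin n → Pt T} (h : IndF K (Sum.elim P fun x : Fin M × Fin n => Q x.1 x.2))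
    {R : Fin M → Pt T} (hR : ∀ j, R j = P j ∨ ∃ s, R j = Q j s) : IndF K R := by
  have h1 : ∀ j, ∃ a : Fin M ⊕ (Fin M × Fin n), Sum.elim P (fun x => Q x.1 x.2) a = R j ∧
      Sum.elim id Prod.fst a = j := by
    intro j
    rcases hR j with h | ⟨s, h⟩
    · exact ⟨Sum.inl j, h.symm, rfl⟩
    · exact ⟨Sum.inr (j, s), h.symm, rfl⟩
  choose φ hφ hφ' using h1
  have hinj : Function.Injective φ := fun a b hab => by rw [← hφ' a, ← hφ' b, hab]
  have h2 := h.comp φ hinj
  have h3 : R = (Sum.elim P fun x : Fin M × Fin n => Q x.1 x.2) ∘ φ := funext fun j => (hφ j).symm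
  rw [h3]
  exact h2

theorem ne5_oth {M : ℕ} (z : Fin M → Pt T) (i : Fin M) (R : Pt T) :
    oth (k := k) (Function.update z i R) i = oth (k := k) z i := by
  have h : (fun j : {j // j ≠ i} => kP k (Function.update z i R j)) =
      fun j : {j // j ≠ i} => kP k (z j) :=
    funext fun j => by rw [Function.update_of_ne j.2]
  unfold oth
  rw [h]

/-- a nontrivial relation over the field of the points `Q` -/
theorem ne5_grid (hT : Tk k T) {M : ℕ} (e : Fin M ≃ ρ × Fin (gp T))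
    {f : (ρ → JJ hT) → Ω} (hf : Equ f) (hf' : Hnt f) {D : ℕ} (hD : Dg e f D) (s : ℕ) {m : ℕ}
    (hm : (s * (D + d + ∑ j, T.w j) + 1) ^ M < m)
    (p : Fin m → MvPolynomial ((Fin M × Option (ZMod d)) ⊕ Unit) k)
    (hp : ∀ l, (p l).totalDegree ≤ s) (P : Fin M → Pt T)
    (Q : Fin M → Fin (s * (D + d + ∑ j, T.w j) + 1) → Pt T)
    (hJ : IndF (kbF k Ω) (Sum.elim P fun x : Fin M × Fin _ => Q x.1 x.2))
    (K : IntermediateField k Ω) (hK : ∀ i t, kP k (Q i t) ≤ K) :
    ∃ c : Fin m → K, c ≠ 0 ∧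
      ∑ l, (c l : Ω) * MvPolynomial.aeval (Yv e f P) (p l) = 0 := by
  refine TIFP.grid (K := K) (Ω := Ω) hm
    (fun l R => MvPolynomial.aeval (Yv e f R) (p l)) Q P ?_ ?_
  · intro l s'
    exact ⟨⟨_, ne5_mem (ne5_Yv_mem e hf' (ne5_ind hJ fun j => Or.inr ⟨s' j, rfl⟩)
      fun i => hK i (s' i)) (p l)⟩, rfl⟩
  · intro c i x hlt hgt hzero
    set z : Fin M → Pt T := Function.update x i (P i) with hz
    have hzi : z i = P i := Function.update_self i (P i) x
    have hzx : ∀ R, Function.update z i R = Function.update x i R := fun R => by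
      rw [hz, Function.update_idem]
    have hzR : ∀ j, z j = P j ∨ ∃ s, z j = Q j s := by
      intro j
      rcases lt_trichotomy j i with h | h | h
      · left
        rw [hz, Function.update_of_ne h.ne]
        exact hlt j h
      · left
        rw [h]
        exact hzi
      · right
        obtain ⟨s, hs⟩ := hgt j h
        exact ⟨s, by rw [hz, Function.update_of_ne h.ne']; exact hs⟩
    have hzI : IndF (kbF k Ω) z := ne5_ind hJ hzR
    obtain ⟨A, B, hA, hB, hB0, hpA, hpB, hAB⟩ := hD z hzI i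
    have hgen : ∀ t, GenP k (oth z i) (Q i t) := by
      intro t
      have h1 : IndF (kbF k Ω) (Function.update z i (Q i t)) := ne5_ind hJ fun j => by
        by_cases h : j = i
        · subst h
          exact Or.inr ⟨t, Function.update_self _ _ _⟩
        · rw [Function.update_of_ne h]
          exact hzR j
      have h2 := gen_oth hT h1 i
      rw [ne5_oth, Function.update_self] at h2
      exact h2
    have hgenP : GenP k (oth z i) (P i) := by
      have h1 := gen_oth hT hzI i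
      rwa [hzi] at h1
    choose N hN1 hN2 using fun l => poly_num e f z i hpA hpB s (p l) (hp l)
    have hNN : pord (∑ l, (c l : Ω) • N l) ≤ s * (D + d + ∑ j, T.w j) := by
      rw [← mem_Ble_iff]
      exact Submodule.sum_mem _ fun l _ => Submodule.smul_mem _ _ ((mem_Ble_iff _ _).2 (hN1 l))
    have hval : ∀ P' : Pt T, GenP k (oth z i) P' → P' (∑ l, (c l : Ω) • N l) =
        (∑ l, c l • MvPolynomial.aeval (Yv e f (Function.update x i P')) (p l)) * P' B ^ s := by
      intro P' hP'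
      have h1 := dg_all hT e hf hzI i hA hB hAB P' hP'
      rw [map_sum, Finset.sum_mul]
      refine Finset.sum_congr rfl fun l _ => ?_
      rw [map_smul, hN2 l P' h1, hzx, smul_eq_mul, Algebra.smul_def, mul_assoc]
      rfl
    have hQinj : Function.Injective (Q i) := by
      intro t t' h
      have h1 : Function.Injective fun a => xx ((Sum.elim P fun x : Fin M × Fin _ => Q x.1 x.2) a) :=
        AlgebraicIndependent.injective hJ
      have h2 := @h1 (Sum.inr (i, t)) (Sum.inr (i, t')) (by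
        change xx (Q i t) = xx (Q i t')
        rw [h])
      exact (Prod.mk.inj (Sum.inr_injective h2)).2
    have h0 : (∑ l, (c l : Ω) • N l) = 0 := zero_of_zeros (Q i) hQinj (fun t => by
      rw [hval _ (hgen t), hzero t, zero_mul]) (Nat.lt_succ_of_le hNN)
    have h3 := hval (P i) hgenP
    rw [h0, map_zero] at h3
    have hB' : P i B ≠ 0 := ne_zero_gen hT hgenP hB hB0
    exact (mul_eq_zero.1 h3.symm).resolve_right (pow_ne_zero _ hB')

/-- the relations which hold at all the points independent over a small field -/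
noncomputable def ne5R {hT : Tk k T} {M : ℕ} (e : Fin M ≃ ρ × Fin (gp T)) (f : (ρ → JJ hT) → Ω)
    {m : ℕ} (p : Fin m → MvPolynomial ((Fin M × Option (ZMod d)) ⊕ Unit) k) :
    Submodule Ω (Fin m → Ω) where
  carrier := {c | ∃ K : IntermediateField k Ω, TIFT.Small K ∧ kbF k Ω ≤ K ∧
    ∀ P' : Fin M → Pt T, IndF K P' → ∑ l, c l * MvPolynomial.aeval (Yv e f P') (p l) = 0}
  add_mem' := by
    rintro c c' ⟨K, hK, hb, h⟩ ⟨K', hK', hb', h'⟩
    refine ⟨K ⊔ K', TIFP.small_sup hK hK', hb.trans le_sup_left, fun P' hP' => ?_⟩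
    have h1 := h P' (hP'.mono le_sup_left)
    have h2 := h' P' (hP'.mono le_sup_right)
    simp only [Pi.add_apply, add_mul, Finset.sum_add_distrib, h1, h2, add_zero]
  zero_mem' := ⟨kbF k Ω, TIFT.small_kb k Ω, le_rfl, fun P' _ => by simp⟩
  smul_mem' := by
    rintro a c ⟨K, hK, hb, h⟩
    refine ⟨K, hK, hb, fun P' hP' => ?_⟩
    have h1 := h P' hP'
    rw [← mul_zero a, ← h1, Finset.mul_sum]
    exact Finset.sum_congr rfl fun l _ => by rw [Pi.smul_apply, smul_eq_mul, mul_assoc]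

theorem dep [Finite k] (hU : Univ k Ω) (hT : Tk k T) {M : ℕ} (e : Fin M ≃ ρ × Fin (gp T))
    {f : (ρ → JJ hT) → Ω} (hf : Equ f) (hf' : Hnt f) {D : ℕ} (hD : Dg e f D) (s : ℕ) {m : ℕ}
    (hm : (s * (D + d + ∑ j, T.w j) + 1) ^ M < m)
    (p : Fin m → MvPolynomial ((Fin M × Option (ZMod d)) ⊕ Unit) k)
    (hp : ∀ l, (p l).totalDegree ≤ s) (P : Fin M → Pt T) (hP : IndF (kbF k Ω) P) :
    ∃ a : Fin m → k, a ≠ 0 ∧
      ∑ l, algebraMap k Ω (a l) * MvPolynomial.aeval (Yv e f P) (p l) = 0 := by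
  obtain ⟨Q, hJ, hPQ⟩ := exists_Q hU hT hP (s * (D + d + ∑ j, T.w j) + 1)
  set K₀ : IntermediateField k Ω := kbF k Ω ⊔ ⨆ i, ⨆ t, kP k (Q i t) with hK₀
  have hQK : ∀ i t, kP k (Q i t) ≤ K₀ := fun i t =>
    (le_iSup (fun t => kP k (Q i t)) t).trans
      ((le_iSup (fun i => ⨆ t, kP k (Q i t)) i).trans le_sup_right)
  obtain ⟨c, hc0, hc⟩ := ne5_grid hT e hf hf' hD s hm p hp P Q hJ K₀ hQK
  -- the relation holds at all the points independent over `K₀`
  have hcR : (fun l => (c l : Ω)) ∈ ne5R e f p := by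
    refine ⟨K₀, ?_, le_sup_left, fun P' hP' => ?_⟩
    · exact TIFP.small_sup (TIFT.small_kb k Ω) (TIFP.small_iSup fun i => TIFP.small_iSup fun t =>
        ne5_small_kP hT (Q i t))
    · obtain ⟨σ, hσ, hσP⟩ := g_conj_fam hT P P' hPQ hP'
      have h1 : P' = fun i => aP hT σ (P i) := funext fun i => (hσP i).symm
      have h2 := congrArg σ hc
      rw [map_zero, map_sum] at h2
      rw [← h2, h1]
      refine Finset.sum_congr rfl fun l _ => ?_
      rw [map_mul, ne5_val_conj e hf hP σ, hσ _ (c l).2]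
  have hRne : ne5R e f p ≠ ⊥ := by
    intro h
    rw [h, Submodule.mem_bot] at hcR
    exact hc0 (funext fun l => Subtype.ext (congrFun hcR l))
  -- the relations are stable under the automorphisms over `k`
  have hRst : ∀ g : Ω ≃ₐ[k] Ω, ∀ c ∈ ne5R e f p, (fun l => (g : Ω →+* Ω) (c l)) ∈ ne5R e f p := by
    rintro g c ⟨K, hK, hb, h⟩
    have hb' : kbF k Ω ≤ K.map (g : Ω →ₐ[k] Ω) := by
      intro x hx
      refine ⟨g.symm x, hb (kb_map' g.symm hx), ?_⟩
      exact g.apply_symm_apply x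
    refine ⟨K.map (g : Ω →ₐ[k] Ω), ne5_small_map hK g, hb', fun P' hP' => ?_⟩
    have h1 : IndF ((K.map (g : Ω →ₐ[k] Ω)).map (g.symm : Ω →ₐ[k] Ω))
        fun i => aP hT g.symm (P' i) := ne5_ind_map hT g.symm _ hP'
    have h2 : K ≤ (K.map (g : Ω →ₐ[k] Ω)).map (g.symm : Ω →ₐ[k] Ω) := by
      intro x hx
      exact ⟨g x, ⟨x, hx, rfl⟩, g.symm_apply_apply x⟩
    have h3 := h _ (h1.mono h2)
    have h4 : IndF (kbF k Ω) fun i => aP hT g.symm (P' i) := h1.mono (hb.trans h2)
    have h5 : (fun i => aP hT g (aP hT g.symm (P' i))) = P' := by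
      funext i
      rw [← aP_trans]
      refine aP_fix hT _ fun c _ => ?_
      exact g.apply_symm_apply c
    have h6 := congrArg g h3
    rw [map_zero, map_sum] at h6
    rw [← h6]
    refine Finset.sum_congr rfl fun l _ => ?_
    rw [map_mul, ← ne5_val_conj e hf h4 g, h5]
    rfl
  obtain ⟨a, ha0, K, hK, hb, ha⟩ := exists_rational (K := k) (fun g : Ω ≃ₐ[k] Ω => (g : Ω →+* Ω))
    (fun c hc => fixed_mem c hc) (ne5R e f p) hRst hRne
  refine ⟨a, ha0, ?_⟩
  obtain ⟨y, hy⟩ := g_exists_ai hU hK M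
  choose P' hP' using fun i => exists_xx T (y i)
  have hI : IndF K P' := by
    have h1 : (fun i => xx (P' i)) = y := funext hP'
    change AlgebraicIndependent K fun i => xx (P' i)
    rw [h1]
    exact hy
  have hI' : IndF (kbF k Ω) P' := hI.mono hb
  obtain ⟨σ, hσ, hσP⟩ := g_conj_fam hT P' P hI' hP
  have h1 : P = fun i => aP hT σ (P' i) := funext fun i => (hσP i).symm
  have h2 := congrArg σ (ha P' hI)
  rw [map_zero, map_sum] at h2
  rw [← h2, h1]
  refine Finset.sum_congr rfl fun l _ => ?_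
  rw [map_mul, ne5_val_conj e hf hI' σ, σ.commutes]

end

end P

end TIFG
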