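import Mathlib
import Pool.Agent.TIFG.NE5

/-!
# [TIF PIG] Northcott, row NE6: finiteness
-/

set_option autoImplicit false
set_option linter.unusedSectionVars false

open Polynomial

namespace TIFG

open Pool.Agent GT TIF Pool.Agent.TIFT

namespace P

theorem ne6_num (D M : ℕ) : ∃ s : ℕ, (s * D + 1) ^ M < (M + 1 + s).choose s := by
  obtain ⟨s, hs⟩ : ∃ s, s = (D + 1) ^ M * (M + 1).factorial := ⟨_, rfl⟩
  refine ⟨s, ?_⟩
  have h1 := Nat.pow_sub_le_descFactorial (M + 1 + s) (M + 1)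
  rw [show M + 1 + s + 1 - (M + 1) = s + 1 by omega, Nat.descFactorial_eq_factorial_mul_choose] at h1
  have h2 : (M + 1 + s).choose (M + 1) = (M + 1 + s).choose s := Nat.choose_symm_add
  rw [h2] at h1
  have h3 : s * D + 1 ≤ (s + 1) * (D + 1) := by nlinarith
  have h4 : (s * D + 1) ^ M ≤ (s + 1) ^ M * (D + 1) ^ M := by
    rw [← mul_pow]
    exact Nat.pow_le_pow_left h3 M
  have h5 : (M + 1).factorial * (s * D + 1) ^ M < (M + 1).factorial * (M + 1 + s).choose s := by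
    refine lt_of_lt_of_le ?_ h1
    calc (M + 1).factorial * (s * D + 1) ^ M ≤ (M + 1).factorial * ((s + 1) ^ M * (D + 1) ^ M) :=
          Nat.mul_le_mul_left _ h4
      _ = (s + 1) ^ M * s := by rw [hs]; ring
      _ < (s + 1) ^ (M + 1) := by
          rw [pow_succ]
          exact Nat.mul_lt_mul_of_pos_left (Nat.lt_succ_self s) (pow_pos (Nat.succ_pos s) M)
  exact lt_of_mul_lt_mul_left h5 (Nat.zero_le _)

/-- a finite set of invariants gives a finite set of representatives -/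
theorem ne6_rep {α β : Type*} (p : α → Prop) (c : α → β) (S : Set β) (hS : S.Finite)
    (h : ∀ a, p a → c a ∈ S) : ∃ F : Finset α, ∀ a, p a → ∃ b ∈ F, p b ∧ c a = c b := by
  classical
  have : ∀ s : β, ∃ F : Finset α, ∀ a, p a → c a = s → ∃ b ∈ F, p b ∧ c a = c b := by
    intro s
    by_cases hs : ∃ a, p a ∧ c a = s
    · obtain ⟨a, ha, has⟩ := hs
      exact ⟨{a}, fun b hb hbs => ⟨a, Finset.mem_singleton_self a, ha, by rw [has, hbs]⟩⟩
    · exact ⟨∅, fun a ha has => absurd ⟨a, ha, has⟩ hs⟩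
  choose G hG using this
  refine ⟨hS.toFinset.biUnion G, fun a ha => ?_⟩
  obtain ⟨b, hb, hb'⟩ := hG (c a) a ha rfl
  exact ⟨b, Finset.mem_biUnion.2 ⟨c a, hS.mem_toFinset.2 (h a ha), hb⟩, hb'⟩

section

variable {k Ω : Type} [Field k] [Field Ω] [Algebra k Ω] [IsAlgClosed Ω] {d : ℕ} [NeZero d]
  {T : Tab Ω d} [IsDedekindDomain (WB T)] {ρ : Type} [Fintype ρ]

theorem ne6_cf_f (i : ZMod d) : Cf (Set.range (algebraMap k Ω)) (WB.f T i) := by
  intro j n
  rw [WB.f_co]
  by_cases h : j = i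
  · rw [h, Pi.single_eq_same, coeff_one]
    split_ifs
    · exact ⟨1, map_one _⟩
    · exact ⟨0, map_zero _⟩
  · rw [Pi.single_eq_of_ne h]
    exact ⟨0, by rw [coeff_zero, map_zero]⟩

/-- independent points over `kb` -/
theorem ne6_exists (hU : Univ k Ω) (T : Tab Ω d) [IsDedekindDomain (WB T)] (M : ℕ) :
    ∃ P : Fin M → Pt T, IndF (kbF k Ω) P := by
  obtain ⟨f, hf⟩ := g_exists_ai hU (TIFT.small_kb k Ω) M
  choose P hP using exists_xx T
  refine ⟨fun i => P (f i), ?_⟩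
  change AlgebraicIndependent _ _
  have h1 : (fun i => xx (P (f i))) = f := funext fun i => hP (f i)
  rw [h1]
  exact hf

theorem ne6_fix (σ : Ω ≃ₐ[k] Ω) {P : Pt T} (hx : σ (xx P) = xx P)
    (hf : ∀ a, σ (P (WB.f T a)) = P (WB.f T a)) : ∀ c ∈ kP k P, σ c = c := by
  have h1 : ∀ b : WB T, Cf (Set.range (algebraMap k Ω)) b → σ (P b) = P b := by
    intro b hb
    rw [← WB.sum_f b, map_sum, map_sum]
    refine Finset.sum_congr rfl fun j _ => ?_
    rw [g_P_smul, map_mul, hf j]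
    congr 1
    rw [Polynomial.eval_eq_sum, Polynomial.sum, map_sum]
    refine Finset.sum_congr rfl fun n _ => ?_
    obtain ⟨a, ha⟩ := hb j n
    rw [map_mul, map_pow, ← ha, σ.commutes]
    congr 2
  have h2 : kP k P ≤ IntermediateField.fixedField (Subgroup.zpowers σ) := by
    rw [kP, IntermediateField.adjoin_le_iff]
    rintro _ ⟨b, hb, rfl⟩
    rw [SetLike.mem_coe, IntermediateField.mem_fixedField_iff]
    intro τ hτ
    have h3 : σ ∈ (MulAction.stabilizer (Ω ≃ₐ[k] Ω) (P b)) := h1 b hb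
    exact (Subgroup.zpowers_le.2 h3) hτ
  intro c hc
  exact (IntermediateField.mem_fixedField_iff _ _).1 (h2 hc) σ (Subgroup.mem_zpowers σ)

/-- the value is determined by the relations -/
theorem ne6_eq (hT : Tk k T) {M : ℕ} (e : Fin M ≃ ρ × Fin (gp T)) {f f' : (ρ → JJ hT) → Ω}
    (hf : Equ f) (hf1 : Hnt f) (hf' : Equ f') {P : Fin M → Pt T}
    (hP : IndF (kbF k Ω) P)
    (h : RingHom.ker (MvPolynomial.aeval (Yv e f P) :
        MvPolynomial ((Fin M × Option (ZMod d)) ⊕ Unit) k →ₐ[k] Ω) =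
      RingHom.ker (MvPolynomial.aeval (Yv e f' P) :
        MvPolynomial ((Fin M × Option (ZMod d)) ⊕ Unit) k →ₐ[k] Ω))
    (x : ρ → JJ hT) (hx : GenA (kbF k Ω) (fun s => ofJ (x s))) : f x = f' x := by
  obtain ⟨σ, hσ⟩ := TIFP.exists_conj _ _ h
  have hfix : ∀ j, ∀ c ∈ kP k (P j), σ c = c := fun j =>
    ne6_fix σ (hσ (Sum.inl (j, none))) fun a => hσ (Sum.inl (j, some a))
  have hg := xP_gen hT e hP
  have h1 : f (xP hT e P) ∈ (⨆ j, kP k (P j) : IntermediateField k Ω) :=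
    hf1 _ _ hg (xP_rt hT e fun i => le_iSup (fun j => kP k (P j)) i)
  have h2 : (⨆ j, kP k (P j) : IntermediateField k Ω) ≤
      IntermediateField.fixedField (Subgroup.zpowers σ) := by
    refine iSup_le fun j c hc => ?_
    rw [IntermediateField.mem_fixedField_iff]
    intro τ hτ
    have h3 : σ ∈ (MulAction.stabilizer (Ω ≃ₐ[k] Ω) c) := hfix j c hc
    exact (Subgroup.zpowers_le.2 h3) hτ
  have h4 : σ (f (xP hT e P)) = f (xP hT e P) :=
    (IntermediateField.mem_fixedField_iff _ _).1 (h2 h1) σ (Subgroup.mem_zpowers σ)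
  have h5 : σ (f (xP hT e P)) = f' (xP hT e P) := hσ (Sum.inr ())
  obtain ⟨τ, hτ, hτx⟩ := genA_conj hT hg hx
  have h6 : τ • xP hT e P = x := funext fun r => hτx r
  rw [← h6, hf _ hg, hf' _ hg, ← h5, h4]

theorem ne6_hilb [Finite k] (hU : Univ k Ω) (hT : Tk k T) {M : ℕ} (e : Fin M ≃ ρ × Fin (gp T))
    {f : (ρ → JJ hT) → Ω} (hf : Equ f) (hf' : Hnt f) {D : ℕ} (hD : Dg e f D) (s : ℕ)
    {P : Fin M → Pt T} (hP : IndF (kbF k Ω) P) {n : ℕ}
    (φ : Fin n ≃ (Fin M × Option (ZMod d)) ⊕ Unit) :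
    TIFP.hilb k (fun i => Yv e f P (φ i)) s ≤ (s * (D + d + ∑ j, T.w j) + 1) ^ M := by
  by_contra hlt
  rw [not_le] at hlt
  set V := (MvPolynomial.restrictTotalDegree (Fin n) k s).map
    (MvPolynomial.aeval (fun i => Yv e f P (φ i)) : MvPolynomial (Fin n) k →ₐ[k] Ω).toLinearMap
    with hV
  have hfin : Module.Finite k V := inferInstance
  have hr : (s * (D + d + ∑ j, T.w j) + 1) ^ M < Module.finrank k V := hlt
  let b := Module.finBasis k V
  have hb : ∀ l, ∃ q : MvPolynomial (Fin n) k, q.totalDegree ≤ s ∧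
      MvPolynomial.aeval (fun i => Yv e f P (φ i)) q = (b l : Ω) := by
    intro l
    obtain ⟨q, hq, hq'⟩ := (b l).2
    exact ⟨q, (MvPolynomial.mem_restrictTotalDegree _ _ _).1 hq, hq'⟩
  choose q hq hq' using hb
  obtain ⟨a, ha, ha'⟩ := dep hU hT e hf hf' hD s hr (fun l => MvPolynomial.rename φ (q l))
    (fun l => (MvPolynomial.totalDegree_rename_le _ _).trans (hq l)) P hP
  apply ha
  have h1 : ∑ l, a l • b l = 0 := by
    apply Subtype.ext
    rw [AddSubmonoidClass.coe_finsetSum, ZeroMemClass.coe_zero, ← ha']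
    refine Finset.sum_congr rfl fun l _ => ?_
    rw [MvPolynomial.aeval_rename, SetLike.val_smul, Algebra.smul_def, ← hq' l]
    rfl
  exact funext fun l => (Fintype.linearIndependent_iff.1 b.linearIndependent) a h1 l

theorem fin_dg [Finite k] (hU : Univ k Ω) (hT : Tk k T) {M : ℕ} (e : Fin M ≃ ρ × Fin (gp T))
    (D : ℕ) : ∃ F : Finset ((ρ → JJ hT) → Ω), ∀ f : (ρ → JJ hT) → Ω, Equ f → Hnt f → Dg e f D →
      ∃ g ∈ F, ∀ x : ρ → JJ hT, GenA (kbF k Ω) (fun s => ofJ (x s)) → f x = g x := by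
  classical
  obtain ⟨P, hP⟩ := ne6_exists hU T M
  obtain ⟨s, hs⟩ := ne6_num (D + d + ∑ j, T.w j) M
  obtain ⟨n, ⟨φ'⟩⟩ := Finite.exists_equiv_fin ((Fin M × Option (ZMod d)) ⊕ Unit)
  let φ := φ'.symm
  obtain ⟨F, hF⟩ := ne6_rep (fun f : (ρ → JJ hT) → Ω => Equ f ∧ Hnt f ∧ Dg e f D)
    (fun f => RingHom.ker (MvPolynomial.aeval (fun i => Yv e f P (φ i)) :
      MvPolynomial (Fin n) k →ₐ[k] Ω)) _ (TIFP.finite_ker_hilb.{0, 0} k n s M) (by
    rintro f ⟨h1, h2, h3⟩
    refine ⟨Ω, inferInstance, inferInstance, _, ?_, lt_of_le_of_lt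
      (ne6_hilb hU hT e h1 h2 h3 s hP φ) hs, rfl⟩
    have h4 : AlgebraicIndependent k fun i => xx (P i) :=
      (AlgebraicIndependent.restrictScalars (R := k) (K := kbF k Ω)
        (algebraMap k (kbF k Ω)).injective hP)
    have hmem : ∀ i, xx (P i) ∈ IntermediateField.adjoin k
        (Set.range fun i => Yv e f P (φ i)) := fun i =>
      IntermediateField.subset_adjoin _ _ ⟨φ.symm (Sum.inl (i, none)), by
        change Yv e f P (φ (φ.symm _)) = _
        rw [Equiv.apply_symm_apply]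
        rfl⟩
    have h5 : AlgebraicIndependent k fun i : Fin M => (⟨xx (P i), hmem i⟩ :
        IntermediateField.adjoin k (Set.range fun i => Yv e f P (φ i))) :=
      AlgebraicIndependent.of_comp (IntermediateField.val _) h4
    have h6 := h5.lift_cardinalMk_le_trdeg
    simpa using h6)
  refine ⟨F, fun f h1 h2 h3 => ?_⟩
  obtain ⟨g, hg, ⟨g1, g2, g3⟩, hker⟩ := hF f ⟨h1, h2, h3⟩
  refine ⟨g, hg, fun x hx => ?_⟩
  refine ne6_eq hT e h1 h2 g1 hP ?_ x hx
  have key : ∀ (f : (ρ → JJ hT) → Ω) (p : MvPolynomial ((Fin M × Option (ZMod d)) ⊕ Unit) k),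
      MvPolynomial.aeval (Yv e f P) p =
        MvPolynomial.aeval (fun i => Yv e f P (φ i)) (MvPolynomial.rename φ' p) := by
    intro f p
    rw [MvPolynomial.aeval_rename]
    congr 2
    funext i
    change _ = Yv e f P (φ (φ' i))
    rw [show φ (φ' i) = i from φ'.symm_apply_apply i]
  ext p
  rw [RingHom.mem_ker, RingHom.mem_ker, key f, key g]
  change MvPolynomial.rename φ' p ∈ RingHom.ker (MvPolynomial.aeval (fun i => Yv e f P (φ i)) :
      MvPolynomial (Fin n) k →ₐ[k] Ω) ↔ MvPolynomial.rename φ' p ∈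
    RingHom.ker (MvPolynomial.aeval (fun i => Yv e g P (φ i)) : MvPolynomial (Fin n) k →ₐ[k] Ω)
  rw [hker]

end

end P

end TIFG
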