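import Mathlib
import Pool.Agent.TIFG.Spc

/-!
# [TIF PIG] Northcott, row NF: a finite family of sections without common zeros
-/

set_option autoImplicit false
set_option linter.unusedSectionVars false
set_option linter.unusedVariables false

namespace TIFG

namespace P

/-- a finite family in `HH dd` without common zeros -/
theorem fam {k Ω J : Type} [Field k] [Field Ω] [Algebra k Ω] [AddCommGroup J]
    [DistribMulAction (Ω ≃ₐ[k] Ω) J] {ρ : Type} [Fintype ρ] {U : Uni k Ω J ρ} {ℓ : ℕ}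
    {e : ℕ → J → J → Ω} {H : Tht U ℓ e} {g dd cT : ℕ} (E : Spc H g dd cT) (hdd : 0 < dd) :
    ∃ (n : ℕ) (F : Fin n → (ρ → J) → Ω), (∀ l, F l ∈ E.HH dd) ∧
      ∀ V, Pl k Ω V → ∀ x, U.Gn (kb k Ω) x → ∃ l, V.valuation (F l x) * H.Th V x ^ dd = 1 := by
  classical
  obtain ⟨F₁, hF₁, hF0⟩ := E.ne 1
  have := E.fin dd
  let b := Module.finBasis (kb k Ω) (E.HH dd)
  refine ⟨Module.finrank (kb k Ω) (E.HH dd), fun l => (b l : (ρ → J) → Ω), fun l => (b l).2, ?_⟩
  intro V hV x hx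
  obtain ⟨a, ha, hval⟩ := E.bpf 1 F₁ hF₁ hF0 V hV x hx
  have hΨ := E.cm_pr dd a ha hdd 1 (fun _ => F₁) (fun _ => hF₁)
  rw [mul_one] at hΨ
  set Ψ : (ρ → J) → Ω := fun x => (∏ i : Fin dd, F₁ (x + a i)) * E.Cm dd a x ^ 1 with hΨd
  have h1 : V.valuation (Ψ x) * H.Th V x ^ dd = 1 := by
    have h2 := E.cm_val dd a ha V hV x hx
    rw [hΨd]
    simp only [pow_one, map_mul, map_prod]
    rw [mul_assoc, h2, ← Finset.prod_mul_distrib]
    apply Finset.prod_eq_one
    intro j _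
    have h3 := hval j
    rwa [pow_one] at h3
  have h0 : V.valuation (Ψ x) ≠ 0 := by
    intro h
    rw [h, zero_mul] at h1
    exact zero_ne_one h1
  -- `Ψ` in the basis
  have hsum : Ψ x = ∑ l, algebraMap (kb k Ω) Ω (b.repr ⟨Ψ, hΨ⟩ l) * (b l : (ρ → J) → Ω) x := by
    have h2 := b.sum_repr ⟨Ψ, hΨ⟩
    have h3 := congrArg (fun z : E.HH dd => (z : (ρ → J) → Ω) x) h2
    simp only [Submodule.coe_sum, Submodule.coe_smul, Finset.sum_apply, Pi.smul_apply] at h3
    rw [← h3]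
    apply Finset.sum_congr rfl
    intro l _
    rfl
  have hex : ∃ l, V.valuation (Ψ x) ≤ V.valuation ((b l : (ρ → J) → Ω) x) := by
    by_contra hcon
    push Not at hcon
    have h4 : V.valuation (∑ l, algebraMap (kb k Ω) Ω (b.repr ⟨Ψ, hΨ⟩ l) * (b l : (ρ → J) → Ω) x) <
        V.valuation (Ψ x) := by
      apply Valuation.map_sum_lt _ h0
      intro l _
      rw [map_mul]
      have h5 : V.valuation (algebraMap (kb k Ω) Ω (b.repr ⟨Ψ, hΨ⟩ l)) ≤ 1 :=
        (V.valuation_le_one_iff _).2 (hV _ (b.repr ⟨Ψ, hΨ⟩ l).2)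
      exact lt_of_le_of_lt (mul_le_of_le_one_left' h5) (hcon l)
    rw [← hsum] at h4
    exact lt_irrefl _ h4
  obtain ⟨l, hl⟩ := hex
  refine ⟨l, le_antisymm (E.le dd _ (b l).2 V hV x hx) ?_⟩
  rw [← h1]
  exact mul_le_mul_left hl _

end P

end TIFG
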