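import Mathlib
import Pool.Agent.TIFG.NF
import Pool.Agent.TIFG.NE6
import Pool.Agent.TIFCRV.Ded0

/-!
# [TIF PIG] Northcott, row NG: bounded functions have bounded degree in every point
-/

set_option autoImplicit false
set_option linter.unusedSectionVars false
set_option linter.unusedVariables false

open Polynomial

namespace TIFG

open Pool.Agent GT TIF Pool.Agent.TIFT

section

variable {k Ω : Type} [Field k] [Field Ω] [Algebra k Ω] [IsAlgClosed Ω] {d : ℕ} [NeZero d]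
  {T : Tab Ω d} [IsDedekindDomain (WB T)] {ρ : Type} [Fintype ρ]

/-- a common denominator -/
theorem common_den {ι : Type} [Fintype ι] [DecidableEq ι] (hT : Tk k T) {K : IntermediateField k Ω}
    {P : Pt T} (hP : GenP k K P) (φ : ι → Ω) (h : ∀ l, φ l ∈ K ⊔ kP k P) :
    ∃ (u : ι → WB T) (v : WB T), (∀ l, Cf (K : Set Ω) (u l)) ∧ Cf (K : Set Ω) v ∧ v ≠ 0 ∧
      ∀ l, φ l * P v = P (u l) := by
  choose a b ha hb h0 hab using fun l => TIFP.le_quoF hT K P (h l)
  have hcf : ∀ s : Finset ι, Cf (K : Set Ω) (∏ l ∈ s, b l) := by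
    intro s
    induction s using Finset.induction_on with
    | empty => rw [Finset.prod_empty]; exact TIFP.cfOne (K := K.toSubfield)
    | insert l s hl ih =>
      rw [Finset.prod_insert hl]
      exact TIFP.cfMul (K := K.toSubfield) hT (r_hK K) (hb l) ih
  refine ⟨fun l => a l * ∏ l' ∈ Finset.univ.erase l, b l', ∏ l, b l, fun l => ?_, hcf _, ?_, fun l => ?_⟩
  · exact TIFP.cfMul (K := K.toSubfield) hT (r_hK K) (ha l) (hcf _)
  · intro h1
    have h2 := congrArg P h1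
    rw [map_prod, map_zero, Finset.prod_eq_zero_iff] at h2
    obtain ⟨l, _, hl⟩ := h2
    exact h0 l hl
  · rw [map_mul, ← hab l, mul_assoc, ← map_mul, Finset.mul_prod_erase _ _ (Finset.mem_univ l)]

theorem pord_rac (hT : Tk k T) (σ : Ω ≃ₐ[k] Ω) (b : WB T) : pord (rac hT σ b) = pord b := by
  rw [rac, bE_apply]
  exact pord_bmap _ _ (RingEquiv.injective _) b

/-- **one bound for the order of a family of functions along all points** -/
theorem unif (hT : Tk k T) {M : ℕ} (e : Fin M ≃ ρ × Fin (gp T)) {ι : Type} [Fintype ι]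
    (φ : ι → (ρ → JJ hT) → Ω)
    (hφ : ∀ l, ∀ σ : Ω ≃ₐ[k] Ω, (∀ c ∈ kbF k Ω, σ c = c) → ∀ x : ρ → JJ hT,
      GenA (kbF k Ω) (fun s => ofJ (x s)) → φ l (σ • x) = σ (φ l x))
    (hφ' : ∀ l, ∀ K : IntermediateField k Ω, kbF k Ω ≤ K → ∀ x : ρ → JJ hT,
      GenA (kbF k Ω) (fun s => ofJ (x s)) → (∀ s, ofJ (x s) ∈ JK (T := T) (K : Set Ω)) → φ l x ∈ K) :
    ∃ h : ℕ, ∀ P : Fin M → Pt T, IndF (kbF k Ω) P → ∀ i, ∃ (u : ι → WB T) (v : WB T),
      (∀ l, Cf (oth (k := k) P i : Set Ω) (u l)) ∧ Cf (oth (k := k) P i : Set Ω) v ∧ v ≠ 0 ∧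
      (∀ l, pord (u l) ≤ h) ∧ ∀ l, φ l (xP hT e P) * P i v = P i (u l) := by
  classical
  by_cases hex : ∃ P : Fin M → Pt T, IndF (kbF k Ω) P
  · obtain ⟨P₀, hP₀⟩ := hex
    have h1 : ∀ i, ∃ (u : ι → WB T) (v : WB T),
        (∀ l, Cf (oth (k := k) P₀ i : Set Ω) (u l)) ∧ Cf (oth (k := k) P₀ i : Set Ω) v ∧ v ≠ 0 ∧
        ∀ l, φ l (xP hT e P₀) * P₀ i v = P₀ i (u l) := by
      intro i
      refine common_den hT (gen_oth hT hP₀ i) _ fun l => ?_
      refine hφ' l _ ((kb_le_oth P₀ i).trans le_sup_left) _ (xP_gen hT e hP₀) fun s => ?_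
      refine xP_rt hT e (fun j => ?_) s
      by_cases hj : j = i
      · rw [hj]; exact le_sup_right
      · exact (kP_le_oth P₀ hj).trans le_sup_left
    choose u₀ v₀ hu₀ hv₀ hv₀' huv using h1
    refine ⟨∑ i, ∑ l, pord (u₀ i l), fun P hP i => ?_⟩
    obtain ⟨σ, hσ, hσP⟩ := g_conj_fam hT P₀ P hP₀ hP
    have hPσ : (fun j => aP hT σ (P₀ j)) = P := funext hσP
    have hcf : ∀ {b : WB T}, Cf (oth (k := k) P₀ i : Set Ω) b →
        Cf (oth (k := k) P i : Set Ω) (rac hT σ b) := by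
      intro b hb j n
      have h2 := oth_map hT σ P₀ i (hb j n)
      rw [hPσ] at h2
      rw [rac, bE_co, coeff_map]
      exact h2
    have hval : ∀ b : WB T, P i (rac hT σ b) = σ (P₀ i b) := by
      intro b
      rw [← hσP i]
      change σ (P₀ i ((rac hT σ).symm (rac hT σ b))) = _
      rw [RingEquiv.symm_apply_apply]
    refine ⟨fun l => rac hT σ (u₀ i l), rac hT σ (v₀ i), fun l => hcf (hu₀ i l), hcf (hv₀ i), ?_,
      fun l => ?_, fun l => ?_⟩
    · intro h0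
      exact hv₀' i ((rac hT σ).injective (by rw [h0, map_zero]))
    · rw [pord_rac]
      exact (Finset.single_le_sum (f := fun l => pord (u₀ i l)) (fun _ _ => Nat.zero_le _)
        (Finset.mem_univ l)).trans
        (Finset.single_le_sum (f := fun i => ∑ l, pord (u₀ i l)) (fun _ _ => Nat.zero_le _)
          (Finset.mem_univ i))
    · have h2 : xP hT e P = σ • xP hT e P₀ := by rw [xP_smul, hPσ]
      rw [hval, hval, h2, hφ l σ hσ _ (xP_gen hT e hP₀), ← map_mul, huv]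
  · exact ⟨0, fun P hP => absurd ⟨P, hP⟩ hex⟩

/-- `nc_step` at a point of the curve generic over the algebraically closed field `K` -/
theorem nc_K (hT : Tk k T) {K : IntermediateField k Ω} [IsAlgClosed K] {P : Pt T}
    (hP : GenP k K P) {φ R : Ω} {t s q h h' : ℕ} (ht : 0 < t) (hq : 0 < q) (hR : R ≠ 0)
    (hφ : φ ∈ K ⊔ kP k P) (hR' : R ^ q ∈ K ⊔ kP k P) {ι : Type} {u : ι → WB T} {v : WB T}
    (hucf : ∀ l, Cf (K : Set Ω) (u l)) (hvcf : Cf (K : Set Ω) v) (hv : v ≠ 0)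
    (hu : ∀ l, pord (u l) ≤ h) (hh : s * h ≤ t * h')
    (hbd : ∀ V : ValuationSubring Ω, (∀ c ∈ K, c ∈ V) → ∃ l,
      V.valuation φ ^ t * V.valuation (P v) ^ s ≤ V.valuation R * V.valuation (P (u l)) ^ s ∧
      V.valuation (P v) ^ s ≤ V.valuation R * V.valuation (P (u l)) ^ s) :
    ∃ A B : WB T, Cf (K : Set Ω) A ∧ Cf (K : Set Ω) B ∧ B ≠ 0 ∧ φ * P B = P A ∧
      pord A ≤ 2 * h' + gp T ∧ pord B ≤ h' + gp T := by
  obtain ⟨T', hT'⟩ := g_form hT K
  have hded : IsDedekindDomain (WB T') := by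
    have : IsDedekindDomain (WB (T'.map (algebraMap K Ω))) := by
      rw [hT']
      infer_instance
    exact TIFCRV.ded_down T' (algebraMap K Ω)
  have htr : Transcendental K (xx P) := (genP_iff hT K P).1 hP
  let β : WB T' →+* WB T := bmap (algebraMap K Ω) hT'
  let ψ : WB T' →+* Ω := (P : WB T →+* Ω).comp β
  have hβinj : Function.Injective β := bmap_inj _ _ (algebraMap K Ω).injective
  have hψinj : Function.Injective ψ := by
    rw [injective_iff_map_eq_zero]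
    intro b hb
    exact g_inj hT' htr hb
  have hψx : ψ (WB.x T') = xx P := by
    change P (bmap (algebraMap K Ω) hT' (WB.x T')) = _
    rw [bmap_x]
    rfl
  have hψc : ∀ c : K, ψ (algebraMap K (WB T') c) = algebraMap K Ω c := by
    intro c
    change P (bmap (algebraMap K Ω) hT' (algebraMap K (WB T') c)) = _
    have h1 : algebraMap K (WB T') c = algebraMap (Polynomial K) (WB T') (C c) := by
      rw [IsScalarTower.algebraMap_apply K (Polynomial K) (WB T'), Polynomial.algebraMap_eq]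
    rw [h1, bmap_algebraMap, Polynomial.map_C, ← Polynomial.algebraMap_eq,
      ← IsScalarTower.algebraMap_apply]
    exact P.commutes (algebraMap K Ω c)
  have hquo : ∀ z ∈ K ⊔ kP k P, ∃ A B : WB T', B ≠ 0 ∧ z * ψ B = ψ A := by
    intro z hz
    obtain ⟨a, b, ha, hb, h0, hab⟩ := TIFP.le_quoF hT K P hz
    obtain ⟨A, rfl⟩ := g_lift hT' ha
    obtain ⟨B, rfl⟩ := g_lift hT' hb
    refine ⟨A, B, ?_, hab⟩
    rintro rfl
    rw [map_zero, map_zero] at h0
    exact h0 rfl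
  obtain ⟨A₀, B₀, hB₀, hAB₀⟩ := hquo φ hφ
  obtain ⟨A₁, B₁, hB₁, hAB₁⟩ := hquo _ hR'
  choose u' hu' using fun l => g_lift hT' (hucf l)
  obtain ⟨v', hv'⟩ := g_lift hT' hvcf
  have hpord : ∀ b : WB T', pord (β b) = pord b := fun b =>
    pord_bmap _ _ (algebraMap K Ω).injective b
  have hgp : gp T' = gp T := by
    rw [← hT']
    rfl
  obtain ⟨A, B, hB, hAB, hA1, hB1⟩ := nc_step ψ hψc hψinj (by rw [hψx]; exact htr) ht hq hR hB₀ hAB₀
    hB₁ hAB₁ (u := u') (v := v') (h := h) (h' := h') (s := s)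
    (by
      rintro rfl
      rw [map_zero] at hv'
      exact hv hv'.symm)
    (fun l => by
      rw [← hpord]
      change pord (bmap (algebraMap K Ω) hT' (u' l)) ≤ h
      rw [hu']
      exact hu l) hh (by
      intro V hV
      obtain ⟨l, h1, h2⟩ := hbd V fun c hc => hV ⟨c, hc⟩
      refine ⟨l, ?_⟩
      have h3 : ψ (u' l) = P (u l) := congrArg P (hu' l)
      have h4 : ψ v' = P v := congrArg P hv'
      rw [h3, h4]
      exact ⟨h1, h2⟩)
  refine ⟨β A, β B, g_cf hT' A, g_cf hT' B, ?_, hAB, ?_, ?_⟩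
  · intro h0
    exact hB (hβinj (by rw [h0, map_zero]))
  · rw [hpord, ← hgp]
    exact hA1
  · rw [hpord, ← hgp]
    exact hB1

/-- **bounded functions have bounded degree in every point** -/
theorem nd_deg [PerfectField k] (hU : Univ k Ω) (hT : Tk k T)
    (htors : ∀ n : ℕ, (n : k) ≠ 0 → ∀ D : ClassGroup (WB T), D ^ n = 1 →
      D ∈ JK (T := T) (TIF.kb k Ω))
    {ℓ : ℕ} {e' : ℕ → JJ hT → JJ hT → Ω} {H : Tht (uni (ρ := ρ) hU hT htors) ℓ e'} {g dd cT : ℕ}
    (E : Spc H g dd cT) (hdd : 0 < dd) {M : ℕ} (e : Fin M ≃ ρ × Fin (gp T)) (m : ℕ) :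
    ∃ D, ∀ f : (ρ → JJ hT) → Ω, Equ f → Hnt f → H.Bdd m f → Dg e f D := by
  classical
  obtain ⟨n, F, hF, hval⟩ := P.fam E hdd
  obtain ⟨p, hp⟩ := ExpChar.exists k
  let φ : Fin n × Fin n → (ρ → JJ hT) → Ω := fun l x => F l.1 x * F l.2 (-x)
  have hFe : ∀ l, ∀ σ : Ω ≃ₐ[k] Ω, (∀ c ∈ kbF k Ω, σ c = c) → ∀ x : ρ → JJ hT,
      GenA (kbF k Ω) (fun s => ofJ (x s)) → F l (σ • x) = σ (F l x) := by
    intro l σ hσ x hx
    by_cases h0 : F l = 0
    · rw [h0]
      exact (map_zero σ).symm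
    · exact (E.fn dd (F l) (hF l) h0).equ σ
        ((IntermediateField.mem_fixingSubgroup_iff _ σ).2 hσ) x hx
  obtain ⟨h, hh⟩ := unif hT e φ (by
    intro l σ hσ x hx
    change F l.1 (σ • x) * F l.2 (-(σ • x)) = σ (F l.1 x * F l.2 (-x))
    rw [hFe _ σ hσ x hx, ← smul_neg, hFe _ σ hσ (-x)
      ((uni (ρ := ρ) hU hT htors).gn_neg _ x hx), map_mul]) (by
    intro l K hK x hx hxK
    refine K.mul_mem (E.hon dd _ (hF _) K hK x hx hxK) ?_
    exact E.hon dd _ (hF _) K hK (-x) ((uni (ρ := ρ) hU hT htors).gn_neg _ x hx) fun i =>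
      ((uni (ρ := ρ) hU hT htors).Rt K).neg_mem (hxK i))
  refine ⟨2 * (m * h) + gp T, fun f hf hf' hbd P hP i => ?_⟩
  obtain ⟨t, r, ht, hr, hb⟩ := hbd
  obtain ⟨u, v, hucf, hvcf, hv, hu, huv⟩ := hh P hP i
  have hx : (uni (ρ := ρ) hU hT htors).Gn (kb k Ω) (xP hT e P) := xP_gen hT e hP
  have hkP : ∀ j, kP k (P j) ≤ oth P i ⊔ kP k (P i) := by
    intro j
    by_cases hj : j = i
    · rw [hj]
      exact le_sup_right
    · exact (kP_le_oth P hj).trans le_sup_left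
  have hfx : f (xP hT e P) ∈ oth P i ⊔ kP k (P i) :=
    hf' _ _ hx fun s => xP_rt hT e hkP s
  obtain ⟨a, ha⟩ := TIFP.pow_mem_of_fixed p (oth P i ⊔ kP k (P i)) (r (xP hT e P)) (by
    intro σ hσ
    have h1 : σ • xP hT e P = xP hT e P := by
      rw [xP_smul]
      congr 1
      funext j
      exact aP_fix hT σ fun c hc => hσ c (hkP j hc)
    rw [← hr.equ σ ((IntermediateField.mem_fixingSubgroup_iff _ σ).2 fun c hc =>
      hσ c ((le_sup_left : oth P i ≤ _) (kb_le_oth P i hc))) _ hx, h1])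
  have hpa : 0 < p ^ a := pow_pos (expChar_pos k p) a
  obtain ⟨A, B, hA, hB, hB0, hAB, hA1, hB1⟩ := nc_K hT (gen_oth hT hP i) (φ := f (xP hT e P))
    (R := r (xP hT e P) ^ dd) (t := t * dd) (s := m * t) (q := p ^ a) (h := h) (h' := m * h)
    (Nat.mul_pos ht hdd) hpa (pow_ne_zero dd (hr.ne _ hx)) hfx (by
      rw [← pow_mul, mul_comm, pow_mul]
      exact pow_mem ha dd) hucf hvcf hv hu (by
      calc m * t * h = t * 1 * (m * h) := by ring
        _ ≤ t * dd * (m * h) := Nat.mul_le_mul_right _ (Nat.mul_le_mul_left _ hdd)) (by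
      intro V hV
      have hPl : Pl k Ω V := fun z hz => hV z (kb_le_oth P i hz)
      obtain ⟨l, hl⟩ := hval V hPl (xP hT e P) hx
      obtain ⟨l', hl'⟩ := hval V hPl (-xP hT e P) ((uni (ρ := ρ) hU hT htors).gn_neg _ _ hx)
      refine ⟨(l, l'), ?_⟩
      have h1 : V.valuation (φ (l, l') (xP hT e P)) * H.ThS V (xP hT e P) ^ dd = 1 := by
        change V.valuation (F l (xP hT e P) * F l' (-xP hT e P)) *
          (H.Th V (xP hT e P) * H.Th V (-xP hT e P)) ^ dd = 1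
        rw [map_mul, mul_pow, mul_mul_mul_comm, hl, hl', one_mul]
      have h2 : V.valuation (P i v) = H.ThS V (xP hT e P) ^ dd * V.valuation (P i (u (l, l'))) := by
        rw [← huv (l, l'), map_mul, ← mul_assoc, mul_comm (H.ThS V _ ^ dd), h1, one_mul]
      have h3 : V.valuation (P i v) ^ (m * t) = (H.ThS V (xP hT e P) ^ (m * t)) ^ dd *
          V.valuation (P i (u (l, l'))) ^ (m * t) := by
        rw [h2, mul_pow, ← pow_mul, ← pow_mul, mul_comm dd]
      obtain ⟨h4, h5⟩ := hb V hPl (xP hT e P) hx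
      rw [h3, map_pow]
      refine ⟨?_, mul_le_mul' (pow_le_pow_left' h5 dd) le_rfl⟩
      rw [← mul_assoc, pow_mul, ← mul_pow]
      exact mul_le_mul' (pow_le_pow_left' h4 dd) le_rfl)
  exact ⟨A, B, hA, hB, hB0, hA1, hB1.trans (by omega), hAB⟩

/-- **Northcott**: finitely many functions over `k` with bounded degree -/
theorem nor [Finite k] [PerfectField k] (hU : Univ k Ω) (hT : Tk k T)
    (htors : ∀ n : ℕ, (n : k) ≠ 0 → ∀ D : ClassGroup (WB T), D ^ n = 1 →
      D ∈ JK (T := T) (TIF.kb k Ω))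
    {ℓ : ℕ} {e' : ℕ → JJ hT → JJ hT → Ω} {H : Tht (uni (ρ := ρ) hU hT htors) ℓ e'} {g dd cT : ℕ}
    (E : Spc H g dd cT) (hdd : 0 < dd) : H.Nor := by
  classical
  intro m
  obtain ⟨D, hD⟩ := nd_deg hU hT htors E hdd (Fintype.equivFin (ρ × Fin (gp T))).symm m
  obtain ⟨F, hF⟩ := P.fin_dg hU hT (Fintype.equivFin (ρ × Fin (gp T))).symm D
  exact ⟨F, fun f h1 h2 h3 => hF f h1 h2 (hD f h1 h2 h3)⟩

end

end TIFG
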