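import Mathlib
import Pool.Agent.TIFG.Uni
import Pool.Agent.TIFG.Spc
import Pool.Agent.TIFT.U0
import Pool.Agent.TIFT.U5

/-!
# [TIF PIG] the fields `cont` and `trd` of `Spc`
-/

set_option autoImplicit false
set_option linter.unusedSectionVars false

open Polynomial

namespace TIFG

open Pool.Agent GT TIF Pool.Agent.TIFT

section cont

variable {k Ω : Type} [Field k] [Field Ω] [Algebra k Ω] [IsAlgClosed Ω] {d : ℕ} [NeZero d]
  {T : Tab Ω d} [IsDedekindDomain (WB T)] {ρ : Type} [Fintype ρ]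

/-- the field of a point is generated by finitely many elements -/
theorem spi_pt (hT : Tk k T) (P : Pt T) : ∃ S : Finset Ω, (∀ z ∈ S, z ∈ kP k P) ∧
    ∀ σ : Ω ≃ₐ[k] Ω, (∀ z ∈ S, σ z = z) → aP hT σ P = P := by
  classical
  have hf : ∀ i : ZMod d, Cf (Set.range (algebraMap k Ω)) (WB.f T i) := by
    intro i j n
    rw [WB.f_co]
    by_cases h : j = i
    · rw [h, Pi.single_eq_same, coeff_one]
      split_ifs
      · exact ⟨1, map_one _⟩
      · exact ⟨0, map_zero _⟩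
    · rw [Pi.single_eq_of_ne h]
      exact ⟨0, by rw [coeff_zero, map_zero]⟩
  refine ⟨insert (xx P) (Finset.univ.image fun j => P (WB.f T j)), fun z hz => ?_, fun σ hσ => ?_⟩
  · rcases Finset.mem_insert.1 hz with h | h
    · rw [h]
      exact g_xx_mem_kP P
    · obtain ⟨j, -, rfl⟩ := Finset.mem_image.1 h
      exact IntermediateField.subset_adjoin k _ ⟨_, hf j, rfl⟩
  · have hx : xx (aP hT σ P) = xx P := by
      rw [TIFT.xx_aP]
      exact hσ _ (Finset.mem_insert_self _ _)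
    refine AlgHom.ext fun b => ?_
    rw [← WB.sum_f b, map_sum, map_sum]
    refine Finset.sum_congr rfl fun j _ => ?_
    rw [g_P_smul, g_P_smul, hx, aP_cf hT σ P (hf j)]
    congr 1
    exact hσ _ (Finset.mem_insert_of_mem (Finset.mem_image_of_mem _ (Finset.mem_univ j)))

/-- the coefficients of a function -/
theorem spi_cf {K : IntermediateField k Ω} (hT : Tk k T) {b : WB T} (hb : Cf (K : Set Ω) b) :
    ∃ S : Finset Ω, (∀ z ∈ S, z ∈ K) ∧
      ∀ σ : Ω ≃ₐ[k] Ω, (∀ z ∈ S, σ z = z) → rac hT σ b = b := by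
  classical
  refine ⟨Finset.univ.biUnion fun j : ZMod d => (b.co j).support.image fun n => (b.co j).coeff n,
    fun z hz => ?_, fun σ hσ => ?_⟩
  · obtain ⟨j, -, h⟩ := Finset.mem_biUnion.1 hz
    obtain ⟨n, -, rfl⟩ := Finset.mem_image.1 h
    exact hb j n
  · refine rac_cf hT σ fun j n => ?_
    by_cases hn : n ∈ (b.co j).support
    · exact hσ _ (Finset.mem_biUnion.2 ⟨j, Finset.mem_univ j, Finset.mem_image.2 ⟨n, hn, rfl⟩⟩)
    · rw [notMem_support_iff.1 hn, map_zero]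

theorem spi_kb (σ : Ω ≃ₐ[k] Ω) {z : Ω} (hz : z ∈ kbF k Ω) : σ z ∈ kbF k Ω := by
  rw [mem_algebraicClosure_iff'] at hz ⊢
  exact hz.map (σ : Ω →ₐ[k] Ω)

/-- a theta monomial is fixed by the automorphisms which fix a finite set -/
theorem spi_tmf (hT : Tk k T) {m : ℕ} (D : TD k T ρ (kbF k Ω) m) :
    ∃ S : Finset Ω, (∀ z ∈ S, z ∈ kbF k Ω) ∧ ∀ σ : Ω ≃ₐ[k] Ω, (∀ z ∈ S, σ z = z) →
      ∀ x, tmf D (fun r => act hT σ (x r)) = σ (tmf D x) := by
  classical
  choose S hS hS' using fun P : Pt T => spi_pt (k := k) hT P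
  choose S₁ hS₁ hS₁' using fun r : ρ => spi_cf (K := kbF k Ω) hT (D.cf_h hT r)
  refine ⟨(Finset.univ.biUnion fun r : ρ => Finset.univ.biUnion fun i : Fin m =>
    (D.B r i).toFinset.biUnion S) ∪ Finset.univ.biUnion S₁, fun z hz => ?_, fun σ hσ x => ?_⟩
  · rcases Finset.mem_union.1 hz with h | h
    · obtain ⟨r, -, h1⟩ := Finset.mem_biUnion.1 h
      obtain ⟨i, -, h2⟩ := Finset.mem_biUnion.1 h1
      obtain ⟨P, hP, h3⟩ := Finset.mem_biUnion.1 h2
      exact (PK_iff_kP _ P).1 (D.pk r i P (List.mem_toFinset.1 hP)) (hS P z h3)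
    · obtain ⟨r, -, h1⟩ := Finset.mem_biUnion.1 h
      exact hS₁ r z h1
  · obtain ⟨D', hB, hh, hD'⟩ := exists_conjD hT D σ (fun c hc => spi_kb σ hc)
      fun c hc => spi_kb σ.symm hc
    have h1 : D'.B = D.B := by
      funext r i
      rw [hB]
      refine (List.map_congr_left fun P hP => ?_).trans (List.map_id _)
      refine hS' P σ fun z hz => hσ z (Finset.mem_union_left _ ?_)
      exact Finset.mem_biUnion.2 ⟨r, Finset.mem_univ r, Finset.mem_biUnion.2 ⟨i,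
        Finset.mem_univ i, Finset.mem_biUnion.2 ⟨P, List.mem_toFinset.2 hP, hz⟩⟩⟩
    have h2 : D'.h = D.h := by
      funext r
      rw [hh]
      exact hS₁' r σ fun z hz => hσ z (Finset.mem_union_right _
        (Finset.mem_biUnion.2 ⟨r, Finset.mem_univ r, hz⟩))
    rw [← hD' x]
    simp only [tmf, h1, h2]

/-- a function of `HH` is fixed by the automorphisms which fix a finite set -/
theorem cont_HH (hT : Tk k T) {m : ℕ} {F : (ρ → ClassGroup (WB T)) → Ω}
    (hF : F ∈ HH T ρ (kbF k Ω) m) :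
    ∃ S : Finset Ω, (∀ z ∈ S, z ∈ kbF k Ω) ∧ ∀ σ : Ω ≃ₐ[k] Ω, (∀ z ∈ S, σ z = z) →
      ∀ x, F (fun r => act hT σ (x r)) = σ (F x) := by
  classical
  have hF' : F ∈ Submodule.span (kbF k Ω) (Set.range fun D : TD k T ρ (kbF k Ω) m => tmf D) := hF
  induction hF' using Submodule.span_induction with
  | mem F h =>
    obtain ⟨D, rfl⟩ := h
    exact spi_tmf hT D
  | zero => exact ⟨∅, fun z hz => absurd hz (Finset.notMem_empty z), fun σ _ x => (map_zero σ).symm⟩
  | add F G h1 h2 ih1 ih2 =>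
    obtain ⟨S, hS, hS'⟩ := ih1 h1
    obtain ⟨S₁, hS₁, hS₁'⟩ := ih2 h2
    refine ⟨S ∪ S₁, fun z hz => ?_, fun σ hσ x => ?_⟩
    · rcases Finset.mem_union.1 hz with h | h
      · exact hS z h
      · exact hS₁ z h
    · rw [Pi.add_apply, Pi.add_apply, map_add,
        hS' σ (fun z hz => hσ z (Finset.mem_union_left _ hz)),
        hS₁' σ (fun z hz => hσ z (Finset.mem_union_right _ hz))]
  | smul c F h ih =>
    obtain ⟨S, hS, hS'⟩ := ih h
    refine ⟨insert (c : Ω) S, fun z hz => ?_, fun σ hσ x => ?_⟩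
    · rcases Finset.mem_insert.1 hz with h | h
      · rw [h]
        exact c.2
      · exact hS z h
    · show (c : Ω) * F (fun r => act hT σ (x r)) = σ ((c : Ω) * F x)
      rw [map_mul, hσ _ (Finset.mem_insert_self _ _),
        hS' σ (fun z hz => hσ z (Finset.mem_insert_of_mem hz))]

/-- the field `cont` -/
theorem cont_cj (hT : Tk k T) {m : ℕ} {F : (ρ → ClassGroup (WB T)) → Ω}
    (hF : F ∈ HH T ρ (kbF k Ω) m) :
    ∃ S : Finset Ω, (∀ z ∈ S, z ∈ TIFG.kb k Ω) ∧ ∀ σ : Ω ≃ₐ[k] Ω, (∀ z ∈ S, σ z = z) →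
      cj σ (fun x : ρ → JJ hT => F fun r => ofJ (x r)) = fun x => F fun r => ofJ (x r) := by
  obtain ⟨S, hS, hS'⟩ := cont_HH hT hF
  refine ⟨S, hS, fun σ hσ => ?_⟩
  funext x
  show σ (F fun r => ofJ ((σ⁻¹ • x) r)) = F fun r => ofJ (x r)
  rw [← hS' σ hσ]
  congr 1
  funext r
  show act hT σ (ofJ (σ⁻¹ • x r)) = ofJ (x r)
  rw [← ofJ_smul, smul_inv_smul]

end cont

section trd

variable {k Ω : Type} [Field k] [Field Ω] [Algebra k Ω] [IsAlgClosed Ω] {d : ℕ} [NeZero d]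
  {T : Tab Ω d} [IsDedekindDomain (WB T)] {ρ : Type} [Fintype ρ]

/-- the transcendence degree of a field of definition of a generic point -/
theorem trd_gen (hU : Univ k Ω) (hT : Tk k T) {y : ρ → ClassGroup (WB T)}
    (hy : GenA (kbF k Ω) y) (κ : IntermediateField k Ω)
    (h : ∀ r, y r ∈ JK (T := T) (κ : Set Ω)) :
    ((gp T * Fintype.card ρ : ℕ) : Cardinal) ≤ Algebra.trdeg k κ := by
  obtain ⟨X, hl, hi, hc⟩ := hy
  -- the points are over the algebraic closure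
  have hmem : ∀ p : Σ r, Fin (X r).length, xf X p ∈ acl κ := by
    rintro ⟨r, i⟩
    have h1 : RatI (acl κ : Set Ω) (dI (X r)) := by
      have h2 : y r ∈ JK (T := T) (acl κ : Set Ω) :=
        JK_mono (T := T) (TIFT.le_acl κ) (h r)
      have h3 : RatI (acl κ : Set Ω) (rdc (y r)) := h2
      rwa [← hc r, (ind_Ns_inv hU hT (TIFT.small_kb k Ω) (indA_ind hi r) (hl r)).2] at h3
    exact (PK_iff_xx hT (acl κ) _).1 (PK_of_ratI hT (acl κ) h1 _ (List.get_mem _ _))
  have h1 : AlgebraicIndependent k (xf X) := by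
    have h2 : AlgebraicIndependent (kbF k Ω) (xf X) := hi
    exact h2.restrictScalars (algebraMap k (kbF k Ω)).injective
  have h2 : AlgebraicIndependent k fun p => (⟨xf X p, hmem p⟩ : acl κ) :=
    ((acl κ).val.algebraicIndependent_iff (acl κ).val.injective).1 h1
  have h3 := h2.cardinalMk_le_trdeg
  have h4 : Cardinal.mk (Σ r, Fin (X r).length) = ((gp T * Fintype.card ρ : ℕ) : Cardinal) := by
    rw [Cardinal.mk_fintype, Fintype.card_sigma]
    simp only [Fintype.card_fin, hl, Finset.sum_const, smul_eq_mul, Finset.card_univ]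
    rw [mul_comm]
  have h5 : Algebra.trdeg k (acl κ) = Algebra.trdeg k κ := by
    let _ : Algebra κ (acl κ) := (IntermediateField.inclusion (TIFT.le_acl κ)).toRingHom.toAlgebra
    have _ : IsScalarTower k κ (acl κ) := IsScalarTower.of_algebraMap_eq fun _ => rfl
    have _ : IsScalarTower κ (acl κ) Ω := IsScalarTower.of_algebraMap_eq fun _ => rfl
    have h6 : Algebra.IsAlgebraic κ (acl κ) := by
      refine ⟨fun y => ?_⟩
      exact (isAlgebraic_algHom_iff (IsScalarTower.toAlgHom κ (acl κ) Ω)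
        (algebraMap (acl κ) Ω).injective).1 (TIFT.mem_acl.1 y.2)
    have h7 := trdeg_add_eq k κ (A := acl κ)
    have h8 : Algebra.trdeg κ (acl κ) = 0 := trdeg_eq_zero
    rw [← h7, h8, add_zero]
  rw [← h4, ← h5]
  exact h3

/-- the field `trd` -/
theorem uni_trd [PerfectField k] (hU : Univ k Ω) (hT : Tk k T)
    (htors : ∀ n : ℕ, (n : k) ≠ 0 → ∀ D : ClassGroup (WB T), D ^ n = 1 →
      D ∈ JK (T := T) (TIF.kb k Ω)) (ℓ : ℕ) (hℓ : (ℓ : k) ≠ 0)
    (K : IntermediateField k Ω) (x x' : ρ → JJ hT) (κ : IntermediateField k Ω) (n : ℕ)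
    (hb : TIFG.kb k Ω ≤ K) (hx : GenA (kbF k Ω) fun r => ofJ (x r))
    (hxK : ∀ i, ofJ (x i) ∈ JK (T := T) (K : Set Ω)) (hx' : GenA K fun r => ofJ (x' r))
    (h : ∀ i, ofJ (ℓ ^ n • x i) ∈ JK (T := T) (κ : Set Ω))
    (h' : ∀ i, ofJ (ℓ ^ n • x' i) ∈ JK (T := T) (κ : Set Ω)) :
    ((2 * (gp T * Fintype.card ρ) : ℕ) : Cardinal) ≤ Algebra.trdeg k κ := by
  classical
  have h1 : GenA (kbF k Ω) (Sum.elim (fun r => ofJ (x r)) fun r => ofJ (x' r)) := by
    refine (genA_split hU hT (TIFT.small_kb k Ω)).2 ⟨hx, ?_⟩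
    refine genA_mono (acl_mono ?_) (genA_acl.2 hx')
    exact sup_le hb (iSup_le fun r => (mem_JK_iff hT K _).1 (hxK r))
  let y : ρ ⊕ ρ → JJ hT := Sum.elim x x'
  have h2 : (uni (ρ := ρ ⊕ ρ) hU hT htors).Gn (TIFG.kb k Ω) y := by
    have h3 : (fun r => ofJ (y r)) = Sum.elim (fun r => ofJ (x r)) fun r => ofJ (x' r) := by
      funext r
      rcases r with r | r <;> rfl
    show GenA (kbF k Ω) fun r => ofJ (y r)
    rw [h3]
    exact h1
  have hn : ((ℓ ^ n : ℕ) : k) ≠ 0 := by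
    rw [Nat.cast_pow]
    exact pow_ne_zero n hℓ
  have h4 := (uni (ρ := ρ ⊕ ρ) hU hT htors).gn_iso (nsmulAddMonoidHom (ℓ ^ n))
    (AddMonoidHom.id _) (fun σ z => (smul_comm (ℓ ^ n) σ z : _)) (fun σ z => rfl)
    ⟨ℓ ^ n, hn, fun z => rfl⟩ y h2
  have h5 := trd_gen hU hT (y := fun r => ofJ ((ℓ ^ n • y) r)) h4 κ (by
    rintro (r | r)
    · exact h r
    · exact h' r)
  have h6 : gp T * Fintype.card (ρ ⊕ ρ) = 2 * (gp T * Fintype.card ρ) := by
    rw [Fintype.card_sum]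
    ring
  rwa [h6] at h5

end trd

end TIFG
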