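import Mathlib
import Pool.Agent.TIFG.Defs
import Pool.Agent.TIF.EndADefs
import Pool.Agent.TIFT.U2c
import Pool.Agent.TIFT.U3
import Pool.Agent.TIFT.U5
import Pool.Agent.TIFT.VG2
import Pool.Agent.TIFS.W6

/-!
# [TIF] block THI: the theta functions `Tht` from block THETA
-/

set_option autoImplicit false
set_option linter.unusedSectionVars false
set_option linter.unusedVariables false

open IntermediateField Pool.Agent.TIFA GT TIF

namespace TIFG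

open Pool.Agent.TIFT (cl dI ev mP Nt Tr TD tmf tV tA HH Ns GenA kbF)

section bridge

variable {d : ℕ} [NeZero d] {κ : Type} [Field κ] {T : Tab κ d}

theorem dI_eq_iX (X : List (WB T →ₐ[κ] κ)) : dI X = Pool.Agent.TIFS.iX (X : Multiset _) := by
  rw [dI, Pool.Agent.TIFS.iX, Multiset.map_coe, Multiset.prod_coe]
  rfl

theorem ev_eq_ev (b : WB T) (X : List (WB T →ₐ[κ] κ)) :
    ev b X = Pool.Agent.TIFS.ev b (X : Multiset _) := by
  rw [ev, Pool.Agent.TIFS.ev, Multiset.map_coe, Multiset.prod_coe]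

variable [IsAlgClosed κ] [IsDedekindDomain (WB T)]

/-- the commutator is the pairing -/
theorem comm_eq_e {n : ℕ} {A A' : List (WB T →ₐ[κ] κ)} {f f' : WB T} (hf : Nt n A f)
    (hf' : Nt n A' f') (hdis : ∀ P ∈ A, P ∉ A') :
    (-1) ^ (n * A.length * A'.length) * ev f A' / ev f' A =
      Pool.Agent.TIFS.e n (cl A) (cl A') := by
  have h1 := Pool.Agent.TIFS.e_eq (N := n) (X := (A : Multiset _)) (Y := (A' : Multiset _)) hf.lc hf'.lc
    (by rw [Pool.Agent.TIFS.iX_nsmul, ← dI_eq_iX, hf.div])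
    (by rw [Pool.Agent.TIFS.iX_nsmul, ← dI_eq_iX, hf'.div])
    (fun P hP hP' => hdis P (Multiset.mem_coe.1 hP) (Multiset.mem_coe.1 hP'))
  rw [← dI_eq_iX, ← dI_eq_iX, ← ev_eq_ev, ← ev_eq_ev, Multiset.coe_card, Multiset.coe_card] at h1
  exact h1.symm

end bridge

variable {k Ω : Type} [Field k] [Field Ω] [Algebra k Ω] [IsAlgClosed Ω] {d : ℕ} [NeZero d]
  {T : Tab Ω d} [IsDedekindDomain (WB T)] {ρ : Type} [Fintype ρ]

/-- the classes of a point of `A` -/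
def mx {hT : Tk k T} (x : ρ → JJ hT) (r : ρ) : ClassGroup (WB T) := ofJ (x r)

theorem mx_add {hT : Tk k T} (x y : ρ → JJ hT) : mx (x + y) = mx x * mx y := rfl

theorem mx_smul {hT : Tk k T} (σ : Ω ≃ₐ[k] Ω) (x : ρ → JJ hT) :
    mx (σ • x) = fun r => act hT σ (mx x r) := rfl

theorem mx_nsmul {hT : Tk k T} (n : ℕ) (x : ρ → JJ hT) (r : ρ) : mx (n • x) r = mx x r ^ n := rfl

/-- the weight function of a translation -/
theorem op_one {K : IntermediateField k Ω} {n : ℕ} {b b' : ρ → ClassGroup (WB T)}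
    (t : Tr T ρ K n b) (t' : Tr T ρ K n b') (x : ρ → ClassGroup (WB T)) :
    t.op (t'.op fun _ => 1) x = tmf t.toTD x * tmf t'.toTD (x * b) := by
  rw [Tr.op, Tr.op, mul_one]

/-- the commutator of two translations -/
theorem tr_comm (hU : Univ k Ω) (hT : Tk k T) {K : IntermediateField k Ω} [IsAlgClosed K]
    (hK : Pool.Agent.TIFT.Small K) {n : ℕ} (hn : 0 < n) {b b' : ρ → ClassGroup (WB T)}
    (hb' : ∀ r, b' r ^ n = 1) (hbK' : ∀ r, b' r ∈ JK (T := T) (K : Set Ω))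
    (t : Tr T ρ K n b) (t' : Tr T ρ K n b') (x : ρ → ClassGroup (WB T)) :
    tmf t.toTD x * tmf t'.toTD (x * b) =
      (∏ r, Pool.Agent.TIFS.e n (b r) (b' r)) * (tmf t'.toTD x * tmf t.toTD (x * b')) := by
  obtain ⟨t'', ht''⟩ := Pool.Agent.TIFT.exists_Tr hT K hb' hbK' (Finset.univ.toList.flatMap t.A)
  have hdis : ∀ r, ∀ P ∈ t.A r, P ∉ t''.A r := by
    intro r P hP hP'
    apply ht'' r P hP'
    exact List.mem_flatMap.2 ⟨r, Finset.mem_toList.2 (Finset.mem_univ r), hP⟩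
  obtain ⟨c, -, hc, hcc⟩ := Pool.Agent.TIFT.Tr.op_congr hU hT hK hn t'' t'
  have h1 := congrFun (Pool.Agent.TIFT.Tr.op_comm hU hT hK hn t t'' hdis fun _ => 1) x
  rw [op_one, Pi.smul_apply, smul_eq_mul, op_one] at h1
  have h2 : ∀ r, (-1 : Ω) ^ (n * (t.A r).length * (t''.A r).length) *
      ev (t.h r) (t''.A r) / ev (t''.h r) (t.A r) = Pool.Agent.TIFS.e n (b r) (b' r) := by
    intro r
    rw [comm_eq_e (t.nt r) (t''.nt r) (hdis r), t.cl_eq, t''.cl_eq]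
  rw [Finset.prod_congr rfl fun r _ => h2 r] at h1
  have h3 : ∀ y, tmf t'.toTD y = c * tmf t''.toTD y := by
    intro y
    have := congrFun (hcc fun _ => 1) y
    rwa [Pi.smul_apply, smul_eq_mul, Tr.op, Tr.op, mul_one, mul_one] at this
  rw [h3, h3, mul_left_comm, h1]
  ring

/-- **THI**: the theta functions. -/
theorem exists_tht (hU : Univ k Ω) (hT : Tk k T) (ℓ : ℕ) [Fact ℓ.Prime] (hℓ : (ℓ : k) ≠ 0)
    (htors : ∀ n (D : ClassGroup (WB T)), D ^ ℓ ^ n = 1 → D ∈ JK (T := T) (TIF.kb k Ω))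
    (U : Uni k Ω (JJ hT) ρ)
    (hGn : ∀ x : ρ → JJ hT, U.Gn (TIFG.kb k Ω) x ↔ GenA (kbF k Ω) (mx x)) :
    ∃ H : Tht U ℓ (eJ hT ℓ Pool.Agent.TIFS.e), (∀ V x, H.Th V x = tA k V (mx x)) ∧
      ∀ n b, ℓ ^ n • b = 0 → ∃ t : Tr T ρ (kbF k Ω) (ℓ ^ n) (mx b), ∀ x, H.cc n b x = tmf t.toTD (mx x) := by
  classical
  have hac : IsAlgClosed (kbF k Ω) := IsAlgClosure.isAlgClosed k
  have hs : Pool.Agent.TIFT.Small (kbF k Ω) := Pool.Agent.TIFT.small_kb k Ω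
  have hkb : ((kbF k Ω : IntermediateField k Ω) : Set Ω) = TIF.kb k Ω := by
    ext x
    exact mem_algebraicClosure_iff
  have htor : ∀ (n : ℕ) (b : ρ → JJ hT), ℓ ^ n • b = 0 → (∀ r, mx b r ^ ℓ ^ n = 1) ∧
      ∀ r, mx b r ∈ JK (T := T) ((kbF k Ω : IntermediateField k Ω) : Set Ω) := by
    intro n b hb
    have h1 : ∀ r, mx b r ^ ℓ ^ n = 1 := fun r => congrFun (congrArg mx hb) r
    exact ⟨h1, fun r => by rw [hkb]; exact htors n _ (h1 r)⟩
  have hex : ∀ (n : ℕ) (b : ρ → JJ hT), ℓ ^ n • b = 0 → Nonempty (Tr T ρ (kbF k Ω) (ℓ ^ n) (mx b)) := by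
    intro n b hb
    obtain ⟨t, -⟩ := Pool.Agent.TIFT.exists_Tr hT (kbF k Ω) (htor n b hb).1 (htor n b hb).2 []
    exact ⟨t⟩
  let tt : ∀ (n : ℕ) (b : ρ → JJ hT), ℓ ^ n • b = 0 → Tr T ρ (kbF k Ω) (ℓ ^ n) (mx b) :=
    fun n b hb => (hex n b hb).some
  let cc : ℕ → (ρ → JJ hT) → (ρ → JJ hT) → Ω := fun n b x =>
    if hb : ℓ ^ n • b = 0 then tmf (tt n b hb).toTD (mx x) else 1
  have hcc : ∀ n b (hb : ℓ ^ n • b = 0), cc n b = fun x => tmf (tt n b hb).toTD (mx x) := by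
    intro n b hb
    funext x
    exact dif_pos hb
  have hVk : ∀ V : ValuationSubring Ω, Pl k Ω V → ∀ c : k, algebraMap k Ω c ∈ V := fun V hV c =>
    hV _ ((kbF k Ω).algebraMap_mem c)
  have th_ne : ∀ V, Pl k Ω V → ∀ x, U.Gn (TIFG.kb k Ω) x → tA k V (mx x) ≠ 0 := by
    intro V hV x hx
    rw [tA, Finset.prod_ne_zero_iff]
    intro r _
    exact (Pool.Agent.TIFT.tV_ne_zero_iff hT (hVk V hV) _).2
      (Pool.Agent.TIFT.genA_Ns hU hT hs ((hGn x).1 hx) r).1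
  have th_le : ∀ V, Pl k Ω V → ∀ x : ρ → JJ hT, tA k V (mx x) ≤ 1 := by
    intro V hV x
    rw [tA]
    exact Finset.prod_le_one' fun r _ => Pool.Agent.TIFT.tV_le_one hT (hVk V hV) _
  have cc_fn : ∀ (n : ℕ) (b : ρ → JJ hT), ℓ ^ n • b = 0 → U.Fnu (cc n b) := by
    intro n b hb
    rw [hcc n b hb]
    refine ⟨fun x hx => Pool.Agent.TIFT.tmf_ne hU hT hs _ ((hGn x).1 hx), fun σ hσ x hx => ?_⟩
    have h1 : tmf (tt n b hb).toTD ∈ HH T ρ (kbF k Ω) (ℓ ^ n) := Submodule.subset_span ⟨_, rfl⟩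
    exact Pool.Agent.TIFT.equ_HH hT h1 σ
      (fun c hc => (mem_fixingSubgroup_iff _ _ |>.1 hσ) c hc) (mx x)
  have cc_val : ∀ (n : ℕ) (b : ρ → JJ hT), ℓ ^ n • b = 0 → ∀ V, Pl k Ω V → ∀ x,
      U.Gn (TIFG.kb k Ω) x →
      V.valuation (cc n b x) * tA k V (mx x) ^ ℓ ^ n = tA k V (mx (x + b)) ^ ℓ ^ n := by
    intro n b hb V hV x hx
    rw [hcc n b hb]
    have h1 := Pool.Agent.TIFT.val_tmf hT hV (tt n b hb).toTD ((hGn x).1 hx)
    refine h1.trans ?_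
    rw [tA, ← Finset.prod_pow]
    refine Finset.prod_congr rfl fun r _ => ?_
    rw [Finset.prod_congr rfl fun i _ => by
      rw [(tt n b hb).eq r i, (tt n b hb).cl_eq r], Finset.prod_const, Finset.card_univ,
      Fintype.card_fin, mx_add, Pi.mul_apply, mul_comm (mx x r)]
  have cc_com : ∀ (n : ℕ) (b b' : ρ → JJ hT), ℓ ^ n • b = 0 → ℓ ^ n • b' = 0 → ∀ x,
      U.Gn (TIFG.kb k Ω) x → cc n b x * cc n b' (x + b) =
        eA (eJ hT ℓ Pool.Agent.TIFS.e) n b b' ^ (1 : ℤ) * (cc n b' x * cc n b (x + b')) := by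
    intro n b b' hb hb' x hx
    rw [hcc n b hb, hcc n b' hb', zpow_one]
    exact tr_comm hU hT hs (pow_pos (Fact.out : ℓ.Prime).pos n) (htor n b' hb').1 (htor n b' hb').2 (tt n b hb) (tt n b' hb') (mx x)
  exact ⟨⟨fun V x => tA k V (mx x), cc, 1, hℓ, th_ne, th_le, cc_fn, cc_val, Or.inl rfl, cc_com⟩,
    fun V x => rfl, fun n b hb => ⟨tt n b hb, fun x => congrFun (hcc n b hb) x⟩⟩

end TIFG
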