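import Mathlib
import Pool.Agent.TIFG.Spc
import Pool.Agent.TIFG.G2
import Pool.Agent.TIFG.Uni
import Pool.Agent.TIFG.Thi
import Pool.Agent.TIFT.VG2
import Pool.Agent.TIFT.U3
import Pool.Agent.TIFT.U10
import Pool.Agent.TIFT.U9
import Pool.Agent.TIFT.U8
import Pool.Agent.TIFT.U7
import Pool.Agent.TIFT.U5
import Pool.Agent.TIFT.U4
import Pool.Agent.TIFT.U3
import Pool.Agent.TIFT.U2c
import Pool.Agent.TIFT.CM
import Pool.Agent.TIFT.PD4
import Pool.Agent.TIFT.BPF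
import Pool.Agent.TIFG.SpiT
import Pool.Agent.TIFX.R8

/-!
# [TIF] block SPI: the instance of `Spc`, easy fields
-/

set_option autoImplicit false
set_option linter.unusedSectionVars false
set_option linter.unusedVariables false

open IntermediateField Pool.Agent.TIFA GT TIF

namespace TIFG

open Pool.Agent Pool.Agent.TIFT

variable {k Ω : Type} [Field k] [Field Ω] [Algebra k Ω] [IsAlgClosed Ω] {d : ℕ} [NeZero d]
  {T : Tab Ω d} [IsDedekindDomain (WB T)] {ρ : Type} [Fintype ρ] {hT : Tk k T}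

/-- the space `HH` as functions on `ρ → JJ hT` -/
noncomputable def HJ (hT : Tk k T) (ρ : Type) [Fintype ρ] (m : ℕ) :
    Submodule (TIFG.kb k Ω) ((ρ → JJ hT) → Ω) :=
  (HH T ρ (kbF k Ω) m).map (LinearMap.funLeft (kbF k Ω) Ω (mx (hT := hT) (ρ := ρ)))

theorem mem_HJ {m : ℕ} {F : (ρ → JJ hT) → Ω} :
    F ∈ HJ hT ρ m ↔ ∃ G ∈ HH T ρ (kbF k Ω) m, ∀ x, F x = G (mx x) := by
  constructor
  · rintro ⟨G, hG, rfl⟩
    exact ⟨G, hG, fun x => rfl⟩
  · rintro ⟨G, hG, h⟩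
    exact ⟨G, hG, funext fun x => (h x).symm⟩

/-- every tuple of classes is `mx` of a tuple -/
theorem mx_surj (x : ρ → ClassGroup (WB T)) : ∃ y : ρ → JJ hT, mx y = x :=
  ⟨fun r => toJ hT (x r), rfl⟩

theorem HJ_fin (hU : Univ k Ω) (hT : Tk k T) (m : ℕ) : FiniteDimensional (TIFG.kb k Ω) (HJ hT ρ m) := by
  have hac : IsAlgClosed (kbF k Ω) := IsAlgClosure.isAlgClosed k
  have h1 := (finrank_HH (ρ := ρ) hU hT (Pool.Agent.TIFT.small_kb k Ω) m).1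
  exact Module.Finite.map _ _

theorem HJ_card (hU : Univ k Ω) (hT : Tk k T) (m : ℕ) :
    Module.finrank (TIFG.kb k Ω) (HJ hT ρ m) ≤ (m * gp T + 1) ^ (gp T * Fintype.card ρ) := by
  have hac : IsAlgClosed (kbF k Ω) := IsAlgClosure.isAlgClosed k
  obtain ⟨h1, h2⟩ := finrank_HH (ρ := ρ) hU hT (Pool.Agent.TIFT.small_kb k Ω) m
  exact (Submodule.finrank_map_le _ _).trans h2

section

variable (hU : Univ k Ω) (hT : Tk k T)

theorem HJ_supp (m : ℕ) (F : (ρ → JJ hT) → Ω) (hF : F ∈ HJ hT ρ m) (x : ρ → JJ hT)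
    (hx : ¬ GenA (kbF k Ω) (mx x)) : F x = 0 := by
  obtain ⟨G, hG, h⟩ := mem_HJ.1 hF
  rw [h, HH_not hG hx]

theorem HJ_ne (hU : Univ k Ω) (hT : Tk k T) (m : ℕ) : ∃ F ∈ HJ hT ρ m, F ≠ 0 := by
  obtain ⟨x, hx⟩ := exists_genA (ρ := ρ) hU T (Pool.Agent.TIFT.small_kb k Ω)
  classical
  refine ⟨_, mem_HJ.2 ⟨_, one_mem_HH hT ρ (kbF k Ω) m, fun x => rfl⟩, fun h => ?_⟩
  have h1 := congrFun h (fun r => toJ hT (x r))
  have h2 : mx (hT := hT) (fun r => toJ hT (x r)) = x := rfl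
  simp only [h2, Pi.zero_apply] at h1
  rw [if_pos hx] at h1
  exact one_ne_zero h1

theorem HJ_mul (m m' : ℕ) (F : (ρ → JJ hT) → Ω) (hF : F ∈ HJ hT ρ m) (F' : (ρ → JJ hT) → Ω)
    (hF' : F' ∈ HJ hT ρ m') : F * F' ∈ HJ hT ρ (m + m') := by
  obtain ⟨G, hG, h⟩ := mem_HJ.1 hF
  obtain ⟨G', hG', h'⟩ := mem_HJ.1 hF'
  refine mem_HJ.2 ⟨_, mul_mem_HH hT hG hG', fun x => ?_⟩
  rw [Pi.mul_apply, Pi.mul_apply, h, h']

theorem HJ_cast {m m' : ℕ} (h : m = m') {F : (ρ → JJ hT) → Ω} (hF : F ∈ HJ hT ρ m) :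
    F ∈ HJ hT ρ m' := h ▸ hF

theorem HJ_hon (hU : Univ k Ω) (m : ℕ) (F : (ρ → JJ hT) → Ω) (hF : F ∈ HJ hT ρ m)
    (K : IntermediateField k Ω) (hK : kbF k Ω ≤ K) (x : ρ → JJ hT) (hx : GenA (kbF k Ω) (mx x))
    (hxK : ∀ i, ofJ (x i) ∈ JK (T := T) (K : Set Ω)) : F x ∈ K := by
  obtain ⟨G, hG, h⟩ := mem_HJ.1 hF
  rw [h]
  exact val_HH hU hT (Pool.Agent.TIFT.small_kb k Ω) hK hG hx hxK

theorem HJ_conj (m : ℕ) (F : (ρ → JJ hT) → Ω) (hF : F ∈ HJ hT ρ m) (σ : Ω ≃ₐ[k] Ω) :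
    cj σ F ∈ HJ hT ρ m := by
  obtain ⟨G, hG, h⟩ := mem_HJ.1 hF
  have h1 : ∀ τ : Ω ≃ₐ[k] Ω, ∀ c ∈ kbF k Ω, τ c ∈ kbF k Ω := by
    intro τ c hc
    rw [mem_algebraicClosure_iff] at hc ⊢
    exact hc.algHom (τ : Ω →ₐ[k] Ω)
  refine mem_HJ.2 ⟨_, conj_HH hT hG σ (h1 σ) (h1 σ.symm), fun x => ?_⟩
  rw [cj, h]
  rfl

end

section uni

variable [PerfectField k] (hU : Univ k Ω) (hT : Tk k T)
  (htors : ∀ n : ℕ, (n : k) ≠ 0 → ∀ D : ClassGroup (WB T), D ^ n = 1 →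
    D ∈ JK (T := T) (TIF.kb k Ω))

theorem HJ_fn (m : ℕ) (F : (ρ → JJ hT) → Ω) (hF : F ∈ HJ hT ρ m) (h0 : F ≠ 0) :
    (uni (ρ := ρ) hU hT htors).Fnu F := by
  obtain ⟨G, hG, h⟩ := mem_HJ.1 hF
  constructor
  · intro x hx h1
    apply h0
    rw [h] at h1
    have h2 := zero_HH hU hT (Pool.Agent.TIFT.small_kb k Ω) hG hx h1
    funext y
    rw [h, h2]
    rfl
  · intro σ hσ x hx
    rw [h, h]
    exact equ_HH hT hG σ (fun c hc => (IntermediateField.mem_fixingSubgroup_iff _ _).1 hσ c hc) (mx x)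

variable {ℓ : ℕ} [Fact ℓ.Prime] (H : Tht (uni (ρ := ρ) hU hT htors) ℓ (eJ hT ℓ Pool.Agent.TIFS.e))
  (hTh : ∀ V x, H.Th V x = tA k V (mx x))
  (hcc : ∀ n b, ℓ ^ n • b = 0 → ∃ t : Tr T ρ (kbF k Ω) (ℓ ^ n) (mx b),
    ∀ x, H.cc n b x = tmf t.toTD (mx x))

include hTh in
theorem HJ_le (m : ℕ) (F : (ρ → JJ hT) → Ω) (hF : F ∈ HJ hT ρ m) (V : ValuationSubring Ω)
    (hV : Pl k Ω V) (x : ρ → JJ hT) : V.valuation (F x) * H.Th V x ^ m ≤ 1 := by
  obtain ⟨G, hG, h⟩ := mem_HJ.1 hF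
  rw [h, hTh]
  exact val_le hT hV hG (mx x)

include hcc in
theorem HJ_tr (hℓ : 0 < ℓ) (n : ℕ) (b : ρ → JJ hT) (hb : ℓ ^ n • b = 0) (F : (ρ → JJ hT) → Ω)
    (hF : F ∈ HJ hT ρ (ℓ ^ n)) : (fun x => H.cc n b x * F (x + b)) ∈ HJ hT ρ (ℓ ^ n) := by
  have hac : IsAlgClosed (kbF k Ω) := IsAlgClosure.isAlgClosed k
  obtain ⟨G, hG, h⟩ := mem_HJ.1 hF
  obtain ⟨t, ht⟩ := hcc n b hb
  refine mem_HJ.2 ⟨_, Tr.op_mem hU hT (Pool.Agent.TIFT.small_kb k Ω) (pow_pos hℓ n) t hG,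
    fun x => ?_⟩
  rw [ht, h]
  rfl

/-- the families -/
theorem za_of_z0 {n : ℕ} {a : Fin n → ρ → JJ hT} (ha : Z0 (uni (ρ := ρ) hU hT htors) a) :
    Za k (fun j => mx (a j)) := by
  constructor
  · intro j r
    exact ha.rt j r
  · have h := congrArg (mx (hT := hT) (ρ := ρ)) ha.sum
    have h1 : ∀ s : Finset (Fin n), mx (hT := hT) (∑ j ∈ s, a j) = ∏ j ∈ s, mx (a j) := by
      classical
      intro s
      induction s using Finset.induction_on with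
      | empty => rfl
      | insert i s hi ih => rw [Finset.sum_insert hi, Finset.prod_insert hi, mx_add, ih]
    rw [h1] at h
    exact h

/-- the theta monomials -/
noncomputable def CJ (hT : Tk k T) (ρ : Type) [Fintype ρ] (n : ℕ) (a : Fin n → ρ → JJ hT)
    (x : ρ → JJ hT) : Ω := Cmm k n (fun j => mx (a j)) (mx x)

/-- **The instance of `Spc`.** -/
theorem exists_spc (hℓ : (ℓ : k) ≠ 0) (hTh : ∀ V x, H.Th V x = tA k V (mx x))
    (hcc : ∀ n b, ℓ ^ n • b = 0 → ∃ t : Tr T ρ (kbF k Ω) (ℓ ^ n) (mx b),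
      ∀ x, H.cc n b x = tmf t.toTD (mx x)) :
    Nonempty (Spc H (gp T) d (nT T + 3 * gp T)) := by
  have hℓ0 : 0 < ℓ := (Fact.out : ℓ.Prime).pos
  have hac : IsAlgClosed (kbF k Ω) := IsAlgClosure.isAlgClosed k
  have hact : ∀ (σ : Ω ≃ₐ[k] Ω) {n : ℕ} {a : Fin n → ρ → JJ hT},
      Z0 (uni (ρ := ρ) hU hT htors) a → Z0 (uni (ρ := ρ) hU hT htors) (fun j => σ • a j) := by
    intro σ n a ha
    constructor
    · intro j i
      have h1 := (uni (ρ := ρ) hU hT htors).rt_map σ _ _ (ha.rt j i)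
      rwa [kb_map] at h1
    · rw [← Finset.smul_sum, ha.sum, smul_zero]
  refine ⟨{
    HH := HJ hT ρ
    supp := fun m F hF x hx => HJ_supp hT m F hF x hx
    fin := fun m => HJ_fin hU hT m
    card := fun m => HJ_card hU hT m
    ne := fun m => HJ_ne hU hT m
    mul := fun m m' F hF F' hF' => HJ_mul hT m m' F hF F' hF'
    fn := fun m F hF h0 => HJ_fn hU hT htors m F hF h0
    hon := fun m F hF K hK x hx hxK => HJ_hon hT hU m F hF K hK x hx hxK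
    le := fun m F hF V hV x hx => HJ_le hU hT htors H hTh m F hF V hV x
    tr := fun n b hb F hF => HJ_tr hU hT htors H hcc hℓ0 n b hb F hF
    conj := fun m F hF σ => HJ_conj hT m F hF σ
    cont := ?_
    cc_conj := ?_
    Cm := fun n a => CJ hT ρ n a
    cm_mem := ?_
    cm_ne := ?_
    cm_val := ?_
    cm_pr := ?_
    cm_conj := ?_
    cm_cc := ?_
    bpf := ?_
    rat := ?_
    pd := ?_
    trd := ?_ }⟩
  · -- cont
    intro m F hF
    obtain ⟨G, hG, h⟩ := mem_HJ.1 hF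
    obtain ⟨S, hS, hS'⟩ := cont_HH hT hG
    refine ⟨S, hS, fun σ hσ => funext fun x => ?_⟩
    have h1 := hS' σ hσ (mx (σ⁻¹ • x))
    rw [cj, h, h, ← h1]
    congr 1
    have h2 : mx (σ • (σ⁻¹ • x)) = mx x := by rw [smul_inv_smul]
    exact h2
  · -- cc_conj
    intro n b hb σ
    obtain ⟨t, ht⟩ := hcc n b hb
    have hb' : ℓ ^ n • (σ • b) = 0 := by rw [← smul_comm, hb, smul_zero]
    obtain ⟨t', ht'⟩ := hcc n (σ • b) hb'
    obtain ⟨c, hc, hc0, h⟩ := Pool.Agent.TIFT.cc_conj hU hT (σ := σ) t t'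
    refine ⟨c, hc, hc0, fun x _ => ?_⟩
    rw [cj, ht, ht', ← h]
    rfl
  · -- cm_mem
    intro n a ha
    exact mem_HJ.2 ⟨_, cmm_mem hT (za_of_z0 hU hT htors ha), fun x => rfl⟩
  · -- cm_ne
    intro n a ha h0
    apply cmm_ne' hU hT (za_of_z0 hU hT htors ha)
    funext x
    obtain ⟨y, rfl⟩ := mx_surj (hT := hT) x
    exact congrFun h0 y
  · -- cm_val
    intro n a ha V hV x hx
    obtain ⟨D, h1, h2⟩ := cmm_eq hT (za_of_z0 hU hT htors ha)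
    have h3 := val_tmf hT hV D (x := mx x) hx
    change V.valuation (Cmm k n (fun j => mx (a j)) (mx x)) * _ = _
    rw [h2, hTh, h3, Finset.prod_comm]
    refine Finset.prod_congr rfl fun j _ => ?_
    rw [hTh, tA]
    refine Finset.prod_congr rfl fun r _ => ?_
    rw [h1, mx_add, Pi.mul_apply, mul_comm]
  · -- cm_pr
    intro n a ha hn m F hF
    choose G hG h using fun i => mem_HJ.1 (hF i)
    refine mem_HJ.2 ⟨_, cmm_pr hU hT (za_of_z0 hU hT htors ha) (Or.inl hn) G hG, fun x => ?_⟩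
    simp only [h, mx_add]
    rfl
  · -- cm_conj
    intro n a ha σ
    obtain ⟨c, hc, hc0, h⟩ := cmm_conj hU hT (σ := σ) (za_of_z0 hU hT htors ha)
      (za_of_z0 hU hT htors (hact σ ha))
    exact ⟨c, hc, hc0, fun x _ => h (mx x)⟩
  · -- cm_cc
    intro m a ha n t ht x hx
    obtain ⟨t', ht'⟩ := hcc n t ht
    have h := cmm_cc hU hT (za_of_z0 hU hT htors ha) (pow_pos hℓ0 n) t' (x := mx x) hx
    rw [ht']
    simp only [ht']
    exact h
  · -- bpf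
    intro m F hF h0 V hV x hx
    obtain ⟨G, hG, h⟩ := mem_HJ.1 hF
    have hG0 : G ≠ 0 := by
      rintro rfl
      exact h0 (funext fun y => h y)
    obtain ⟨a, ha1, ha2, ha'⟩ := Pool.Agent.TIFT.bpf hU hT hG hG0 hV (x := mx x) hx
    refine ⟨fun j r => toJ hT (a j r), ⟨fun j i => ha1 j i, ?_⟩, fun j => ?_⟩
    · funext r
      have h1 := congrFun ha2 r
      rw [Finset.prod_apply] at h1
      rw [Finset.sum_apply]
      exact h1
    · rw [h, hTh]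
      exact ha' j
  · -- rat
    intro N s hs h0 w hw κ hκ ha i
    obtain ⟨G, hG, h⟩ := mem_HJ.1 hs
    have hG0 : G ≠ 0 := by
      rintro rfl
      exact h0 (funext fun y => h y)
    have hd : 0 < d := Nat.pos_of_ne_zero (NeZero.ne d)
    refine Pool.Agent.TIFX.rat_cmm hU hT hG hG0 (x := mx w) hw hκ (n := 3 * d) (by omega)
      (fun a hza => ?_) i
    have h1 := ha (fun j r => toJ hT (a j r)) ⟨fun j i => hza.mem j i, by
      funext r
      have h1 := congrFun hza.prod r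
      rw [Finset.prod_apply] at h1
      rw [Finset.sum_apply]
      exact h1⟩
    simp only [h] at h1
    exact h1
  · -- pd
    intro K x x' a hKs hK hx hxK hx' ha m₁ m₂ m₃ n z hz h
    refine pd hU hT hK (x := mx x) (x' := mx x') (a := mx a) hx hxK hx' ha m₁ m₂ m₃ n z hz
      fun j => ?_
    refine Submodule.span_mono ?_ (h j)
    rintro _ ⟨f, hf, f', hf', f'', hf'', rfl⟩
    obtain ⟨G, hG, e1⟩ := mem_HJ.1 hf
    obtain ⟨G', hG', e2⟩ := mem_HJ.1 hf'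
    obtain ⟨G'', hG'', e3⟩ := mem_HJ.1 hf''
    refine ⟨G, hG, G', hG', G'', hG'', ?_⟩
    rw [e1, e2, e3, mx_add, mx_add]
  · -- trd
    intro K x x' κ n hKs hK hx hxK hx' h h'
    exact uni_trd hU hT htors ℓ hℓ K x x' κ n hK hx hxK hx' h h'

end uni

end TIFG
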