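import Mathlib
import Pool.Agent.TIFG.G10

/-!
# [TIF] block PIG, group part, row G11

`A = ρ → J`, `x ∈ A(K)` means `∀ i, x i ∈ U.Rt K`; 'generic' = `U.Gn (kb k Ω)`; `V(·)` = `V.valuation`;
`A_V(x) = V(s x) Th(x)^{ℓ^{2c}}`.
-/

set_option autoImplicit false
set_option linter.unusedSectionVars false
set_option linter.unusedVariables false

open IntermediateField Pool.Agent.TIFA

namespace TIFG

variable {k Ω J : Type} [Field k] [Field Ω] [Algebra k Ω] [IsAlgClosed Ω] [AddCommGroup J]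
  [DistribMulAction (Ω ≃ₐ[k] Ω) J] {ρ : Type} [Fintype ρ] [DecidableEq ρ]
  {U : Uni k Ω J ρ} {ℓ : ℕ} [Fact ℓ.Prime] {e : ℕ → J → J → Ω} {H : Tht U ℓ e}

variable {L L' : Lag ℓ (Ω ≃ₐ[k] Ω) ρ e} {m₀ D N₀ e₀ : ℕ} {y y' : Fin D → (ρ → J) → Ω}
  {s s' : (ρ → J) → Ω} {c₀ c₀' : ρ → J}

theorem G11_le {Γ : Type} [LinearOrderedCommGroupWithZero Γ] {a A B : Γ} (h1 : a * A = 1)
    (h2 : a * B ≤ 1) : B ≤ A := by
  have ha : a ≠ 0 := left_ne_zero_of_mul_eq_one h1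
  have h3 : a * B ≤ a * A := by rw [h1]; exact h2
  have h4 := mul_le_mul_right h3 a⁻¹
  rwa [inv_mul_cancel_left₀ ha, inv_mul_cancel_left₀ ha] at h4

/-- values at corresponding points. Let `A, B` be the two sides. By `LD.val` (for `y` at `u`, for `y'` at `v`) and
`y_j(u) = y'_j(v)`: `V(y_j u) A^{m₀} ≤ 1` for all `j`, `= 1` for one, and the same with `B`; so `A^{m₀} = B^{m₀}`. -/
theorem val_eq (hm : 0 < m₀) (hy : LD H L m₀ D N₀ e₀ y s c₀) (hy' : LD H L' m₀ D N₀ e₀ y' s' c₀')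
    (u v : ρ → J) (h : R0 U y y' u v) (V : ValuationSubring Ω) (hV : Pl k Ω V) :
    V.valuation (s (u + c₀)) * H.Th V (u + c₀) ^ ℓ ^ (2 * L.c) =
      V.valuation (s' (v + c₀')) * H.Th V (v + c₀') ^ ℓ ^ (2 * L'.c) := by
  obtain ⟨hu, hv, huv⟩ := h
  obtain ⟨h1, j, h2⟩ := hy.val V hV u hu
  obtain ⟨h3, j', h4⟩ := hy'.val V hV v hv
  have h5 := h3 j
  rw [← huv j] at h5
  have h6 := h1 j'
  rw [huv j'] at h6
  have h7 := le_antisymm (G11_le h4 h6) (G11_le h2 h5)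
  exact (pow_left_inj₀ zero_le zero_le hm.ne').1 h7

/-- the values of `G_b` (`cc_val`) -/
theorem GG_val (hy : LD H L m₀ D N₀ e₀ y s c₀) (m : ℕ) (b u : ρ → J) (hb : ℓ ^ (m + 2 * L.c) • b = 0)
    (hu : U.Gn (kb k Ω) u) (V : ValuationSubring Ω) (hV : Pl k Ω V) :
    V.valuation (GG H s c₀ L.c m b u) *
        (V.valuation (s (u + c₀)) * H.Th V (u + c₀) ^ ℓ ^ (2 * L.c)) ^ ℓ ^ m =
      (V.valuation (s (b + u + c₀)) * H.Th V (b + u + c₀) ^ ℓ ^ (2 * L.c)) ^ ℓ ^ m := by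
  obtain ⟨n, hn⟩ := hy.c_tors
  have hg : U.Gn (kb k Ω) (u + c₀) := gn_tors H hn hu
  have hs : V.valuation (s (u + c₀)) ≠ 0 := (Valuation.ne_zero_iff _).2 (hy.s_fn.ne _ hg)
  have hc := H.cc_val (m + 2 * L.c) b hb V hV (u + c₀) hg
  have he : b + u + c₀ = u + c₀ + b := by abel
  rw [he]
  unfold GG
  rw [map_mul, map_pow, map_div₀, mul_pow, mul_pow, ← pow_mul, ← pow_mul, ← pow_add,
    Nat.add_comm (2 * L.c) m, ← hc, div_pow]
  have hs2 : V.valuation (s (u + c₀)) ^ ℓ ^ m ≠ 0 := pow_ne_zero _ hs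
  field_simp

/-- `G_b` is a function without zeros which commutes with the automorphisms over `kb` -/
theorem GG_fn (hy : LD H L m₀ D N₀ e₀ y s c₀) (m : ℕ) (b : ρ → J) (hb : ℓ ^ (m + 2 * L.c) • b = 0) :
    U.Fnu (fun u => GG H s c₀ L.c m b u) := by
  obtain ⟨n, hn⟩ := hy.c_tors
  have hg : ∀ u, U.Gn (kb k Ω) u → U.Gn (kb k Ω) (u + c₀) := fun u hu => gn_tors H hn hu
  have hgb : ∀ u, U.Gn (kb k Ω) u → U.Gn (kb k Ω) (u + c₀ + b) := fun u hu =>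
    gn_tors H hb (hg u hu)
  refine ⟨fun u hu => ?_, fun σ hσ u hu => ?_⟩
  · exact mul_ne_zero (pow_ne_zero _ (div_ne_zero (hy.s_fn.ne _ (hgb u hu))
      (hy.s_fn.ne _ (hg u hu)))) ((H.cc_fn _ b hb).ne _ (hg u hu))
  · have h1 : σ • u + c₀ = σ • (u + c₀) := by
      rw [smul_add, fix_tors (U := U) H hn σ hσ]
    have h2 : σ • u + c₀ + b = σ • (u + c₀ + b) := by
      rw [smul_add σ (u + c₀) b, fix_tors (U := U) H hb σ hσ, h1]
    show GG H s c₀ L.c m b (σ • u) = σ (GG H s c₀ L.c m b u)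
    unfold GG
    rw [h2, h1, hy.s_fn.equ σ hσ _ (hgb u hu), hy.s_fn.equ σ hσ _ (hg u hu),
      (H.cc_fn _ b hb).equ σ hσ _ (hg u hu), map_mul, map_pow, map_div₀]

end TIFG
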