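import Mathlib
import Pool.Agent.TIFG.G11

/-!
# [TIF] block PIG, group part, row G12

`A = ρ → J`, `x ∈ A(K)` means `∀ i, x i ∈ U.Rt K`; 'generic' = `U.Gn (kb k Ω)`; `V(·)` = `V.valuation`;
`A_V(x) = V(s x) Th(x)^{ℓ^{2c}}`.
-/

set_option autoImplicit false
set_option linter.unusedSectionVars false
set_option linter.unusedVariables false

open IntermediateField Pool.Agent.TIFA

namespace TIFG

variable {k Ω J : Type} [Field k] [Field Ω] [Algebra k Ω] [IsAlgClosed Ω] [AddCommGroup J]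
  [DistribMulAction (Ω ≃ₐ[k] Ω) J] {ρ : Type} [Fintype ρ] [DecidableEq ρ]
  {U : Uni k Ω J ρ} {ℓ : ℕ} [Fact ℓ.Prime] {e : ℕ → J → J → Ω} {H : Tht U ℓ e}

variable {L L' : Lag ℓ (Ω ≃ₐ[k] Ω) ρ e} {m₀ D N₀ e₀ : ℕ} {y y' : Fin D → (ρ → J) → Ω}
  {s s' : (ρ → J) → Ω} {c₀ c₀' : ρ → J}

/-- points killed by `ℓ ^ m` modulo `D` are torsion -/
theorem G12_tors (L : Lag ℓ (Ω ≃ₐ[k] Ω) ρ e) {m : ℕ} {b : ρ → J} (hb : ℓ ^ m • b ∈ L.D) :
    ℓ ^ (m + 2 * L.c) • b = 0 := by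
  have h := lag_tors (k := k) L hb
  rw [smul_smul, ← pow_add, add_comm] at h
  exact h

theorem G12_lag_tors (L : Lag ℓ (Ω ≃ₐ[k] Ω) ρ e) (m : ℕ) {t : ρ → J} (ht : t ∈ L.D) :
    ℓ ^ (m + 2 * L.c) • t = 0 := by
  have h := lag_tors (k := k) L ht
  rw [pow_add, mul_smul, h, smul_zero]

theorem G12_eA (hcomp : ∀ m n x y, ℓ ^ n • x = 0 → ℓ ^ (m + n) • y = 0 →
      e (m + n) x y = e n x (ℓ ^ m • y))
    (L : Lag ℓ (Ω ≃ₐ[k] Ω) ρ e) (m : ℕ) {b t : ρ → J} (hb : ℓ ^ m • b ∈ L.D) (ht : t ∈ L.D) :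
    eA e (m + 2 * L.c) t b = 1 := by
  have h := ((L.lag t).1 ht).2 _ hb
  rw [← h]
  unfold eA
  refine Finset.prod_congr rfl fun r _ => ?_
  apply hcomp
  · have h1 := ((L.lag t).1 ht).1
    exact congrFun h1 r
  · have h1 := G12_tors L hb
    exact congrFun h1 r

/-- the algebra of `GG_inv` -/
theorem G12_alg {F : Type} [Field F] {κ C P Pt Pb Pbt A Ab B Bt : F} (hκ : κ ≠ 0) (hC : C ≠ 0) (hP : P ≠ 0)
    (hPt : Pt ≠ 0) (hAb : Ab ≠ 0) (h1 : κ * A * Pt = C * P) (h2 : κ * Ab * Pbt = C * Pb)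
    (h3 : A * Bt = B * Ab) : Pbt / Pt * Bt = Pb / P * B := by
  have h4 : Pb = κ * Ab * Pbt / C := by rw [h2]; field_simp
  have h5 : P = κ * A * Pt / C := by rw [h1]; field_simp
  have hA : A ≠ 0 := by
    rintro rfl
    rw [mul_zero, zero_mul] at h1
    exact mul_ne_zero hC hP h1.symm
  have h6 : Bt = B * Ab / A := by rw [← h3]; field_simp
  rw [h4, h5, h6]
  field_simp

/-- `G_b` is invariant under `D`. Put `X = u + c₀`, `n = m + 2c`. `s_eig` at `X` and at `X + b`, divided: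
`s(X+b+t)/s(X+t) = s(X+b)/s(X) · cc(2c,t,X)/cc(2c,t,X+b)`; raised to `ℓ^m`, with `cc_pow`:
`(s(X+b+t)/s(X+t))^{ℓ^m} = (s(X+b)/s(X))^{ℓ^m} · cc(n,t,X)/cc(n,t,X+b)`. `cc_com` for `(t, b)`:
`cc(n,t,X) cc(n,b,X+t) = e_n(t,b)^{sg} cc(n,b,X) cc(n,t,X+b)`, and `e_n(t,b) = e_{2c}(t, ℓ^m b) = 1` (`hcomp`,
`L.lag`). All these points are generic (`gn_tors`). -/
theorem GG_inv (hcomp : ∀ m n x y, ℓ ^ n • x = 0 → ℓ ^ (m + n) • y = 0 →
      e (m + n) x y = e n x (ℓ ^ m • y))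
    (hy : LD H L m₀ D N₀ e₀ y s c₀) (m : ℕ) (b t u : ρ → J) (hb : ℓ ^ m • b ∈ L.D)
    (ht : t ∈ L.D) (hu : U.Gn (kb k Ω) u) :
    GG H s c₀ L.c m b (u + t) = GG H s c₀ L.c m b u := by
  obtain ⟨N, hN⟩ := hy.c_tors
  have hX : U.Gn (kb k Ω) (u + c₀) := gn_tors H hN hu
  have hbt := G12_tors L hb
  have htt := G12_lag_tors L m ht
  have hXb : U.Gn (kb k Ω) (u + c₀ + b) := gn_tors H hbt hX
  have hXt : U.Gn (kb k Ω) (u + c₀ + t) := gn_tors H htt hX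
  obtain ⟨C, hC, hCe⟩ := hy.s_eig t ht
  obtain ⟨κ, _, hκ, hκe⟩ := cc_pow H (2 * L.c) m t (lag_tors (k := k) L ht)
  have e1 := hCe _ hX
  have e2 := hCe _ hXb
  have e3 := hκe _ hX
  have e4 := hκe _ hXb
  have e5 := H.cc_com (m + 2 * L.c) t b htt hbt _ hX
  rw [G12_eA hcomp L m hb ht, one_zpow, one_mul] at e5
  have f1 : κ * H.cc (m + 2 * L.c) t (u + c₀) * s (u + c₀ + t) ^ ℓ ^ m =
      C ^ ℓ ^ m * s (u + c₀) ^ ℓ ^ m := by
    rw [← e3, ← mul_pow, e1, mul_pow]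
  have f2 : κ * H.cc (m + 2 * L.c) t (u + c₀ + b) * s (u + c₀ + b + t) ^ ℓ ^ m =
      C ^ ℓ ^ m * s (u + c₀ + b) ^ ℓ ^ m := by
    rw [← e4, ← mul_pow, e2, mul_pow]
  have g1 : u + t + c₀ + b = u + c₀ + b + t := by abel
  have g2 : u + t + c₀ = u + c₀ + t := by abel
  unfold GG
  rw [g1, g2, div_pow, div_pow]
  exact G12_alg hκ (pow_ne_zero _ hC) (pow_ne_zero _ (hy.s_fn.ne _ hX)) (pow_ne_zero _ (hy.s_fn.ne _ hXt))
    ((H.cc_fn _ _ htt).ne _ hXb) f1 f2 e5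

/-- commutator: the quotients of `s` cancel, `cc_com` remains -/
theorem GG_com (hy : LD H L m₀ D N₀ e₀ y s c₀) (m : ℕ) (b b' u : ρ → J)
    (hb : ℓ ^ m • b ∈ L.D) (hb' : ℓ ^ m • b' ∈ L.D) (hu : U.Gn (kb k Ω) u) :
    GG H s c₀ L.c m b u * GG H s c₀ L.c m b' (u + b) =
      eA e (m + 2 * L.c) b b' ^ H.sg *
        (GG H s c₀ L.c m b' u * GG H s c₀ L.c m b (u + b')) := by
  obtain ⟨N, hN⟩ := hy.c_tors
  have hX : U.Gn (kb k Ω) (u + c₀) := gn_tors H hN hu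
  have hbt := G12_tors L hb
  have hbt' := G12_tors L hb'
  have hXb : U.Gn (kb k Ω) (u + c₀ + b) := gn_tors H hbt hX
  have hXb' : U.Gn (kb k Ω) (u + c₀ + b') := gn_tors H hbt' hX
  have e5 := H.cc_com (m + 2 * L.c) b b' hbt hbt' _ hX
  have g1 : u + b + c₀ + b' = u + c₀ + b + b' := by abel
  have g2 : u + b + c₀ = u + c₀ + b := by abel
  have g3 : u + b' + c₀ + b = u + c₀ + b + b' := by abel
  have g4 : u + b' + c₀ = u + c₀ + b' := by abel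
  have n0 := hy.s_fn.ne _ hX
  have n1 := hy.s_fn.ne _ hXb
  have n2 := hy.s_fn.ne _ hXb'
  unfold GG
  rw [g1, g2, g3, g4]
  have h1 : s (u + c₀ + b) / s (u + c₀) * (s (u + c₀ + b + b') / s (u + c₀ + b)) =
      s (u + c₀ + b + b') / s (u + c₀) := by field_simp
  have h2 : s (u + c₀ + b') / s (u + c₀) * (s (u + c₀ + b + b') / s (u + c₀ + b')) =
      s (u + c₀ + b + b') / s (u + c₀) := by field_simp
  calc (s (u + c₀ + b) / s (u + c₀)) ^ ℓ ^ m * H.cc (m + 2 * L.c) b (u + c₀) *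
        ((s (u + c₀ + b + b') / s (u + c₀ + b)) ^ ℓ ^ m * H.cc (m + 2 * L.c) b' (u + c₀ + b))
      = (s (u + c₀ + b) / s (u + c₀) * (s (u + c₀ + b + b') / s (u + c₀ + b))) ^ ℓ ^ m *
          (H.cc (m + 2 * L.c) b (u + c₀) * H.cc (m + 2 * L.c) b' (u + c₀ + b)) := by
        rw [mul_pow]; ring
    _ = (s (u + c₀ + b') / s (u + c₀) * (s (u + c₀ + b + b') / s (u + c₀ + b'))) ^ ℓ ^ m *
          (eA e (m + 2 * L.c) b b' ^ H.sg *
            (H.cc (m + 2 * L.c) b' (u + c₀) * H.cc (m + 2 * L.c) b (u + c₀ + b'))) := by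
        rw [h1, h2, e5]
    _ = _ := by rw [mul_pow]; ring

end TIFG
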