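import Mathlib
import Pool.Agent.TIFG.G12

/-!
# [TIF] block PIG, group part, row G13

`A = ρ → J`, `x ∈ A(K)` means `∀ i, x i ∈ U.Rt K`; 'generic' = `U.Gn (kb k Ω)`; `V(·)` = `V.valuation`;
`A_V(x) = V(s x) Th(x)^{ℓ^{2c}}`.
-/

set_option autoImplicit false
set_option linter.unusedSectionVars false
set_option linter.unusedVariables false

open IntermediateField Pool.Agent.TIFA

namespace TIFG

variable {k Ω J : Type} [Field k] [Field Ω] [Algebra k Ω] [IsAlgClosed Ω] [AddCommGroup J]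
  [DistribMulAction (Ω ≃ₐ[k] Ω) J] {ρ : Type} [Fintype ρ] [DecidableEq ρ]
  {U : Uni k Ω J ρ} {ℓ : ℕ} [Fact ℓ.Prime] {e : ℕ → J → J → Ω} {H : Tht U ℓ e}

variable {L L' : Lag ℓ (Ω ≃ₐ[k] Ω) ρ e} {m₀ D N₀ e₀ : ℕ} {y y' : Fin D → (ρ → J) → Ω}
  {s s' : (ρ → J) → Ω} {c₀ c₀' : ρ → J}

/-- `x` with `ℓ ^ m • x ∈ L.D` is a torsion point -/
theorem G13_tors (L : Lag ℓ (Ω ≃ₐ[k] Ω) ρ e) {m : ℕ} {x : ρ → J} (hx : ℓ ^ m • x ∈ L.D) :
    ℓ ^ (m + 2 * L.c) • x = 0 := by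
  rw [pow_add, mul_comm, mul_smul]
  exact lag_tors L hx

theorem G13_small_kb : Small (kb k Ω) := ⟨∅, le_sup_left⟩

/-- Fix one pair `R0 u₀ v₀`. `V(G_x(u₀)) = V(G'_z(v₀))` for all `V`: by `GG_val` they are quotients of
`ℓ^m`-th powers of `A_V(x + u₀), A_V(u₀)` and of `B_V(z + v₀), B_V(v₀)`; `val_eq` for `(u₀, v₀)` and for
`(x + u₀, z + v₀) ∈ R0` (`RR_base` with `K = kb`, `x` is torsion). So `G_x(u₀) = κ G'_z(v₀)` (`eq_of_val`). For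
`(u, v) ∈ R0` let `τ` over `kb` with `τ u₀ = u`: `R0 u (τ v₀)`, so `v = τ v₀ + t`, `t ∈ L'.D`, and
`G_x(u) = τ(G_x(u₀)) = κ G'_z(τ v₀) = κ G'_z(v)` (`GG_fn`, `GG_inv`). -/
theorem GG_const (hm : 0 < m₀) (hcomp : ∀ m n x y, ℓ ^ n • x = 0 → ℓ ^ (m + n) • y = 0 →
      e (m + n) x y = e n x (ℓ ^ m • y))
    (hy : LD H L m₀ D N₀ e₀ y s c₀) (hy' : LD H L' m₀ D N₀ e₀ y' s' c₀') (hP : Pr U y y')
    (m : ℕ) (x z : ρ → J) (h : RR U y y' x z) (hx : ℓ ^ m • x ∈ L.D) (hz : ℓ ^ m • z ∈ L'.D) :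
    ∃ κ : Ω, κ ≠ 0 ∧ ∀ u v, R0 U y y' u v →
      GG H s c₀ L.c m x u = κ * GG H s' c₀' L'.c m z v := by
  have tx : ℓ ^ (m + 2 * L.c) • x = 0 := G13_tors L hx
  have tz : ℓ ^ (m + 2 * L'.c) • z = 0 := G13_tors L' hz
  have fx := GG_fn hy m x tx
  have fz := GG_fn hy' m z tz
  obtain ⟨u₀, hu₀⟩ := U.gn_ex (kb k Ω) G13_small_kb
  obtain ⟨v₀, h₀⟩ := R0_ex hy hy' hP u₀ hu₀
  have hv₀ := h₀.2.1
  have h₁ : R0 U y y' (x + u₀) (z + v₀) :=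
    RR_base hy hy' hP x z h (kb k Ω) G13_small_kb le_rfl (fun i => tors_rt H tx i) u₀ v₀ hu₀ h₀
  have hval : ∀ V : ValuationSubring Ω, Pl k Ω V → V.valuation (GG H s c₀ L.c m x u₀) =
      V.valuation (GG H s' c₀' L'.c m z v₀) := by
    intro V hV
    have e1 := GG_val hy m x u₀ tx hu₀ V hV
    have e2 := GG_val hy' m z v₀ tz hv₀ V hV
    have e3 := val_eq hm hy hy' u₀ v₀ h₀ V hV
    have e4 := val_eq hm hy hy' (x + u₀) (z + v₀) h₁ V hV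
    rw [e3, e4, ← e2] at e1
    refine mul_right_cancel₀ ?_ e1
    -- the value is not zero
    have htc : ∃ n, ℓ ^ n • c₀' = 0 := hy'.c_tors
    obtain ⟨n, hn⟩ := htc
    have hg : U.Gn (kb k Ω) (v₀ + c₀') := gn_tors H hn hv₀
    refine pow_ne_zero _ (mul_ne_zero ?_ (pow_ne_zero _ (H.th_ne V hV _ hg)))
    rw [Ne, Valuation.zero_iff]
    exact hy'.s_fn.ne _ hg
  obtain ⟨κ, hκ, hκ0, hκe⟩ := eq_of_val k _ _ (fx.ne u₀ hu₀) (fz.ne v₀ hv₀) hval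
  refine ⟨κ, hκ0, fun u v huv => ?_⟩
  obtain ⟨τ, hτ, hτu⟩ := U.gn_hom (kb k Ω) G13_small_kb le_rfl u₀ u hu₀ huv.1
  have h2 : R0 U y y' u (τ • v₀) := by
    have := R0_smul hy hy' u₀ v₀ h₀ τ
    rwa [hτu] at this
  have h3 : v - τ • v₀ ∈ L'.D := R0_sep hy' u (τ • v₀) v h2 huv
  have h4 : GG H s' c₀' L'.c m z v = GG H s' c₀' L'.c m z (τ • v₀) := by
    have := GG_inv hcomp hy' m z (v - τ • v₀) (τ • v₀) hz h3 h2.2.1
    rwa [add_sub_cancel] at this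
  rw [h4, fz.equ τ hτ v₀ hv₀, ← hτu, fx.equ τ hτ u₀ hu₀, hκe, map_mul]
  congr 1
  exact hτ ⟨κ, hκ⟩

/-- `RR x z` and `ℓ ^ m x ∈ D` give `ℓ ^ m z ∈ D'` -/
theorem G13_mem (hy : LD H L m₀ D N₀ e₀ y s c₀) (hy' : LD H L' m₀ D N₀ e₀ y' s' c₀')
    (hP : Pr U y y') (m : ℕ) (x z : ρ → J) (h : RR U y y' x z) (hx : ℓ ^ m • x ∈ L.D) :
    ℓ ^ m • z ∈ L'.D := by
  have h1 : ∀ n : ℕ, RR U y y' (n • x) (n • z) := by
    intro n
    induction n with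
    | zero =>
      rw [zero_smul, zero_smul]
      exact (RR_right hy hy' hP 0).2 L'.D.zero_mem
    | succ n ih =>
      rw [succ_nsmul, succ_nsmul]
      exact RR_add hy hy' hP _ _ _ _ ih h
  have h2 : RR U y y' (ℓ ^ m • x) 0 := (RR_left hy hy' hP _).2 hx
  have h3 := RR_add hy hy' hP _ _ _ _ (h1 (ℓ ^ m)) (RR_neg hy hy' hP _ _ h2)
  rw [add_neg_cancel, neg_zero, add_zero] at h3
  exact (RR_right hy hy' hP _).1 h3

/-- isometry. `RR (ℓ^m x) (ℓ^m z)` and `RR (ℓ^m x) 0` (`RR_left`) give `ℓ^m z ∈ L'.D` (`RR_right`), and the same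
for `z'`. `GG_com` for `(x, x')` at `u` and for `(z, z')` at `v`, `R0 u v`; the four values correspond by
`GG_const` (the pairs `(u + x, v + z)`, `(u + x', v + z')` are in `R0` by `RR_base`), so
`e(x,x')^{sg} = e(z,z')^{sg}`, `sg = ±1`. -/
theorem iso (hm : 0 < m₀) (hcomp : ∀ m n x y, ℓ ^ n • x = 0 → ℓ ^ (m + n) • y = 0 →
      e (m + n) x y = e n x (ℓ ^ m • y))
    (hy : LD H L m₀ D N₀ e₀ y s c₀) (hy' : LD H L' m₀ D N₀ e₀ y' s' c₀') (hP : Pr U y y')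
    (m : ℕ) (x z x' z' : ρ → J) (h : RR U y y' x z) (h' : RR U y y' x' z')
    (hx : ℓ ^ m • x ∈ L.D) (hx' : ℓ ^ m • x' ∈ L.D) :
    eA e (m + 2 * L.c) x x' = eA e (m + 2 * L'.c) z z' := by
  have hz : ℓ ^ m • z ∈ L'.D := G13_mem hy hy' hP m x z h hx
  have hz' : ℓ ^ m • z' ∈ L'.D := G13_mem hy hy' hP m x' z' h' hx'
  obtain ⟨κ, hκ, hκe⟩ := GG_const hm hcomp hy hy' hP m x z h hx hz
  obtain ⟨κ', hκ', hκe'⟩ := GG_const hm hcomp hy hy' hP m x' z' h' hx' hz'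
  obtain ⟨u, hu⟩ := U.gn_ex (kb k Ω) G13_small_kb
  obtain ⟨v, h₀⟩ := R0_ex hy hy' hP u hu
  have hv := h₀.2.1
  have tx : ℓ ^ (m + 2 * L.c) • x = 0 := G13_tors L hx
  have tz : ℓ ^ (m + 2 * L'.c) • z = 0 := G13_tors L' hz
  have tx' : ℓ ^ (m + 2 * L.c) • x' = 0 := G13_tors L hx'
  have tz' : ℓ ^ (m + 2 * L'.c) • z' = 0 := G13_tors L' hz'
  have h1 : R0 U y y' (u + x) (v + z) := by
    rw [add_comm u, add_comm v]
    exact RR_base hy hy' hP x z h (kb k Ω) G13_small_kb le_rfl (fun i => tors_rt H tx i) u v hu h₀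
  have h2 : R0 U y y' (u + x') (v + z') := by
    rw [add_comm u, add_comm v]
    exact RR_base hy hy' hP x' z' h' (kb k Ω) G13_small_kb le_rfl (fun i => tors_rt H tx' i) u v hu h₀
  have c1 := GG_com hy m x x' u hx hx' hu
  have c2 := GG_com hy' m z z' v hz hz' hv
  rw [hκe u v h₀, hκe' _ _ h1, hκe' u v h₀, hκe _ _ h2] at c1
  have n1 := (GG_fn hy' m z tz).ne v hv
  have n2 := (GG_fn hy' m z tz).ne _ h2.2.1
  have n3 := (GG_fn hy' m z' tz').ne v hv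
  have n4 := (GG_fn hy' m z' tz').ne _ h1.2.1
  have c3 : eA e (m + 2 * L.c) x x' ^ H.sg = eA e (m + 2 * L'.c) z z' ^ H.sg := by
    have hne : κ * κ' * (GG H s' c₀' L'.c m z' v * GG H s' c₀' L'.c m z (v + z')) ≠ 0 :=
      mul_ne_zero (mul_ne_zero hκ hκ') (mul_ne_zero n3 n2)
    refine mul_right_cancel₀ hne ?_
    linear_combination (-1 : Ω) * c1 + κ * κ' * c2
  rcases H.sg_eq with hs | hs
  · rwa [hs, zpow_one, zpow_one] at c3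
  · rw [hs, zpow_neg_one, zpow_neg_one] at c3
    exact inv_injective c3

end TIFG
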