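import Mathlib
import Pool.Agent.TIFG.G13

/-!
# [TIF] block PIG, group part, row G14

`A = ρ → J`, `x ∈ A(K)` means `∀ i, x i ∈ U.Rt K`; generic = `U.Gn (kb k Ω)`; `V(·)` = `V.valuation`;
`A_V(x) = V(s x) Th(x)^{ℓ^{2c}}`.
-/

set_option autoImplicit false
set_option linter.unusedSectionVars false
set_option linter.unusedVariables false

open IntermediateField Pool.Agent.TIFA

namespace TIFG

variable {k Ω J : Type} [Field k] [Field Ω] [Algebra k Ω] [IsAlgClosed Ω] [AddCommGroup J]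
  [DistribMulAction (Ω ≃ₐ[k] Ω) J] {ρ : Type} [Fintype ρ] [DecidableEq ρ]
  {U : Uni k Ω J ρ} {ℓ : ℕ} [Fact ℓ.Prime] {e : ℕ → J → J → Ω} {H : Tht U ℓ e}

variable {L L' : Lag ℓ (Ω ≃ₐ[k] Ω) ρ e} {m₀ D N₀ e₀ : ℕ} {y y' : Fin D → (ρ → J) → Ω}
  {s s' : (ρ → J) → Ω} {c₀ c₀' : ρ → J}

theorem G14_alg {M : Type*} [CommMonoid M] (a b t t' c1 c2 x x' : M) (n m : ℕ)
    (h1 : c1 * x ^ n = t ^ n) (h2 : c2 * x' ^ n = t' ^ n) :
    ((a * t ^ m) * (b * t' ^ m)) ^ n = ((a * b) ^ n * (c1 * c2) ^ m) * (x * x') ^ (m * n) := by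
  have e1 : (t ^ m) ^ n = c1 ^ m * x ^ (m * n) := by
    rw [← pow_mul, mul_comm m n, pow_mul, ← h1, mul_pow, ← pow_mul]
  have e2 : (t' ^ m) ^ n = c2 ^ m * x' ^ (m * n) := by
    rw [← pow_mul, mul_comm m n, pow_mul, ← h2, mul_pow, ← pow_mul]
  rw [mul_pow, mul_pow a, mul_pow b (t' ^ m), e1, e2, mul_pow a b, mul_pow c1 c2, mul_pow x x']
  ac_rfl

theorem G14_alg2 {Γ : Type*} [CommGroupWithZero Γ] (F a b G G' R : Γ) (p P n t : ℕ) (hG : G' ≠ 0)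
    (h1 : G * a ^ (P * n) = G' * b ^ (p * n)) (h2 : F ^ t = R * b ^ (p ^ 2 * t)) :
    F ^ (t * n) = (R ^ n * (G / G') ^ (p * t)) * a ^ (P * p * (t * n)) := by
  have h3 : b ^ (p * n) = G / G' * a ^ (P * n) := by
    rw [div_mul_eq_mul_div, h1, mul_div_cancel_left₀ _ hG]
  rw [pow_mul, h2, mul_pow, ← pow_mul, show p ^ 2 * t * n = (p * n) * (p * t) by ring, pow_mul b, h3,
    mul_pow, ← pow_mul, show P * n * (p * t) = P * p * (t * n) by ring, mul_assoc (R ^ n)]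

/-- Let `S₀(x) = ThS V x`, `N` with `ℓ^N c₀ = 0`. `g(u) := (s(u+c₀) s(-u+c₀))^{ℓ^N} (cc N c₀ u · cc N c₀ (-u))^{ℓ^{2c}}`
satisfies `(A_V(u + c₀) A_V(-u + c₀))^{ℓ^N} = V(g u) ThS(u)^{ℓ^{2c+N}}`. -/
theorem val_sym (hy : LD H L m₀ D N₀ e₀ y s c₀) : ∃ N₁ : ℕ, ∀ N, N₁ ≤ N → ∃ g : (ρ → J) → Ω, U.Fnu g ∧
    ∀ V, Pl k Ω V → ∀ u, U.Gn (kb k Ω) u →
      ((V.valuation (s (u + c₀)) * H.Th V (u + c₀) ^ ℓ ^ (2 * L.c)) *
        (V.valuation (s (-u + c₀)) * H.Th V (-u + c₀) ^ ℓ ^ (2 * L.c))) ^ ℓ ^ N =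
      V.valuation (g u) * H.ThS V u ^ ℓ ^ (2 * L.c + N) := by
  obtain ⟨N₁, hN₁⟩ := hy.c_tors
  refine ⟨N₁, fun N hN => ?_⟩
  have hc : ℓ ^ N • c₀ = 0 := by
    obtain ⟨d, rfl⟩ := Nat.exists_eq_add_of_le hN
    rw [pow_add, mul_comm, mul_smul, hN₁, smul_zero]
  have hgen : ∀ x, U.Gn (kb k Ω) x → U.Gn (kb k Ω) (x + c₀) := fun x hx => gn_tors H hc hx
  have hneg : ∀ x, U.Gn (kb k Ω) x → U.Gn (kb k Ω) (-x) := fun x hx => U.gn_neg _ x hx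
  have hcc := H.cc_fn N c₀ hc
  refine ⟨fun u => (s (u + c₀) * s (-u + c₀)) ^ ℓ ^ N *
    (H.cc N c₀ u * H.cc N c₀ (-u)) ^ ℓ ^ (2 * L.c), ⟨?_, ?_⟩, ?_⟩
  · intro x hx
    exact mul_ne_zero (pow_ne_zero _ (mul_ne_zero (hy.s_fn.ne _ (hgen _ hx))
      (hy.s_fn.ne _ (hgen _ (hneg _ hx)))))
      (pow_ne_zero _ (mul_ne_zero (hcc.ne _ hx) (hcc.ne _ (hneg _ hx))))
  · intro σ hσ x hx
    have hfix := fix_tors H hc σ hσ
    have e1 : σ • x + c₀ = σ • (x + c₀) := by rw [smul_add, hfix]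
    have e2 : -(σ • x) + c₀ = σ • (-x + c₀) := by rw [smul_add, smul_neg, hfix]
    have e3 : -(σ • x) = σ • (-x) := (smul_neg σ x).symm
    change (s (σ • x + c₀) * s (-(σ • x) + c₀)) ^ ℓ ^ N *
      (H.cc N c₀ (σ • x) * H.cc N c₀ (-(σ • x))) ^ ℓ ^ (2 * L.c) = _
    rw [e1, e2, e3, hy.s_fn.equ σ hσ _ (hgen _ hx), hy.s_fn.equ σ hσ _ (hgen _ (hneg _ hx)),
      hcc.equ σ hσ _ hx, hcc.equ σ hσ _ (hneg _ hx)]
    simp only [map_mul, map_pow]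
  · intro V hV u hu
    have h1 := H.cc_val N c₀ hc V hV u hu
    have h2 := H.cc_val N c₀ hc V hV (-u) (hneg _ hu)
    have h3 := G14_alg (V.valuation (s (u + c₀))) (V.valuation (s (-u + c₀))) (H.Th V (u + c₀))
      (H.Th V (-u + c₀)) _ _ _ _ (ℓ ^ N) (ℓ ^ (2 * L.c)) h1 h2
    rw [h3, pow_add ℓ]
    simp only [map_mul, map_pow]
    rfl

/-- the multiplier of the map `f`. For `R0 u v` also `R0 (-u) (-v)` (`RR_gen`, `RR_neg`), so by `val_eq` and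
`val_sym` (a common `N`): (1) `V(g u) ThS(u)^{ℓ^{2c+N}} = V(g' v) ThS(v)^{ℓ^{2c'+N}}`. `hdbl` for `n = ℓ^{2c'}`:
(2) `ThS(f u)^{t} = V(r v) ThS(v)^{ℓ^{4c'} t}`, as `f u = ℓ^{2c'} v` (`RR_gen`). (2)^{ℓ^N} and (1)^{ℓ^{2c'} t}:
(3) `ThS(f u)^{tℓ^N} = V(q(u,v)) ThS(u)^{ℓ^{2(c+c')} t ℓ^N}`, `q(u,v) = r(v)^{ℓ^N} (g(u)/g'(v))^{ℓ^{2c'} t}`. The `v`
with `R0 u v` form a coset of the finite group `L'.D` (`hfin`): multiply (3) over this coset; the function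
`r'(u) := ∏_{R0 u v} q(u, v)` is in `Fnu` (`R0_smul`, `σ` over `kb` permutes the `v`). -/
theorem QL_map (hm : 0 < m₀) (hfin : ∀ n, {x : J | ℓ ^ n • x = 0}.Finite)
    (hdbl : ∀ m : ℕ, H.QL (fun x => ℓ ^ m • x) ((ℓ ^ m) ^ 2))
    (hy : LD H L m₀ D N₀ e₀ y s c₀) (hy' : LD H L' m₀ D N₀ e₀ y' s' c₀') (hP : Pr U y y')
    (f : (ρ → J) → (ρ → J)) (hf : ∀ x z, RR U y y' x z → f x = ℓ ^ (2 * L'.c) • z) :
    H.QL f (ℓ ^ (2 * (L.c + L'.c))) := by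
  classical
  obtain ⟨N₁, h₁⟩ := val_sym hy
  obtain ⟨N₂, h₂⟩ := val_sym hy'
  obtain ⟨N, hN⟩ : ∃ N, N = max N₁ N₂ := ⟨_, rfl⟩
  obtain ⟨g, hg, hgv⟩ := h₁ N (hN ▸ le_max_left _ _)
  obtain ⟨g', hg', hgv'⟩ := h₂ N (hN ▸ le_max_right _ _)
  obtain ⟨t₀, r₀, ht₀, hr₀, hrv⟩ := hdbl (2 * L'.c)
  obtain ⟨q, hq⟩ : ∃ q : (ρ → J) → (ρ → J) → Ω, ∀ u v, q u v =
      r₀ v ^ ℓ ^ N * (g u / g' v) ^ (ℓ ^ (2 * L'.c) * t₀) := ⟨_, fun _ _ => rfl⟩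
  have hneg : ∀ x, U.Gn (kb k Ω) x → U.Gn (kb k Ω) (-x) := fun x hx => U.gn_neg _ x hx
  -- the values at one pair
  have key : ∀ V, Pl k Ω V → ∀ u v, R0 U y y' u v → H.ThS V (f u) ^ (t₀ * ℓ ^ N) =
      V.valuation (q u v) * H.ThS V u ^ (ℓ ^ (2 * (L.c + L'.c)) * (t₀ * ℓ ^ N)) := by
    intro V hV u v h
    have hu := h.1
    have hv := h.2.1
    have hRR := (RR_gen hy hy' hP u v hu).2 h
    have hR0n := (RR_gen hy hy' hP (-u) (-v) (hneg u hu)).1 (RR_neg hy hy' hP u v hRR)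
    have e1 := val_eq hm hy hy' u v h V hV
    have e2 := val_eq hm hy hy' (-u) (-v) hR0n V hV
    have e3 := hgv V hV u hu
    have e4 := hgv' V hV v hv
    rw [e1, e2, e4] at e3
    have e5 := hrv V hV v hv
    have e6 : f u = ℓ ^ (2 * L'.c) • v := hf u v hRR
    have hG' : V.valuation (g' v) ≠ 0 := (map_ne_zero _).2 (hg'.ne v hv)
    have e7 := G14_alg2 (H.ThS V (f u)) (H.ThS V u) (H.ThS V v) (V.valuation (g u))
      (V.valuation (g' v)) (V.valuation (r₀ v)) (ℓ ^ (2 * L'.c)) (ℓ ^ (2 * L.c)) (ℓ ^ N) t₀ hG'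
      (by rw [← pow_add, ← pow_add]; exact e3.symm) (by rw [e6]; exact e5)
    have e8 : ℓ ^ (2 * (L.c + L'.c)) = ℓ ^ (2 * L.c) * ℓ ^ (2 * L'.c) := by
      rw [← pow_add, mul_add]
    rw [e7, hq, map_mul, map_pow, map_pow, map_div₀, e8]
  -- the fibre
  have hDfin : (L'.D : Set (ρ → J)).Finite := by
    refine (Set.Finite.pi' (fun _ : ρ => hfin (2 * L'.c))).subset ?_
    intro t ht i
    have h3 := lag_tors L' ht
    exact congrFun h3 i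
  have hSfin : ∀ u, {v | R0 U y y' u v}.Finite := by
    intro u
    rcases Set.eq_empty_or_nonempty {v | R0 U y y' u v} with h3 | ⟨v₁, hv₁⟩
    · rw [h3]; exact Set.finite_empty
    · refine (hDfin.image (fun t => v₁ + t)).subset ?_
      intro v hv
      exact ⟨v - v₁, R0_sep hy' u v₁ v hv₁ hv, by simp⟩
  obtain ⟨Sv, hSv⟩ : ∃ Sv : (ρ → J) → Finset (ρ → J), ∀ u v, v ∈ Sv u ↔ R0 U y y' u v :=
    ⟨fun u => (hSfin u).toFinset, fun u v => by simp⟩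
  obtain ⟨d, hd⟩ : ∃ d, d = hDfin.toFinset.card := ⟨_, rfl⟩
  have hd0 : 0 < d := by
    rw [hd, Finset.card_pos]
    exact ⟨0, by simp⟩
  have hcard : ∀ u, U.Gn (kb k Ω) u → (Sv u).card = d := by
    intro u hu
    obtain ⟨v₁, hv₁⟩ := R0_ex hy hy' hP u hu
    rw [hd]
    refine Finset.card_nbij' (fun v => v - v₁) (fun t => v₁ + t) ?_ ?_ ?_ ?_
    · intro v hv
      have h3 := R0_sep hy' u v₁ v hv₁ ((hSv u v).1 hv)
      simpa using h3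
    · intro t ht
      have h3 : t ∈ L'.D := by simpa using ht
      exact (hSv u _).2 (R0_right hy' u v₁ t hv₁ h3)
    · intro v _
      simp
    · intro t _
      simp
  refine ⟨t₀ * ℓ ^ N * d, fun u => ∏ v ∈ Sv u, q u v, ?_, ⟨?_, ?_⟩, ?_⟩
  · exact Nat.mul_pos (Nat.mul_pos ht₀ (pow_pos (Fact.out : ℓ.Prime).pos _)) hd0
  · intro u hu
    rw [Finset.prod_ne_zero_iff]
    intro v hv
    have h3 := (hSv u v).1 hv
    rw [hq]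
    exact mul_ne_zero (pow_ne_zero _ (hr₀.ne v h3.2.1))
      (pow_ne_zero _ (div_ne_zero (hg.ne u h3.1) (hg'.ne v h3.2.1)))
  · intro σ hσ u hu
    rw [map_prod]
    symm
    refine Finset.prod_nbij' (fun v => σ • v) (fun v => σ⁻¹ • v) ?_ ?_ ?_ ?_ ?_
    · intro v hv
      exact (hSv _ _).2 (R0_smul hy hy' u v ((hSv u v).1 hv) σ)
    · intro v hv
      have h3 := R0_smul hy hy' _ v ((hSv _ v).1 hv) σ⁻¹
      rw [inv_smul_smul] at h3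
      exact (hSv _ _).2 h3
    · intro v _
      exact inv_smul_smul σ v
    · intro v _
      exact smul_inv_smul σ v
    · intro v hv
      have h3 := (hSv u v).1 hv
      change σ (q u v) = q (σ • u) (σ • v)
      rw [hq, hq, hr₀.equ σ hσ v h3.2.1, hg.equ σ hσ u h3.1, hg'.equ σ hσ v h3.2.1]
      simp only [map_mul, map_pow, map_div₀]
  · intro V hV u hu
    have h3 : ∏ v ∈ Sv u, H.ThS V (f u) ^ (t₀ * ℓ ^ N) = ∏ v ∈ Sv u, (V.valuation (q u v) *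
        H.ThS V u ^ (ℓ ^ (2 * (L.c + L'.c)) * (t₀ * ℓ ^ N))) :=
      Finset.prod_congr rfl fun v hv => key V hV u v ((hSv u v).1 hv)
    rw [Finset.prod_mul_distrib, Finset.prod_const, Finset.prod_const, hcard u hu, ← pow_mul,
      ← pow_mul, ← map_prod] at h3
    rw [h3, mul_assoc (ℓ ^ (2 * (L.c + L'.c)))]

end TIFG
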