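import Mathlib
import Pool.Agent.TIFG.G14

/-!
# [TIF] block PIG, group part, row G15

`A = ρ → J`, `x ∈ A(K)` means `∀ i, x i ∈ U.Rt K`; 'generic' = `U.Gn (kb k Ω)`; `V(·)` = `V.valuation`;
`A_V(x) = V(s x) Th(x)^{ℓ^{2c}}`.
-/

set_option autoImplicit false
set_option linter.unusedSectionVars false
set_option linter.unusedVariables false

open IntermediateField Pool.Agent.TIFA

namespace TIFG

variable {k Ω J : Type} [Field k] [Field Ω] [Algebra k Ω] [IsAlgClosed Ω] [AddCommGroup J]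
  [DistribMulAction (Ω ≃ₐ[k] Ω) J] {ρ : Type} [Fintype ρ] [DecidableEq ρ]
  {U : Uni k Ω J ρ} {ℓ : ℕ} [Fact ℓ.Prime] {e : ℕ → J → J → Ω} {H : Tht U ℓ e}

variable {L L' : Lag ℓ (Ω ≃ₐ[k] Ω) ρ e} {m₀ D N₀ e₀ : ℕ} {y y' : Fin D → (ρ → J) → Ω}
  {s s' : (ρ → J) → Ω} {c₀ c₀' : ρ → J}

theorem G15_act_smul_one (n : ℕ) (x : ρ → J) :
    act (n • (1 : Matrix ρ ρ (AddMonoid.End J))) x = n • x := by
  funext r
  rw [act_apply]
  have h : ∀ s ∈ Finset.univ, s ≠ r →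
      (n • (1 : Matrix ρ ρ (AddMonoid.End J))) r s (x s) = 0 := by
    intro s _ hs
    rw [Matrix.smul_apply, Matrix.one_apply_ne hs.symm]
    change n • (0 : J) = 0
    exact smul_zero n
  rw [Finset.sum_eq_single r h (fun h => absurd (Finset.mem_univ r) h), Matrix.smul_apply,
    Matrix.one_apply_eq]
  rfl

/-- the graph of the correspondence -/
def G15_R (hy : LD H L m₀ D N₀ e₀ y s c₀) (hy' : LD H L' m₀ D N₀ e₀ y' s' c₀') (hP : Pr U y y') :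
    AddSubgroup ((ρ → J) × (ρ → J)) where
  carrier := {p | RR U y y' p.1 p.2}
  add_mem' := fun {p q} hp hq => RR_add hy hy' hP p.1 p.2 q.1 q.2 hp hq
  zero_mem' := (RR_left hy hy' hP 0).2 (zero_mem _)
  neg_mem' := fun {p} hp => RR_neg hy hy' hP p.1 p.2 hp

theorem G15_mem (hy : LD H L m₀ D N₀ e₀ y s c₀) (hy' : LD H L' m₀ D N₀ e₀ y' s' c₀')
    (hP : Pr U y y') (x z : ρ → J) : (x, z) ∈ G15_R hy hy' hP ↔ RR U y y' x z := Iff.rfl

/-- one of the two maps -/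
theorem G15_map (hm : 0 < m₀) (hfin : ∀ n, {x : J | ℓ ^ n • x = 0}.Finite)
    (hdbl : ∀ m : ℕ, H.QL (fun x => ℓ ^ m • x) ((ℓ ^ m) ^ 2))
    (hy : LD H L m₀ D N₀ e₀ y s c₀) (hy' : LD H L' m₀ D N₀ e₀ y' s' c₀') (hP : Pr U y y') :
    ∃ a : Matrix ρ ρ (AddMonoid.End J), EH U.Hon a ∧
      (∀ x z, RR U y y' x z → act a x = ℓ ^ (2 * L'.c) • z) ∧
      H.QL (act a) (ℓ ^ (2 * (L.c + L'.c))) := by
  obtain ⟨f, h1, h2, h3⟩ := ex_map hy hy' hP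
  obtain ⟨a, h4, h5⟩ := ex_mat U f h2 h3
  refine ⟨a, h4, fun x z h => ?_, ?_⟩
  · rw [h5]; exact h1 x z h
  · rw [h5]; exact QL_map hm hfin hdbl hy hy' hP f h1

theorem G15_mul (hy : LD H L m₀ D N₀ e₀ y s c₀) (hy' : LD H L' m₀ D N₀ e₀ y' s' c₀') (hP : Pr U y y')
    (a a' : Matrix ρ ρ (AddMonoid.End J))
    (ha : ∀ x z, RR U y y' x z → act a x = ℓ ^ (2 * L'.c) • z)
    (ha' : ∀ x z, RR U y y' x z → act a' z = ℓ ^ (2 * L.c) • x) :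
    a' * a = ℓ ^ (2 * L'.c + 2 * L.c) • (1 : Matrix ρ ρ (AddMonoid.End J)) := by
  apply act_inj
  intro x
  obtain ⟨z, hz⟩ := RR_tot hy hy' hP x
  rw [act_mul', G15_act_smul_one, ha x z hz, map_nsmul, ha' x z hz, smul_smul, pow_add]

/-- `R := {p | RR U y y' p.1 p.2}`; `a` from `ex_map`, `ex_mat` for `(y, y')`, `a'` the same for `(y', y)`
(`Pr_symm`, `RR_symm`); `a' * a = ℓ^{2(c+c')} • 1`, `a * a' = ℓ^{2(c+c')} • 1` (`act_inj`; `ell_ne`); multipliers by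
`QL_map`; isometry by `iso`. -/
theorem Lk_of_Pr (hm : 0 < m₀) (hfin : ∀ n, {x : J | ℓ ^ n • x = 0}.Finite)
    (hdbl : ∀ m : ℕ, H.QL (fun x => ℓ ^ m • x) ((ℓ ^ m) ^ 2))
    (hcomp : ∀ m n x y, ℓ ^ n • x = 0 → ℓ ^ (m + n) • y = 0 →
      e (m + n) x y = e n x (ℓ ^ m • y))
    (hy : LD H L m₀ D N₀ e₀ y s c₀) (hy' : LD H L' m₀ D N₀ e₀ y' s' c₀') (hP : Pr U y y') :
    Lk H.S L L' := by
  obtain ⟨a, hH, hax, hq⟩ := G15_map hm hfin hdbl hy hy' hP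
  obtain ⟨a', hH', hax', hq'⟩ := G15_map hm hfin hdbl hy' hy (Pr_symm hP)
  have hax'' : ∀ x z, RR U y y' x z → act a' z = ℓ ^ (2 * L.c) • x := fun x z h =>
    hax' z x (RR_symm hy hy' hP x z h)
  have hs' : ∀ z x, RR U y' y z x → RR U y y' x z := fun z x h =>
    RR_symm hy' hy (Pr_symm hP) z x h
  have hm1 := G15_mul hy hy' hP a a' hax hax''
  have hm2 := G15_mul hy' hy (Pr_symm hP) a' a hax' (fun z x h => hax x z (hs' z x h))
  have hne : ∀ n : ℕ, ((ℓ ^ n : ℕ) : k) ≠ 0 := by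
    intro n
    rw [Nat.cast_pow]
    exact pow_ne_zero _ H.ell_ne
  refine ⟨G15_R hy hy' hP, ?_, ?_, ?_, ?_, ⟨a, a', ?_, ?_, ?_⟩, ?_⟩
  · exact fun x => RR_tot hy hy' hP x
  · exact fun z => RR_tot' hy hy' hP z
  · exact fun x => RR_left hy hy' hP x
  · exact fun z => RR_right hy hy' hP z
  · exact ⟨hH, ⟨_, a', hne _, hH', hm1⟩, hq⟩
  · refine ⟨hH', ⟨_, a, hne _, hH, hm2⟩, ?_⟩
    rw [add_comm L.c L'.c]
    exact hq'
  · exact fun x z h => ⟨hax x z h, hax'' x z h⟩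
  · exact fun m x z x' z' h h' hx hx' => iso hm hcomp hy hy' hP m x z x' z' h h' hx hx'

end TIFG
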