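import Mathlib
import Pool.Agent.TIFG.G15

/-!
# [TIF] block PIG, group part, row G16

`A = ρ → J`, `x ∈ A(K)` means `∀ i, x i ∈ U.Rt K`; 'generic' = `U.Gn (kb k Ω)`; `V(·)` = `V.valuation`;
`A_V(x) = V(s x) Th(x)^{ℓ^{2c}}`.
-/

set_option autoImplicit false
set_option linter.unusedSectionVars false
set_option linter.unusedVariables false

open IntermediateField Pool.Agent.TIFA

namespace TIFG

variable {k Ω J : Type} [Field k] [Field Ω] [Algebra k Ω] [IsAlgClosed Ω] [AddCommGroup J]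
  [DistribMulAction (Ω ≃ₐ[k] Ω) J] {ρ : Type} [Fintype ρ] [DecidableEq ρ]
  {U : Uni k Ω J ρ} {ℓ : ℕ} [Fact ℓ.Prime] {e : ℕ → J → J → Ω} {H : Tht U ℓ e}

theorem G16_ths_ne (H : Tht U ℓ e) (V : ValuationSubring Ω) (hV : Pl k Ω V) (x : ρ → J)
    (hx : U.Gn (kb k Ω) x) : H.ThS V x ≠ 0 :=
  mul_ne_zero (H.th_ne V hV x hx) (H.th_ne V hV (-x) (U.gn_neg _ x hx))

theorem G16_fnu_one : U.Fnu (fun _ => (1 : Ω)) :=
  ⟨fun _ _ => one_ne_zero, fun σ _ _ _ => (map_one σ).symm⟩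

theorem G16_fnu_mul {f g : (ρ → J) → Ω} (hf : U.Fnu f) (hg : U.Fnu g) : U.Fnu (fun x => f x * g x) :=
  ⟨fun x hx => mul_ne_zero (hf.ne x hx) (hg.ne x hx), fun σ hσ x hx => by
    show f (σ • x) * g (σ • x) = σ (f x * g x)
    rw [hf.equ σ hσ x hx, hg.equ σ hσ x hx, map_mul]⟩

theorem G16_fnu_pow {f : (ρ → J) → Ω} (hf : U.Fnu f) (n : ℕ) : U.Fnu (fun x => f x ^ n) :=
  ⟨fun x hx => pow_ne_zero n (hf.ne x hx), fun σ hσ x hx => by
    show f (σ • x) ^ n = σ (f x ^ n)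
    rw [hf.equ σ hσ x hx, map_pow]⟩

theorem G16_fnu_inv {f : (ρ → J) → Ω} (hf : U.Fnu f) : U.Fnu (fun x => (f x)⁻¹) :=
  ⟨fun x hx => inv_ne_zero (hf.ne x hx), fun σ hσ x hx => by
    show (f (σ • x))⁻¹ = σ ((f x)⁻¹)
    rw [hf.equ σ hσ x hx, map_inv₀]⟩

theorem G16_fnu_comp {f : (ρ → J) → Ω} (hf : U.Fnu f) {g : (ρ → J) → (ρ → J)}
    (hgn : ∀ x, U.Gn (kb k Ω) x → U.Gn (kb k Ω) (g x))
    (hgσ : ∀ σ ∈ (kb k Ω).fixingSubgroup, ∀ x, g (σ • x) = σ • g x) : U.Fnu (fun x => f (g x)) :=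
  ⟨fun x hx => hf.ne _ (hgn x hx), fun σ hσ x hx => by
    show f (g (σ • x)) = σ (f (g x))
    rw [hgσ σ hσ x, hf.equ σ hσ _ (hgn x hx)]⟩

theorem G16_alg {G : Type} [CommGroupWithZero G] (a b c : G) (ha : a ≠ 0) : b * c = a * (b * a⁻¹ * c) := by
  rw [mul_comm b a⁻¹, mul_assoc, ← mul_assoc, mul_inv_cancel₀ ha, one_mul]

theorem QL_one (H : Tht U ℓ e) : H.QL (fun x => x) 1 := by
  refine ⟨1, fun _ => 1, one_pos, G16_fnu_one, ?_⟩
  intro V hV x hx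
  rw [map_one, one_mul, one_mul]

/-- `r(g x)^{t'} r'(x)^{m t}` -/
theorem QL_comp (f g : (ρ → J) → (ρ → J)) (m n : ℕ) (hf : H.QL f m) (hg : H.QL g n)
    (hgn : ∀ x, U.Gn (kb k Ω) x → U.Gn (kb k Ω) (g x))
    (hgσ : ∀ σ ∈ (kb k Ω).fixingSubgroup, ∀ x, g (σ • x) = σ • g x) :
    H.QL (fun x => f (g x)) (m * n) := by
  obtain ⟨t, r, ht, hr, h1⟩ := hf
  obtain ⟨t', r', ht', hr', h2⟩ := hg
  refine ⟨t * t', fun x => r (g x) ^ t' * r' x ^ (m * t), Nat.mul_pos ht ht',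
    G16_fnu_mul (G16_fnu_pow (G16_fnu_comp hr hgn hgσ) t') (G16_fnu_pow hr' (m * t)), ?_⟩
  intro V hV x hx
  have e1 := h1 V hV (g x) (hgn x hx)
  have e2 := h2 V hV x hx
  show H.ThS V (f (g x)) ^ (t * t') =
    V.valuation (r (g x) ^ t' * r' x ^ (m * t)) * H.ThS V x ^ (m * n * (t * t'))
  have e3 : H.ThS V (g x) ^ (m * t * t') = (V.valuation (r' x) * H.ThS V x ^ (n * t')) ^ (m * t) := by
    rw [← e2, ← pow_mul]
    congr 1
    ring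
  have e4 : n * t' * (m * t) = m * n * (t * t') := by ring
  rw [pow_mul, e1, mul_pow, ← pow_mul, e3, map_mul, map_pow, map_pow, mul_pow, ← pow_mul, e4]
  exact (mul_assoc _ _ _).symm

/-- `ThS(f (g x))^t = V(r (g x)) ThS(g x)^{m t}`, `ThS(f (g x))^{t'} = V(r' x) ThS(x)^{m n t'}`; hence
`ThS(g x)^{m t t'} = V(r'(x)^t / r(g x)^{t'}) ThS(x)^{n (m t t')}`. -/
theorem QL_cancel (f g : (ρ → J) → (ρ → J)) (m n : ℕ) (hm : 0 < m) (hf : H.QL f m)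
    (hfg : H.QL (fun x => f (g x)) (m * n))
    (hgn : ∀ x, U.Gn (kb k Ω) x → U.Gn (kb k Ω) (g x))
    (hgσ : ∀ σ ∈ (kb k Ω).fixingSubgroup, ∀ x, g (σ • x) = σ • g x) :
    H.QL g n := by
  obtain ⟨t, r, ht, hr, h1⟩ := hf
  obtain ⟨t', r', ht', hr', h2⟩ := hfg
  refine ⟨m * (t * t'), fun x => r' x ^ t * (r (g x) ^ t')⁻¹, Nat.mul_pos hm (Nat.mul_pos ht ht'),
    G16_fnu_mul (G16_fnu_pow hr' t) (G16_fnu_inv (G16_fnu_pow (G16_fnu_comp hr hgn hgσ) t')), ?_⟩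
  intro V hV x hx
  have e1 := h1 V hV (g x) (hgn x hx)
  have e2 : H.ThS V (f (g x)) ^ t' = V.valuation (r' x) * H.ThS V x ^ (m * n * t') := h2 V hV x hx
  have e3 : V.valuation (r (g x)) ^ t' * H.ThS V (g x) ^ (m * (t * t')) =
      V.valuation (r' x) ^ t * H.ThS V x ^ (n * (m * (t * t'))) := by
    have a1 : (H.ThS V (f (g x)) ^ t) ^ t' = (H.ThS V (f (g x)) ^ t') ^ t := by
      rw [← pow_mul, ← pow_mul, mul_comm]
    rw [e1, e2, mul_pow, mul_pow, ← pow_mul, ← pow_mul] at a1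
    have a2 : m * t * t' = m * (t * t') := by ring
    have a3 : m * n * t' * t = n * (m * (t * t')) := by ring
    rw [a2, a3] at a1
    exact a1
  have hne : V.valuation (r (g x)) ^ t' ≠ 0 :=
    pow_ne_zero _ ((map_ne_zero V.valuation).2 (hr.ne _ (hgn x hx)))
  show H.ThS V (g x) ^ (m * (t * t')) =
    V.valuation (r' x ^ t * (r (g x) ^ t')⁻¹) * H.ThS V x ^ (n * (m * (t * t')))
  rw [map_mul, map_inv₀, map_pow, map_pow]
  apply mul_left_cancel₀ hne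
  rw [e3]
  exact G16_alg _ _ _ hne

theorem G16_EH_one (U : Uni k Ω J ρ) : EH U.Hon (1 : Matrix ρ ρ (AddMonoid.End J)) := by
  intro r s
  rw [Matrix.one_apply]
  split_ifs
  · exact U.Hon.one_mem
  · exact U.Hon.zero_mem

theorem G16_EH_mul {a b : Matrix ρ ρ (AddMonoid.End J)} (ha : EH U.Hon a) (hb : EH U.Hon b) :
    EH U.Hon (a * b) := by
  intro r s
  rw [Matrix.mul_apply]
  exact U.Hon.sum_mem fun i _ => U.Hon.mul_mem (ha r i) (hb i s)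

theorem G16_EH_nsmul {a : Matrix ρ ρ (AddMonoid.End J)} (ha : EH U.Hon a) (n : ℕ) :
    EH U.Hon (n • a) := by
  intro r s
  rw [Matrix.smul_apply]
  exact nsmul_mem (ha r s) n

theorem G16_act_one (x : ρ → J) : act (1 : Matrix ρ ρ (AddMonoid.End J)) x = x := by
  funext r
  rw [act_apply, Finset.sum_eq_single r]
  · rw [Matrix.one_apply_eq]; rfl
  · intro s _ hs
    rw [Matrix.one_apply_ne (Ne.symm hs)]; rfl
  · intro h
    exact absurd (Finset.mem_univ r) h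

theorem G16_act_nsmul (n : ℕ) (a : Matrix ρ ρ (AddMonoid.End J)) (x : ρ → J) :
    act (n • a) x = n • act a x := by
  funext r
  rw [act_apply, Pi.smul_apply, act_apply, Finset.smul_sum]
  refine Finset.sum_congr rfl fun s _ => ?_
  rw [Matrix.smul_apply]
  rfl

theorem S_one (H : Tht U ℓ e) : H.S 0 1 := by
  refine ⟨G16_EH_one U, ⟨1, 1, ?_, G16_EH_one U, ?_⟩, ?_⟩
  · rw [Nat.cast_one]; exact one_ne_zero
  · rw [one_smul, one_mul]
  · have h := QL_one H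
    have h1 : (act (1 : Matrix ρ ρ (AddMonoid.End J)) : (ρ → J) → (ρ → J)) = fun x => x := by
      funext x
      exact G16_act_one x
    rw [h1, mul_zero, pow_zero]
    exact h

/-- `QL_comp`, `act_mul'`, `act_gn` -/
theorem S_mul (m n : ℕ) (a b : Matrix ρ ρ (AddMonoid.End J)) (ha : H.S m a) (hb : H.S n b) :
    H.S (m + n) (a * b) := by
  obtain ⟨ha1, ⟨n1, a', hn1, ha', haa⟩, ha3⟩ := ha
  obtain ⟨hb1, ⟨n2, b', hn2, hb', hbb⟩, hb3⟩ := hb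
  refine ⟨G16_EH_mul ha1 hb1, ⟨n1 * n2, b' * a', ?_, G16_EH_mul hb' ha', ?_⟩, ?_⟩
  · rw [Nat.cast_mul]; exact mul_ne_zero hn1 hn2
  · have h1 : b' * a' * (a * b) = b' * (a' * a) * b := by
      simp only [mul_assoc]
    rw [h1, haa, mul_smul_comm, mul_one, smul_mul_assoc, hbb, ← mul_smul]
  · have h1 : (act (a * b) : (ρ → J) → (ρ → J)) = fun x => act a (act b x) := by
      funext x
      exact act_mul' a b x
    have h2 : ℓ ^ (2 * (m + n)) = ℓ ^ (2 * m) * ℓ ^ (2 * n) := by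
      rw [← pow_add]; congr 1; ring
    rw [h1, h2]
    exact QL_comp (fun x => act a x) (fun x => act b x) _ _ ha3 hb3
      (fun x hx => act_gn b b' n2 hn2 hb1 hb' hbb x hx) (fun σ _ x => act_smul b hb1 σ x)

/-- `QL_cancel` for `x ↦ ℓ^m x`, which has the multiplier `ℓ^{2m}` (`hdbl`), and `g = act a`; the quasi-inverse of
`a` is `ℓ^m • a'`. -/
theorem S_div (hdbl : ∀ m : ℕ, H.QL (fun x => ℓ ^ m • x) ((ℓ ^ m) ^ 2)) (m : ℕ)
    (a : Matrix ρ ρ (AddMonoid.End J)) (ha : EH U.Hon a) (h : H.S m (ℓ ^ m • a)) : H.S 0 a := by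
  obtain ⟨h1, ⟨n, a', hn, ha', haa⟩, h3⟩ := h
  have hl : 0 < ℓ := (Fact.out : ℓ.Prime).pos
  have haa2 : (ℓ ^ m • a') * a = n • 1 := by
    rw [← haa, smul_mul_assoc, mul_smul_comm]
  have ha2 : EH U.Hon (ℓ ^ m • a') := G16_EH_nsmul ha' _
  refine ⟨ha, ⟨n, ℓ ^ m • a', hn, ha2, haa2⟩, ?_⟩
  have h4 : (act (ℓ ^ m • a) : (ρ → J) → (ρ → J)) = fun x => ℓ ^ m • act a x := by
    funext x
    exact G16_act_nsmul _ a x
  have h5 : ℓ ^ (2 * m) = (ℓ ^ m) ^ 2 * ℓ ^ (2 * 0) := by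
    rw [mul_zero, pow_zero, mul_one, ← pow_mul, mul_comm]
  rw [h4, h5] at h3
  exact QL_cancel (fun x => ℓ ^ m • x) (fun x => act a x) ((ℓ ^ m) ^ 2) (ℓ ^ (2 * 0))
    (pow_pos (pow_pos hl m) 2) (hdbl m) h3
    (fun x hx => act_gn a _ n hn ha ha2 haa2 x hx) (fun σ _ x => act_smul a ha σ x)

end TIFG
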