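import Mathlib
import Pool.Agent.TIFG.G16

/-!
# [TIF] block PIG, group part, row G17

`A = ρ → J`, `x ∈ A(K)` means `∀ i, x i ∈ U.Rt K`; 'generic' = `U.Gn (kb k Ω)`; `V(·)` = `V.valuation`;
`A_V(x) = V(s x) Th(x)^{ℓ^{2c}}`.
-/

set_option autoImplicit false
set_option linter.unusedSectionVars false
set_option linter.unusedVariables false

open IntermediateField Pool.Agent.TIFA

namespace TIFG

variable {k Ω J : Type} [Field k] [Field Ω] [Algebra k Ω] [IsAlgClosed Ω] [AddCommGroup J]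
  [DistribMulAction (Ω ≃ₐ[k] Ω) J] {ρ : Type} [Fintype ρ] [DecidableEq ρ]
  {U : Uni k Ω J ρ} {ℓ : ℕ} [Fact ℓ.Prime] {e : ℕ → J → J → Ω} {H : Tht U ℓ e}

/-- the inequalities of `Bdd_of_S` in the value group -/
theorem G17_alg {Γ : Type*} [LinearOrderedCommGroupWithZero Γ] (Y T0 T0' Tx R C TX SX : Γ)
    (t q m : ℕ) (hR : R ≠ 0) (hC : C ≠ 0) (hS : SX ≠ 0)
    (h1 : (T0 * T0') ^ t = R * Tx ^ t) (h2 : T0' ≤ 1) (h3 : C * T0 ^ q = TX ^ q)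
    (h4 : Y * (SX * TX) ^ m ≤ 1) (h5 : SX * TX ≤ 1) :
    Y ^ (t * q) * Tx ^ (m * (t * q)) ≤ (SX ^ (m * (t * q)) * R ^ (m * q) * C ^ (m * t))⁻¹ ∧
      Tx ^ (m * (t * q)) ≤ (SX ^ (m * (t * q)) * R ^ (m * q) * C ^ (m * t))⁻¹ := by
  have key : Tx ^ (m * (t * q)) * (R ^ (m * q) * C ^ (m * t)) ≤ TX ^ (m * (t * q)) := by
    have h6 : R ^ q * Tx ^ (t * q) ≤ T0 ^ (t * q) := by
      have h7 : (R * Tx ^ t) ^ q ≤ T0 ^ (t * q) := by
        rw [← h1, ← pow_mul]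
        exact pow_le_pow_left' (by simpa using mul_le_mul' (le_refl T0) h2) _
      rwa [mul_pow, ← pow_mul] at h7
    have h8 : C ^ t * T0 ^ (t * q) = TX ^ (t * q) := by
      have h9 : (C * T0 ^ q) ^ t = (TX ^ q) ^ t := by rw [h3]
      rwa [mul_pow, ← pow_mul, ← pow_mul, mul_comm q t] at h9
    have h10 : Tx ^ (t * q) * (R ^ q * C ^ t) ≤ TX ^ (t * q) := by
      rw [← h8]
      calc Tx ^ (t * q) * (R ^ q * C ^ t) = C ^ t * (R ^ q * Tx ^ (t * q)) := by ac_rfl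
        _ ≤ C ^ t * T0 ^ (t * q) := mul_le_mul' le_rfl h6
    have h11 := pow_le_pow_left' h10 m
    rw [mul_pow, mul_pow, ← pow_mul, ← pow_mul, ← pow_mul, ← pow_mul] at h11
    rw [mul_comm m (t * q), mul_comm m q, mul_comm m t]
    exact h11
  have hW : SX ^ (m * (t * q)) * R ^ (m * q) * C ^ (m * t) ≠ 0 :=
    mul_ne_zero (mul_ne_zero (pow_ne_zero _ hS) (pow_ne_zero _ hR)) (pow_ne_zero _ hC)
  have hinv : ∀ z : Γ, z * (SX ^ (m * (t * q)) * R ^ (m * q) * C ^ (m * t)) ≤ 1 →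
      z ≤ (SX ^ (m * (t * q)) * R ^ (m * q) * C ^ (m * t))⁻¹ := by
    intro z hz
    calc z = z * (SX ^ (m * (t * q)) * R ^ (m * q) * C ^ (m * t)) *
          (SX ^ (m * (t * q)) * R ^ (m * q) * C ^ (m * t))⁻¹ := by
            rw [mul_inv_cancel_right₀ hW]
      _ ≤ 1 * (SX ^ (m * (t * q)) * R ^ (m * q) * C ^ (m * t))⁻¹ := mul_le_mul' hz le_rfl
      _ = _ := one_mul _
  constructor
  · apply hinv
    calc Y ^ (t * q) * Tx ^ (m * (t * q)) * (SX ^ (m * (t * q)) * R ^ (m * q) * C ^ (m * t))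
        = Y ^ (t * q) * SX ^ (m * (t * q)) *
            (Tx ^ (m * (t * q)) * (R ^ (m * q) * C ^ (m * t))) := by ac_rfl
      _ ≤ Y ^ (t * q) * SX ^ (m * (t * q)) * TX ^ (m * (t * q)) := mul_le_mul' le_rfl key
      _ = (Y * (SX * TX) ^ m) ^ (t * q) := by
          rw [mul_pow, ← pow_mul, mul_pow, mul_assoc]
      _ ≤ 1 := pow_le_one' h4 _
  · apply hinv
    calc Tx ^ (m * (t * q)) * (SX ^ (m * (t * q)) * R ^ (m * q) * C ^ (m * t))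
        = SX ^ (m * (t * q)) * (Tx ^ (m * (t * q)) * (R ^ (m * q) * C ^ (m * t))) := by ac_rfl
      _ ≤ SX ^ (m * (t * q)) * TX ^ (m * (t * q)) := mul_le_mul' le_rfl key
      _ = (SX * TX) ^ (m * (t * q)) := by rw [mul_pow]
      _ ≤ 1 := pow_le_one' h5 _

/-- the functions `y_j ∘ a` are bounded. `x ↦ a x` preserves generic points (`act_gn`). Let
`ThS(a x)^t = V(r x) ThS(x)^t`, `ℓ^n c₀ = 0`, `X := a x + c₀`. By `th_le`, `cc_val`: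
`ThS(x)^{tℓ^n} ≤ V(r x)^{-ℓ^n} Th(a x)^{tℓ^n} = V(r x)^{-ℓ^n} V(cc n c₀ (a x))^{-t} Th(X)^{tℓ^n}`, and
`V(y_j(a x)) ≤ (V(s X) Th(X))^{-m₀}` (`LD.val`, `c = 0`), `Th(X) ≤ V(s X)^{-1}` (`LD.val1`). So both
inequalities of `Bdd` hold with `t' = tℓ^n` and
`r'(x) = (s(X)^{m₀tℓ^n} r(x)^{m₀ℓ^n} cc n c₀ (a x)^{m₀t})^{-1}`. -/
theorem Bdd_of_S (L : Lag ℓ (Ω ≃ₐ[k] Ω) ρ e) (hL : L.c = 0) (m₀ D N₀ e₀ : ℕ)
    (y : Fin D → (ρ → J) → Ω) (s : (ρ → J) → Ω) (c₀ : ρ → J) (hy : LD H L m₀ D N₀ e₀ y s c₀)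
    (a : Matrix ρ ρ (AddMonoid.End J)) (ha : H.S 0 a) (j : Fin D) :
    H.Bdd m₀ (fun x => y j (act a x)) := by
  obtain ⟨haE, ⟨n₁, a', hn₁, haE', haa⟩, t, r, ht, hr, hth⟩ := ha
  obtain ⟨n, hn⟩ := hy.c_tors
  have hgn : ∀ x, U.Gn (kb k Ω) x → U.Gn (kb k Ω) (act a x) := fun x hx =>
    act_gn a a' n₁ hn₁ haE haE' haa x hx
  have hgX : ∀ x, U.Gn (kb k Ω) x → U.Gn (kb k Ω) (act a x + c₀) := fun x hx =>
    gn_tors H hn (hgn x hx)
  have hcc := H.cc_fn n c₀ hn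
  refine ⟨t * ℓ ^ n, fun x => (s (act a x + c₀) ^ (m₀ * (t * ℓ ^ n)) * r x ^ (m₀ * ℓ ^ n) *
    H.cc n c₀ (act a x) ^ (m₀ * t))⁻¹, Nat.mul_pos ht (pow_pos (Fact.out : ℓ.Prime).pos _), ?_, ?_⟩
  · constructor
    · intro x hx
      exact inv_ne_zero (mul_ne_zero (mul_ne_zero (pow_ne_zero _ (hy.s_fn.ne _ (hgX x hx)))
        (pow_ne_zero _ (hr.ne x hx))) (pow_ne_zero _ (hcc.ne _ (hgn x hx))))
    · intro σ hσ x hx
      have e1 : act a (σ • x) = σ • act a x := act_smul a haE σ x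
      have e2 : act a (σ • x) + c₀ = σ • (act a x + c₀) := by
        rw [e1, smul_add, fix_tors H hn σ hσ]
      change (s (act a (σ • x) + c₀) ^ (m₀ * (t * ℓ ^ n)) * r (σ • x) ^ (m₀ * ℓ ^ n) *
        H.cc n c₀ (act a (σ • x)) ^ (m₀ * t))⁻¹ = _
      rw [e2, e1, hy.s_fn.equ σ hσ _ (hgX x hx), hr.equ σ hσ x hx, hcc.equ σ hσ _ (hgn x hx)]
      simp only [map_inv₀, map_mul, map_pow]
  · intro V hV x hx
    have h1 := hth V hV x hx
    have h3 := H.cc_val n c₀ hn V hV (act a x) (hgn x hx)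
    have h4 := (hy.val V hV (act a x) (hgn x hx)).1 j
    have h5 := hy.val1 V hV (act a x + c₀) (hgX x hx)
    rw [hL, Nat.mul_zero, pow_zero, pow_one] at h4 h5
    rw [Nat.mul_zero, pow_zero, Nat.one_mul] at h1
    have key := G17_alg (V.valuation (y j (act a x))) (H.Th V (act a x)) (H.Th V (-act a x))
      (H.ThS V x) (V.valuation (r x)) (V.valuation (H.cc n c₀ (act a x)))
      (H.Th V (act a x + c₀)) (V.valuation (s (act a x + c₀))) t (ℓ ^ n) m₀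
      ((Valuation.ne_zero_iff _).2 (hr.ne x hx)) ((Valuation.ne_zero_iff _).2 (hcc.ne _ (hgn x hx)))
      ((Valuation.ne_zero_iff _).2 (hy.s_fn.ne _ (hgX x hx))) h1 (H.th_le V hV _) h3 h4 h5
    simp only [map_inv₀, map_mul, map_pow]
    exact key

end TIFG
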