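import Mathlib
import Pool.Agent.TIFG.G17

/-!
# [TIF] block PIG, group part, row G18

`A = ρ → J`, `x ∈ A(K)` means `∀ i, x i ∈ U.Rt K`; 'generic' = `U.Gn (kb k Ω)`; `V(·)` = `V.valuation`;
`A_V(x) = V(s x) Th(x)^{ℓ^{2c}}`.
-/

set_option autoImplicit false
set_option linter.unusedSectionVars false
set_option linter.unusedVariables false

open IntermediateField Pool.Agent.TIFA

namespace TIFG

variable {k Ω J : Type} [Field k] [Field Ω] [Algebra k Ω] [IsAlgClosed Ω] [AddCommGroup J]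
  [DistribMulAction (Ω ≃ₐ[k] Ω) J] {ρ : Type} [Fintype ρ] [DecidableEq ρ]
  {U : Uni k Ω J ρ} {ℓ : ℕ} [Fact ℓ.Prime] {e : ℕ → J → J → Ω} {H : Tht U ℓ e}

/-- the pairing on the trivial group is trivial -/
theorem G18_eA (H : Tht U ℓ e) : eA e 0 (0 : ρ → J) 0 = 1 := by
  obtain ⟨x, hx⟩ := U.gn_ex (kb k Ω) small_kb
  have h := H.cc_com 0 0 0 (smul_zero _) (smul_zero _) x hx
  have h1 : H.cc 0 0 x ≠ 0 := (H.cc_fn 0 0 (smul_zero _)).ne x hx
  rw [add_zero] at h
  have h2 : eA e 0 (0 : ρ → J) 0 ^ H.sg = 1 := by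
    have h3 : (H.cc 0 0 x * H.cc 0 0 x) ≠ 0 := mul_ne_zero h1 h1
    exact mul_right_cancel₀ h3 (by rw [one_mul]; exact h.symm)
  rcases H.sg_eq with h3 | h3
  · rw [h3, zpow_one] at h2
    exact h2
  · rw [h3, zpow_neg_one, inv_eq_one] at h2
    exact h2

/-- the trivial Lagrangian subgroup -/
def G18_L0 (H : Tht U ℓ e) : Lag ℓ (Ω ≃ₐ[k] Ω) ρ e where
  D := ⊥
  c := 0
  stable := by
    intro σ x hx
    rw [AddSubgroup.mem_bot] at hx ⊢
    subst hx
    funext r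
    exact smul_zero σ
  lag := by
    intro x
    rw [AddSubgroup.mem_bot]
    constructor
    · rintro rfl
      refine ⟨smul_zero _, fun y hy => ?_⟩
      rw [AddSubgroup.mem_bot] at hy
      subst hy
      exact G18_eA H
    · rintro ⟨h, -⟩
      simpa using h

/-- DISC. `L₀ : Lag` with `D = ⊥`, `c = 0` (`eA e 0 0 0 = 1` by `cc_com` for `n = 0`, `b = b' = 0`). With its
functions `y`: for `a` with `S 0 a` the functions `y_j ∘ act a` satisfy the hypotheses of `Nor` (`act_smul`,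
`act_rt`, `act_gn`, `Bdd_of_S`), so they coincide on generic points with elements of a finite set `F`. If `a`
and `b` give the same elements then `y_j(a x) = y_j(b x)` for all generic `x`, `a x = b x` (`LD.sep`), for all
`x` by `ex_add`, and `a = b` (`act_inj`). -/
theorem disc_of_LD (m₀ D N₀ e₀ : ℕ) (hNor : H.Nor)
    (hLD : ∀ L : Lag ℓ (Ω ≃ₐ[k] Ω) ρ e, ∃ y s c₀, LD H L m₀ D N₀ e₀ y s c₀) :
    {a | H.S 0 a}.Finite := by
  classical
  obtain ⟨y, s, c₀, hy⟩ := hLD (G18_L0 H)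
  obtain ⟨F, hF⟩ := hNor m₀
  have key : ∀ a : {a | H.S 0 a}, ∀ j : Fin D, ∃ g ∈ F, ∀ x, U.Gn (kb k Ω) x →
      y j (act a.1 x) = g x := by
    rintro ⟨a, ha⟩ j
    obtain ⟨h1, ⟨n, a', hn, h2, h3⟩, -⟩ := id ha
    refine hF (fun x => y j (act a x)) ?_ ?_ (Bdd_of_S (G18_L0 H) rfl m₀ D N₀ e₀ y s c₀ hy a ha j)
    · intro x hx σ
      rw [act_smul a h1 σ x]
      exact hy.equ j _ (act_gn a a' n hn h1 h2 h3 x hx) σ
    · intro K x hx hxK
      exact hy.hon j K _ (act_gn a a' n hn h1 h2 h3 x hx) (act_rt a h1 K x hxK)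
  choose g hgF hg using key
  let Φ : {a | H.S 0 a} → (Fin D → {z // z ∈ F}) := fun a j => ⟨g a j, hgF a j⟩
  have hΦ : Function.Injective Φ := by
    rintro ⟨a, ha⟩ ⟨b, hb⟩ h
    refine Subtype.ext ?_
    obtain ⟨h1, ⟨n, a', hn, h2, h3⟩, -⟩ := id ha
    obtain ⟨k1, ⟨n', b', hn', k2, k3⟩, -⟩ := id hb
    have hgen : ∀ x, U.Gn (kb k Ω) x → act a x = act b x := by
      intro x hx
      have h4 : ∀ j, y j (act a x) = y j (act b x) := by
        intro j
        have h5 := congrArg Subtype.val (congrFun h j)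
        have h6 : g ⟨a, ha⟩ j = g ⟨b, hb⟩ j := h5
        rw [hg ⟨a, ha⟩ j x hx, h6, ← hg ⟨b, hb⟩ j x hx]
      have h7 := hy.sep (act a x) (act b x) (act_gn a a' n hn h1 h2 h3 x hx)
        (act_gn b b' n' hn' k1 k2 k3 x hx) h4
      have h8 : act b x - act a x = 0 := h7
      exact (sub_eq_zero.1 h8).symm
    refine act_inj fun x => ?_
    obtain ⟨u, hu, hxu⟩ := ex_add U x (kb k Ω) small_kb
    have h4 := hgen _ hu
    have h5 := hgen _ hxu
    rw [map_add, map_add, h4] at h5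
    exact add_right_cancel h5
  exact Set.finite_coe_iff.1 (Finite.of_injective Φ hΦ)

end TIFG
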