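import Mathlib
import Pool.Agent.TIFG.G18

/-!
# [TIF] block PIG, group part, row G19

`A = ρ → J`, `x ∈ A(K)` means `∀ i, x i ∈ U.Rt K`; 'generic' = `U.Gn (kb k Ω)`; `V(·)` = `V.valuation`;
`A_V(x) = V(s x) Th(x)^{ℓ^{2c}}`.
-/

set_option autoImplicit false
set_option linter.unusedSectionVars false
set_option linter.unusedVariables false

open IntermediateField Pool.Agent.TIFA

namespace TIFG

variable {k Ω J : Type} [Field k] [Field Ω] [Algebra k Ω] [IsAlgClosed Ω] [AddCommGroup J]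
  [DistribMulAction (Ω ≃ₐ[k] Ω) J] {ρ : Type} [Fintype ρ] [DecidableEq ρ]
  {U : Uni k Ω J ρ} {ℓ : ℕ} [Fact ℓ.Prime] {e : ℕ → J → J → Ω} {H : Tht U ℓ e}

/-- FIN. Fix `w` generic, `K ∋ w` small (`kb ≤ K`), `w'` generic over `K`. For each `L` choose `y, s, c₀`; the
kernel of `aeval (trip y w w')` is in the finite set `TIFP.finite_ker_hilb k (3 * D) e₀ N₀` (`LD.hil`). By the
pigeonhole principle two indices `i < j` have the same kernel: `Pr_of_ker`, `Lk_of_Pr`. -/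
theorem fin_of_LD [Finite k] (m₀ D N₀ e₀ : ℕ) (hm : 0 < m₀)
    (hfin : ∀ n, {x : J | ℓ ^ n • x = 0}.Finite)
    (hdbl : ∀ m : ℕ, H.QL (fun x => ℓ ^ m • x) ((ℓ ^ m) ^ 2))
    (hcomp : ∀ m n x y, ℓ ^ n • x = 0 → ℓ ^ (m + n) • y = 0 →
      e (m + n) x y = e n x (ℓ ^ m • y))
    (hLD : ∀ L : Lag ℓ (Ω ≃ₐ[k] Ω) ρ e, ∃ y s c₀, LD H L m₀ D N₀ e₀ y s c₀) :
    ∃ N : ℕ, ∀ f : Fin (N + 1) → Lag ℓ (Ω ≃ₐ[k] Ω) ρ e, ∃ i j, i < j ∧ Lk H.S (f i) (f j) := by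
  classical
  obtain ⟨w, hw⟩ := U.gn_ex (kb k Ω) small_kb
  obtain ⟨K, hK, hb, hwK⟩ := ex_small U (fun _ : Unit => w)
  obtain ⟨w', hw'⟩ := U.gn_ex K hK
  choose y s c₀ hy using hLD
  have hTfin := Pool.Agent.TIFP.finite_ker_hilb.{0, 0} k (3 * D) e₀ N₀
  let g : Lag ℓ (Ω ≃ₐ[k] Ω) ρ e → Ideal (MvPolynomial (Fin (3 * D)) k) := fun L =>
    RingHom.ker (MvPolynomial.aeval (R := k) (trip (y L) w w'))
  have hg : ∀ L, g L ∈ hTfin.toFinset := by
    intro L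
    rw [Set.Finite.mem_toFinset]
    have h := (hy L).hil K w w' hb hw (hwK ()) hw'
    exact ⟨Ω, inferInstance, inferInstance, trip (y L) w w', h.1, h.2, rfl⟩
  refine ⟨hTfin.toFinset.card, fun f => ?_⟩
  obtain ⟨i, -, j, -, hij, h⟩ := Finset.exists_ne_map_eq_of_card_lt_of_maps_to
    (s := (Finset.univ : Finset (Fin (hTfin.toFinset.card + 1)))) (t := hTfin.toFinset)
    (f := fun i => g (f i)) (by rw [Finset.card_univ, Fintype.card_fin]; omega)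
    (fun i _ => hg (f i))
  have key : ∀ i j : Fin (hTfin.toFinset.card + 1), g (f i) = g (f j) →
      Lk H.S (f i) (f j) := by
    intro i j h
    exact Lk_of_Pr hm hfin hdbl hcomp (hy (f i)) (hy (f j))
      (Pr_of_ker (hy (f i)) (hy (f j)) K hK hb w w' hw (hwK ()) hw' h)
  rcases lt_or_gt_of_ne hij with h1 | h1
  · exact ⟨i, j, h1, key i j h⟩
  · exact ⟨j, i, h1, key j i h.symm⟩

end TIFG
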