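import Mathlib
import Pool.Agent.TIFG.G19
import Pool.Agent.TIF.EndADefs

/-!
# [TIF] block PIG: `PigOut` from the group part
-/

set_option autoImplicit false
set_option linter.unusedSectionVars false
set_option linter.unusedVariables false

open IntermediateField Pool.Agent.TIFA GT TIF

namespace TIFG

variable {k Ω : Type} [Field k] [Field Ω] [Algebra k Ω] [IsAlgClosed Ω] {d : ℕ} [NeZero d]
  {T : Tab Ω d} [IsDedekindDomain (WB T)]

/-- the honest endomorphisms of `Uni` are the honest endomorphisms of the Jacobian -/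
theorem mem_hon_iff (hT : Tk k T) (U : Uni k Ω (JJ hT) (Fin 8))
    (hU : ∀ (K : IntermediateField k Ω) (x : JJ hT), x ∈ U.Rt K ↔ ofJ x ∈ JK (T := T) (K : Set Ω))
    (f : AddMonoid.End (JJ hT)) : f ∈ U.Hon ↔ HonA k hT (toV f) := by
  constructor
  · rintro ⟨h1, h2⟩
    exact ⟨fun σ D => h1 σ (toJ hT D), fun K D hD => (hU K _).1 (h2 K (toJ hT D) ((hU K _).2 hD))⟩
  · rintro ⟨h1, h2⟩
    exact ⟨fun σ x => h1 σ (ofJ x), fun K x hx => (hU K _).2 (h2 K (ofJ x) ((hU K _).1 hx))⟩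

/-- **PIG**: `PigOut` from the rational elements and generic points `U`, the theta functions `H`, the
functions of the quotients (`hLD`), Northcott (`hNor`), the cube (`hdbl`) and the pairing (`hcomp`). -/
theorem pigOut_of [Finite k] (hT : Tk k T) (ℓ : ℕ) [Fact ℓ.Prime]
    (e : ℕ → ClassGroup (WB T) → ClassGroup (WB T) → Ω) (U : Uni k Ω (JJ hT) (Fin 8))
    (hU : ∀ (K : IntermediateField k Ω) (x : JJ hT), x ∈ U.Rt K ↔ ofJ x ∈ JK (T := T) (K : Set Ω))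
    (H : Tht U ℓ (eJ hT ℓ e)) (m₀ D N₀ e₀ : ℕ) (hm : 0 < m₀)
    (hfin : ∀ n, {x : JJ hT | ℓ ^ n • x = 0}.Finite)
    (hdbl : ∀ m : ℕ, H.QL (fun x => ℓ ^ m • x) ((ℓ ^ m) ^ 2))
    (hcomp : ∀ m n x y, ℓ ^ n • x = 0 → ℓ ^ (m + n) • y = 0 →
      eJ hT ℓ e (m + n) x y = eJ hT ℓ e n x (ℓ ^ m • y))
    (hNor : H.Nor)
    (hLD : ∀ L : Lag ℓ (Ω ≃ₐ[k] Ω) (Fin 8) (eJ hT ℓ e), ∃ y s c₀, LD H L m₀ D N₀ e₀ y s c₀) :
    PigOut k hT ℓ e := by
  refine ⟨H.S, fun m a ha r s => ?_, S_one H, fun m n a b ha hb => S_mul m n a b ha hb,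
    fun m a ha h => S_div hdbl m a (fun r s => ?_) h, disc_of_LD m₀ D N₀ e₀ hNor hLD,
    fin_of_LD m₀ D N₀ e₀ hm hfin hdbl hcomp hLD⟩
  · exact (mem_hon_iff hT U hU _).1 (ha.1 r s)
  · exact (mem_hon_iff hT U hU _).2 (ha r s)

end TIFG
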