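import Mathlib
import Pool.Agent.TIFG.Spi
import Pool.Agent.TIFG.L13b
import Pool.Agent.TIFG.Dua
import Pool.Agent.TIFG.Fro
import Pool.Agent.TIFG.Thi
import Pool.Agent.TIFG.Dbl
import Pool.Agent.TIFG.Top
import Pool.Agent.TIFG.NG

/-!
# [TIF] block PIG: `PigOut`
-/

set_option autoImplicit false
set_option linter.unusedSectionVars false

open IntermediateField Pool.Agent.TIFA GT TIF

namespace TIFG

variable {k Ω : Type} [Field k] [Field Ω] [Algebra k Ω] [IsAlgClosed Ω] {d : ℕ} [NeZero d]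
  {T : Tab Ω d} [IsDedekindDomain (WB T)]

/-- the torsion points are rational over the algebraic closure of `k` -/
theorem htors_all (hT : Tk k T) : ∀ n : ℕ, (n : k) ≠ 0 → ∀ D : ClassGroup (WB T), D ^ n = 1 →
    D ∈ JK (T := T) (TIF.kb k Ω) := fun _ hn _ hD => Pool.Agent.TIFS.tors_JK hT hn hD

/-- **PIG** -/
theorem pigOut [Finite k] (hU : Univ k Ω) (hT : Tk k T) (ℓ : ℕ) [Fact ℓ.Prime]
    (hℓ : (ℓ : k) ≠ 0) :
    PigOut k hT ℓ Pool.Agent.TIFS.e := by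
  have hℓΩ : (ℓ : Ω) ≠ 0 := by
    rw [← map_natCast (algebraMap k Ω)]
    exact (map_ne_zero _).2 hℓ
  have hGn : ∀ x : Fin 8 → JJ hT, (uni hU hT (htors_all hT)).Gn (TIFG.kb k Ω) x ↔
      Pool.Agent.TIFT.GenA (Pool.Agent.TIFT.kbF k Ω) (mx x) := fun x => Iff.rfl
  obtain ⟨H, hTh, hcc⟩ := exists_tht hU hT ℓ hℓ (fun n D hD => htors_all hT (ℓ ^ n)
    (by rw [Nat.cast_pow]; exact pow_ne_zero n hℓ) D hD) (uni (ρ := Fin 8) hU hT (htors_all hT)) hGn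
  obtain ⟨E⟩ := exists_spc hU hT (htors_all hT) H hℓ hTh hcc
  obtain ⟨Fr⟩ := exists_fro (ρ := Fin 8) hU hT ℓ hℓ (Pool.Agent.TIFS.cl_dvd hℓΩ) (htors_all hT)
  have Du := dua (ρ := Fin 8) hT ℓ hℓ
  obtain ⟨m₀, D, N₀, e₀, hm, hLD⟩ := exists_LD E (NeZero.pos d) Fr Du
  exact pigOut_of hT ℓ Pool.Agent.TIFS.e _ (fun K x => Iff.rfl) H m₀ D N₀ e₀ hm Du.fin
    (fun m => ql_nsmul _ H hTh hU hGn (ℓ ^ m) (by rw [Nat.cast_pow]; exact pow_ne_zero m hℓ))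
    Du.hcomp (nor hU hT (htors_all hT) E (NeZero.pos d)) hLD

end TIFG
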