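import Mathlib
import Pool.Agent.TIFG.Pig
import Pool.Agent.TIF.EndA
import Pool.Agent.TIFP.HonOut

/-!
# [TIF]: Tate's isogeny theorem over finite fields
-/

set_option autoImplicit false
set_option linter.unusedSectionVars false

open IntermediateField Pool.Agent.TIFA GT TIF

namespace TIFG

theorem endAInput : EndAInput := by
  intro k Ω _ _ _ _ _ hU d _ T _ hT ℓ _ hℓ
  have hℓΩ : (ℓ : Ω) ≠ 0 := by
    rw [← map_natCast (algebraMap k Ω)]
    exact (map_ne_zero _).2 hℓ
  obtain ⟨p, hp⟩ := ExpChar.exists k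
  have hcop : Nat.Coprime p ℓ := by
    rcases hp with _ | hp'
    · exact Nat.coprime_one_left ℓ
    · rw [Nat.coprime_primes hp' (Fact.out : ℓ.Prime)]
      rintro rfl
      exact hℓ (CharP.cast_eq_zero k p)
  exact ⟨Pool.Agent.TIFS.e, Pool.Agent.TIFS.torsOut hT ℓ hℓ,
    Pool.Agent.TIFP.honOut hT p ℓ hcop (Pool.Agent.TIFS.cl_dvd hℓΩ), pigOut hU hT ℓ hℓ⟩

/-- **Tate's isogeny theorem over finite fields.** -/
theorem tateStmt : TIF.TateStmt := TIF.tateStmt_of endAInput

end TIFG
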